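import Pool.Agent.Helper501.Haus.Defs


namespace Pool.Agent.Helper501.Haus

open Equiv

variable {X : Type}

/-- Words of length `n`; the last letter is the second component. -/
def Wd (X : Type) : ℕ → Type
  | 0 => Unit
  | n + 1 => Wd X n × X

instance fintypeWd [Fintype X] : (n : ℕ) → Fintype (Wd X n)
  | 0 => inferInstanceAs (Fintype Unit)
  | n + 1 =>
      letI := fintypeWd n
      inferInstanceAs (Fintype (Wd X n × X))

instance decEqWd [DecidableEq X] : (n : ℕ) → DecidableEq (Wd X n)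
  | 0 => inferInstanceAs (DecidableEq Unit)
  | n + 1 =>
      letI := decEqWd n
      inferInstanceAs (DecidableEq (Wd X n × X))

theorem card_Wd [Fintype X] (n : ℕ) : Fintype.card (Wd X n) = Fintype.card X ^ n := by
  induction n with
  | zero => exact Fintype.card_unit
  | succ n ih =>
    rw [pow_succ, ← ih, ← Fintype.card_prod]
    rfl

/-- Append a last letter. -/
def sn {n : ℕ} (w : Wd X n) (x : X) : Wd X (n + 1) := (w, x)
/-- All but the last letter. -/
def ini {n : ℕ} (q : Wd X (n + 1)) : Wd X n := Prod.fst q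
/-- The last letter. -/
def lst {n : ℕ} (q : Wd X (n + 1)) : X := Prod.snd q

@[simp] theorem ini_sn {n : ℕ} (w : Wd X n) (x : X) : ini (sn w x) = w := rfl
@[simp] theorem lst_sn {n : ℕ} (w : Wd X n) (x : X) : lst (sn w x) = x := rfl
theorem sn_ini_lst {n : ℕ} (q : Wd X (n + 1)) : sn (ini q) (lst q) = q := rfl
theorem sn_inj {n : ℕ} {w v : Wd X n} {x y : X} : sn w x = sn v y ↔ w = v ∧ x = y :=
  ⟨fun h => ⟨congrArg ini h, congrArg lst h⟩, fun h => by rw [h.1, h.2]⟩

theorem exists_sn {n : ℕ} (q : Wd X (n + 1)) : ∃ w x, q = sn w x := ⟨ini q, lst q, rfl⟩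

/-- Splitting off the last letter. -/
def snE (X : Type) (n : ℕ) : Wd X n × X ≃ Wd X (n + 1) where
  toFun p := sn p.1 p.2
  invFun q := (ini q, lst q)
  left_inv _ := rfl
  right_inv _ := rfl

theorem sum_sn [Fintype X] {A : Type} [AddCommMonoid A] {n : ℕ} (F : Wd X (n + 1) → A) :
    ∑ q, F q = ∑ w, ∑ x, F (sn w x) := by
  rw [← (snE X n).sum_comp F, Fintype.sum_prod_type]; rfl

theorem wd_zero_eq (v w : Wd X 0) : v = w := rfl

/-- Put a letter in front. -/
def cons (x : X) : (n : ℕ) → Wd X n → Wd X (n + 1)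
  | 0, _ => sn (() : Wd X 0) x
  | n + 1, q => sn (cons x n (ini q)) (lst q)

theorem cons_sn (x : X) (n : ℕ) (w : Wd X n) (y : X) :
    cons x (n + 1) (sn w y) = sn (cons x n w) y := rfl

/-- A tree automorphism given by its labels. -/
@[ext] structure Portrait (X : Type) where
  lab : (n : ℕ) → Wd X n → Perm X

/-- Action on words of length `n`. -/
def lev (a : Portrait X) : (n : ℕ) → Perm (Wd X n)
  | 0 => Equiv.refl _
  | n + 1 =>
    { toFun := fun p => sn (lev a n (ini p)) (a.lab n (ini p) (lst p))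
      invFun := fun p => sn ((lev a n).symm (ini p)) ((a.lab n ((lev a n).symm (ini p))).symm (lst p))
      left_inv := by
        intro p
        obtain ⟨w, x, rfl⟩ := exists_sn p
        simp
      right_inv := by
        intro p
        obtain ⟨w, x, rfl⟩ := exists_sn p
        simp }

theorem lev_succ (a : Portrait X) (n : ℕ) (w : Wd X n) (x : X) :
    lev a (n + 1) (sn w x) = sn (lev a n w) (a.lab n w x) := rfl

theorem ini_lev (a : Portrait X) (n : ℕ) (q : Wd X (n + 1)) :
    ini (lev a (n + 1) q) = lev a n (ini q) := rfl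

instance : Mul (Portrait X) := ⟨fun a b => ⟨fun n w => a.lab n (lev b n w) * b.lab n w⟩⟩
instance : One (Portrait X) := ⟨⟨fun _ _ => 1⟩⟩
instance : Inv (Portrait X) := ⟨fun a => ⟨fun n w => (a.lab n ((lev a n).symm w))⁻¹⟩⟩

theorem mul_lab (a b : Portrait X) (n : ℕ) (w : Wd X n) :
    (a * b).lab n w = a.lab n (lev b n w) * b.lab n w := rfl
theorem one_lab (n : ℕ) (w : Wd X n) : (1 : Portrait X).lab n w = 1 := rfl
theorem inv_lab (a : Portrait X) (n : ℕ) (w : Wd X n) :
    (a⁻¹).lab n w = (a.lab n ((lev a n).symm w))⁻¹ := rfl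

theorem lev_mul (a b : Portrait X) (n : ℕ) : lev (a * b) n = lev a n * lev b n := by
  induction n with
  | zero => rfl
  | succ n ih =>
    ext1 q
    obtain ⟨w, x, rfl⟩ := exists_sn q
    rw [lev_succ, ih, Perm.mul_apply, Perm.mul_apply, lev_succ, lev_succ, mul_lab, Perm.mul_apply]

theorem lev_one (n : ℕ) : lev (1 : Portrait X) n = 1 := by
  induction n with
  | zero => rfl
  | succ n ih =>
    ext1 q
    obtain ⟨w, x, rfl⟩ := exists_sn q
    rw [lev_succ, ih, one_lab]; rfl

instance : Group (Portrait X) where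
  mul_assoc a b c := by
    ext n w x
    simp only [mul_lab, lev_mul, Perm.mul_apply]
  one_mul a := by
    ext n w x
    simp only [mul_lab, one_lab, one_mul]
  mul_one a := by
    ext n w x
    simp only [mul_lab, one_lab, lev_one, Perm.one_apply, mul_one]
  inv_mul_cancel a := by
    ext n w x
    simp only [mul_lab, inv_lab, one_lab, Equiv.symm_apply_apply, inv_mul_cancel]

theorem lev_inv (a : Portrait X) (n : ℕ) : lev a⁻¹ n = (lev a n)⁻¹ := by
  have : lev a⁻¹ n * lev a n = 1 := by rw [← lev_mul, inv_mul_cancel, lev_one]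
  exact eq_inv_of_mul_eq_one_left this

/-- The action on words of length `n` as a homomorphism. -/
def levHom (X : Type) (n : ℕ) : Portrait X →* Perm (Wd X n) where
  toFun a := lev a n
  map_one' := lev_one n
  map_mul' a b := lev_mul a b n

/-- `a` is trivial on words of length `n`. -/
theorem lev_eq_one_of (a : Portrait X) (n : ℕ) (h : ∀ j < n, a.lab j = 1) : lev a n = 1 := by
  induction n with
  | zero => rfl
  | succ n ih =>
    ext1 q
    obtain ⟨w, x, rfl⟩ := exists_sn q
    rw [lev_succ, ih (fun j hj => h j (by omega)), h n (by omega)]; rfl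

theorem lab_eq_one_of_lev [Nonempty X] (a : Portrait X) (n : ℕ) (h : lev a n = 1) :
    ∀ j < n, a.lab j = 1 := by
  induction n with
  | zero => intro j hj; omega
  | succ n ih =>
    have h1 : lev a n = 1 := by
      ext1 w
      obtain ⟨x⟩ := (inferInstance : Nonempty X)
      have := congrArg (fun σ : Perm (Wd X (n+1)) => ini (σ (sn w x))) h
      exact this
    intro j hj
    rcases Nat.lt_succ_iff_lt_or_eq.mp hj with h2 | h2
    · exact ih h1 j h2
    · subst h2
      funext w
      ext1 x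
      have := congrArg (fun σ : Perm (Wd X (j+1)) => lst (σ (sn w x))) h
      exact this

/-- Section at a letter. -/
def sec (a : Portrait X) (x : X) : Portrait X := ⟨fun n w => a.lab (n + 1) (cons x n w)⟩

/-- The root label. -/
def rt (a : Portrait X) : Perm X := a.lab 0 ()

theorem sec_lab (a : Portrait X) (x : X) (n : ℕ) (w : Wd X n) :
    (sec a x).lab n w = a.lab (n + 1) (cons x n w) := rfl

theorem lev_cons (a : Portrait X) (x : X) (n : ℕ) (w : Wd X n) :
    lev a (n + 1) (cons x n w) = cons (rt a x) n (lev (sec a x) n w) := by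
  induction n with
  | zero => rfl
  | succ n ih =>
    obtain ⟨w, y, rfl⟩ := exists_sn w
    rw [cons_sn, lev_succ, ih, lev_succ, cons_sn]; rfl

theorem cons_injective (x : X) (n : ℕ) : Function.Injective (cons x n) := by
  induction n with
  | zero => intro a b _; rfl
  | succ n ih =>
    intro a b h
    obtain ⟨a, y, rfl⟩ := exists_sn a
    obtain ⟨b, z, rfl⟩ := exists_sn b
    rw [cons_sn, cons_sn, sn_inj] at h
    rw [ih h.1, h.2]

theorem exists_cons (n : ℕ) (v : Wd X (n + 1)) : ∃ x w, v = cons x n w := by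
  induction n with
  | zero => obtain ⟨u, x, rfl⟩ := exists_sn v; exact ⟨x, (), rfl⟩
  | succ n ih =>
    obtain ⟨v, y, rfl⟩ := exists_sn v
    obtain ⟨x, w, rfl⟩ := ih v
    exact ⟨x, sn w y, rfl⟩

theorem cons_inj_left {x y : X} {n : ℕ} {v w : Wd X n} (h : cons x n v = cons y n w) : x = y := by
  induction n with
  | zero => exact congrArg lst h
  | succ n ih =>
    obtain ⟨v, _, rfl⟩ := exists_sn v
    obtain ⟨w, _, rfl⟩ := exists_sn w
    exact ih (congrArg ini h)

/-- Self-similar group of portraits. -/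
def SS (G : Subgroup (Portrait X)) : Prop := ∀ g ∈ G, ∀ x, sec g x ∈ G

/-- The label group on level `n` of the elements trivial on words of length `n`. -/
def KK (G : Subgroup (Portrait X)) (n : ℕ) : Subgroup (Wd X n → Perm X) where
  carrier := {k | ∃ a ∈ G, (∀ j < n, a.lab j = 1) ∧ a.lab n = k}
  mul_mem' := by
    rintro k l ⟨a, ha, ha1, rfl⟩ ⟨b, hb, hb1, rfl⟩
    refine ⟨a * b, mul_mem ha hb, ?_, ?_⟩
    · intro j hj
      funext w
      rw [mul_lab, ha1 j hj, hb1 j hj]; rfl
    · funext w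
      rw [mul_lab, lev_eq_one_of b n hb1]; rfl
  one_mem' := ⟨1, one_mem _, fun _ _ => rfl, rfl⟩
  inv_mem' := by
    rintro k ⟨a, ha, ha1, rfl⟩
    refine ⟨a⁻¹, inv_mem ha, ?_, ?_⟩
    · intro j hj
      funext w
      rw [inv_lab, ha1 j hj]; simp
    · funext w
      have h1 := lev_eq_one_of a n ha1
      rw [inv_lab, h1]; rfl

theorem mem_KK {G : Subgroup (Portrait X)} {n : ℕ} {k : Wd X n → Perm X} :
    k ∈ KK G n ↔ ∃ a ∈ G, (∀ j < n, a.lab j = 1) ∧ a.lab n = k := Iff.rfl

theorem KK_cons {G : Subgroup (Portrait X)} (hG : SS G) {n : ℕ} {k : Wd X (n + 1) → Perm X}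
    (hk : k ∈ KK G (n + 1)) (x : X) : (fun w => k (cons x n w)) ∈ KK G n := by
  obtain ⟨a, ha, ha1, rfl⟩ := hk
  refine ⟨sec a x, hG a ha x, ?_, rfl⟩
  intro j hj
  funext w
  rw [sec_lab, ha1 (j + 1) (by omega)]; rfl

/-- Conjugation. -/
theorem KK_conj {G : Subgroup (Portrait X)} {n : ℕ} {k : Wd X n → Perm X}
    (hk : k ∈ KK G n) {g : Portrait X} (hg : g ∈ G) :
    (fun w => g.lab n ((lev g n).symm w) * k ((lev g n).symm w) *
      (g.lab n ((lev g n).symm w))⁻¹) ∈ KK G n := by
  obtain ⟨a, ha, ha1, rfl⟩ := hk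
  have h1 := lev_eq_one_of a n ha1
  refine ⟨g * a * g⁻¹, mul_mem (mul_mem hg ha) (inv_mem hg), ?_, ?_⟩
  · intro j hj
    have h2 := lev_eq_one_of a j (fun i hi => ha1 i (by omega))
    funext w
    rw [mul_lab, mul_lab, inv_lab, lev_inv, ha1 j hj, h2]
    show g.lab j ((lev g j).symm w) * 1 * (g.lab j ((lev g j).symm w))⁻¹ = 1
    rw [mul_one, mul_inv_cancel]
  · funext w
    rw [mul_lab, mul_lab, inv_lab, lev_inv, h1]
    rfl

end Pool.Agent.Helper501.Haus

namespace Pool.Agent.Helper501.Haus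

open Equiv

section ModStruct

variable {X : Type} [Fintype X] [DecidableEq X] {p : ℕ} [Fact p.Prime]

theorem lev_of_KK {G : Subgroup (Portrait X)} {n : ℕ} {k : Wd X n → Perm X} (hk : k ∈ KK G n) :
    ∃ g ∈ G, (∀ j < n, g.lab j = 1) ∧ g.lab n = k ∧ lev g n = 1 ∧
      ∀ w x, lev g (n + 1) (sn w x) = sn w (k w x) := by
  obtain ⟨g, hg, h1, h2⟩ := hk
  have h3 := lev_eq_one_of g n h1
  refine ⟨g, hg, h1, h2, h3, ?_⟩
  intro w x
  rw [lev_succ, h3, h2]; rfl

/-- Transitivity on words of length `n`. -/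
def Trans (G : Subgroup (Portrait X)) (n : ℕ) : Prop := ∀ v w : Wd X n, ∃ g ∈ G, lev g n v = w

theorem trans_zero (G : Subgroup (Portrait X)) : Trans G 0 := fun _ _ => ⟨1, one_mem _, rfl⟩

theorem trans_succ {G : Subgroup (Portrait X)} {n : ℕ} (h : Trans G n)
    (hk : ∀ (w : Wd X n) (x y : X), ∃ k ∈ KK G n, k w x = y) : Trans G (n + 1) := by
  intro q r
  obtain ⟨v, x, rfl⟩ := exists_sn q
  obtain ⟨w, y, rfl⟩ := exists_sn r
  obtain ⟨g, hg, hgv⟩ := h v w
  obtain ⟨k, hk1, hk2⟩ := hk w (g.lab n v x) y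
  obtain ⟨b, hb, _, _, _, hb2⟩ := lev_of_KK hk1
  refine ⟨b * g, mul_mem hb hg, ?_⟩
  rw [lev_mul, Perm.mul_apply, lev_succ, hgv, hb2, hk2]

/-- Invariance of a space of functions on words of length `n`. -/
def Inv (G : Subgroup (Portrait X)) {n : ℕ} (M : Submodule (ZMod p) (Wd X n → ZMod p)) : Prop :=
  ∀ g ∈ G, ∀ f ∈ M, (fun w => f (lev g n w)) ∈ M

/-- Sum over the last letter. -/
def sumLast (X : Type) [Fintype X] (p : ℕ) (n : ℕ) :
    (Wd X (n + 1) → ZMod p) →ₗ[ZMod p] (Wd X n → ZMod p) where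
  toFun f w := ∑ x, f (sn w x)
  map_add' f g := by funext w; simp [Finset.sum_add_distrib]
  map_smul' c f := by funext w; simp [Finset.mul_sum]

theorem sumLast_apply (n : ℕ) (f : Wd X (n + 1) → ZMod p) (w : Wd X n) :
    sumLast X p n f w = ∑ x, f (sn w x) := rfl

/-- Functions constant in the last letter. -/
def pull (X : Type) (p : ℕ) (n : ℕ) :
    (Wd X n → ZMod p) →ₗ[ZMod p] (Wd X (n + 1) → ZMod p) where
  toFun f q := f (ini q)
  map_add' _ _ := rfl
  map_smul' _ _ := rfl

theorem pull_injective [Nonempty X] (n : ℕ) : Function.Injective (pull X p n) := by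
  intro f g h
  funext w
  obtain ⟨x⟩ := (inferInstance : Nonempty X)
  exact congrFun h (sn w x)

theorem sumLast_surjective [Nonempty X] (n : ℕ) : Function.Surjective (sumLast X p n) := by
  intro f
  obtain ⟨x⟩ := (inferInstance : Nonempty X)
  refine ⟨fun q => if lst q = x then f (ini q) else 0, ?_⟩
  funext w
  rw [sumLast_apply]
  simp

theorem finrank_fun (n : ℕ) : Module.finrank (ZMod p) (Wd X n → ZMod p) = Fintype.card X ^ n := by
  rw [Module.finrank_fintype_fun_eq_card, card_Wd]

theorem finrank_ker_sumLast [Nonempty X] (n : ℕ) :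
    Module.finrank (ZMod p) (LinearMap.ker (sumLast X p n)) = (Fintype.card X - 1) * Fintype.card X ^ n := by
  have h := LinearMap.finrank_range_add_finrank_ker (sumLast X p n)
  rw [LinearMap.range_eq_top.mpr (sumLast_surjective n), finrank_top, finrank_fun, finrank_fun] at h
  have h1 : 1 ≤ Fintype.card X := Fintype.card_pos
  obtain ⟨m, hm⟩ : ∃ m, Fintype.card X = m + 1 := ⟨Fintype.card X - 1, by omega⟩
  rw [hm] at h ⊢
  simp only [Nat.add_sub_cancel]
  rw [pow_succ] at h
  nlinarith [h]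

theorem finrank_split {V W : Type} [AddCommGroup V] [Module (ZMod p) V] [FiniteDimensional (ZMod p) V]
    [AddCommGroup W] [Module (ZMod p) W] (S : V →ₗ[ZMod p] W) (M : Submodule (ZMod p) V) :
    Module.finrank (ZMod p) M = Module.finrank (ZMod p) (M.map S) +
      Module.finrank (ZMod p) (M ⊓ LinearMap.ker S : Submodule (ZMod p) V) := by
  have h := LinearMap.finrank_range_add_finrank_ker (S.domRestrict M)
  rw [LinearMap.range_domRestrict, LinearMap.ker_domRestrict] at h
  rw [← h]
  congr 1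
  have e : (LinearMap.ker S).submoduleOf M ≃ₗ[ZMod p] (M ⊓ LinearMap.ker S : Submodule (ZMod p) V) := by
    have h2 : (LinearMap.ker S).submoduleOf M = (M ⊓ LinearMap.ker S).submoduleOf M := by
      ext x; simp [Submodule.submoduleOf]
    rw [h2]
    exact Submodule.submoduleOfEquivOfLe inf_le_left
  exact e.finrank_eq

/-- Admissible dimensions. -/
inductive Dg (d : ℕ) : ℕ → ℕ → Prop
  | z0 : Dg d 0 0
  | z1 : Dg d 0 1
  | c {n e} : Dg d n e → Dg d (n + 1) e
  | s {n e} : Dg d n e → Dg d (n + 1) ((d - 1) * d ^ n + e)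

/-- The dichotomy for invariant spaces. -/
def Dich (p : ℕ) [Fact p.Prime] (G : Subgroup (Portrait X)) (n : ℕ) : Prop :=
  ∀ M : Submodule (ZMod p) (Wd X (n + 1) → ZMod p), Inv G M →
    (∀ f ∈ M, ∀ w x y, f (sn w x) = f (sn w y)) ∨ LinearMap.ker (sumLast X p n) ≤ M

theorem inv_comap_pull {G : Subgroup (Portrait X)} {n : ℕ}
    {M : Submodule (ZMod p) (Wd X (n + 1) → ZMod p)} (hM : Inv G M) :
    Inv G (M.comap (pull X p n)) := by
  intro g hg f hf
  exact hM g hg _ hf

theorem inv_map_sumLast {G : Subgroup (Portrait X)} {n : ℕ}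
    {M : Submodule (ZMod p) (Wd X (n + 1) → ZMod p)} (hM : Inv G M) :
    Inv G (M.map (sumLast X p n)) := by
  rintro g hg _ ⟨f, hf, rfl⟩
  refine ⟨_, hM g hg f hf, ?_⟩
  funext w
  rw [sumLast_apply, sumLast_apply]
  exact Fintype.sum_equiv (g.lab n w) _ _ (fun x => rfl)

theorem dg_finrank [Nonempty X] {G : Subgroup (Portrait X)} (n : ℕ) (hD : ∀ j < n, Dich p G j)
    (M : Submodule (ZMod p) (Wd X n → ZMod p)) (hM : Inv G M) :
    Dg (Fintype.card X) n (Module.finrank (ZMod p) M) := by
  induction n with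
  | zero =>
    have h1 : Module.finrank (ZMod p) M ≤ 1 := by
      have := Submodule.finrank_le M
      rwa [finrank_fun, pow_zero] at this
    rcases Nat.le_one_iff_eq_zero_or_eq_one.mp h1 with h | h <;> rw [h]
    · exact Dg.z0
    · exact Dg.z1
  | succ n ih =>
    rcases hD n (by omega) M hM with h | h
    · have h2 := ih (fun j hj => hD j (by omega)) _ (inv_comap_pull hM)
      have e : Module.finrank (ZMod p) (M.comap (pull X p n)) = Module.finrank (ZMod p) M := by
        have h3 : (M.comap (pull X p n)).map (pull X p n) = M := by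
          rw [Submodule.map_comap_eq, inf_eq_right]
          intro f hf
          obtain ⟨x⟩ := (inferInstance : Nonempty X)
          refine ⟨fun w => f (sn w x), ?_⟩
          funext q
          obtain ⟨w, y, rfl⟩ := exists_sn q
          exact h f hf w x y
        rw [(Submodule.equivMapOfInjective _ (pull_injective (p := p) n) (M.comap (pull X p n))).finrank_eq, h3]
      rw [← e]
      exact Dg.c h2
    · have h2 := ih (fun j hj => hD j (by omega)) _ (inv_map_sumLast hM)
      have h3 : Module.finrank (ZMod p) M = (Fintype.card X - 1) * Fintype.card X ^ n +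
          Module.finrank (ZMod p) (M.map (sumLast X p n)) := by
        rw [finrank_split (sumLast X p n) M, inf_eq_right.mpr h, finrank_ker_sumLast, add_comm]
      rw [h3]
      exact Dg.s h2

end ModStruct

end Pool.Agent.Helper501.Haus

namespace Pool.Agent.Helper501.Haus

open Equiv

section DichAlt

variable {X : Type} [Fintype X] [DecidableEq X] {p : ℕ} [Fact p.Prime]

/-- Basis differences in the last letter. -/
def dd (p : ℕ) {n : ℕ} (w : Wd X n) (s t : X) : Wd X (n + 1) → ZMod p :=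
  fun q => if ini q = w then ((if lst q = s then 1 else 0) - (if lst q = t then 1 else 0)) else 0

theorem dd_sn {n : ℕ} (w : Wd X n) (s t : X) (v : Wd X n) (u : X) :
    dd p w s t (sn v u) =
      if v = w then ((if u = s then 1 else 0) - (if u = t then 1 else 0)) else 0 := rfl

theorem span_dd [Nonempty X] {n : ℕ} (M : Submodule (ZMod p) (Wd X (n + 1) → ZMod p))
    (h : ∀ (w : Wd X n) (s t : X), dd p w s t ∈ M) :
    LinearMap.ker (sumLast X p n) ≤ M := by
  intro f hf
  obtain ⟨x0⟩ := (inferInstance : Nonempty X)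
  have h0 : ∀ w, ∑ x, f (sn w x) = 0 := fun w => congrFun (LinearMap.mem_ker.mp hf) w
  have key : f = ∑ w : Wd X n, ∑ s : X, f (sn w s) • dd p w s x0 := by
    funext q
    obtain ⟨v, t, rfl⟩ := exists_sn q
    rw [Finset.sum_apply, Finset.sum_eq_single v]
    · rw [Finset.sum_apply]
      simp only [Pi.smul_apply, dd_sn, smul_eq_mul, if_true, mul_sub, Finset.sum_sub_distrib]
      rw [← Finset.sum_mul, h0 v, zero_mul, sub_zero, Finset.sum_eq_single t]
      · simp
      · intro b _ hb
        rw [if_neg hb.symm, mul_zero]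
      · simp
    · intro b _ hb
      rw [Finset.sum_apply]
      apply Finset.sum_eq_zero
      intro s _
      rw [Pi.smul_apply, dd_sn, if_neg hb.symm, smul_zero]
    · simp
  rw [key]
  exact Submodule.sum_mem _ fun w _ => Submodule.sum_mem _ fun s _ => Submodule.smul_mem _ _ (h w s x0)

theorem dd_transport {G : Subgroup (Portrait X)} {n : ℕ}
    {M : Submodule (ZMod p) (Wd X (n + 1) → ZMod p)} (hM : Inv G M) (hT : Trans G n)
    {w : Wd X n} (h : ∀ s t : X, dd p w s t ∈ M) (w' : Wd X n) (s t : X) :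
    dd p w' s t ∈ M := by
  obtain ⟨g, hg, hgw⟩ := hT w' w
  have h1 := hM g hg _ (h (g.lab n w' s) (g.lab n w' t))
  convert h1 using 1
  funext q
  obtain ⟨v, u, rfl⟩ := exists_sn q
  rw [lev_succ, dd_sn, dd_sn]
  by_cases hv : v = w'
  · subst hv
    rw [if_pos rfl, if_pos hgw]
    simp only [(g.lab n v).injective.eq_iff]
  · rw [if_neg hv, if_neg]
    intro h
    apply hv
    rw [← hgw] at h
    exact (lev g n).injective h

theorem exists_third (hX : 3 ≤ Fintype.card X) (s t : X) : ∃ r, r ≠ s ∧ r ≠ t := by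
  by_contra hc
  push Not at hc
  have h1 : (Finset.univ : Finset X) ⊆ {s, t} := by
    intro r _
    by_cases hr : r = s
    · simp [hr]
    · simp [hc r hr]
  have h2 := Finset.card_le_card h1
  have h3 := Finset.card_le_two (a := s) (b := t)
  rw [Finset.card_univ] at h2
  omega

/-- Three cycles `s ↦ t ↦ r ↦ s`. -/
theorem exists_cyc (s t r : X) (h1 : s ≠ t) (h2 : t ≠ r) (h3 : r ≠ s) : ∃ c : Perm X,
    Perm.sign c = 1 ∧ c s = t ∧ c t = r ∧ c r = s ∧ ∀ u, u ≠ s → u ≠ t → u ≠ r → c u = u := by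
  refine ⟨swap s t * swap t r, ?_, ?_, ?_, ?_, ?_⟩
  · rw [Perm.sign_mul, Perm.sign_swap h1, Perm.sign_swap h2]; rfl
  · rw [Perm.mul_apply, swap_apply_of_ne_of_ne h1 h3.symm, swap_apply_left]
  · rw [Perm.mul_apply, swap_apply_left, swap_apply_of_ne_of_ne h3 h2.symm]
  · rw [Perm.mul_apply, swap_apply_right, swap_apply_right]
  · intro u hu1 hu2 hu3
    rw [Perm.mul_apply, swap_apply_of_ne_of_ne hu2 hu3, swap_apply_of_ne_of_ne hu1 hu2]

theorem zmod2_cases : ∀ a : ZMod 2, a = 0 ∨ a = 1 := by decide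

/-- Full alternating power on level `n` gives the dichotomy for `p = 2`. -/
theorem dich_alt (hX : 3 ≤ Fintype.card X) {G : Subgroup (Portrait X)} {n : ℕ} (hT : Trans G n)
    (hK : ∀ k : Wd X n → Perm X, (∀ w, Perm.sign (k w) = 1) → k ∈ KK G n) : Dich 2 G n := by
  intro M hM
  by_contra hcon
  push Not at hcon
  obtain ⟨⟨f, hf, w, x, y, hxy⟩, hcon⟩ := hcon
  apply hcon
  haveI : Nonempty X := ⟨x⟩
  have hne : x ≠ y := by rintro rfl; exact hxy rfl
  -- action of an even permutation at w
  have act : ∀ c : Perm X, Perm.sign c = 1 → ∀ f ∈ M, ∃ f' ∈ M,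
      (∀ t, f' (sn w t) = f (sn w (c t))) ∧ ∀ v t, v ≠ w → f' (sn v t) = f (sn v t) := by
    intro c hc f hf
    obtain ⟨g, hg, _, _, _, hg2⟩ := lev_of_KK (hK (Pi.mulSingle w c) (by
      intro v
      by_cases hv : v = w
      · subst hv; rw [Pi.mulSingle_eq_same, hc]
      · rw [Pi.mulSingle_eq_of_ne hv, map_one]))
    refine ⟨_, hM g hg f hf, ?_, ?_⟩
    · intro t; rw [hg2, Pi.mulSingle_eq_same]
    · intro v t hv; rw [hg2, Pi.mulSingle_eq_of_ne hv]; rfl
  -- first difference
  have step1 : ∃ u, u ≠ x ∧ dd 2 w x u ∈ M := by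
    obtain ⟨z, hz1, hz2⟩ := exists_third hX x y
    obtain ⟨c, hc0, hc1, hc2, hc3, hc4⟩ := exists_cyc x y z hne hz2.symm hz1
    obtain ⟨f', hf', hfw, hfv⟩ := act c hc0 f hf
    have h1 := M.sub_mem hf' hf
    have hval : f (sn w y) - f (sn w x) = 1 := by
      rcases zmod2_cases (f (sn w x)) with h | h <;> rcases zmod2_cases (f (sn w y)) with h' | h' <;>
        rw [h, h'] at hxy ⊢ <;> first | exact absurd rfl hxy | decide
    have h3' : f (sn w x) - f (sn w z) =
        -((f (sn w z) - f (sn w y)) + (f (sn w y) - f (sn w x))) := by ring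
    rcases zmod2_cases (f (sn w z) - f (sn w y)) with h | h
    · refine ⟨z, hz1, ?_⟩
      have h3 : f (sn w x) - f (sn w z) = 1 := by rw [h3', h, hval]; decide
      convert h1 using 1
      funext q
      obtain ⟨v, t, rfl⟩ := exists_sn q
      rw [dd_sn, Pi.sub_apply]
      by_cases hv' : v = w
      · subst hv'
        rw [if_pos rfl, hfw]
        by_cases t1 : t = x
        · subst t1
          rw [hc1, hval, if_pos rfl, if_neg hz1.symm]; decide
        · by_cases t2 : t = y
          · subst t2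
            rw [hc2, h, if_neg t1, if_neg hz2.symm]; decide
          · by_cases t3 : t = z
            · subst t3
              rw [hc3, h3, if_neg t1, if_pos rfl]; decide
            · rw [hc4 t t1 t2 t3, sub_self, if_neg t1, if_neg t3]; decide
      · rw [if_neg hv', hfv v t hv', sub_self]
    · refine ⟨y, hne.symm, ?_⟩
      have h3 : f (sn w x) - f (sn w z) = 0 := by rw [h3', h, hval]; decide
      convert h1 using 1
      funext q
      obtain ⟨v, t, rfl⟩ := exists_sn q
      rw [dd_sn, Pi.sub_apply]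
      by_cases hv' : v = w
      · subst hv'
        rw [if_pos rfl, hfw]
        by_cases t1 : t = x
        · subst t1
          rw [hc1, hval, if_pos rfl, if_neg hne]; decide
        · by_cases t2 : t = y
          · subst t2
            rw [hc2, h, if_neg t1, if_pos rfl]; decide
          · by_cases t3 : t = z
            · subst t3
              rw [hc3, h3, if_neg t1, if_neg t2]; decide
            · rw [hc4 t t1 t2 t3, sub_self, if_neg t1, if_neg t2]; decide
      · rw [if_neg hv', hfv v t hv', sub_self]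
  obtain ⟨u, hu, hxu⟩ := step1
  -- propagation
  have step2 : ∀ r, r ≠ x → r ≠ u → dd 2 w u r ∈ M := by
    intro r hr1 hr2
    obtain ⟨c, hc0, hc1, hc2, hc3, hc4⟩ := exists_cyc u x r hu hr1.symm hr2
    obtain ⟨f', hf', hfw, hfv⟩ := act c hc0 _ hxu
    convert hf' using 1
    funext q
    obtain ⟨v, t, rfl⟩ := exists_sn q
    by_cases hv' : v = w
    · subst hv'
      rw [hfw, dd_sn, dd_sn, if_pos rfl, if_pos rfl]
      have e1 : t = u ↔ c t = x := by rw [← hc1]; exact c.injective.eq_iff.symm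
      have e2 : t = r ↔ c t = u := by
        constructor
        · intro h; rw [h, hc3]
        · intro h; rw [← hc3] at h; exact c.injective h
      simp only [e1, e2]
    · rw [hfv v t hv', dd_sn, dd_sn, if_neg hv', if_neg hv']
  have step3 : ∀ r, dd 2 w x r ∈ M := by
    intro r
    by_cases h1 : r = x
    · subst h1
      have : dd 2 w r r = 0 := by
        funext q; obtain ⟨v, t, rfl⟩ := exists_sn q; rw [dd_sn, sub_self, ite_self]; rfl
      rw [this]; exact M.zero_mem
    · by_cases h2 : r = u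
      · subst h2; exact hxu
      · have := M.add_mem hxu (step2 r h1 h2)
        convert this using 1
        funext q; obtain ⟨v, t, rfl⟩ := exists_sn q
        rw [Pi.add_apply, dd_sn, dd_sn, dd_sn]
        split_ifs <;> ring
  have step4 : ∀ s t, dd 2 w s t ∈ M := by
    intro s t
    have := M.sub_mem (step3 t) (step3 s)
    convert this using 1
    funext q; obtain ⟨v, t, rfl⟩ := exists_sn q
    rw [Pi.sub_apply, dd_sn, dd_sn, dd_sn]
    split_ifs <;> ring
  exact span_dd M fun w' s t => dd_transport hM hT step4 w' s t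

end DichAlt

end Pool.Agent.Helper501.Haus

namespace Pool.Agent.Helper501.Haus

open Equiv Filter Topology

section Card

theorem card_split {A B : Type} [Group A] [Finite A] [Group B] (φ : A →* B) (K : Subgroup A) :
    Nat.card K = Nat.card (φ.ker ⊓ K : Subgroup A) * Nat.card (K.map φ) := by
  rw [← Subgroup.relIndex_ker K φ, ← Subgroup.card_mul_index (φ.ker.subgroupOf K)]
  congr 1
  refine Nat.card_congr ?_
  rw [← Subgroup.inf_subgroupOf_right]
  exact (Subgroup.subgroupOfEquivOfLe inf_le_right).toEquiv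

variable {X : Type} [Fintype X] [DecidableEq X]

/-- Sign with values in `ZMod 2`. -/
def sg (σ : Perm X) : ZMod 2 := if Perm.sign σ = 1 then 0 else 1

theorem sg_one : sg (1 : Perm X) = 0 := by simp [sg]

theorem sg_eq_zero {σ : Perm X} : sg σ = 0 ↔ Perm.sign σ = 1 := by
  unfold sg
  split_ifs with h
  · simp [h]
  · simp [h]

theorem sg_mul (σ τ : Perm X) : sg (σ * τ) = sg σ + sg τ := by
  unfold sg
  rw [Perm.sign_mul]
  rcases Int.units_eq_one_or (Perm.sign σ) with h | h <;>
    rcases Int.units_eq_one_or (Perm.sign τ) with h' | h' <;> rw [h, h'] <;> decide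

theorem sg_inv (σ : Perm X) : sg σ⁻¹ = sg σ := by
  unfold sg; rw [Perm.sign_inv]

theorem sg_conj (σ τ : Perm X) : sg (σ * τ * σ⁻¹) = sg τ := by
  rw [sg_mul, sg_mul, sg_inv, add_comm (sg σ) (sg τ), add_assoc]
  have : sg σ + sg σ = 0 := CharTwo.add_self_eq_zero _
  rw [this, add_zero]

/-- The sign vectors of the labels on level `n`. -/
def MM (G : Subgroup (Portrait X)) (n : ℕ) : Submodule (ZMod 2) (Wd X n → ZMod 2) :=
  AddSubgroup.toZModSubmodule 2
    { carrier := {f | ∃ k ∈ KK G n, f = fun w => sg (k w)}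
      add_mem' := by
        rintro _ _ ⟨k, hk, rfl⟩ ⟨l, hl, rfl⟩
        exact ⟨k * l, mul_mem hk hl, by funext w; exact (sg_mul _ _).symm⟩
      zero_mem' := ⟨1, one_mem _, by funext w; exact sg_one.symm⟩
      neg_mem' := by
        rintro _ ⟨k, hk, rfl⟩
        refine ⟨k⁻¹, inv_mem hk, ?_⟩
        funext w
        rw [Pi.inv_apply, sg_inv, Pi.neg_apply]
        exact ZMod.neg_eq_self_mod_two _ }

theorem mem_MM {G : Subgroup (Portrait X)} {n : ℕ} {f : Wd X n → ZMod 2} :
    f ∈ MM G n ↔ ∃ k ∈ KK G n, f = fun w => sg (k w) := Iff.rfl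

theorem inv_MM (G : Subgroup (Portrait X)) (n : ℕ) : Inv G (MM G n) := by
  rintro g hg _ ⟨k, hk, rfl⟩
  refine ⟨_, KK_conj hk (inv_mem hg), ?_⟩
  funext w
  rw [sg_conj, lev_inv]
  rfl

/-- The sign vector as a group homomorphism. -/
def sgHom (X : Type) [Fintype X] [DecidableEq X] (Y : Type) :
    (Y → Perm X) →* Multiplicative (Y → ZMod 2) where
  toFun k := Multiplicative.ofAdd fun w => sg (k w)
  map_one' := by
    apply Multiplicative.toAdd.injective
    funext w; exact sg_one
  map_mul' k l := by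
    apply Multiplicative.toAdd.injective
    funext w; exact sg_mul _ _

theorem card_map_sgHom (G : Subgroup (Portrait X)) (n : ℕ) :
    Nat.card ((KK G n).map (sgHom X (Wd X n))) = 2 ^ Module.finrank (ZMod 2) (MM G n) := by
  have h : Nat.card (MM G n) = 2 ^ Module.finrank (ZMod 2) (MM G n) := by
    rw [Module.natCard_eq_pow_finrank (K := ZMod 2), Nat.card_zmod]
  rw [← h]
  refine Nat.card_congr ⟨fun a => ⟨Multiplicative.toAdd a.1, ?_⟩, fun b => ⟨Multiplicative.ofAdd b.1, ?_⟩, ?_, ?_⟩
  · obtain ⟨_, k, hk, rfl⟩ := a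
    exact ⟨k, hk, rfl⟩
  · obtain ⟨_, k, hk, rfl⟩ := b
    exact ⟨k, hk, rfl⟩
  · intro a; rfl
  · intro b; rfl

theorem mem_ker_sgHom {Y : Type} {k : Y → Perm X} :
    k ∈ (sgHom X Y).ker ↔ ∀ w, Perm.sign (k w) = 1 := by
  rw [MonoidHom.mem_ker]
  constructor
  · intro h w
    rw [← sg_eq_zero]
    exact congrFun (congrArg Multiplicative.toAdd h) w
  · intro h
    apply Multiplicative.toAdd.injective
    funext w
    exact sg_eq_zero.mpr (h w)

theorem card_ker_sgHom {Y : Type} [Fintype Y] [Nontrivial X] :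
    2 ^ Fintype.card Y * Nat.card (sgHom X Y).ker = (Fintype.card X).factorial ^ Fintype.card Y := by
  have e : (sgHom X Y).ker ≃ (Y → alternatingGroup X) :=
    { toFun := fun k w => ⟨k.1 w, Perm.mem_alternatingGroup.mpr (mem_ker_sgHom.mp k.2 w)⟩
      invFun := fun k => ⟨fun w => k w, mem_ker_sgHom.mpr fun w => Perm.mem_alternatingGroup.mp (k w).2⟩
      left_inv := fun k => rfl
      right_inv := fun k => rfl }
  rw [Nat.card_congr e, Nat.card_fun, Nat.card_eq_fintype_card, Nat.card_eq_fintype_card, ← mul_pow,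
    two_mul_card_alternatingGroup, Fintype.card_perm]

/-- Size of the label group if it contains the alternating power. -/
theorem card_KK_of_alt [Nontrivial X] {G : Subgroup (Portrait X)} {n : ℕ}
    (hK : ∀ k : Wd X n → Perm X, (∀ w, Perm.sign (k w) = 1) → k ∈ KK G n) :
    Real.log (Nat.card (KK G n)) = (Fintype.card X : ℝ) ^ n * (Real.log (Fintype.card X).factorial - Real.log 2)
      + Module.finrank (ZMod 2) (MM G n) * Real.log 2 := by
  have h1 := card_split (sgHom X (Wd X n)) (KK G n)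
  have h2 : (sgHom X (Wd X n)).ker ⊓ KK G n = (sgHom X (Wd X n)).ker :=
    inf_eq_left.mpr fun k hk => hK k (mem_ker_sgHom.mp hk)
  rw [h2, card_map_sgHom] at h1
  have h3 := card_ker_sgHom (X := X) (Y := Wd X n)
  rw [card_Wd] at h3
  have h4 : 0 < Nat.card (sgHom X (Wd X n)).ker := Nat.card_pos
  have h5 : Real.log ((2 : ℝ) ^ (Fintype.card X ^ n) * Nat.card (sgHom X (Wd X n)).ker) =
      Real.log (((Fintype.card X).factorial : ℝ) ^ (Fintype.card X ^ n)) := by
    congr 1
    exact_mod_cast h3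
  rw [Real.log_mul (by positivity) (by positivity), Real.log_pow, Real.log_pow] at h5
  rw [h1, Nat.cast_mul, Real.log_mul (by positivity) (by positivity), Nat.cast_pow, Real.log_pow]
  push_cast at h5 ⊢
  linarith

theorem card_KK_succ_le {G : Subgroup (Portrait X)} (hG : SS G) (n : ℕ) :
    Nat.card (KK G (n + 1)) ≤ Nat.card (KK G n) ^ Fintype.card X := by
  rw [← Nat.card_eq_fintype_card, ← Nat.card_fun]
  apply Nat.card_le_card_of_injective
    (fun (k : KK G (n + 1)) (x : X) => (⟨fun w => k.1 (cons x n w), KK_cons hG k.2 x⟩ : KK G n))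
  intro k l h
  apply Subtype.ext
  funext v
  obtain ⟨x, w, rfl⟩ := exists_cons n v
  have := congrFun h x
  exact congrFun (congrArg Subtype.val this) w

/-- Normalised logarithm of the size of the label groups. -/
noncomputable def aa (G : Subgroup (Portrait X)) (n : ℕ) : ℝ :=
  Real.log (Nat.card (KK G n)) / (Fintype.card X : ℝ) ^ n

theorem aa_nonneg (G : Subgroup (Portrait X)) (n : ℕ) : 0 ≤ aa G n :=
  div_nonneg (Real.log_natCast_nonneg _) (by positivity)

theorem aa_antitone [Nonempty X] {G : Subgroup (Portrait X)} (hG : SS G) : Antitone (aa G) := by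
  apply antitone_nat_of_succ_le
  intro n
  unfold aa
  have h1 := card_KK_succ_le hG n
  have h2 : (0 : ℝ) < Fintype.card X := by exact_mod_cast Fintype.card_pos
  rw [div_le_div_iff₀ (by positivity) (by positivity), pow_succ]
  have h3 : Real.log (Nat.card (KK G (n + 1))) ≤ Fintype.card X * Real.log (Nat.card (KK G n)) := by
    rw [← Real.log_pow]
    apply Real.log_le_log
    · exact_mod_cast Nat.card_pos
    · exact_mod_cast h1
  nlinarith [pow_pos h2 n]

theorem aa_tendsto [Nonempty X] {G : Subgroup (Portrait X)} (hG : SS G) :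
    ∃ v, Tendsto (aa G) atTop (𝓝 v) ∧ 0 ≤ v ∧ ∀ n, v ≤ aa G n := by
  refine ⟨_, tendsto_atTop_ciInf (aa_antitone hG) ⟨0, ?_⟩, ?_, ?_⟩
  · rintro _ ⟨n, rfl⟩; exact aa_nonneg G n
  · exact le_ciInf fun n => aa_nonneg G n
  · intro n
    exact ciInf_le ⟨0, by rintro _ ⟨n, rfl⟩; exact aa_nonneg G n⟩ n

end Card

section Digits

theorem ofDigits_succ {d : ℕ} (a : ℕ → Fin d) :
    Real.ofDigits a = (a 0).val / (d : ℝ) + (d : ℝ)⁻¹ * Real.ofDigits (fun j => a (j + 1)) := by
  have := Real.ofDigits_eq_sum_add_ofDigits a 1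
  rw [Finset.sum_range_one, pow_one] at this
  rw [this, Real.ofDigitsTerm, zero_add, pow_one, div_eq_mul_inv]

theorem dg_close {d : ℕ} (hd : 2 ≤ d) {n e : ℕ} (h : Dg d n e) :
    ∃ c ∈ CD d, |(e : ℝ) / (d : ℝ) ^ n - c| ≤ 1 / (d : ℝ) ^ n := by
  have hd0 : (0 : ℝ) < d := by positivity
  haveI : NeZero d := ⟨by omega⟩
  induction h with
  | z0 =>
    refine ⟨_, ⟨fun _ => ⟨0, by omega⟩, fun j => Or.inl rfl, rfl⟩, ?_⟩
    have h1 := Real.ofDigits_nonneg (fun _ : ℕ => (⟨0, by omega⟩ : Fin d))
    have h2 := Real.ofDigits_le_one (fun _ : ℕ => (⟨0, by omega⟩ : Fin d))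
    rw [abs_le]; simp only [Nat.cast_zero, pow_zero]; constructor <;> linarith
  | z1 =>
    refine ⟨_, ⟨fun _ => ⟨0, by omega⟩, fun j => Or.inl rfl, rfl⟩, ?_⟩
    have h1 := Real.ofDigits_nonneg (fun _ : ℕ => (⟨0, by omega⟩ : Fin d))
    have h2 := Real.ofDigits_le_one (fun _ : ℕ => (⟨0, by omega⟩ : Fin d))
    rw [abs_le]; simp only [Nat.cast_one, pow_zero]; constructor <;> linarith
  | @c n e _ ih =>
    obtain ⟨_, ⟨a, ha, rfl⟩, hc⟩ := ih
    refine ⟨_, ⟨fun j => if j = 0 then ⟨0, by omega⟩ else a (j - 1), ?_, rfl⟩, ?_⟩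
    · intro j
      by_cases hj : j = 0
      · left; simp [hj]
      · simp only [hj, if_false]; exact ha _
    · rw [ofDigits_succ]
      simp only [if_true, Nat.add_eq_zero_iff, one_ne_zero, and_false, if_false, Nat.add_sub_cancel,
        Nat.cast_zero, zero_div, zero_add]
      have : (e : ℝ) / (d : ℝ) ^ (n + 1) - (d : ℝ)⁻¹ * Real.ofDigits (fun j => a j) =
          (d : ℝ)⁻¹ * ((e : ℝ) / (d : ℝ) ^ n - Real.ofDigits a) := by
        rw [pow_succ]; field_simp
      rw [this, abs_mul, abs_of_pos (by positivity : (0 : ℝ) < (d : ℝ)⁻¹)]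
      calc (d : ℝ)⁻¹ * |(e : ℝ) / (d : ℝ) ^ n - Real.ofDigits a| ≤ (d : ℝ)⁻¹ * (1 / (d : ℝ) ^ n) := by gcongr
        _ = 1 / (d : ℝ) ^ (n + 1) := by rw [pow_succ]; field_simp
  | @s n e _ ih =>
    obtain ⟨_, ⟨a, ha, rfl⟩, hc⟩ := ih
    refine ⟨_, ⟨fun j => if j = 0 then ⟨d - 1, by omega⟩ else a (j - 1), ?_, rfl⟩, ?_⟩
    · intro j
      by_cases hj : j = 0
      · right; simp [hj]; omega
      · simp only [hj, if_false]; exact ha _
    · rw [ofDigits_succ]
      simp only [if_true, Nat.add_eq_zero_iff, one_ne_zero, and_false, if_false, Nat.add_sub_cancel]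
      have : (((d - 1) * d ^ n + e : ℕ) : ℝ) / (d : ℝ) ^ (n + 1) -
          (((d - 1 : ℕ) : ℝ) / d + (d : ℝ)⁻¹ * Real.ofDigits (fun j => a j)) =
          (d : ℝ)⁻¹ * ((e : ℝ) / (d : ℝ) ^ n - Real.ofDigits a) := by
        push_cast
        rw [pow_succ]; field_simp; ring
      rw [this, abs_mul, abs_of_pos (by positivity : (0 : ℝ) < (d : ℝ)⁻¹)]
      calc (d : ℝ)⁻¹ * |(e : ℝ) / (d : ℝ) ^ n - Real.ofDigits a| ≤ (d : ℝ)⁻¹ * (1 / (d : ℝ) ^ n) := by gcongr
        _ = 1 / (d : ℝ) ^ (n + 1) := by rw [pow_succ]; field_simp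

theorem isClosed_CD (d : ℕ) : IsClosed (CD d) := by
  have h1 : IsClosed {a : ℕ → Fin d | ∀ j, (a j).val = 0 ∨ (a j).val + 1 = d} := by
    have h0 : {a : ℕ → Fin d | ∀ j, (a j).val = 0 ∨ (a j).val + 1 = d} =
        ⋂ j, (fun a : ℕ → Fin d => a j) ⁻¹' {x : Fin d | x.val = 0 ∨ x.val + 1 = d} := by
      ext a; simp
    rw [h0]
    refine isClosed_iInter fun j => ?_
    exact IsClosed.preimage (continuous_apply j) (isClosed_discrete _)
  have h2 : CD d = Real.ofDigits '' {a : ℕ → Fin d | ∀ j, (a j).val = 0 ∨ (a j).val + 1 = d} := by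
    ext c
    constructor
    · rintro ⟨a, ha, rfl⟩; exact ⟨a, ha, rfl⟩
    · rintro ⟨a, ha, rfl⟩; exact ⟨a, ha, rfl⟩
  rw [h2]
  exact (h1.isCompact.image Real.continuous_ofDigits).isClosed

theorem mem_CD_of_tendsto {d : ℕ} (hd : 2 ≤ d) {e : ℕ → ℕ} (he : ∀ n, Dg d n (e n)) {m : ℝ}
    (hm : Tendsto (fun n => (e n : ℝ) / (d : ℝ) ^ n) atTop (𝓝 m)) : m ∈ CD d := by
  choose c hc1 hc2 using fun n => dg_close hd (he n)
  have h0 : Tendsto (fun n : ℕ => 1 / (d : ℝ) ^ n) atTop (𝓝 0) := by
    have hd1 : (1 : ℝ) < d := by exact_mod_cast (by omega : 1 < d)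
    have := tendsto_pow_atTop_nhds_zero_of_lt_one (r := (d : ℝ)⁻¹) (by positivity) (inv_lt_one_of_one_lt₀ hd1)
    refine this.congr fun n => ?_
    rw [inv_pow, one_div]
  have h1 : Tendsto c atTop (𝓝 m) := by
    have h2 : Tendsto (fun n => (e n : ℝ) / (d : ℝ) ^ n - c n) atTop (𝓝 0) :=
      squeeze_zero_norm (fun n => by rw [Real.norm_eq_abs]; exact hc2 n) h0
    have := hm.sub h2
    simpa using this
  exact (isClosed_CD d).mem_of_tendsto h1 (Eventually.of_forall hc1)

end Digits

end Pool.Agent.Helper501.Haus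

namespace Pool.Agent.Helper501.Haus

open Equiv Filter Topology

section Four

/-- Index of the pairing of `Fin 4` containing a pair. -/
def pidx : Fin 4 → Fin 4 → ZMod 3 :=
  ![![0, 0, 1, 2], ![0, 0, 2, 1], ![1, 2, 0, 0], ![2, 1, 0, 0]]

/-- Rotation part of the action on the three pairings. -/
def th (σ : Perm (Fin 4)) : ZMod 3 := pidx (σ 0) (σ 1)

theorem th_mul : ∀ σ ρ : Perm (Fin 4),
    th (σ * ρ) = th σ + (if sg σ = 0 then th ρ else - th ρ) := by decide +kernel

theorem th_inv : ∀ σ : Perm (Fin 4), th σ⁻¹ = if sg σ = 0 then - th σ else th σ := by decide +kernel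

theorem th_surj : ∀ (a : ZMod 2) (b : ZMod 3), ∃ σ : Perm (Fin 4), sg σ = a ∧ th σ = b := by decide +kernel

theorem klein_trans : ∀ x y : Fin 4, ∃ σ : Perm (Fin 4), sg σ = 0 ∧ th σ = 0 ∧ σ x = y ∧ σ * σ = 1 := by
  decide +kernel

theorem klein_card : Fintype.card {σ : Perm (Fin 4) // sg σ = 0 ∧ th σ = 0} = 4 := by decide +kernel

end Four

end Pool.Agent.Helper501.Haus

namespace Pool.Agent.Helper501.Haus

open Equiv Filter Topology

section FourD

/-- All label vectors with entries in the Klein four group occur on level `n`. -/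
def V4full (G : Subgroup (Portrait (Fin 4))) (n : ℕ) : Prop :=
  ∀ k : Wd (Fin 4) n → Perm (Fin 4), (∀ w, sg (k w) = 0 ∧ th (k w) = 0) → k ∈ KK G n

/-- The rotation parts on level `n` separate the words of length `n`. -/
def Sep (G : Subgroup (Portrait (Fin 4))) (n : ℕ) : Prop :=
  (∀ w, ∃ k ∈ KK G n, (∀ u, sg (k u) = 0) ∧ th (k w) ≠ 0) ∧
  ∀ w w', w ≠ w' → ∃ k ∈ KK G n, (∀ u, sg (k u) = 0) ∧ th (k w) ≠ 0 ∧ th (k w') = 0

/-- Signs in `ZMod 3`. -/
def sgn3 (a : ZMod 2) : ZMod 3 := if a = 0 then 1 else -1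

theorem sgn3_add : ∀ a b : ZMod 2, sgn3 (a + b) = sgn3 a * sgn3 b := by decide
theorem sgn3_mul_self : ∀ a : ZMod 2, sgn3 a * sgn3 a = 1 := by decide
theorem sgn3_ne_zero : ∀ a : ZMod 2, sgn3 a ≠ 0 := by decide

/-- Cocycles of `G` with values in the functions on words of length `m`. -/
def Coc {X : Type} (G : Subgroup (Portrait X)) {m : ℕ} (c : Portrait X → Wd X m → ZMod 2) : Prop :=
  ∀ g ∈ G, ∀ h ∈ G, ∀ w, c (g * h) w = c g (lev h m w) + c h w

/-- Invariance under the twisted action. -/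
def TInv {X : Type} (G : Subgroup (Portrait X)) {m : ℕ} (c : Portrait X → Wd X m → ZMod 2)
    (T : Submodule (ZMod 3) (Wd X m → ZMod 3)) : Prop :=
  ∀ g ∈ G, ∀ f ∈ T, (fun w => sgn3 (c g w) * f (lev g m w)) ∈ T

/-- Initial part of length `m` of a word of length `m + i`. -/
def pre {X : Type} {m : ℕ} : (i : ℕ) → Wd X (m + i) → Wd X m
  | 0, v => v
  | i + 1, v => pre i (ini v)

theorem pre_lev {X : Type} {m : ℕ} (g : Portrait X) (i : ℕ) (v : Wd X (m + i)) :
    pre i (lev g (m + i) v) = lev g m (pre i v) := by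
  induction i with
  | zero => rfl
  | succ i ih => exact ih (ini v)

/-- The rotation vectors of the even label vectors on level `n`. -/
def TT (G : Subgroup (Portrait (Fin 4))) (n : ℕ) : Submodule (ZMod 3) (Wd (Fin 4) n → ZMod 3) :=
  AddSubgroup.toZModSubmodule 3
    { carrier := {f | ∃ k ∈ KK G n, (∀ w, sg (k w) = 0) ∧ f = fun w => th (k w)}
      add_mem' := by
        rintro _ _ ⟨k, hk, hk0, rfl⟩ ⟨l, hl, hl0, rfl⟩
        refine ⟨k * l, mul_mem hk hl, ?_, ?_⟩
        · intro w; rw [Pi.mul_apply, sg_mul, hk0, hl0, add_zero]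
        · funext w; rw [Pi.mul_apply, th_mul, if_pos (hl0 w |> fun _ => hk0 w)]; rfl
      zero_mem' := ⟨1, one_mem _, fun w => sg_one, by funext w; show (0 : ZMod 3) = th 1; decide⟩
      neg_mem' := by
        rintro _ ⟨k, hk, hk0, rfl⟩
        refine ⟨k⁻¹, inv_mem hk, ?_, ?_⟩
        · intro w; rw [Pi.inv_apply, sg_inv, hk0]
        · funext w; rw [Pi.inv_apply, th_inv, if_pos (hk0 w)]; rfl }

theorem mem_TT {G : Subgroup (Portrait (Fin 4))} {n : ℕ} {f : Wd (Fin 4) n → ZMod 3} :
    f ∈ TT G n ↔ ∃ k ∈ KK G n, (∀ w, sg (k w) = 0) ∧ f = fun w => th (k w) := Iff.rfl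

theorem th_conj : ∀ σ τ : Perm (Fin 4), sg τ = 0 → th (σ * τ * σ⁻¹) = sgn3 (sg σ) * th τ := by
  decide +kernel

/-- The sign cocycle. -/
def scoc {X : Type} [Fintype X] [DecidableEq X] (n : ℕ) (g : Portrait X) (w : Wd X n) : ZMod 2 := sg (g.lab n w)

theorem coc_scoc {X : Type} [Fintype X] [DecidableEq X] (G : Subgroup (Portrait X)) (n : ℕ) :
    Coc G (scoc (X := X) n) := by
  intro g _ h _ w
  show sg ((g * h).lab n w) = _
  rw [mul_lab, sg_mul]; rfl

theorem tinv_TT (G : Subgroup (Portrait (Fin 4))) (n : ℕ) : TInv G (scoc n) (TT G n) := by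
  rintro g hg _ ⟨k, hk, hk0, rfl⟩
  refine ⟨_, KK_conj hk (inv_mem hg), ?_, ?_⟩
  · intro w; rw [sg_conj]; exact hk0 _
  · funext w
    rw [th_conj _ _ (hk0 _)]
    have h1 : (lev g⁻¹ n).symm w = lev g n w := by rw [lev_inv]; rfl
    have h2 : g⁻¹.lab n (lev g n w) = (g.lab n w)⁻¹ := by
      rw [inv_lab, Equiv.symm_apply_apply]
    rw [h1, h2, sg_inv]; rfl

end FourD

end Pool.Agent.Helper501.Haus

namespace Pool.Agent.Helper501.Haus

open Equiv Filter Topology

/-- The sign cocycle on level `m + i` is, up to a gauge, pulled back from level `m`. -/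
def Red (G : Subgroup (Portrait (Fin 4))) (m i : ℕ) : Prop :=
  ∃ (φ : Wd (Fin 4) (m + i) → ZMod 2) (c : Portrait (Fin 4) → Wd (Fin 4) m → ZMod 2),
    ∀ g ∈ G, ∀ v, scoc (m + i) g v + φ v + φ (lev g (m + i) v) = c g (pre i v)

end Pool.Agent.Helper501.Haus

namespace Pool.Agent.Helper501.Haus

open Equiv Filter Topology

section FamSec

variable {X : Type}

/-- A family of label groups defining a self-similar group. -/
structure Fam (X : Type) where
  L : (n : ℕ) → Subgroup (Wd X n → Perm X)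
  hcons : ∀ n, ∀ k ∈ L (n + 1), ∀ x : X, (fun w => k (cons x n w)) ∈ L n
  hinv : ∀ n, ∀ k ∈ L n, ∀ b : Portrait X, (∀ j < n, b.lab j ∈ L j) → (fun w => k (lev b n w)) ∈ L n

theorem Fam.inv_lab_mem (F : Fam X) {a : Portrait X} (ha : ∀ n, a.lab n ∈ F.L n) (n : ℕ) :
    (a⁻¹).lab n ∈ F.L n := by
  induction n using Nat.strong_induction_on with
  | _ n ih =>
    have h1 := F.hinv n _ (ha n) a⁻¹ ih
    have h2 := inv_mem h1
    convert h2 using 1
    funext w
    rw [inv_lab, lev_inv]; rfl

/-- The group of finitary elements with labels in the family. -/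
def GF (F : Fam X) : Subgroup (Portrait X) where
  carrier := {a | (∀ n, a.lab n ∈ F.L n) ∧ ∃ N, ∀ n, N ≤ n → a.lab n = 1}
  mul_mem' := by
    rintro a b ⟨ha, N, hN⟩ ⟨hb, M, hM⟩
    refine ⟨fun n => mul_mem (F.hinv n _ (ha n) b (fun j _ => hb j)) (hb n), max N M, fun n hn => ?_⟩
    funext w
    rw [mul_lab, hN n (le_trans (le_max_left _ _) hn), hM n (le_trans (le_max_right _ _) hn)]
    rfl
  one_mem' := ⟨fun n => one_mem _, 0, fun n _ => rfl⟩
  inv_mem' := by
    rintro a ⟨ha, N, hN⟩
    refine ⟨F.inv_lab_mem ha, N, fun n hn => ?_⟩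
    funext w
    rw [inv_lab, hN n hn]; simp

theorem ss_GF (F : Fam X) : SS (GF F) := by
  rintro a ⟨ha, N, hN⟩ x
  refine ⟨fun n => F.hcons n _ (ha (n + 1)) x, N, fun n hn => ?_⟩
  funext w
  rw [sec_lab, hN (n + 1) (by omega)]; rfl

theorem KK_GF (F : Fam X) (n : ℕ) : KK (GF F) n = F.L n := by
  ext k
  constructor
  · rintro ⟨a, ⟨ha, _⟩, _, rfl⟩
    exact ha n
  · intro hk
    refine ⟨⟨Function.update (fun _ => 1) n k⟩, ⟨?_, n + 1, ?_⟩, ?_, ?_⟩
    · intro m
      by_cases h : m = n
      · subst h; simpa using hk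
      · simp only [Function.update_of_ne h]; exact one_mem _
    · intro m hm
      simp only [Function.update_of_ne (show m ≠ n by omega)]
    · intro m hm
      simp only [Function.update_of_ne (show m ≠ n by omega)]
    · simp

/-- Iterated sections. -/
def secL (a : Portrait X) : List X → Portrait X
  | [] => a
  | x :: w => secL (sec a x) w

/-- Contracting groups of portraits. -/
def Contr (G : Subgroup (Portrait X)) : Prop :=
  ∃ N : Set (Portrait X), N.Finite ∧ N ⊆ G ∧ ∀ g ∈ G, ∃ k : ℕ, ∀ w : List X, k ≤ w.length → secL g w ∈ N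

theorem contr_GF (F : Fam X) : Contr (GF F) := by
  refine ⟨{1}, Set.finite_singleton _, by simpa using one_mem _, ?_⟩
  rintro a ⟨ha, N, hN⟩
  refine ⟨N, ?_⟩
  clear ha
  induction N generalizing a with
  | zero =>
    have key : ∀ b : Portrait X, (∀ n, b.lab n = 1) → ∀ w : List X, secL b w = 1 := by
      intro b hb w
      induction w generalizing b with
      | nil => ext n v x; show (b.lab n v) x = _; rw [hb n]; rfl
      | cons x w ih =>
        apply ih
        intro n
        funext v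
        rw [sec_lab, hb (n + 1)]; rfl
    intro w _
    exact key a (fun n => hN n (Nat.zero_le _)) w
  | succ N ih =>
    intro w hw
    cases w with
    | nil => simp at hw
    | cons x w =>
      refine ih (a := sec a x) ?_ w (by simpa using hw)
      intro n hn
      funext v
      rw [sec_lab, hN (n + 1) (by omega)]; rfl

end FamSec

end Pool.Agent.Helper501.Haus

namespace Pool.Agent.Helper501.Haus

section JobOne

open Equiv Equiv.Perm

namespace Job124

variable {X Y : Type} [Fintype X] [DecidableEq X] [Fintype Y] [DecidableEq Y]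

/-- The centraliser of the alternating group is trivial. -/
lemma centralizer_alt (hd : 5 ≤ Fintype.card X) (n : Perm X)
    (h : ∀ a ∈ alternatingGroup X, n * a = a * n) : n = 1 := by
  by_contra hn
  obtain ⟨x, hx⟩ : ∃ x, n x ≠ x := by
    by_contra hc
    push Not at hc
    exact hn (Equiv.ext hc)
  obtain ⟨z, hz⟩ : ∃ z, z ∉ ({x, n x} : Finset X) := by
    by_contra hc
    push Not at hc
    have : Fintype.card X ≤ 2 := by
      rw [← Finset.card_univ]
      exact (Finset.card_le_card (fun y _ => hc y)).trans Finset.card_le_two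
    omega
  obtain ⟨w, hw⟩ : ∃ w, w ∉ ({x, n x, z} : Finset X) := by
    by_contra hc
    push Not at hc
    have : Fintype.card X ≤ 3 := by
      rw [← Finset.card_univ]
      exact (Finset.card_le_card (fun y _ => hc y)).trans Finset.card_le_three
    omega
  simp only [Finset.mem_insert, Finset.mem_singleton, not_or] at hz hw
  have ha : swap x z * swap x w ∈ alternatingGroup X := by
    rw [mem_alternatingGroup, Perm.sign_mul, sign_swap (Ne.symm hz.1), sign_swap (Ne.symm hw.1)]
    decide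
  have h1 := congrArg (fun f : Perm X => f x) (h _ ha)
  simp only [Perm.mul_apply, swap_apply_left] at h1
  -- LHS: n (swap x z (w)) = n w ; RHS : swap x z (swap x w (n x)) = n x
  rw [swap_apply_of_ne_of_ne hw.1 hw.2.2] at h1
  rw [swap_apply_of_ne_of_ne hx (Ne.symm hw.2.1), swap_apply_of_ne_of_ne hx (Ne.symm hz.2)] at h1
  exact hw.1 (n.injective h1)

/-- A nontrivial subgroup normalised by the alternating group contains it. -/
lemma alt_le_of_normalized (hd : 5 ≤ Fintype.card X) (N : Subgroup (Perm X))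
    (hN : ∀ a ∈ alternatingGroup X, ∀ n ∈ N, a * n * a⁻¹ ∈ N) (hne : N ≠ ⊥) :
    alternatingGroup X ≤ N := by
  have h5 : 5 ≤ Nat.card X := by rwa [Nat.card_eq_fintype_card]
  have hsimple := alternatingGroup.isSimpleGroup (α := X) h5
  let M : Subgroup (alternatingGroup X) := N.comap (alternatingGroup X).subtype
  have hM : M.Normal := by
    constructor
    intro m hm g
    exact hN g.1 g.2 m.1 hm
  rcases hM.eq_bot_or_eq_top with hb | ht
  · exfalso
    apply hne
    rw [eq_bot_iff]
    intro n hn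
    rw [Subgroup.mem_bot]
    refine centralizer_alt hd n fun a ha => ?_
    have h1 : n * a * n⁻¹ * a⁻¹ ∈ N := by
      have h2 := hN a ha n⁻¹ (N.inv_mem hn)
      have h3 := N.mul_mem hn h2
      have h4 : n * (a * n⁻¹ * a⁻¹) = n * a * n⁻¹ * a⁻¹ := by group
      rwa [h4] at h3
    have h2 : n * a * n⁻¹ * a⁻¹ ∈ alternatingGroup X := by
      rw [mem_alternatingGroup] at ha ⊢
      simp [ha]
    have h3 : (⟨_, h2⟩ : alternatingGroup X) ∈ M := h1
    rw [hb, Subgroup.mem_bot] at h3
    have h4 : n * a * n⁻¹ * a⁻¹ = 1 := congrArg Subtype.val h3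
    have h5 := mul_eq_one_iff_eq_inv.1 h4
    rw [inv_inv] at h5
    calc n * a = n * a * n⁻¹ * n := by group
      _ = a * n := by rw [h5]
  · intro a ha
    have : (⟨a, ha⟩ : alternatingGroup X) ∈ M := by rw [ht]; trivial
    exact this

/-- A subgroup of order bigger than `(d-1)!` contains the alternating group. -/
lemma alt_le_of_card (hd : 5 ≤ Fintype.card X) (P : Subgroup (Perm X))
    (hP : (Fintype.card X - 1).factorial < Nat.card P) : alternatingGroup X ≤ P := by
  have h5 : 5 ≤ Nat.card X := by rwa [Nat.card_eq_fintype_card]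
  refine le_trans ?_ P.normalCore_le
  apply alternatingGroup_le_of_normal h5
  rw [Subgroup.nontrivial_iff_ne_bot]
  intro hbot
  rw [Subgroup.normalCore_eq_ker] at hbot
  have hinj : Function.Injective (MulAction.toPermHom (Perm X) (Perm X ⧸ P)) :=
    (MonoidHom.ker_eq_bot_iff _).1 hbot
  have h1 := Nat.card_le_card_of_injective _ hinj
  rw [Nat.card_perm, Nat.card_perm, Nat.card_eq_fintype_card (α := X)] at h1
  have h2 : Nat.card (Perm X ⧸ P) * Nat.card P = (Fintype.card X).factorial := by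
    have h3 := P.index_mul_card
    rw [Subgroup.index, Nat.card_perm, Nat.card_eq_fintype_card (α := X)] at h3
    exact h3
  have h3 : Fintype.card X ≤ Nat.card (Perm X ⧸ P) := by
    by_contra hc
    push Not at hc
    have := Nat.factorial_le (show Nat.card (Perm X ⧸ P) ≤ Fintype.card X - 1 by omega)
    have h4 : (Fintype.card X - 1).factorial < (Fintype.card X).factorial :=
      Nat.factorial_lt_of_lt (by omega) (by omega)
    omega
  have h4 : (Fintype.card X).factorial = Fintype.card X * (Fintype.card X - 1).factorial :=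
    (Nat.mul_factorial_pred (by omega)).symm
  rw [h4] at h2
  have h5' : Fintype.card X * (Fintype.card X - 1).factorial
      < Nat.card (Perm X ⧸ P) * Nat.card P := by
    calc _ < Fintype.card X * Nat.card P := Nat.mul_lt_mul_of_pos_left hP (by omega)
      _ ≤ _ := Nat.mul_le_mul_right _ h3
  omega

variable (K : Subgroup (Y → Perm X))

/-- evaluation -/
def ev (v : Y) : (Y → Perm X) →* Perm X := Pi.evalMonoidHom (fun _ => Perm X) v

/-- elements that are trivial on `S` -/
def res (S : Finset Y) : Subgroup (Y → Perm X) where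
  carrier := {k | k ∈ K ∧ ∀ y ∈ S, k y = 1}
  one_mem' := ⟨K.one_mem, fun y _ => rfl⟩
  mul_mem' := by
    rintro a b ⟨ha, ha'⟩ ⟨hb, hb'⟩
    exact ⟨K.mul_mem ha hb, fun y hy => by rw [Pi.mul_apply, ha' y hy, hb' y hy, one_mul]⟩
  inv_mem' := by
    rintro a ⟨ha, ha'⟩
    exact ⟨K.inv_mem ha, fun y hy => by rw [Pi.inv_apply, ha' y hy, inv_one]⟩

lemma card_le_prod : Nat.card K ≤ ∏ v : Y, Nat.card (K.map (ev v)) := by
  rw [← Nat.card_pi]
  refine Nat.card_le_card_of_injective
    (fun (k : K) (v : Y) => (⟨k.1 v, Subgroup.mem_map_of_mem _ k.2⟩ : K.map (ev v))) ?_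
  intro a b hab
  apply Subtype.ext
  funext v
  exact congrArg Subtype.val (congrFun hab v)

lemma exists_big (hcard : (Fintype.card X - 1).factorial ^ Fintype.card Y < Nat.card K) :
    ∃ v, (Fintype.card X - 1).factorial < Nat.card (K.map (ev v)) := by
  by_contra hc
  push Not at hc
  have h1 : ∏ v : Y, Nat.card (K.map (ev v)) ≤ ∏ _v : Y, (Fintype.card X - 1).factorial :=
    Finset.prod_le_prod' fun v _ => hc v
  rw [Finset.prod_const, Finset.card_univ] at h1
  have := card_le_prod K
  omega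

variable {K}

/-- Case A. -/
lemma caseA (hd : 5 ≤ Fintype.card X) (hbig : ∀ v, alternatingGroup X ≤ K.map (ev v))
    (hA : ∀ v w : Y, v ≠ w → ∃ k ∈ K, k w = 1 ∧ k v ≠ 1) :
    ∀ k : Y → Perm X, (∀ y, sign (k y) = 1) → k ∈ K := by
  classical
  have h5 : 5 ≤ Nat.card X := by rwa [Nat.card_eq_fintype_card]
  -- single coordinate step
  have hsingle : ∀ v w : Y, v ≠ w → ∀ a ∈ alternatingGroup X, ∃ k ∈ K, k w = 1 ∧ k v = a := by
    intro v w hvw
    have hle : alternatingGroup X ≤ (res K {w}).map (ev v) := by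
      apply alt_le_of_normalized hd
      · rintro a ha _ ⟨k, ⟨hk, hk'⟩, rfl⟩
        obtain ⟨g, hg, hga⟩ := hbig v ha
        refine ⟨g * k * g⁻¹, ⟨K.mul_mem (K.mul_mem hg hk) (K.inv_mem hg), ?_⟩, ?_⟩
        · intro y hy
          rw [Pi.mul_apply, Pi.mul_apply, hk' y hy, Pi.inv_apply, mul_one, mul_inv_cancel]
        · rw [map_mul, map_mul, hga, map_inv, hga]
      · obtain ⟨k, hk, hkw, hkv⟩ := hA v w hvw
        intro hbot
        have : (ev v k) ∈ (res K {w}).map (ev v) :=
          Subgroup.mem_map_of_mem _ ⟨hk, fun y hy => by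
            rw [Finset.mem_singleton] at hy; rw [hy]; exact hkw⟩
        rw [hbot, Subgroup.mem_bot] at this
        exact hkv this
    intro a ha
    obtain ⟨k, ⟨hk, hk'⟩, hka⟩ := hle ha
    exact ⟨k, hk, hk' w (Finset.mem_singleton_self w), hka⟩
  have hall : ∀ v : Y, ∀ S : Finset Y, v ∉ S → alternatingGroup X ≤ (res K S).map (ev v) := by
    intro v S
    induction S using Finset.induction_on with
    | empty =>
      intro _ a ha
      obtain ⟨k, hk, hka⟩ := hbig v ha
      exact ⟨k, ⟨hk, fun y hy => absurd hy (Finset.notMem_empty y)⟩, hka⟩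
    | insert w S hw ih =>
      intro hv
      rw [Finset.mem_insert, not_or] at hv
      have ih' := ih hv.2
      rw [← commutator_alternatingGroup_eq_self h5, Subgroup.commutator_le]
      intro a ha b hb
      obtain ⟨x, ⟨hx, hx'⟩, hxa⟩ := ih' ha
      obtain ⟨y, hy, hyw, hyb⟩ := hsingle v w hv.1 b hb
      refine ⟨x * y * x⁻¹ * y⁻¹, ⟨?_, ?_⟩, ?_⟩
      · exact K.mul_mem (K.mul_mem (K.mul_mem hx hy) (K.inv_mem hx)) (K.inv_mem hy)
      · intro z hz
        rw [Finset.mem_insert] at hz
        rw [Pi.mul_apply, Pi.mul_apply, Pi.mul_apply, Pi.inv_apply, Pi.inv_apply]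
        rcases hz with rfl | hz
        · rw [hyw]; simp
        · rw [hx' z hz]; simp
      · have hyb' : ev v y = b := hyb
        rw [commutatorElement_def, map_mul, map_mul, map_mul, map_inv, map_inv, hxa, hyb']
  have hmem : ∀ (v : Y) (a : Perm X), a ∈ alternatingGroup X →
      (Pi.mulSingle v a : Y → Perm X) ∈ K := by
    intro v a ha
    obtain ⟨k, ⟨hk, hk'⟩, hka⟩ := hall v (Finset.univ.erase v) (Finset.notMem_erase _ _) ha
    have : (Pi.mulSingle v a : Y → Perm X) = k := by
      funext y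
      by_cases hy : y = v
      · subst hy
        rw [Pi.mulSingle_eq_same]; exact hka.symm
      · rw [Pi.mulSingle_eq_of_ne hy, hk' y (Finset.mem_erase.2 ⟨hy, Finset.mem_univ _⟩)]
    rw [this]; exact hk
  intro k hk
  exact Subgroup.pi_mem_of_mulSingle_mem k fun y => hmem y (k y) (mem_alternatingGroup.2 (hk y))

/-- kernel of an evaluation -/
def ker1 (K : Subgroup (Y → Perm X)) (v : Y) : Set (Y → Perm X) := {k | k ∈ K ∧ k v = 1}

lemma card_ev (v : Y) : Nat.card (K.map (ev v)) * (ker1 K v).ncard = Nat.card K := by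
  have h := Subgroup.card_eq_card_quotient_mul_card_subgroup ((ev v).comp K.subtype).ker
  have e1 : Nat.card (K ⧸ ((ev v).comp K.subtype).ker) = Nat.card (K.map (ev v)) := by
    rw [Nat.card_congr (QuotientGroup.quotientKerEquivRange ((ev v).comp K.subtype)).toEquiv]
    rw [← MonoidHom.map_range, Subgroup.range_subtype]
  have e2 : Nat.card ((ev v).comp K.subtype).ker = (ker1 K v).ncard := by
    rw [← Nat.card_coe_set_eq]
    refine Nat.card_congr ⟨fun k => ⟨k.1.1, k.1.2, k.2⟩, fun k => ⟨⟨k.1, k.2.1⟩, k.2.2⟩, ?_, ?_⟩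
    · intro k; rfl
    · intro k; rfl
  rw [e1, e2] at h
  exact h.symm

lemma caseB (hd : 5 ≤ Fintype.card X)
    (htrans : ∀ v v' : Y, ∃ (σ : Perm Y) (c : Y → Perm X), σ v = v' ∧
      ∀ k ∈ K, (fun y => c (σ.symm y) * k (σ.symm y) * (c (σ.symm y))⁻¹) ∈ K)
    {v w : Y} (hvw : v ≠ w) (hker : ker1 K v = ker1 K w) :
    Nat.card K ≤ (Fintype.card X - 1).factorial ^ Fintype.card Y := by
  classical
  -- every class has at least two elements
  have htwo : ∀ v' : Y, ∃ w' : Y, w' ≠ v' ∧ ker1 K w' = ker1 K v' := by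
    intro v'
    obtain ⟨σ, c, hσ, hK⟩ := htrans v v'
    let Φ : K → K := fun k => ⟨_, hK k.1 k.2⟩
    have hΦ : Function.Injective Φ := by
      intro a b hab
      apply Subtype.ext
      funext y
      have h1 : c (σ.symm (σ y)) * a.1 (σ.symm (σ y)) * (c (σ.symm (σ y)))⁻¹
          = c (σ.symm (σ y)) * b.1 (σ.symm (σ y)) * (c (σ.symm (σ y)))⁻¹ :=
        congrFun (congrArg Subtype.val hab) (σ y)
      rw [Equiv.symm_apply_apply] at h1
      exact mul_left_cancel (mul_right_cancel h1)
    have hsurj : Function.Surjective Φ := Finite.surjective_of_injective hΦ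
    have hval : ∀ (k : K) (y : Y), (Φ k).1 (σ y) = 1 ↔ k.1 y = 1 := by
      intro k y
      show c (σ.symm (σ y)) * k.1 (σ.symm (σ y)) * (c (σ.symm (σ y)))⁻¹ = 1 ↔ _
      rw [Equiv.symm_apply_apply]
      constructor
      · intro h
        have h2 := mul_inv_eq_one.1 h
        exact mul_left_cancel (h2.trans (mul_one _).symm)
      · intro h
        rw [h, mul_one, mul_inv_cancel]
    have hgen : ∀ y z : Y, ker1 K y = ker1 K z → ker1 K (σ y) ⊆ ker1 K (σ z) := by
      rintro y z hyz k' ⟨hk', h1⟩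
      obtain ⟨k, hk⟩ := hsurj ⟨k', hk'⟩
      have hk2 : (Φ k).1 = k' := congrArg Subtype.val hk
      refine ⟨hk', ?_⟩
      rw [← hk2] at h1 ⊢
      rw [hval] at h1 ⊢
      have : k.1 ∈ ker1 K y := ⟨k.2, h1⟩
      rw [hyz] at this
      exact this.2
    refine ⟨σ w, ?_, ?_⟩
    · intro h
      rw [← hσ] at h
      exact hvw (σ.injective h).symm
    · rw [← hσ]
      exact Set.Subset.antisymm (hgen w v hker.symm) (hgen v w hker)
  set t : Finset (Set (Y → Perm X)) := Finset.univ.image (ker1 K) with ht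
  have hm : 2 * t.card ≤ Fintype.card Y := by
    rw [ht, ← Finset.card_univ]
    apply Finset.mul_card_image_le_card
    intro b hb
    obtain ⟨v', -, rfl⟩ := Finset.mem_image.1 hb
    obtain ⟨w', hw', hw2⟩ := htwo v'
    have hsub : ({w', v'} : Finset Y) ⊆ Finset.univ.filter (fun a => ker1 K a = ker1 K v') := by
      intro z hz
      rw [Finset.mem_insert, Finset.mem_singleton] at hz
      rw [Finset.mem_filter]
      rcases hz with rfl | rfl
      · exact ⟨Finset.mem_univ _, hw2⟩
      · exact ⟨Finset.mem_univ _, rfl⟩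
    have := Finset.card_le_card hsub
    rwa [Finset.card_pair hw'] at this
  have hrep : ∀ c : t, ∃ y : Y, ker1 K y = c.1 := by
    intro c
    obtain ⟨y, -, hy⟩ := Finset.mem_image.1 c.2
    exact ⟨y, hy⟩
  choose rep hrep using hrep
  have hcardK : Nat.card K ≤ (Fintype.card X).factorial ^ t.card := by
    have h1 : Function.Injective (fun (k : K) (c : t) => k.1 (rep c)) := by
      intro a b hab
      apply Subtype.ext
      funext y
      have hy : ker1 K y ∈ t := Finset.mem_image_of_mem _ (Finset.mem_univ y)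
      have h2 : a.1 (rep ⟨_, hy⟩) = b.1 (rep ⟨_, hy⟩) := congrFun hab ⟨_, hy⟩
      have h3 : (a.1)⁻¹ * b.1 ∈ ker1 K (rep ⟨_, hy⟩) := by
        refine ⟨K.mul_mem (K.inv_mem a.2) b.2, ?_⟩
        rw [Pi.mul_apply, Pi.inv_apply, h2, inv_mul_cancel]
      rw [hrep] at h3
      have h4 := h3.2
      rw [Pi.mul_apply, Pi.inv_apply] at h4
      exact (inv_mul_eq_one.1 h4)
    have h2 := Nat.card_le_card_of_injective _ h1
    rw [Nat.card_fun, Nat.card_perm, Nat.card_eq_fintype_card (α := X),
      Nat.card_eq_fintype_card (α := t), Fintype.card_coe] at h2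
    exact h2
  refine hcardK.trans ?_
  have h6 : Fintype.card X ≤ (Fintype.card X - 1).factorial := by
    obtain ⟨e, he⟩ := Nat.exists_eq_add_of_le hd
    rw [he, show 5 + e - 1 = (e + 3) + 1 by omega, Nat.factorial_succ]
    have h7 : 2 ≤ (e + 3).factorial := by
      calc 2 = Nat.factorial 2 := rfl
        _ ≤ _ := Nat.factorial_le (by omega)
    nlinarith
  have h7 : (Fintype.card X).factorial ≤ (Fintype.card X - 1).factorial ^ 2 := by
    rw [← Nat.mul_factorial_pred (show Fintype.card X ≠ 0 by omega), pow_two]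
    exact Nat.mul_le_mul_right _ h6
  calc (Fintype.card X).factorial ^ t.card
      ≤ ((Fintype.card X - 1).factorial ^ 2) ^ t.card := Nat.pow_le_pow_left h7 _
    _ = (Fintype.card X - 1).factorial ^ (2 * t.card) := by rw [pow_mul]
    _ ≤ _ := Nat.pow_le_pow_right (Nat.factorial_pos _) hm

end Job124

/-- Target. `K` is a subgroup of the power `(Perm X)^Y`, `5 ≤ |X|`, which is invariant under a family of
twisted coordinate permutations that acts transitively on `Y`. If `K` is big then it contains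
the whole power of the alternating group. -/
theorem perm_product_big {X Y : Type} [Fintype X] [DecidableEq X] [Fintype Y] [DecidableEq Y]
    (hd : 5 ≤ Fintype.card X) (K : Subgroup (Y → Perm X))
    (htrans : ∀ v v' : Y, ∃ (σ : Perm Y) (c : Y → Perm X), σ v = v' ∧
      ∀ k ∈ K, (fun y => c (σ.symm y) * k (σ.symm y) * (c (σ.symm y))⁻¹) ∈ K)
    (hcard : (Fintype.card X - 1).factorial ^ Fintype.card Y < Nat.card K) :
    ∀ k : Y → Perm X, (∀ y, sign (k y) = 1) → k ∈ K := by
  classical
  obtain ⟨v0, hv0⟩ := Job124.exists_big K hcard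
  have hle : ∀ v v' : Y, Nat.card (K.map (Job124.ev v)) ≤ Nat.card (K.map (Job124.ev v')) := by
    intro v v'
    obtain ⟨σ, c, hσ, hK⟩ := htrans v v'
    have hmem : ∀ p ∈ K.map (Job124.ev v), c v * p * (c v)⁻¹ ∈ K.map (Job124.ev v') := by
      rintro _ ⟨k, hk, rfl⟩
      refine ⟨_, hK k hk, ?_⟩
      show c (σ.symm v') * k (σ.symm v') * (c (σ.symm v'))⁻¹ = _
      rw [← hσ, Equiv.symm_apply_apply]
      rfl
    refine Nat.card_le_card_of_injective
      (fun p : K.map (Job124.ev v) => (⟨_, hmem p.1 p.2⟩ : K.map (Job124.ev v'))) ?_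
    intro a b hab
    have := congrArg Subtype.val hab
    exact Subtype.ext (mul_left_cancel (mul_right_cancel this))
  have hbig : ∀ v, alternatingGroup X ≤ K.map (Job124.ev v) := fun v =>
    Job124.alt_le_of_card hd _ (lt_of_lt_of_le hv0 (hle v0 v))
  by_cases hA : ∀ v w : Y, v ≠ w → ∃ k ∈ K, k w = 1 ∧ k v ≠ 1
  · exact Job124.caseA hd hbig hA
  · exfalso
    push Not at hA
    obtain ⟨v, w, hvw, hk⟩ := hA
    have hsub : Job124.ker1 K w ⊆ Job124.ker1 K v := fun k hk' => ⟨hk'.1, hk k hk'.1 hk'.2⟩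
    have hcv := Job124.card_ev (K := K) v
    have hcw := Job124.card_ev (K := K) w
    rw [le_antisymm (hle v w) (hle w v)] at hcv
    have hpos : 0 < Nat.card (K.map (Job124.ev w)) := Nat.card_pos
    have heq : (Job124.ker1 K v).ncard = (Job124.ker1 K w).ncard :=
      Nat.eq_of_mul_eq_mul_left hpos (hcv.trans hcw.symm)
    have hker : Job124.ker1 K v = Job124.ker1 K w :=
      (Set.eq_of_subset_of_ncard_le hsub heq.le (Set.toFinite _)).symm
    have := Job124.caseB hd htrans hvw hker
    omega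

end JobOne

end Pool.Agent.Helper501.Haus

namespace Pool.Agent.Helper501.Haus

open Equiv Filter Topology

section Up

variable {X : Type} [Fintype X] [DecidableEq X]

theorem htrans_KK {G : Subgroup (Portrait X)} {n : ℕ} (hT : Trans G n) (v v' : Wd X n) :
    ∃ (σ : Perm (Wd X n)) (c : Wd X n → Perm X), σ v = v' ∧
      ∀ k ∈ KK G n, (fun y => c (σ.symm y) * k (σ.symm y) * (c (σ.symm y))⁻¹) ∈ KK G n := by
  obtain ⟨g, hg, hgv⟩ := hT v v'
  exact ⟨lev g n, g.lab n, hgv, fun k hk => KK_conj hk hg⟩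

/-- Even permutations are transitive. -/
theorem exists_even (hX : 3 ≤ Fintype.card X) (x y : X) : ∃ c : Perm X, Perm.sign c = 1 ∧ c x = y := by
  by_cases h : x = y
  · exact ⟨1, map_one _, h⟩
  · obtain ⟨z, hz1, hz2⟩ := exists_third hX x y
    obtain ⟨c, hc0, hc1, _⟩ := exists_cyc x y z h hz2.symm hz1
    exact ⟨c, hc0, hc1⟩

theorem trans_succ_of_alt (hX : 3 ≤ Fintype.card X) {G : Subgroup (Portrait X)} {n : ℕ} (hT : Trans G n)
    (hK : ∀ k : Wd X n → Perm X, (∀ w, Perm.sign (k w) = 1) → k ∈ KK G n) : Trans G (n + 1) := by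
  refine trans_succ hT fun w x y => ?_
  obtain ⟨c, hc0, hc1⟩ := exists_even hX x y
  exact ⟨fun _ => c, hK _ fun _ => hc0, hc1⟩

theorem alt_full (hX : 5 ≤ Fintype.card X) {G : Subgroup (Portrait X)}
    (hbig : ∀ n, (Fintype.card X - 1).factorial ^ Fintype.card X ^ n < Nat.card (KK G n)) (n : ℕ) :
    Trans G n ∧ ∀ k : Wd X n → Perm X, (∀ w, Perm.sign (k w) = 1) → k ∈ KK G n := by
  induction n with
  | zero =>
    refine ⟨trans_zero G, ?_⟩
    refine perm_product_big hX _ (htrans_KK (trans_zero G)) ?_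
    rw [card_Wd]; exact hbig 0
  | succ n ih =>
    have hT := trans_succ_of_alt (by omega) ih.1 ih.2
    refine ⟨hT, ?_⟩
    refine perm_product_big hX _ (htrans_KK hT) ?_
    rw [card_Wd]; exact hbig _

/-- Big label groups from a big limit. -/
theorem card_big_of_lim {G : Subgroup (Portrait X)} {v : ℝ} (hv : ∀ n, v ≤ aa G n) {b : ℕ} (hb : 0 < b)
    [Nonempty X] (hlow : Real.log b < v) (n : ℕ) : b ^ Fintype.card X ^ n < Nat.card (KK G n) := by
  have h2 : (0 : ℝ) < Fintype.card X := by exact_mod_cast Fintype.card_pos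
  have h1 : Real.log b < Real.log (Nat.card (KK G n)) / (Fintype.card X : ℝ) ^ n := lt_of_lt_of_le hlow (hv n)
  rw [lt_div_iff₀ (by positivity)] at h1
  have h3 : Real.log ((b : ℝ) ^ (Fintype.card X ^ n)) < Real.log (Nat.card (KK G n)) := by
    rw [Real.log_pow]; push_cast; linarith
  have h4 := (Real.log_lt_log_iff (by positivity) (by exact_mod_cast Nat.card_pos)).mp h3
  exact_mod_cast h4

/-- Limit values when all label groups contain the alternating powers. -/
theorem lim_of_alt (hX : 3 ≤ Fintype.card X) {G : Subgroup (Portrait X)} {v : ℝ}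
    (hv : Tendsto (aa G) atTop (𝓝 v))
    (hA : ∀ n, Trans G n ∧ ∀ k : Wd X n → Perm X, (∀ w, Perm.sign (k w) = 1) → k ∈ KK G n) :
    ∃ c ∈ CD (Fintype.card X), v = Real.log (Fintype.card X).factorial - Real.log 2 + c * Real.log 2 := by
  haveI : Nontrivial X := Fintype.one_lt_card_iff_nontrivial.mp (by omega)
  have h2 : (0 : ℝ) < Fintype.card X := by exact_mod_cast Fintype.card_pos
  have hl : 0 < Real.log 2 := Real.log_pos (by norm_num)
  refine ⟨(v - (Real.log (Fintype.card X).factorial - Real.log 2)) / Real.log 2, ?_, ?_⟩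
  · refine mem_CD_of_tendsto (by omega) (e := fun n => Module.finrank (ZMod 2) (MM G n)) ?_ ?_
    · intro n
      exact dg_finrank n (fun j _ => dich_alt hX (hA j).1 (hA j).2) _ (inv_MM G n)
    · have h3 := (hv.sub_const (Real.log (Fintype.card X).factorial - Real.log 2)).div_const (Real.log 2)
      refine h3.congr fun n => ?_
      unfold aa
      rw [card_KK_of_alt (hA n).2]
      field_simp
      ring
  · field_simp
    ring

theorem upper_five (hX : 5 ≤ Fintype.card X) {G : Subgroup (Portrait X)} {v : ℝ}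
    (hv : Tendsto (aa G) atTop (𝓝 v)) (hv' : ∀ n, v ≤ aa G n)
    (hlow : Real.log (Fintype.card X - 1).factorial < v) :
    ∃ c ∈ CD (Fintype.card X), v = Real.log (Fintype.card X).factorial - Real.log 2 + c * Real.log 2 := by
  haveI : Nonempty X := Fintype.card_pos_iff.mp (by omega)
  exact lim_of_alt (by omega) hv
    (alt_full hX (fun n => card_big_of_lim hv' (Nat.factorial_pos _) hlow n))

end Up

end Pool.Agent.Helper501.Haus

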