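import Pool.Agent.Helper501.Haus.Base

namespace Pool.Agent.Helper501.Haus

open Equiv Filter Topology

section words

variable {X : Type}

/-- The word as a list. -/
def toL : {n : ℕ} → Wd X n → List X
  | 0, _ => []
  | _ + 1, q => toL (ini q) ++ [lst q]

theorem toL_zero (w : Wd X 0) : toL w = [] := rfl

theorem toL_sn {n : ℕ} (w : Wd X n) (x : X) : toL (sn w x) = toL w ++ [x] := rfl

theorem length_toL {n : ℕ} (w : Wd X n) : (toL w).length = n := by
  induction n with
  | zero => rfl
  | succ n ih =>
    obtain ⟨w, x, rfl⟩ := exists_sn w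
    rw [toL_sn, List.length_append, ih]; rfl

theorem toL_cons (x : X) (n : ℕ) (w : Wd X n) : toL (cons x n w) = x :: toL w := by
  induction n with
  | zero => rfl
  | succ n ih =>
    obtain ⟨w, y, rfl⟩ := exists_sn w
    rw [cons_sn, toL_sn, ih, toL_sn]; rfl

theorem toL_injective {n : ℕ} : Function.Injective (toL : Wd X n → List X) := by
  induction n with
  | zero => intro a b _; rfl
  | succ n ih =>
    intro a b h
    obtain ⟨a, x, rfl⟩ := exists_sn a
    obtain ⟨b, y, rfl⟩ := exists_sn b
    rw [toL_sn, toL_sn] at h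
    have h1 := List.append_inj' h rfl
    rw [ih h1.1, List.singleton_injective h1.2]

theorem exists_toL (l : List X) : ∃ w : Wd X l.length, toL w = l := by
  induction l with
  | nil => exact ⟨(), rfl⟩
  | cons x l ih =>
    obtain ⟨w, hw⟩ := ih
    exact ⟨cons x _ w, by rw [toL_cons, hw]⟩

theorem exists_toL' {n : ℕ} (l : List X) (h : l.length = n) : ∃ w : Wd X n, toL w = l := by
  subst h
  exact exists_toL l

/-- Action on lists. -/
def actL (a : Portrait X) : List X → List X
  | [] => []
  | x :: w => rt a x :: actL (sec a x) w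

theorem actL_nil (a : Portrait X) : actL a [] = [] := rfl
theorem actL_cons (a : Portrait X) (x : X) (w : List X) :
    actL a (x :: w) = rt a x :: actL (sec a x) w := rfl

theorem actL_toL (a : Portrait X) {n : ℕ} (w : Wd X n) : actL a (toL w) = toL (lev a n w) := by
  induction n generalizing a with
  | zero => rfl
  | succ n ih =>
    obtain ⟨x, w, rfl⟩ := exists_cons n w
    rw [toL_cons, actL_cons, ih, lev_cons, toL_cons]

theorem rt_mul (a b : Portrait X) (x : X) : rt (a * b) x = rt a (rt b x) := rfl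

theorem sec_mul (a b : Portrait X) (x : X) : sec (a * b) x = sec a (rt b x) * sec b x := by
  ext n w y
  rw [sec_lab, mul_lab, mul_lab, sec_lab, sec_lab, lev_cons]

theorem rt_one (x : X) : rt (1 : Portrait X) x = x := rfl

theorem sec_one (x : X) : sec (1 : Portrait X) x = 1 := rfl

theorem actL_mul (a b : Portrait X) (w : List X) : actL (a * b) w = actL a (actL b w) := by
  induction w generalizing a b with
  | nil => rfl
  | cons x w ih => rw [actL_cons, actL_cons, actL_cons, sec_mul, ih, rt_mul]

theorem actL_one (w : List X) : actL (1 : Portrait X) w = w := by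
  induction w with
  | nil => rfl
  | cons x w ih => rw [actL_cons, sec_one, ih, rt_one]

/-- The homomorphism to the bijections of the set of lists. -/
def toPerm (X : Type) : Portrait X →* Perm (List X) where
  toFun a :=
    { toFun := actL a
      invFun := actL a⁻¹
      left_inv := fun w => by rw [← actL_mul, inv_mul_cancel, actL_one]
      right_inv := fun w => by rw [← actL_mul, mul_inv_cancel, actL_one] }
  map_one' := by
    ext1 w
    exact actL_one w
  map_mul' a b := by
    ext1 w
    exact actL_mul a b w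

theorem toPerm_apply (a : Portrait X) (w : List X) : toPerm X a w = actL a w := rfl

theorem actL_append (a : Portrait X) (v w : List X) :
    actL a (v ++ w) = actL a v ++ actL (secL a v) w := by
  induction v generalizing a with
  | nil => rfl
  | cons x v ih => rw [List.cons_append, actL_cons, actL_cons, ih]; rfl

theorem length_actL (a : Portrait X) (w : List X) : (actL a w).length = w.length := by
  induction w generalizing a with
  | nil => rfl
  | cons x w ih => rw [actL_cons, List.length_cons, ih]; rfl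

/-- agreement on short words -/
theorem agree_iff (a b : Portrait X) [Nonempty X] (n : ℕ) :
    (∀ w : List X, w.length ≤ n → actL a w = actL b w) ↔ lev a n = lev b n := by
  constructor
  · intro h
    ext1 w
    apply toL_injective
    rw [← actL_toL, ← actL_toL]
    exact h _ (le_of_eq (length_toL w))
  · intro h w hw
    obtain ⟨x⟩ := (inferInstance : Nonempty X)
    have h1 : (w ++ List.replicate (n - w.length) x).length = n := by
      rw [List.length_append, List.length_replicate]; omega
    obtain ⟨v, hv⟩ := exists_toL' _ h1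
    have h2 : actL a (toL v) = actL b (toL v) := by rw [actL_toL, actL_toL, h]
    rw [hv, actL_append, actL_append] at h2
    exact (List.append_inj h2 (by rw [length_actL, length_actL])).1

theorem toPerm_injective [Nonempty X] : Function.Injective (toPerm X) := by
  intro a b h
  have h1 : ∀ n, lev a n = lev b n := fun n =>
    (agree_iff a b n).1 fun w _ => by
      have := congrArg (fun σ : Perm (List X) => σ w) h
      exact this
  have h2 : a⁻¹ * b = 1 := by
    have h3 : ∀ n, (a⁻¹ * b).lab n = 1 := fun n =>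
      lab_eq_one_of_lev _ (n + 1) (by rw [lev_mul, lev_inv, h1, inv_mul_cancel]) n (by omega)
    ext n w x
    rw [h3 n]; rfl
  exact (inv_mul_eq_one.1 h2)

end words

section range

variable {d : ℕ}

theorem toPerm_mem_treeAut (a : Portrait (Fin d)) : toPerm (Fin d) a ∈ treeAut d := by
  refine ⟨fun w => length_actL a w, ?_⟩
  rintro u v ⟨w, rfl⟩
  rw [toPerm_apply, toPerm_apply, actL_append]
  exact List.prefix_append _ _

theorem exists_last {g : Perm (List (Fin d))} (hg : g ∈ treeAut d) (v : List (Fin d)) (x : Fin d) :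
    ∃ y, g (v ++ [x]) = g v ++ [y] := by
  obtain ⟨w, hw⟩ := hg.2 v (v ++ [x]) (List.prefix_append _ _)
  have h1 := congrArg List.length hw
  rw [List.length_append, hg.1, hg.1, List.length_append] at h1
  simp only [List.length_singleton] at h1
  have h2 : w.length = 1 := by omega
  obtain ⟨y, rfl⟩ := List.length_eq_one_iff.1 h2
  exact ⟨y, hw.symm⟩

theorem exists_label {g : Perm (List (Fin d))} (hg : g ∈ treeAut d) (v : List (Fin d)) :
    ∃ σ : Perm (Fin d), ∀ x, g (v ++ [x]) = g v ++ [σ x] := by
  choose f hf using exists_last hg v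
  have hinj : Function.Injective f := by
    intro x y h
    have h1 : g (v ++ [x]) = g (v ++ [y]) := by rw [hf, hf, h]
    have h2 := g.injective h1
    exact List.singleton_injective (List.append_cancel_left h2)
  exact ⟨Equiv.ofBijective f (Finite.injective_iff_bijective.1 hinj), hf⟩

theorem treeAut_mem_range {g : Perm (List (Fin d))} (hg : g ∈ treeAut d) :
    ∃ a, toPerm (Fin d) a = g := by
  choose σ hσ using exists_label hg
  let a : Portrait (Fin d) := ⟨fun n w => σ (toL w)⟩
  have h0 : g [] = [] := List.length_eq_zero_iff.1 (hg.1 [])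
  have key : ∀ n (w : Wd (Fin d) n), toL (lev a n w) = g (toL w) := by
    intro n
    induction n with
    | zero => intro w; rw [toL_zero, toL_zero, h0]
    | succ n ih =>
      intro w
      obtain ⟨w, x, rfl⟩ := exists_sn w
      rw [lev_succ, toL_sn, ih, toL_sn, hσ]
  refine ⟨a, ?_⟩
  ext1 l
  obtain ⟨w, hw⟩ := exists_toL l
  rw [toPerm_apply, ← hw, actL_toL, key]

theorem treeAut_eq : treeAut d = ((⊤ : Subgroup (Portrait (Fin d))).map (toPerm (Fin d)) :
    Set (Perm (List (Fin d)))) := by
  ext g
  constructor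
  · intro hg
    obtain ⟨a, rfl⟩ := treeAut_mem_range hg
    exact ⟨a, trivial, rfl⟩
  · rintro ⟨a, _, rfl⟩
    exact toPerm_mem_treeAut a

end range

section selfsim

variable {d : ℕ} {G : Subgroup (Perm (List (Fin d)))}

theorem SelfSimilar.nil (hG : SelfSimilar G) {g : Perm (List (Fin d))} (hg : g ∈ G) :
    g [] = [] := by
  cases h : g [] with
  | nil => rfl
  | cons x w =>
    exfalso
    obtain ⟨y, h', _, h2⟩ := hG g⁻¹ (inv_mem hg) x
    have h3 := h2 w
    rw [← h] at h3
    have h4 : g⁻¹ (g []) = [] := g.symm_apply_apply []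
    rw [h4] at h3
    exact absurd h3 (by simp)

theorem SelfSimilar.length (hG : SelfSimilar G) (w : List (Fin d)) :
    ∀ g ∈ G, (g w).length = w.length := by
  induction w with
  | nil => intro g hg; rw [hG.nil hg]
  | cons x w ih =>
    intro g hg
    obtain ⟨y, h, hh, h2⟩ := hG g hg x
    rw [h2, List.length_cons, List.length_cons, ih h hh]

theorem SelfSimilar.pre (hG : SelfSimilar G) (u : List (Fin d)) :
    ∀ g ∈ G, ∀ v, u <+: v → g u <+: g v := by
  induction u with
  | nil => intro g hg v _; rw [hG.nil hg]; exact List.nil_prefix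
  | cons x u ih =>
    intro g hg v huv
    obtain ⟨w, rfl⟩ := huv
    obtain ⟨y, h, hh, h2⟩ := hG g hg x
    rw [List.cons_append, h2, h2, List.cons_prefix_cons]
    exact ⟨rfl, ih h hh _ (List.prefix_append _ _)⟩

theorem SelfSimilar.sub (hG : SelfSimilar G) {g : Perm (List (Fin d))} (hg : g ∈ G) :
    g ∈ treeAut d :=
  ⟨fun w => hG.length w g hg, fun u v h => hG.pre u g hg v h⟩

end selfsim

section counting

variable {X : Type} [Fintype X] [DecidableEq X]

/-- elements of the stabiliser -/
def stb (G : Subgroup (Portrait X)) (n : ℕ) : Subgroup (Portrait X) := (levHom X n).ker ⊓ G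

theorem mem_ker [Nonempty X] (a : Portrait X) (n : ℕ) :
    a ∈ (levHom X n).ker ↔ ∀ j < n, a.lab j = 1 := by
  rw [MonoidHom.mem_ker]
  exact ⟨lab_eq_one_of_lev a n, lev_eq_one_of a n⟩

/-- label homomorphism on the stabiliser -/
def labHom [Nonempty X] (G : Subgroup (Portrait X)) (n : ℕ) : stb G n →* (Wd X n → Perm X) where
  toFun a := a.1.lab n
  map_one' := rfl
  map_mul' a b := by
    funext w
    have h1 : lev b.1 n = 1 := b.2.1
    change (a.1 * b.1).lab n w = _
    rw [mul_lab, h1]; rfl

theorem range_labHom [Nonempty X] (G : Subgroup (Portrait X)) (n : ℕ) :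
    (labHom G n).range = KK G n := by
  ext k
  rw [mem_KK]
  constructor
  · rintro ⟨⟨a, ha1, ha2⟩, rfl⟩
    exact ⟨a, ha2, (mem_ker a n).1 ha1, rfl⟩
  · rintro ⟨a, ha2, ha1, rfl⟩
    exact ⟨⟨a, (mem_ker a n).2 ha1, ha2⟩, rfl⟩

theorem ker_labHom [Nonempty X] (G : Subgroup (Portrait X)) (n : ℕ) :
    (labHom G n).ker = (stb G (n + 1)).subgroupOf (stb G n) := by
  ext ⟨a, ha⟩
  rw [MonoidHom.mem_ker, Subgroup.mem_subgroupOf]
  constructor
  · intro h
    refine ⟨(mem_ker a (n + 1)).2 ?_, ha.2⟩
    intro j hj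
    rcases Nat.lt_succ_iff_lt_or_eq.mp hj with h2 | h2
    · exact (mem_ker a n).1 ha.1 j h2
    · subst h2; exact h
  · intro h
    exact (mem_ker a (n + 1)).1 h.1 n (by omega)

theorem stb_le [Nonempty X] (G : Subgroup (Portrait X)) (n : ℕ) : stb G (n + 1) ≤ stb G n := by
  intro a ha
  exact ⟨(mem_ker a n).2 fun j hj => (mem_ker a (n + 1)).1 ha.1 j (by omega), ha.2⟩

/-- size of the image on words of length `n` -/
noncomputable def cc (G : Subgroup (Portrait X)) (n : ℕ) : ℕ := Nat.card (G.map (levHom X n))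

theorem cc_eq [Nonempty X] (G : Subgroup (Portrait X)) (n : ℕ) : cc G n = (stb G n).relIndex G := by
  unfold cc stb
  rw [Subgroup.inf_relIndex_right, Subgroup.relIndex_ker]

theorem cc_succ [Nonempty X] (G : Subgroup (Portrait X)) (n : ℕ) :
    cc G (n + 1) = Nat.card (KK G n) * cc G n := by
  rw [cc_eq, cc_eq, ← Subgroup.relIndex_mul_relIndex _ _ _ (stb_le G n) inf_le_right]
  congr 1
  rw [Subgroup.relIndex, ← ker_labHom, Subgroup.index_ker, range_labHom]

theorem cc_zero [Nonempty X] (G : Subgroup (Portrait X)) : cc G 0 = 1 := by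
  unfold cc
  haveI : Subsingleton (G.map (levHom X 0)) := by
    constructor
    rintro ⟨_, a, _, rfl⟩ ⟨_, b, _, rfl⟩
    rfl
  exact Nat.card_unique

theorem log_cc [Nonempty X] (G : Subgroup (Portrait X)) (n : ℕ) :
    Real.log (cc G n) = ∑ j ∈ Finset.range n, aa G j * (Fintype.card X : ℝ) ^ j := by
  have hX : (0 : ℝ) < Fintype.card X := by exact_mod_cast Fintype.card_pos
  induction n with
  | zero => rw [cc_zero]; simp
  | succ n ih =>
    have h1 : 0 < Nat.card (KK G n) := Nat.card_pos
    have h2 : 0 < cc G n := Nat.card_pos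
    rw [cc_succ, Finset.sum_range_succ, ← ih]
    push_cast
    rw [Real.log_mul (by positivity) (by positivity), add_comm]
    congr 1
    unfold aa
    field_simp

theorem KK_top (n : ℕ) : KK (⊤ : Subgroup (Portrait X)) n = ⊤ := by
  rw [eq_top_iff]
  intro k _
  refine ⟨⟨Function.update (fun _ => 1) n k⟩, trivial, ?_, ?_⟩
  · intro m hm
    simp only [Function.update_of_ne (show m ≠ n by omega)]
  · simp

theorem aa_top [Nonempty X] (n : ℕ) :
    aa (⊤ : Subgroup (Portrait X)) n = Real.log (Fintype.card X).factorial := by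
  have hX : (0 : ℝ) < Fintype.card X := by exact_mod_cast Fintype.card_pos
  unfold aa
  rw [KK_top]
  have h1 : Nat.card (⊤ : Subgroup (Wd X n → Perm X)) =
      (Fintype.card X).factorial ^ (Fintype.card X ^ n) := by
    rw [Subgroup.card_top, Nat.card_eq_fintype_card, Fintype.card_fun, Fintype.card_perm, card_Wd]
  rw [h1]
  push_cast
  rw [Real.log_pow]
  push_cast
  field_simp

end counting

section final

variable {d : ℕ}

theorem levelCard_map (hd : 2 ≤ d) (G : Subgroup (Portrait (Fin d))) (n : ℕ) :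
    levelCard n (G.map (toPerm (Fin d)) : Set (Perm (List (Fin d)))) = cc G n := by
  haveI : Nonempty (Fin d) := ⟨⟨0, by omega⟩⟩
  unfold levelCard cc
  -- both sets are images of `G`
  have h1 : ((fun (g : Perm (List (Fin d))) (w : {w : List (Fin d) // w.length ≤ n}) => g w.1) ''
      (G.map (toPerm (Fin d)) : Set (Perm (List (Fin d))))) =
      (fun (a : Portrait (Fin d)) (w : {w : List (Fin d) // w.length ≤ n}) => actL a w.1) ''
        (G : Set (Portrait (Fin d))) := by
    ext f
    constructor
    · rintro ⟨_, ⟨a, ha, rfl⟩, rfl⟩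
      exact ⟨a, ha, rfl⟩
    · rintro ⟨a, ha, rfl⟩
      exact ⟨_, ⟨a, ha, rfl⟩, rfl⟩
  have h2 : (G.map (levHom (Fin d) n) : Set (Perm (Wd (Fin d) n))) =
      (fun a : Portrait (Fin d) => lev a n) '' (G : Set (Portrait (Fin d))) := rfl
  have key : ∀ a b : Portrait (Fin d),
      ((fun (w : {w : List (Fin d) // w.length ≤ n}) => actL a w.1) =
        (fun (w : {w : List (Fin d) // w.length ≤ n}) => actL b w.1)) ↔ lev a n = lev b n := by
    intro a b
    rw [← agree_iff a b n]
    constructor
    · intro h w hw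
      exact congrFun h ⟨w, hw⟩
    · intro h
      funext w
      exact h w.1 w.2
  have h3 : (G.map (levHom (Fin d) n) : Set (Perm (Wd (Fin d) n))).ncard =
      Set.ncard ((fun a : Portrait (Fin d) => lev a n) '' (G : Set (Portrait (Fin d)))) := by
    rw [h2]
  change _ = (G.map (levHom (Fin d) n) : Set (Perm (Wd (Fin d) n))).ncard
  rw [h1, h3]
  refine Set.ncard_congr (fun f hf => lev hf.choose n) ?_ ?_ ?_
  · intro f hf
    exact ⟨_, hf.choose_spec.1, rfl⟩
  · intro f f' hf hf' h
    rw [← hf.choose_spec.2, ← hf'.choose_spec.2]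
    exact (key _ _).2 h
  · rintro _ ⟨a, ha, rfl⟩
    have hf : (fun (w : {w : List (Fin d) // w.length ≤ n}) => actL a w.1) ∈
      (fun (a : Portrait (Fin d)) (w : {w : List (Fin d) // w.length ≤ n}) => actL a w.1) ''
        (G : Set (Portrait (Fin d))) := ⟨a, ha, rfl⟩
    refine ⟨_, hf, ?_⟩
    exact (key _ _).1 hf.choose_spec.2

theorem levelCard_closure (G : Subgroup (Perm (List (Fin d)))) (hG : ∀ g ∈ G, g ∈ treeAut d)
    (n : ℕ) : levelCard n (treeClosure G) = levelCard n (G : Set (Perm (List (Fin d)))) := by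
  unfold levelCard
  congr 1
  ext f
  constructor
  · rintro ⟨g, ⟨_, hg⟩, rfl⟩
    obtain ⟨h, hh, h2⟩ := hg n
    refine ⟨h, hh, ?_⟩
    funext w
    exact (h2 w.1 w.2).symm
  · rintro ⟨g, hg, rfl⟩
    exact ⟨g, ⟨hG g hg, fun m => ⟨g, hg, fun _ _ => rfl⟩⟩, rfl⟩

theorem tendsto_weighted (hd : 2 ≤ d) {a : ℕ → ℝ} {v : ℝ} (ha : Tendsto a atTop (𝓝 v)) :
    Tendsto (fun n => (∑ j ∈ Finset.range n, a j * (d : ℝ) ^ j) /
      (∑ j ∈ Finset.range n, (d : ℝ) ^ j)) atTop (𝓝 v) := by
  have hd1 : (1 : ℝ) < d := by exact_mod_cast (by omega : 1 < d)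
  have hd0 : (0 : ℝ) < d := by linarith
  have h1 : (fun j => (a j - v) * (d : ℝ) ^ j) =o[atTop] (fun j => (d : ℝ) ^ j) := by
    have h2 : (fun j => a j - v) =o[atTop] (fun _ => (1 : ℝ)) := by
      rw [Asymptotics.isLittleO_one_iff]
      have := ha.sub_const v
      simpa using this
    have h3 := h2.mul_isBigO (Asymptotics.isBigO_refl (fun j : ℕ => (d : ℝ) ^ j) atTop)
    simpa using h3
  have hsum : Tendsto (fun n => ∑ j ∈ Finset.range n, (d : ℝ) ^ j) atTop atTop := by
    apply tendsto_atTop_mono (f := fun n : ℕ => (n : ℝ)) _ tendsto_natCast_atTop_atTop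
    intro n
    have : ∑ j ∈ Finset.range n, (1 : ℝ) ≤ ∑ j ∈ Finset.range n, (d : ℝ) ^ j :=
      Finset.sum_le_sum fun j _ => one_le_pow₀ hd1.le
    simpa using this
  have h4 := h1.sum_range (fun j => by positivity) hsum
  have h5 := h4.tendsto_div_nhds_zero
  have h6 := h5.add_const v
  rw [zero_add] at h6
  refine h6.congr' ?_
  filter_upwards [eventually_gt_atTop 0] with n hn
  have hpos : 0 < ∑ j ∈ Finset.range n, (d : ℝ) ^ j := by
    apply Finset.sum_pos (fun j _ => by positivity)
    exact ⟨0, Finset.mem_range.2 hn⟩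
  rw [div_add' _ _ _ hpos.ne']
  congr 1
  rw [Finset.mul_sum, ← Finset.sum_add_distrib]
  apply Finset.sum_congr rfl
  intro j _
  ring

theorem hdim_eq (hd : 2 ≤ d) (G : Subgroup (Portrait (Fin d))) (v : ℝ)
    (hv : Tendsto (aa G) atTop (𝓝 v)) :
    hdim (treeClosure (G.map (toPerm (Fin d)))) = v / Real.log (d.factorial) := by
  haveI : Nonempty (Fin d) := ⟨⟨0, by omega⟩⟩
  unfold hdim
  apply Tendsto.liminf_eq
  have h1 := (tendsto_weighted hd hv).div_const (Real.log (d.factorial))
  refine h1.congr fun n => ?_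
  rw [levelCard_closure _ (by
    rintro _ ⟨a, _, rfl⟩
    exact toPerm_mem_treeAut a), treeAut_eq, levelCard_map hd, levelCard_map hd, log_cc, log_cc]
  simp only [aa_top, Fintype.card_fin]
  rw [← Finset.mul_sum, div_div, mul_comm (Real.log _)]

end final

/-- Target 1: from groups of bijections of the set of words to groups of portraits. -/
theorem bridge_to {d : ℕ} (hd : 2 ≤ d) (G : Subgroup (Perm (List (Fin d)))) (hG : SelfSimilar G) :
    ∃ G' : Subgroup (Portrait (Fin d)), SS G' ∧
      ∀ v : ℝ, Tendsto (aa G') atTop (𝓝 v) → hdim (treeClosure G) = v / Real.log (d.factorial) := by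
  refine ⟨G.comap (toPerm (Fin d)), ?_, ?_⟩
  · intro g hg x
    obtain ⟨y, h, hh, h2⟩ := hG _ hg x
    have h3 : toPerm (Fin d) (sec g x) = h := by
      ext1 w
      have h4 := h2 w
      rw [toPerm_apply, actL_cons] at h4
      exact (List.cons.inj h4).2
    rw [Subgroup.mem_comap, h3]
    exact hh
  · intro v hv
    have h1 : (G.comap (toPerm (Fin d))).map (toPerm (Fin d)) = G := by
      apply le_antisymm (Subgroup.map_comap_le _ _)
      intro g hg
      obtain ⟨a, rfl⟩ := treeAut_mem_range (hG.sub hg)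
      exact ⟨a, hg, rfl⟩
    have h2 := hdim_eq hd _ v hv
    rw [h1] at h2
    exact h2

/-- Target 2: from groups of portraits to groups of bijections of the set of words. -/
theorem bridge_from {d : ℕ} (hd : 2 ≤ d) (G' : Subgroup (Portrait (Fin d))) (hG' : SS G') :
    ∃ G : Subgroup (Perm (List (Fin d))), SelfSimilar G ∧ (Contr G' → Contracting G) ∧
      ∀ v : ℝ, Tendsto (aa G') atTop (𝓝 v) → hdim (treeClosure G) = v / Real.log (d.factorial) := by
  refine ⟨G'.map (toPerm (Fin d)), ?_, ?_, ?_⟩
  · rintro _ ⟨a, ha, rfl⟩ x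
    exact ⟨rt a x, toPerm (Fin d) (sec a x), ⟨_, hG' a ha x, rfl⟩, fun w => rfl⟩
  · rintro ⟨N, hN, hNG, hk⟩
    refine ⟨toPerm (Fin d) '' N, hN.image _, ?_, ?_⟩
    · rintro _ ⟨a, ha, rfl⟩
      exact ⟨a, hNG ha, rfl⟩
    · rintro _ ⟨a, ha, rfl⟩
      obtain ⟨k, hk⟩ := hk a ha
      refine ⟨k, fun v hv => ⟨_, ⟨secL a v, hk v hv, rfl⟩, fun w => ?_⟩⟩
      exact actL_append a v w
  · intro v hv
    exact hdim_eq hd G' v hv

end Pool.Agent.Helper501.Haus


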