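import Pool.Agent.Helper501.Haus.Base

namespace Pool.Agent.Helper501.Haus.E1

open Equiv Filter Topology

section Patt

variable {X : Type}

/-- The branch maps. -/
noncomputable def phiP (m : ℝ) (P : Prop) [Decidable P] (t : ℝ) : ℝ :=
  if P then t / m else 1 / m + t * ((m - 1) / m)

theorem phiP_mono {m : ℝ} (hm : 2 ≤ m) (P : Prop) [Decidable P] {s t : ℝ} (h : s ≤ t) :
    phiP m P s ≤ phiP m P t := by
  unfold phiP
  have hm0 : 0 < m := by linarith
  have : 0 ≤ (m - 1) / m := div_nonneg (by linarith) hm0.le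
  split_ifs
  · exact div_le_div_of_nonneg_right h hm0.le
  · nlinarith

theorem phiP_nonneg {m : ℝ} (hm : 2 ≤ m) (P : Prop) [Decidable P] {t : ℝ} (h : 0 ≤ t) :
    0 ≤ phiP m P t := by
  unfold phiP
  have hm0 : 0 < m := by linarith
  have : 0 ≤ (m - 1) / m := div_nonneg (by linarith) hm0.le
  split_ifs
  · positivity
  · positivity

theorem phiP_lt_one {m : ℝ} (hm : 2 ≤ m) (P : Prop) [Decidable P] {t : ℝ} (h : 0 ≤ t) (h1 : t < 1) :
    phiP m P t < 1 := by
  unfold phiP
  have hm0 : 0 < m := by linarith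
  split_ifs
  · rw [div_lt_one hm0]; linarith
  · rw [show (1 / m + t * ((m - 1) / m) : ℝ) = (1 + t * (m - 1)) / m by ring, div_lt_one hm0]
    nlinarith

/-- Position of a word. -/
noncomputable def loP [DecidableEq X] (m : ℝ) (z : X) : (n : ℕ) → Wd X n → ℝ
  | 0, _ => 0
  | n + 1, q => phiP m (lst q = z) (loP m z n (ini q))

theorem loP_sn [DecidableEq X] (m : ℝ) (z : X) (n : ℕ) (w : Wd X n) (x : X) :
    loP m z (n + 1) (sn w x) = phiP m (x = z) (loP m z n w) := rfl

theorem loP_mem [DecidableEq X] {m : ℝ} (hm : 2 ≤ m) (z : X) (n : ℕ) (w : Wd X n) :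
    0 ≤ loP m z n w ∧ loP m z n w < 1 := by
  induction n with
  | zero => simp [loP]
  | succ n ih =>
    obtain ⟨w, x, rfl⟩ := exists_sn w
    rw [loP_sn]
    exact ⟨phiP_nonneg hm _ (ih w).1, phiP_lt_one hm _ (ih w).1 (ih w).2⟩

theorem loP_cons [DecidableEq X] {m : ℝ} (hm : 2 ≤ m) (z : X) (x : X) (n : ℕ) (w : Wd X n) :
    loP m z n w ≤ loP m z (n + 1) (cons x n w) := by
  induction n with
  | zero => exact (loP_mem hm z 1 _).1
  | succ n ih =>
    obtain ⟨w, y, rfl⟩ := exists_sn w
    rw [cons_sn, loP_sn, loP_sn]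
    exact phiP_mono hm _ (ih w)

/-- The label groups. -/
noncomputable def LP [DecidableEq X] (m : ℝ) (z : X) (θ : ℝ) (n : ℕ) : Subgroup (Wd X n → Perm X) where
  carrier := {k | ∀ w, k w z = z ∧ (loP m z n w < θ ∨ k w = 1)}
  mul_mem' := by
    intro k l hk hl w
    refine ⟨?_, ?_⟩
    · rw [Pi.mul_apply, Perm.mul_apply, (hl w).1, (hk w).1]
    · rcases (hk w).2 with h | h
      · exact Or.inl h
      · rcases (hl w).2 with h' | h'
        · exact Or.inl h'
        · right; rw [Pi.mul_apply, h, h', one_mul]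
  one_mem' := fun w => ⟨rfl, Or.inr rfl⟩
  inv_mem' := by
    intro k hk w
    refine ⟨?_, ?_⟩
    · rw [Pi.inv_apply, Perm.inv_eq_iff_eq, (hk w).1]
    · rcases (hk w).2 with h | h
      · exact Or.inl h
      · right; rw [Pi.inv_apply, h, inv_one]

theorem mem_LP [DecidableEq X] {m : ℝ} {z : X} {θ : ℝ} {n : ℕ} {k : Wd X n → Perm X} :
    k ∈ LP m z θ n ↔ ∀ w, k w z = z ∧ (loP m z n w < θ ∨ k w = 1) := Iff.rfl

theorem loP_lev [DecidableEq X] {m : ℝ} {z : X} {θ : ℝ} (n : ℕ) (b : Portrait X)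
    (hb : ∀ j < n, b.lab j ∈ LP m z θ j) (w : Wd X n) : loP m z n (lev b n w) = loP m z n w := by
  induction n with
  | zero => rfl
  | succ n ih =>
    obtain ⟨w, x, rfl⟩ := exists_sn w
    rw [lev_succ, loP_sn, loP_sn, ih (fun j hj => hb j (by omega)) w]
    have h1 := (mem_LP.mp (hb n (by omega)) w).1
    have h2 : (b.lab n w x = z) = (x = z) := by
      apply propext
      constructor
      · intro h
        exact (b.lab n w).injective (by rw [h, h1])
      · rintro rfl; exact h1
    unfold phiP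
    simp only [h2]

/-- The family. -/
noncomputable def famP [DecidableEq X] {m : ℝ} (hm : 2 ≤ m) (z : X) (θ : ℝ) : Fam X where
  L := LP m z θ
  hcons := by
    intro n k hk x w
    have h := hk (cons x n w)
    refine ⟨h.1, ?_⟩
    rcases h.2 with h' | h'
    · exact Or.inl (lt_of_le_of_lt (loP_cons hm z x n w) h')
    · exact Or.inr h'
  hinv := by
    intro n k hk b hb w
    have h := hk (lev b n w)
    rw [loP_lev n b hb w] at h
    exact h

theorem card_fix [Fintype X] [DecidableEq X] (z : X) :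
    Nat.card {s : Perm X // s z = z} = (Fintype.card X - 1).factorial := by
  have e : Perm {x : X // x ≠ z} ≃ {s : Perm X // s z = z} :=
    (Equiv.Perm.subtypeEquivSubtypePerm (fun x : X => x ≠ z)).trans
      (Equiv.subtypeEquivRight (fun s => by
        constructor
        · intro h; exact h z (by simp)
        · intro h a ha
          have : a = z := not_not.mp ha
          rw [this, h]))
  rw [← Nat.card_congr e, Nat.card_eq_fintype_card, Fintype.card_perm]
  congr 1
  simp [Fintype.card_subtype_compl]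

open Classical in
theorem card_LP [Fintype X] [DecidableEq X] (m : ℝ) (z : X) (θ : ℝ) (n : ℕ) :
    Nat.card (LP m z θ n) = (Fintype.card X - 1).factorial ^
      (Finset.univ.filter (fun w : Wd X n => loP m z n w < θ)).card := by
  have e : (LP m z θ n) ≃ ({w : Wd X n // loP m z n w < θ} → {s : Perm X // s z = z}) :=
    { toFun := fun k w => ⟨k.1 w.1, (k.2 w.1).1⟩
      invFun := fun f => ⟨fun w => if h : loP m z n w < θ then (f ⟨w, h⟩).1 else 1, by
        intro w
        by_cases h : loP m z n w < θ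
        · simp only [dif_pos h]
          exact ⟨(f ⟨w, h⟩).2, Or.inl h⟩
        · simp only [dif_neg h]
          exact ⟨rfl, Or.inr trivial⟩⟩
      left_inv := by
        intro k
        apply Subtype.ext
        funext w
        by_cases h : loP m z n w < θ
        · simp only [dif_pos h]
        · simp only [dif_neg h]
          rcases (k.2 w).2 with h' | h'
          · exact absurd h' h
          · exact h'.symm
      right_inv := by
        intro f
        funext w
        apply Subtype.ext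
        simp only [dif_pos w.2] }
  rw [Nat.card_congr e, Nat.card_fun, card_fix]
  congr 1
  rw [Nat.card_eq_fintype_card, Fintype.card_subtype]

/-- Counting function. -/
noncomputable def cP [Fintype X] [DecidableEq X] (m : ℝ) (z : X) (n : ℕ) (t : ℝ) : ℝ :=
  ∑ w : Wd X n, if loP m z n w < t then (1 : ℝ) else 0

theorem ite_eq_of_iffP {P Q : Prop} [Decidable P] [Decidable Q] (h : P ↔ Q) :
    (if P then (1 : ℝ) else 0) = if Q then 1 else 0 := by
  by_cases hP : P
  · rw [if_pos hP, if_pos (h.mp hP)]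
  · rw [if_neg hP, if_neg (fun hq => hP (h.mpr hq))]

theorem cP_succ [Fintype X] [DecidableEq X] (z : X) (hX : 2 ≤ Fintype.card X) (n : ℕ) (t : ℝ) :
    cP (Fintype.card X : ℝ) z (n + 1) t = cP (Fintype.card X : ℝ) z n ((Fintype.card X : ℝ) * t) +
      ((Fintype.card X : ℝ) - 1) * cP (Fintype.card X : ℝ) z n
        (((Fintype.card X : ℝ) * t - 1) / ((Fintype.card X : ℝ) - 1)) := by
  set m : ℝ := (Fintype.card X : ℝ) with hm
  have hm2 : (2 : ℝ) ≤ m := by rw [hm]; exact_mod_cast hX
  have hm0 : 0 < m := by linarith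
  have hm1 : 0 < m - 1 := by linarith
  unfold cP
  rw [sum_sn, Finset.mul_sum, ← Finset.sum_add_distrib]
  apply Finset.sum_congr rfl
  intro w _
  rw [← Finset.add_sum_erase _ _ (Finset.mem_univ z)]
  congr 1
  · apply ite_eq_of_iffP
    rw [loP_sn]
    unfold phiP
    rw [if_pos rfl, div_lt_iff₀ hm0, mul_comm]
  · have h1 : ∀ x ∈ Finset.univ.erase z, (if loP m z (n + 1) (sn w x) < t then (1 : ℝ) else 0) =
        if loP m z n w < (m * t - 1) / (m - 1) then (1 : ℝ) else 0 := by
      intro x hx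
      have hxz : x ≠ z := (Finset.mem_erase.mp hx).1
      apply ite_eq_of_iffP
      rw [loP_sn]
      unfold phiP
      rw [if_neg hxz]
      have : (1 / m + loP m z n w * ((m - 1) / m) < t) ↔ loP m z n w < (m * t - 1) / (m - 1) := by
        rw [lt_div_iff₀ hm1, show (1 / m + loP m z n w * ((m - 1) / m) : ℝ) =
          (1 + loP m z n w * (m - 1)) / m by ring, div_lt_iff₀ hm0]
        constructor <;> intro h <;> linarith
      exact this
    rw [Finset.sum_congr rfl h1, Finset.sum_const, Finset.card_erase_of_mem (Finset.mem_univ _),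
      Finset.card_univ, nsmul_eq_mul, Nat.cast_sub (by omega), Nat.cast_one]

theorem cP_le_zero [Fintype X] [DecidableEq X] {m : ℝ} (hm : 2 ≤ m) (z : X) (n : ℕ) {t : ℝ} (ht : t ≤ 0) :
    cP m z n t = 0 := by
  unfold cP
  apply Finset.sum_eq_zero
  intro w _
  rw [if_neg]
  have := (loP_mem hm z n w).1
  linarith

theorem cP_ge_one [Fintype X] [DecidableEq X] {m : ℝ} (hm : 2 ≤ m) (z : X) (n : ℕ) {t : ℝ} (ht : 1 ≤ t) :
    cP m z n t = (Fintype.card X : ℝ) ^ n := by
  unfold cP
  have : ∀ w ∈ (Finset.univ : Finset (Wd X n)), (if loP m z n w < t then (1 : ℝ) else 0) = 1 := by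
    intro w _
    rw [if_pos]
    have := (loP_mem hm z n w).2
    linarith
  rw [Finset.sum_congr rfl this, Finset.sum_const, Finset.card_univ, card_Wd, nsmul_eq_mul, mul_one,
    Nat.cast_pow]

/-- Clamp to the unit interval. -/
noncomputable def clampP (t : ℝ) : ℝ := max 0 (min t 1)

theorem cP_bound [Fintype X] [DecidableEq X] (z : X) (hX : 2 ≤ Fintype.card X) (n : ℕ) (t : ℝ) :
    |cP (Fintype.card X : ℝ) z n t / (Fintype.card X : ℝ) ^ n - clampP t| ≤
      (((Fintype.card X : ℝ) - 1) / (Fintype.card X : ℝ)) ^ n := by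
  have hm2 : (2 : ℝ) ≤ (Fintype.card X : ℝ) := by exact_mod_cast hX
  induction n generalizing t with
  | zero =>
    simp only [pow_zero, div_one]
    have h1 : cP (Fintype.card X : ℝ) z 0 t = if 0 < t then 1 else 0 := by
      unfold cP
      have h9 : ∀ w : Wd X 0, (if loP (Fintype.card X : ℝ) z 0 w < t then (1 : ℝ) else 0) =
          if 0 < t then 1 else 0 := fun w => ite_eq_of_iffP Iff.rfl
      rw [Finset.sum_congr rfl (fun w _ => h9 w), Finset.sum_const, Finset.card_univ, card_Wd]
      simp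
    rw [h1]
    unfold clampP
    split_ifs with h
    · rw [max_eq_right (le_min h.le zero_le_one)]
      rw [abs_le]
      have h2 : 0 ≤ min t 1 := le_min h.le zero_le_one
      have h3 : min t 1 ≤ 1 := min_le_right _ _
      constructor <;> linarith
    · rw [max_eq_left ((min_le_left _ _).trans (not_lt.mp h))]
      simp
  | succ n ih =>
    rw [cP_succ z hX]
    set m : ℝ := (Fintype.card X : ℝ) with hm
    have hm0 : 0 < m := by linarith
    have hm1 : 0 < m - 1 := by linarith
    have hmn : 0 < m ^ n := pow_pos hm0 n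
    rcases le_or_gt t (1 / m) with ht | ht
    · have h1 : (m * t - 1) / (m - 1) ≤ 0 := by
        apply div_nonpos_of_nonpos_of_nonneg _ hm1.le
        rw [le_div_iff₀ hm0] at ht; linarith
      rw [cP_le_zero hm2 z n h1, mul_zero, add_zero]
      have h2 := ih (m * t)
      have h3 : clampP t = clampP (m * t) / m := by
        unfold clampP
        rw [le_div_iff₀ hm0] at ht
        have : t ≤ 1 := by nlinarith
        rw [min_eq_left this, min_eq_left (by linarith : m * t ≤ 1)]
        rcases le_or_gt 0 t with h | h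
        · rw [max_eq_right h, max_eq_right (by positivity)]; field_simp
        · rw [max_eq_left h.le, max_eq_left (by nlinarith)]; simp
      rw [h3, pow_succ, show cP m z n (m * t) / (m ^ n * m) - clampP (m * t) / m =
        (cP m z n (m * t) / m ^ n - clampP (m * t)) / m by field_simp, abs_div, abs_of_pos hm0, pow_succ]
      calc |cP m z n (m * t) / m ^ n - clampP (m * t)| / m ≤ ((m - 1) / m) ^ n / m :=
            div_le_div_of_nonneg_right h2 hm0.le
        _ = ((m - 1) / m) ^ n * (1 / m) := by ring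
        _ ≤ ((m - 1) / m) ^ n * ((m - 1) / m) := by
            apply mul_le_mul_of_nonneg_left
            · apply div_le_div_of_nonneg_right _ hm0.le; linarith
            · positivity
    · have h1 : 1 ≤ m * t := by
        rw [div_lt_iff₀ hm0] at ht; linarith
      rw [cP_ge_one hm2 z n h1]
      have h2 := ih ((m * t - 1) / (m - 1))
      have h3 : clampP t = 1 / m + clampP ((m * t - 1) / (m - 1)) * ((m - 1) / m) := by
        unfold clampP
        have h0 : 0 < t := lt_trans (by positivity) ht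
        rw [max_eq_right (le_min h0.le zero_le_one), max_eq_right (le_min (div_nonneg (by linarith) hm1.le) zero_le_one)]
        rcases le_or_gt t 1 with h | h
        · rw [min_eq_left h, min_eq_left]
          · field_simp; ring
          · rw [div_le_one hm1]; nlinarith
        · rw [min_eq_right h.le, min_eq_right]
          · field_simp; ring
          · rw [le_div_iff₀ hm1]; nlinarith
      rw [h3, pow_succ, ← hm, show (m ^ n + (m - 1) * cP m z n ((m * t - 1) / (m - 1))) / (m ^ n * m) -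
        (1 / m + clampP ((m * t - 1) / (m - 1)) * ((m - 1) / m)) =
        (cP m z n ((m * t - 1) / (m - 1)) / m ^ n - clampP ((m * t - 1) / (m - 1))) * ((m - 1) / m) by
          field_simp; ring, abs_mul, abs_of_nonneg (show 0 ≤ (m - 1) / m by positivity), pow_succ]
      exact mul_le_mul_of_nonneg_right h2 (by positivity)

end Patt

/-- Target: all values between `0` and `log (d-1)!` are realised by families of label groups. -/
theorem fam_pattern {X : Type} [Fintype X] [DecidableEq X] (hX : 2 ≤ Fintype.card X) (v : ℝ) (h0 : 0 ≤ v)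
    (h1 : v ≤ Real.log (Fintype.card X - 1).factorial) :
    ∃ F : Fam X, Tendsto (fun n : ℕ => Real.log (Nat.card (F.L n)) / (Fintype.card X : ℝ) ^ n) atTop (𝓝 v) := by
  classical
  have hm2 : (2 : ℝ) ≤ (Fintype.card X : ℝ) := by exact_mod_cast hX
  have hne : Nonempty X := Fintype.card_pos_iff.mp (by omega)
  obtain ⟨z⟩ := hne
  set B : ℝ := Real.log (Fintype.card X - 1).factorial with hB
  set θ : ℝ := v / B with hθ
  have hB0 : 0 ≤ B := le_trans h0 h1
  have hθ0 : 0 ≤ θ := div_nonneg h0 hB0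
  have hθ1 : θ ≤ 1 := div_le_one_of_le₀ h1 hB0
  have hv : v = θ * B := by
    rcases hB0.eq_or_lt with h | h
    · have : v = 0 := le_antisymm (by linarith) h0
      rw [this, ← h, mul_zero]
    · rw [hθ, div_mul_cancel₀ _ h.ne']
  refine ⟨famP hm2 z θ, ?_⟩
  have key : ∀ n : ℕ, Real.log (Nat.card ((famP hm2 z θ).L n)) / (Fintype.card X : ℝ) ^ n =
      cP (Fintype.card X : ℝ) z n θ / (Fintype.card X : ℝ) ^ n * B := by
    intro n
    have h2 : Nat.card ((famP hm2 z θ).L n) = (Fintype.card X - 1).factorial ^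
      (Finset.univ.filter (fun w : Wd X n => loP (Fintype.card X : ℝ) z n w < θ)).card :=
      card_LP (Fintype.card X : ℝ) z θ n
    rw [h2, Nat.cast_pow, Real.log_pow, ← hB]
    have h3 : cP (Fintype.card X : ℝ) z n θ =
        ((Finset.univ.filter (fun w : Wd X n => loP (Fintype.card X : ℝ) z n w < θ)).card : ℝ) := by
      unfold cP
      rw [Finset.sum_boole]
    rw [h3]; ring
  simp only [key]
  rw [hv]
  apply Tendsto.mul_const
  have h4 : clampP θ = θ := by
    unfold clampP
    rw [min_eq_left hθ1, max_eq_right hθ0]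
  have h5 : Tendsto (fun n : ℕ => (((Fintype.card X : ℝ) - 1) / (Fintype.card X : ℝ)) ^ n) atTop (𝓝 0) := by
    apply tendsto_pow_atTop_nhds_zero_of_lt_one
    · apply div_nonneg <;> linarith
    · rw [div_lt_one (by linarith)]; linarith
  rw [tendsto_iff_norm_sub_tendsto_zero]
  refine squeeze_zero (fun n => norm_nonneg _) (fun n => ?_) h5
  have := cP_bound z hX n θ
  rw [h4] at this
  exact this

end Pool.Agent.Helper501.Haus.E1


namespace Pool.Agent.Helper501.Haus

open Equiv Filter Topology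

section SignFam

variable {X : Type} [Fintype X] [DecidableEq X]

/-- Spaces of functions given by a digit sequence. -/
def DU (X : Type) [Fintype X] (p : ℕ) {d : ℕ} : (ℕ → Fin d) → (n : ℕ) → Submodule (ZMod p) (Wd X n → ZMod p)
  | _, 0 => ⊤
  | a, n + 1 => if (a 0).val ≠ 0 then (DU X p (fun j => a (j + 1)) n).comap (sumLast X p n)
      else (DU X p (fun j => a (j + 1)) n).map (pull X p n)

theorem DU_inv {p d : ℕ} [Fact p.Prime] (a : ℕ → Fin d) (n : ℕ) (g : Portrait X) {f : Wd X n → ZMod p}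
    (hf : f ∈ DU X p a n) : (fun w => f (lev g n w)) ∈ DU X p a n := by
  induction n generalizing a with
  | zero => trivial
  | succ n ih =>
    rw [DU] at hf ⊢
    split_ifs at hf ⊢ with h
    · have := ih _ hf
      rw [Submodule.mem_comap]
      convert this using 1
      funext w
      rw [sumLast_apply, sumLast_apply]
      exact Fintype.sum_equiv (g.lab n w) _ _ (fun x => rfl)
    · obtain ⟨f', hf', rfl⟩ := hf
      exact ⟨_, ih _ hf', rfl⟩

theorem DU_cons {p d : ℕ} [Fact p.Prime] (a : ℕ → Fin d) (n : ℕ) (x : X) {f : Wd X (n + 1) → ZMod p}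
    (hf : f ∈ DU X p a (n + 1)) : (fun w => f (cons x n w)) ∈ DU X p a n := by
  induction n generalizing a with
  | zero => trivial
  | succ n ih =>
    rw [DU] at hf ⊢
    split_ifs at hf ⊢ with h
    · exact ih _ hf
    · obtain ⟨f', hf', rfl⟩ := hf
      exact ⟨_, ih _ hf', rfl⟩

theorem finrank_DU {p d : ℕ} [Fact p.Prime] [Nonempty X] (a : ℕ → Fin d) (n : ℕ) :
    Module.finrank (ZMod p) (DU X p a (n + 1)) =
      (if (a 0).val ≠ 0 then (Fintype.card X - 1) * Fintype.card X ^ n else 0) +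
        Module.finrank (ZMod p) (DU X p (fun j => a (j + 1)) n) := by
  rw [DU]
  by_cases h : (a 0).val ≠ 0
  · rw [if_pos h, if_pos h, finrank_split (sumLast X p n), Submodule.map_comap_eq,
      LinearMap.range_eq_top.mpr (sumLast_surjective n), top_inf_eq, add_comm]
    congr 1
    rw [inf_eq_right.mpr, finrank_ker_sumLast]
    intro f hf
    rw [Submodule.mem_comap, LinearMap.mem_ker.mp hf]
    exact Submodule.zero_mem _
  · rw [if_neg h, if_neg h, zero_add]
    exact (Submodule.equivMapOfInjective _ (pull_injective (p := p) n) _).finrank_eq.symm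

theorem DU_close {p : ℕ} [Fact p.Prime] [Nonempty X] (a : ℕ → Fin (Fintype.card X))
    (ha : ∀ j, (a j).val = 0 ∨ (a j).val + 1 = Fintype.card X) (n : ℕ) :
    |(Module.finrank (ZMod p) (DU X p a n) : ℝ) / (Fintype.card X : ℝ) ^ n - Real.ofDigits a| ≤
      1 / (Fintype.card X : ℝ) ^ n := by
  have hd : (0 : ℝ) < Fintype.card X := by exact_mod_cast Fintype.card_pos
  induction n generalizing a with
  | zero =>
    have h1 := Real.ofDigits_nonneg a
    have h2 := Real.ofDigits_le_one a
    have h3 : Module.finrank (ZMod p) (DU X p a 0) = 1 := by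
      rw [DU, finrank_top, finrank_fun, pow_zero]
    rw [h3, abs_le]
    simp only [Nat.cast_one, pow_zero]
    constructor <;> linarith
  | succ n ih =>
    have h1 := ih (fun j => a (j + 1)) (fun j => ha (j + 1))
    rw [finrank_DU, ofDigits_succ]
    have h2 : ((if (a 0).val ≠ 0 then (Fintype.card X - 1) * Fintype.card X ^ n else 0 : ℕ) : ℝ) =
        ((a 0).val : ℝ) * (Fintype.card X : ℝ) ^ n := by
      rcases ha 0 with h | h
      · rw [if_neg (not_not.mpr h), h]; simp
      · by_cases h0 : (a 0).val = 0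
        · rw [if_neg (not_not.mpr h0), h0]; simp
        · rw [if_pos h0]
          have : Fintype.card X - 1 = (a 0).val := by omega
          rw [this]; push_cast; ring
    push_cast [h2] at h2 ⊢
    rw [h2]
    have h3 : (((a 0).val : ℝ) * (Fintype.card X : ℝ) ^ n +
        (Module.finrank (ZMod p) (DU X p (fun j => a (j + 1)) n) : ℝ)) / (Fintype.card X : ℝ) ^ (n + 1) -
        (((a 0).val : ℝ) / (Fintype.card X : ℝ) + (Fintype.card X : ℝ)⁻¹ * Real.ofDigits (fun j => a (j + 1))) =
        (Fintype.card X : ℝ)⁻¹ * ((Module.finrank (ZMod p) (DU X p (fun j => a (j + 1)) n) : ℝ) /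
          (Fintype.card X : ℝ) ^ n - Real.ofDigits (fun j => a (j + 1))) := by
      rw [pow_succ]; field_simp; ring
    rw [h3, abs_mul, abs_of_pos (by positivity : (0 : ℝ) < (Fintype.card X : ℝ)⁻¹)]
    calc _ ≤ (Fintype.card X : ℝ)⁻¹ * (1 / (Fintype.card X : ℝ) ^ n) := by gcongr
      _ = 1 / (Fintype.card X : ℝ) ^ (n + 1) := by rw [pow_succ]; field_simp

/-- The family of sign conditions. -/
def signFam (a : ℕ → Fin (Fintype.card X)) : Fam X where
  L n :=
    { carrier := {k | (fun w => sg (k w)) ∈ DU X 2 a n}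
      mul_mem' := by
        intro k l hk hl
        show (fun w => sg ((k * l) w)) ∈ DU X 2 a n
        have h := Submodule.add_mem _ hk hl
        have e : (fun w => sg ((k * l) w)) = (fun w => sg (k w)) + fun w => sg (l w) := by
          funext w; exact sg_mul _ _
        rw [e]; exact h
      one_mem' := by
        show (fun w => sg ((1 : Wd X n → Perm X) w)) ∈ DU X 2 a n
        have e : (fun w => sg ((1 : Wd X n → Perm X) w)) = 0 := by
          funext w; exact sg_one
        rw [e]; exact Submodule.zero_mem _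
      inv_mem' := by
        intro k hk
        show (fun w => sg (k⁻¹ w)) ∈ DU X 2 a n
        have e : (fun w => sg (k⁻¹ w)) = fun w => sg (k w) := by
          funext w; exact sg_inv _
        rw [e]; exact hk }
  hcons n k hk x := DU_cons a n x hk
  hinv n k hk b _ := DU_inv a n b hk

theorem sg_surj [Nontrivial X] (a : ZMod 2) : ∃ σ : Perm X, sg σ = a := by
  rcases zmod2_cases a with h | h
  · exact ⟨1, by rw [h, sg_one]⟩
  · obtain ⟨x, y, hxy⟩ := exists_pair_ne X
    refine ⟨swap x y, ?_⟩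
    rw [h, sg, Perm.sign_swap hxy]
    decide

theorem card_signFam [Nontrivial X] (a : ℕ → Fin (Fintype.card X)) (n : ℕ) :
    Real.log (Nat.card ((signFam a).L n)) = (Fintype.card X : ℝ) ^ n *
      (Real.log (Fintype.card X).factorial - Real.log 2) +
      Module.finrank (ZMod 2) (DU X 2 a n) * Real.log 2 := by
  have h1 := card_split (sgHom X (Wd X n)) ((signFam a).L n)
  have h2 : (sgHom X (Wd X n)).ker ⊓ (signFam a).L n = (sgHom X (Wd X n)).ker := by
    refine inf_eq_left.mpr fun k hk => ?_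
    show (fun w => sg (k w)) ∈ DU X 2 a n
    have : (fun w => sg (k w)) = 0 := by
      funext w; exact sg_eq_zero.mpr (mem_ker_sgHom.mp hk w)
    rw [this]; exact Submodule.zero_mem _
  have h6 : Nat.card (((signFam a).L n).map (sgHom X (Wd X n))) =
      2 ^ Module.finrank (ZMod 2) (DU X 2 a n) := by
    have h : Nat.card (DU X 2 a n) = 2 ^ Module.finrank (ZMod 2) (DU X 2 a n) := by
      rw [Module.natCard_eq_pow_finrank (K := ZMod 2), Nat.card_zmod]
    rw [← h]
    refine Nat.card_congr ⟨fun b => ⟨Multiplicative.toAdd b.1, ?_⟩, fun b => ⟨Multiplicative.ofAdd b.1, ?_⟩, ?_, ?_⟩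
    · obtain ⟨_, k, hk, rfl⟩ := b
      exact hk
    · choose σ hσ using fun c : ZMod 2 => sg_surj (X := X) c
      refine ⟨fun w => σ (b.1 w), ?_, ?_⟩
      · show (fun w => sg (σ (b.1 w))) ∈ DU X 2 a n
        simp only [hσ]; exact b.2
      · apply Multiplicative.toAdd.injective
        funext w
        exact hσ _
    · intro b; rfl
    · intro b; rfl
  rw [h2, h6] at h1
  have h3 := card_ker_sgHom (X := X) (Y := Wd X n)
  rw [card_Wd] at h3
  have h4 : 0 < Nat.card (sgHom X (Wd X n)).ker := Nat.card_pos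
  have h5 : Real.log ((2 : ℝ) ^ (Fintype.card X ^ n) * Nat.card (sgHom X (Wd X n)).ker) =
      Real.log (((Fintype.card X).factorial : ℝ) ^ (Fintype.card X ^ n)) := by
    congr 1
    exact_mod_cast h3
  rw [Real.log_mul (by positivity) (by positivity), Real.log_pow, Real.log_pow] at h5
  rw [h1, Nat.cast_mul, Real.log_mul (by positivity) (by positivity), Nat.cast_pow, Real.log_pow]
  push_cast at h5 ⊢
  linarith

theorem fam_sign (hX : 2 ≤ Fintype.card X) {c : ℝ} (hc : c ∈ CD (Fintype.card X)) :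
    ∃ F : Fam X, Tendsto (fun n : ℕ => Real.log (Nat.card (F.L n)) / (Fintype.card X : ℝ) ^ n) atTop
      (𝓝 (Real.log (Fintype.card X).factorial - Real.log 2 + c * Real.log 2)) := by
  haveI : Nontrivial X := Fintype.one_lt_card_iff_nontrivial.mp (by omega)
  obtain ⟨a, ha, rfl⟩ := hc
  refine ⟨signFam a, ?_⟩
  have hd1 : (1 : ℝ) < Fintype.card X := by exact_mod_cast (by omega : 1 < Fintype.card X)
  have h0 : Tendsto (fun n : ℕ => 1 / (Fintype.card X : ℝ) ^ n) atTop (𝓝 0) := by
    have := tendsto_pow_atTop_nhds_zero_of_lt_one (r := (Fintype.card X : ℝ)⁻¹) (by positivity)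
      (inv_lt_one_of_one_lt₀ hd1)
    refine this.congr fun n => ?_
    rw [inv_pow, one_div]
  have h1 : Tendsto (fun n => (Module.finrank (ZMod 2) (DU X 2 a n) : ℝ) / (Fintype.card X : ℝ) ^ n)
      atTop (𝓝 (Real.ofDigits a)) := by
    have h2 : Tendsto (fun n => (Module.finrank (ZMod 2) (DU X 2 a n) : ℝ) / (Fintype.card X : ℝ) ^ n -
        Real.ofDigits a) atTop (𝓝 0) :=
      squeeze_zero_norm (fun n => by rw [Real.norm_eq_abs]; exact DU_close a ha n) h0
    have := h2.add_const (Real.ofDigits a)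
    simpa using this
  have h3 := (h1.mul_const (Real.log 2)).const_add (Real.log (Fintype.card X).factorial - Real.log 2)
  refine h3.congr fun n => ?_
  rw [card_signFam]
  have : (0 : ℝ) < (Fintype.card X : ℝ) ^ n := by positivity
  field_simp

end SignFam

end Pool.Agent.Helper501.Haus

namespace Pool.Agent.Helper501.Haus.E3

open Equiv Filter Topology


namespace Fam3

/-- value at the last letter zero -/
def c0 (n : ℕ) : (Wd (Fin 3) (n+1) → Fin 3) →+ (Wd (Fin 3) n → Fin 3) where
  toFun f w := f (sn w 0)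
  map_zero' := rfl
  map_add' _ _ := rfl

def c1 (n : ℕ) : (Wd (Fin 3) (n+1) → Fin 3) →+ (Wd (Fin 3) n → Fin 3) where
  toFun f w := f (sn w 1) - f (sn w 0)
  map_zero' := rfl
  map_add' f g := by
    funext w
    show (f (sn w 1) + g (sn w 1)) - (f (sn w 0) + g (sn w 0)) = (f (sn w 1) - f (sn w 0)) + (g (sn w 1) - g (sn w 0))
    abel

def c2 (n : ℕ) : (Wd (Fin 3) (n+1) → Fin 3) →+ (Wd (Fin 3) n → Fin 3) where
  toFun f w := f (sn w 0) + f (sn w 1) + f (sn w 2)
  map_zero' := rfl
  map_add' f g := by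
    funext w
    show (f (sn w 0) + g (sn w 0)) + (f (sn w 1) + g (sn w 1)) + (f (sn w 2) + g (sn w 2)) =
      (f (sn w 0) + f (sn w 1) + f (sn w 2)) + (g (sn w 0) + g (sn w 1) + g (sn w 2))
    abel

theorem c0_apply (n : ℕ) (f : Wd (Fin 3) (n+1) → Fin 3) (w : Wd (Fin 3) n) : c0 n f w = f (sn w 0) := rfl
theorem c1_apply (n : ℕ) (f : Wd (Fin 3) (n+1) → Fin 3) (w : Wd (Fin 3) n) :
    c1 n f w = f (sn w 1) - f (sn w 0) := rfl
theorem c2_apply (n : ℕ) (f : Wd (Fin 3) (n+1) → Fin 3) (w : Wd (Fin 3) n) :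
    c2 n f w = f (sn w 0) + f (sn w 1) + f (sn w 2) := rfl

def U : (n : ℕ) → (ℕ → Fin 3) → AddSubgroup (Wd (Fin 3) n → Fin 3)
  | 0, _ => ⊤
  | n+1, e =>
    if e 0 = 2 then (U n (fun i => e (i+1))).comap (c2 n)
    else if e 0 = 1 then (c2 n).ker ⊓ (U n (fun i => e (i+1))).comap (c1 n)
    else ((c2 n).ker ⊓ (c1 n).ker) ⊓ (U n (fun i => e (i+1))).comap (c0 n)

theorem mem_U_two {n : ℕ} {e : ℕ → Fin 3} (h : e 0 = 2) {f : Wd (Fin 3) (n+1) → Fin 3} :
    f ∈ U (n+1) e ↔ c2 n f ∈ U n (fun i => e (i+1)) := by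
  rw [U, if_pos h]; exact Iff.rfl

theorem mem_U_one {n : ℕ} {e : ℕ → Fin 3} (h : e 0 = 1) {f : Wd (Fin 3) (n+1) → Fin 3} :
    f ∈ U (n+1) e ↔ c2 n f = 0 ∧ c1 n f ∈ U n (fun i => e (i+1)) := by
  rw [U, if_neg (by rw [h]; decide), if_pos h]; exact Iff.rfl

theorem mem_U_zero {n : ℕ} {e : ℕ → Fin 3} (h : e 0 = 0) {f : Wd (Fin 3) (n+1) → Fin 3} :
    f ∈ U (n+1) e ↔ (c2 n f = 0 ∧ c1 n f = 0) ∧ c0 n f ∈ U n (fun i => e (i+1)) := by
  rw [U, if_neg (by rw [h]; decide), if_neg (by rw [h]; decide)]; exact Iff.rfl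

/-- translation -/
def tr (a : Fin 3) : Perm (Fin 3) := Equiv.addRight a

theorem tr_apply (a x : Fin 3) : tr a x = x + a := rfl
theorem tr_mul (a b : Fin 3) : tr a * tr b = tr (a + b) := by
  ext1 x
  rw [Perm.mul_apply, tr_apply, tr_apply, tr_apply]; abel
theorem tr_zero : tr 0 = 1 := by
  ext1 x; rw [tr_apply, add_zero]; rfl
theorem tr_neg (a : Fin 3) : (tr a)⁻¹ = tr (-a) := by
  rw [inv_eq_iff_mul_eq_one, tr_mul, add_neg_cancel, tr_zero]
theorem tr_inj {a b : Fin 3} (h : tr a = tr b) : a = b := by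
  have := congrArg (fun s : Perm (Fin 3) => s 0) h
  simp only [tr_apply, zero_add] at this
  exact this

theorem fin_two (φ : Fin 3 → Fin 3) (a : Fin 3) : φ (0+a) + φ (1+a) + φ (2+a) = φ 0 + φ 1 + φ 2 := by
  revert a φ; decide

theorem fin_one (φ : Fin 3 → Fin 3) (h : φ 0 + φ 1 + φ 2 = 0) (a : Fin 3) :
    φ (1+a) - φ (0+a) = φ 1 - φ 0 := by
  revert a h; revert φ; decide

theorem fin_zero (φ : Fin 3 → Fin 3) (h : φ 0 + φ 1 + φ 2 = 0) (h' : φ 1 - φ 0 = 0) (a : Fin 3) :
    φ a = φ 0 := by
  revert a h' h; revert φ; decide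

theorem U_cons (n : ℕ) : ∀ (e : ℕ → Fin 3) (f : Wd (Fin 3) (n+1) → Fin 3), f ∈ U (n+1) e → ∀ x,
    (fun w => f (cons x n w)) ∈ U n e := by
  induction n with
  | zero => intro e f _ x; exact AddSubgroup.mem_top _
  | succ n ih =>
    intro e f hf x
    have k0 : c0 n (fun w => f (cons x (n+1) w)) = fun w => c0 (n+1) f (cons x n w) := rfl
    have k1 : c1 n (fun w => f (cons x (n+1) w)) = fun w => c1 (n+1) f (cons x n w) := rfl
    have k2 : c2 n (fun w => f (cons x (n+1) w)) = fun w => c2 (n+1) f (cons x n w) := rfl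
    have h3 : ∀ a : Fin 3, a = 0 ∨ a = 1 ∨ a = 2 := by decide
    rcases h3 (e 0) with h | h | h
    · rw [mem_U_zero h] at hf ⊢
      refine ⟨⟨?_, ?_⟩, ?_⟩
      · rw [k2, hf.1.1]; rfl
      · rw [k1, hf.1.2]; rfl
      · rw [k0]; exact ih _ _ hf.2 x
    · rw [mem_U_one h] at hf ⊢
      refine ⟨?_, ?_⟩
      · rw [k2, hf.1]; rfl
      · rw [k1]; exact ih _ _ hf.2 x
    · rw [mem_U_two h] at hf ⊢
      rw [k2]; exact ih _ _ hf x

theorem U_inv (n : ℕ) : ∀ (e : ℕ → Fin 3) (f : Wd (Fin 3) n → Fin 3), f ∈ U n e → ∀ b : Portrait (Fin 3),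
    (∀ j < n, ∃ g : Wd (Fin 3) j → Fin 3, b.lab j = fun w => tr (g w)) →
    (fun w => f (lev b n w)) ∈ U n e := by
  induction n with
  | zero => intro e f hf b _; exact AddSubgroup.mem_top _
  | succ n ih =>
    intro e f hf b hb
    obtain ⟨g, hg⟩ := hb n (by omega)
    have hb' : ∀ j < n, ∃ g : Wd (Fin 3) j → Fin 3, b.lab j = fun w => tr (g w) :=
      fun j hj => hb j (by omega)
    have key : ∀ w x, f (lev b (n+1) (sn w x)) = f (sn (lev b n w) (x + g w)) := by
      intro w x
      rw [lev_succ, hg]; rfl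
    have k2 : c2 n (fun w => f (lev b (n+1) w)) = fun w => c2 n f (lev b n w) := by
      funext w
      rw [c2_apply, c2_apply, key, key, key]
      exact fin_two (fun x => f (sn (lev b n w) x)) (g w)
    have h3 : ∀ a : Fin 3, a = 0 ∨ a = 1 ∨ a = 2 := by decide
    rcases h3 (e 0) with h | h | h
    · rw [mem_U_zero h] at hf ⊢
      have z2 : ∀ v, f (sn v 0) + f (sn v 1) + f (sn v 2) = 0 := fun v => congrFun hf.1.1 v
      have z1 : ∀ v, f (sn v 1) - f (sn v 0) = 0 := fun v => congrFun hf.1.2 v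
      refine ⟨⟨?_, ?_⟩, ?_⟩
      · rw [k2, hf.1.1]; rfl
      · funext w
        rw [c1_apply, key, key]
        rw [fin_one (fun x => f (sn (lev b n w) x)) (z2 _) (g w)]
        exact z1 _
      · have k0 : c0 n (fun w => f (lev b (n+1) w)) = fun w => c0 n f (lev b n w) := by
          funext w
          rw [c0_apply, c0_apply, key, zero_add]
          exact fin_zero (fun x => f (sn (lev b n w) x)) (z2 _) (z1 _) (g w)
        rw [k0]; exact ih _ _ hf.2 b hb'
    · rw [mem_U_one h] at hf ⊢
      have z2 : ∀ v, f (sn v 0) + f (sn v 1) + f (sn v 2) = 0 := fun v => congrFun hf.1 v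
      refine ⟨?_, ?_⟩
      · rw [k2, hf.1]; rfl
      · have k1 : c1 n (fun w => f (lev b (n+1) w)) = fun w => c1 n f (lev b n w) := by
          funext w
          rw [c1_apply, c1_apply, key, key]
          exact fin_one (fun x => f (sn (lev b n w) x)) (z2 _) (g w)
        rw [k1]; exact ih _ _ hf.2 b hb'
    · rw [mem_U_two h] at hf ⊢
      rw [k2]; exact ih _ _ hf b hb'

/-- reconstruct from the three coordinates -/
def rec3 (p q r : Fin 3) (x : Fin 3) : Fin 3 :=
  if x = 0 then p else if x = 1 then p + q else r - p - (p + q)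

theorem rec3_c0 (p q r : Fin 3) : rec3 p q r 0 = p := by revert p q r; decide
theorem rec3_c1 (p q r : Fin 3) : rec3 p q r 1 - rec3 p q r 0 = q := by revert p q r; decide
theorem rec3_c2 (p q r : Fin 3) : rec3 p q r 0 + rec3 p q r 1 + rec3 p q r 2 = r := by
  revert p q r; decide
theorem rec3_eq (φ : Fin 3 → Fin 3) (x : Fin 3) : rec3 (φ 0) (φ 1 - φ 0) (φ 0 + φ 1 + φ 2) x = φ x := by
  revert x φ; decide

/-- the equivalence -/
def E3 (n : ℕ) : (Wd (Fin 3) (n+1) → Fin 3) ≃
    (Wd (Fin 3) n → Fin 3) × (Wd (Fin 3) n → Fin 3) × (Wd (Fin 3) n → Fin 3) where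
  toFun f := (c0 n f, c1 n f, c2 n f)
  invFun t := fun q => rec3 (t.1 (ini q)) (t.2.1 (ini q)) (t.2.2 (ini q)) (lst q)
  left_inv f := by
    funext q
    obtain ⟨w, x, rfl⟩ := exists_sn q
    exact rec3_eq (fun x => f (sn w x)) x
  right_inv t := by
    obtain ⟨p, q, r⟩ := t
    refine Prod.ext ?_ (Prod.ext ?_ ?_)
    · funext w; exact rec3_c0 (p w) (q w) (r w)
    · funext w; exact rec3_c1 (p w) (q w) (r w)
    · funext w; exact rec3_c2 (p w) (q w) (r w)

theorem card_fun (n : ℕ) : Nat.card (Wd (Fin 3) n → Fin 3) = 3^(3^n) := by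
  rw [Nat.card_eq_fintype_card, Fintype.card_fun, Fintype.card_fin, card_Wd, Fintype.card_fin]

/-- exponent -/
def hh : (n : ℕ) → (ℕ → Fin 3) → ℕ
  | 0, _ => 1
  | n+1, e => (e 0 : ℕ) * 3^n + hh n (fun i => e (i+1))

theorem card_U (n : ℕ) : ∀ e : ℕ → Fin 3, Nat.card (U n e) = 3^(hh n e) := by
  induction n with
  | zero =>
    intro e
    have : Nat.card (U 0 e) = Nat.card (Wd (Fin 3) 0 → Fin 3) :=
      Nat.card_congr (Equiv.subtypeUnivEquiv (fun f => AddSubgroup.mem_top f))
    rw [this, card_fun]; rfl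
  | succ n ih =>
    intro e
    have h3 : ∀ a : Fin 3, a = 0 ∨ a = 1 ∨ a = 2 := by decide
    rcases h3 (e 0) with h | h | h
    · have e1 : Nat.card (U (n+1) e) = Nat.card (U n (fun i => e (i+1))) := by
        refine Nat.card_congr
          { toFun := fun f => ⟨c0 n f.1, ((mem_U_zero h).1 f.2).2⟩
            invFun := fun g => ⟨(E3 n).symm (g.1, 0, 0), ?_⟩
            left_inv := ?_
            right_inv := ?_ }
        · rw [mem_U_zero h]
          have := (E3 n).apply_symm_apply (g.1, 0, 0)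
          have h0 := congrArg Prod.fst this
          have h1 := congrArg (fun t => t.2.1) this
          have h2 := congrArg (fun t => t.2.2) this
          refine ⟨⟨h2, h1⟩, ?_⟩
          have h0' : c0 n ((E3 n).symm (g.1, 0, 0)) = g.1 := h0
          rw [h0']; exact g.2
        · intro f
          apply Subtype.ext
          have hf := (mem_U_zero h).1 f.2
          show (E3 n).symm (c0 n f.1, 0, 0) = f.1
          rw [Equiv.symm_apply_eq]
          show _ = (c0 n f.1, c1 n f.1, c2 n f.1)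
          rw [hf.1.1, hf.1.2]
        · intro g
          apply Subtype.ext
          exact congrArg Prod.fst ((E3 n).apply_symm_apply (g.1, 0, 0))
      rw [e1, ih, hh, h]; simp
    · have e1 : Nat.card (U (n+1) e) = Nat.card ((Wd (Fin 3) n → Fin 3) × U n (fun i => e (i+1))) := by
        refine Nat.card_congr
          { toFun := fun f => (c0 n f.1, ⟨c1 n f.1, ((mem_U_one h).1 f.2).2⟩)
            invFun := fun g => ⟨(E3 n).symm (g.1, g.2.1, 0), ?_⟩
            left_inv := ?_
            right_inv := ?_ }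
        · rw [mem_U_one h]
          have := (E3 n).apply_symm_apply (g.1, g.2.1, 0)
          have h1 := congrArg (fun t => t.2.1) this
          have h2 := congrArg (fun t => t.2.2) this
          refine ⟨h2, ?_⟩
          have h1' : c1 n ((E3 n).symm (g.1, g.2.1, 0)) = g.2.1 := h1
          rw [h1']; exact g.2.2
        · intro f
          apply Subtype.ext
          have hf := (mem_U_one h).1 f.2
          show (E3 n).symm (c0 n f.1, c1 n f.1, 0) = f.1
          rw [Equiv.symm_apply_eq]
          show _ = (c0 n f.1, c1 n f.1, c2 n f.1)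
          rw [hf.1]
        · intro g
          have h5 := (E3 n).apply_symm_apply (g.1, g.2.1, 0)
          have h6 : c0 n ((E3 n).symm (g.1, g.2.1, 0)) = g.1 := congrArg (fun t => t.1) h5
          have h7 : c1 n ((E3 n).symm (g.1, g.2.1, 0)) = g.2.1 := congrArg (fun t => t.2.1) h5
          exact Prod.ext h6 (Subtype.ext h7)
      rw [e1, Nat.card_prod, ih, card_fun, hh, h, pow_add]; simp
    · have e1 : Nat.card (U (n+1) e) =
          Nat.card ((Wd (Fin 3) n → Fin 3) × (Wd (Fin 3) n → Fin 3) × U n (fun i => e (i+1))) := by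
        refine Nat.card_congr
          { toFun := fun f => (c0 n f.1, c1 n f.1, ⟨c2 n f.1, (mem_U_two h).1 f.2⟩)
            invFun := fun g => ⟨(E3 n).symm (g.1, g.2.1, g.2.2.1), ?_⟩
            left_inv := ?_
            right_inv := ?_ }
        · rw [mem_U_two h]
          have := (E3 n).apply_symm_apply (g.1, g.2.1, g.2.2.1)
          have h2 := congrArg (fun t => t.2.2) this
          have h2' : c2 n ((E3 n).symm (g.1, g.2.1, g.2.2.1)) = g.2.2.1 := h2
          rw [h2']; exact g.2.2.2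
        · intro f
          apply Subtype.ext
          exact (E3 n).symm_apply_apply f.1
        · intro g
          have h5 := (E3 n).apply_symm_apply (g.1, g.2.1, g.2.2.1)
          have h6 : c0 n ((E3 n).symm (g.1, g.2.1, g.2.2.1)) = g.1 := congrArg (fun t => t.1) h5
          have h7 : c1 n ((E3 n).symm (g.1, g.2.1, g.2.2.1)) = g.2.1 := congrArg (fun t => t.2.1) h5
          have h8 : c2 n ((E3 n).symm (g.1, g.2.1, g.2.2.1)) = g.2.2.1 := congrArg (fun t => t.2.2) h5
          exact Prod.ext h6 (Prod.ext h7 (Subtype.ext h8))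
      rw [e1, Nat.card_prod, Nat.card_prod, ih, card_fun, hh, h, pow_add]
      rw [show ((2 : Fin 3) : ℕ) = 2 from rfl, two_mul, pow_add, mul_assoc]

/-- the family -/
def L (e : ℕ → Fin 3) (n : ℕ) : Subgroup (Wd (Fin 3) n → Perm (Fin 3)) where
  carrier := {k | ∃ f ∈ U n e, k = fun w => tr (f w)}
  mul_mem' := by
    rintro _ _ ⟨f, hf, rfl⟩ ⟨g, hg, rfl⟩
    refine ⟨f + g, add_mem hf hg, ?_⟩
    funext w
    exact tr_mul _ _
  one_mem' := ⟨0, zero_mem _, by funext w; exact tr_zero.symm⟩
  inv_mem' := by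
    rintro _ ⟨f, hf, rfl⟩
    refine ⟨-f, neg_mem hf, ?_⟩
    funext w
    exact tr_neg _

def F (e : ℕ → Fin 3) : Fam (Fin 3) where
  L := L e
  hcons := by
    rintro n _ ⟨f, hf, rfl⟩ x
    exact ⟨_, U_cons n e f hf x, rfl⟩
  hinv := by
    rintro n _ ⟨f, hf, rfl⟩ b hb
    refine ⟨_, U_inv n e f hf b (fun j hj => ?_), rfl⟩
    obtain ⟨g, _, hg⟩ := hb j hj
    exact ⟨g, hg⟩

theorem card_L (e : ℕ → Fin 3) (n : ℕ) : Nat.card (L e n) = 3^(hh n e) := by
  rw [← card_U]
  symm
  refine Nat.card_congr (Equiv.ofBijective (fun f : U n e => (⟨fun w => tr (f.1 w), f.1, f.2, rfl⟩ : L e n)) ⟨?_, ?_⟩)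
  · intro f g h
    apply Subtype.ext
    funext w
    exact tr_inj (congrFun (congrArg Subtype.val h) w)
  · rintro ⟨_, f, hf, rfl⟩
    exact ⟨⟨f, hf⟩, rfl⟩

theorem hh_eq (n : ℕ) : ∀ e : ℕ → Fin 3, (hh n e : ℝ) / 3^n =
    (∑ i ∈ Finset.range n, Real.ofDigitsTerm e i) + 1/3^n := by
  induction n with
  | zero => intro e; simp [hh]
  | succ n ih =>
    intro e
    have h1 := ih (fun i => e (i+1))
    rw [Finset.sum_range_succ']
    have e1 : ∑ i ∈ Finset.range n, Real.ofDigitsTerm e (i+1) =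
        (1/3) * ∑ i ∈ Finset.range n, Real.ofDigitsTerm (fun i => e (i+1)) i := by
      rw [Finset.mul_sum]
      apply Finset.sum_congr rfl
      intro i _
      simp only [Real.ofDigitsTerm]
      push_cast
      rw [pow_succ _ (i+1)]
      field_simp
    have e2 : (∑ i ∈ Finset.range n, Real.ofDigitsTerm (fun i => e (i+1)) i) =
        (hh n (fun i => e (i+1)) : ℝ) / 3^n - 1/3^n := by rw [h1]; ring
    rw [e1, e2, hh]
    simp only [Real.ofDigitsTerm]
    push_cast
    field_simp
    ring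

end Fam3

/-- Target: all values between `0` and `log 3` are realised for three letters. -/
theorem fam_three (v : ℝ) (h0 : 0 ≤ v) (h1 : v ≤ Real.log 3) :
    ∃ F : Fam (Fin 3), Tendsto (fun n : ℕ => Real.log (Nat.card (F.L n)) / (3 : ℝ) ^ n) atTop (𝓝 v) := by
  have hlog : 0 < Real.log 3 := Real.log_pos (by norm_num)
  obtain ⟨e, -, he⟩ := Real.ofDigits_SurjOn (b := 3) (by norm_num)
    (show v / Real.log 3 ∈ Set.Icc (0:ℝ) 1 from ⟨by positivity, (div_le_one hlog).2 h1⟩)
  refine ⟨Fam3.F e, ?_⟩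
  have key : ∀ n : ℕ, Real.log (Nat.card ((Fam3.F e).L n)) / (3 : ℝ) ^ n =
      Real.log 3 * ((∑ i ∈ Finset.range n, Real.ofDigitsTerm e i) + 1/3^n) := by
    intro n
    rw [← Fam3.hh_eq]
    have : Nat.card ((Fam3.F e).L n) = 3^(Fam3.hh n e) := Fam3.card_L e n
    rw [this]
    push_cast
    rw [Real.log_pow]; ring
  have hlim : Tendsto (fun n : ℕ => Real.log 3 * ((∑ i ∈ Finset.range n, Real.ofDigitsTerm e i) + 1/3^n))
      atTop (𝓝 (Real.log 3 * (Real.ofDigits e + 0))) := by
    apply Tendsto.const_mul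
    apply Tendsto.add
    · exact Real.summable_ofDigitsTerm.hasSum.tendsto_sum_nat
    · have := tendsto_pow_atTop_nhds_zero_of_lt_one (r := (1/3:ℝ)) (by norm_num) (by norm_num)
      refine this.congr (fun n => ?_)
      rw [one_div_pow]
  have hv : Real.log 3 * (Real.ofDigits e + 0) = v := by
    rw [add_zero, he]; field_simp
  rw [hv] at hlim
  exact hlim.congr (fun n => (key n).symm)

end Pool.Agent.Helper501.Haus.E3


namespace Pool.Agent.Helper501.Haus.E4

open Equiv Filter Topology

section F4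

/-- coefficients of a function of two bits (`x = 2a + b`) -/
def co (φ : Fin 4 → ZMod 2) : Fin 4 → ZMod 2 :=
  ![φ 0, φ 0 + φ 2, φ 0 + φ 1, φ 0 + φ 1 + φ 2 + φ 3]

theorem co_add (φ ψ : Fin 4 → ZMod 2) (j : Fin 4) : co (φ + ψ) j = co φ j + co ψ j := by
  fin_cases j <;> simp [co] <;> ring

theorem co_zero (j : Fin 4) : co (0 : Fin 4 → ZMod 2) j = 0 := by
  fin_cases j <;> simp [co]

theorem co_neg (φ : Fin 4 → ZMod 2) (j : Fin 4) : co (-φ) j = - co φ j := by
  fin_cases j <;> simp [co] <;> ring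

/-- the groups of label parities -/
def UU : (e : ℕ → Fin 4) → (n : ℕ) → AddSubgroup (Wd (Fin 4) n → ZMod 2)
  | _, 0 => ⊤
  | e, n + 1 =>
    { carrier := {f | (∀ w j, e 0 < j → co (fun x => f (sn w x)) j = 0) ∧
        (fun w => co (fun x => f (sn w x)) (e 0)) ∈ UU (fun i => e (i + 1)) n}
      add_mem' := by
        rintro f g ⟨hf1, hf2⟩ ⟨hg1, hg2⟩
        refine ⟨fun w j hj => ?_, ?_⟩
        · have := co_add (fun x => f (sn w x)) (fun x => g (sn w x)) j
          rw [hf1 w j hj, hg1 w j hj, add_zero] at this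
          exact this
        · have h := add_mem hf2 hg2
          have h2 : ((fun w => co (fun x => f (sn w x)) (e 0)) +
              fun w => co (fun x => g (sn w x)) (e 0)) =
              fun w => co (fun x => (f + g) (sn w x)) (e 0) := by
            funext w
            exact (co_add (fun x => f (sn w x)) (fun x => g (sn w x)) (e 0)).symm
          rw [h2] at h
          exact h
      zero_mem' := by
        refine ⟨fun w j hj => co_zero j, ?_⟩
        have h := (UU (fun i => e (i + 1)) n).zero_mem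
        have h2 : (0 : Wd (Fin 4) n → ZMod 2) =
            fun w => co (fun x => (0 : Wd (Fin 4) (n + 1) → ZMod 2) (sn w x)) (e 0) := by
          funext w
          exact (co_zero (e 0)).symm
        rw [h2] at h
        exact h
      neg_mem' := by
        rintro f ⟨hf1, hf2⟩
        refine ⟨fun w j hj => ?_, ?_⟩
        · have := co_neg (fun x => f (sn w x)) j
          rw [hf1 w j hj, neg_zero] at this
          exact this
        · have h := neg_mem hf2
          have h2 : (-(fun w => co (fun x => f (sn w x)) (e 0))) =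
              fun w => co (fun x => (-f) (sn w x)) (e 0) := by
            funext w
            exact (co_neg (fun x => f (sn w x)) (e 0)).symm
          rw [h2] at h
          exact h }

theorem mem_UU_succ {e : ℕ → Fin 4} {n : ℕ} {f : Wd (Fin 4) (n + 1) → ZMod 2} :
    f ∈ UU e (n + 1) ↔ (∀ w j, e 0 < j → co (fun x => f (sn w x)) j = 0) ∧
        (fun w => co (fun x => f (sn w x)) (e 0)) ∈ UU (fun i => e (i + 1)) n := Iff.rfl

theorem UU_cons (n : ℕ) : ∀ (e : ℕ → Fin 4) {f : Wd (Fin 4) (n + 1) → ZMod 2},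
    f ∈ UU e (n + 1) → ∀ x, (fun w => f (cons x n w)) ∈ UU e n := by
  induction n with
  | zero => intro e f _ x; exact AddSubgroup.mem_top _
  | succ n ih =>
    intro e f hf x
    rw [mem_UU_succ] at hf ⊢
    refine ⟨fun w j hj => ?_, ?_⟩
    · exact hf.1 (cons x n w) j hj
    · exact ih _ hf.2 x

/-- high bit -/
def hb (x : Fin 4) : ℕ := x.val / 2

/-- the dihedral group -/
def DD : Subgroup (Perm (Fin 4)) where
  carrier := {σ | ∀ x y, hb x = hb y ↔ hb (σ x) = hb (σ y)}
  mul_mem' := by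
    intro σ τ hσ hτ x y
    exact (hτ x y).trans (hσ (τ x) (τ y))
  one_mem' := fun x y => Iff.rfl
  inv_mem' := by
    intro σ hσ x y
    have := hσ (σ⁻¹ x) (σ⁻¹ y)
    have h1 : ∀ z, σ (σ⁻¹ z) = z := fun z => by
      rw [← Perm.mul_apply, mul_inv_cancel, Perm.one_apply]
    rw [h1, h1] at this
    exact this.symm

theorem mem_DD {σ : Perm (Fin 4)} : σ ∈ DD ↔ ∀ x y, hb x = hb y ↔ hb (σ x) = hb (σ y) := Iff.rfl

set_option maxRecDepth 100000 in
theorem co_comp_aux : ∀ s0 s1 s2 s3 : Fin 4, hb s0 = hb s1 → hb s2 = hb s3 → s0 ≠ s1 → s2 ≠ s3 →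
    hb s0 ≠ hb s2 → ∀ f0 f1 f2 f3 : ZMod 2, ∀ j : Fin 4,
      (∀ i, j < i → co ![f0, f1, f2, f3] i = 0) →
      (∀ i, j < i → co ![![f0, f1, f2, f3] s0, ![f0, f1, f2, f3] s1, ![f0, f1, f2, f3] s2,
        ![f0, f1, f2, f3] s3] i = 0) ∧
      co ![![f0, f1, f2, f3] s0, ![f0, f1, f2, f3] s1, ![f0, f1, f2, f3] s2,
        ![f0, f1, f2, f3] s3] j = co ![f0, f1, f2, f3] j := by
  decide

theorem co_comp {σ : Perm (Fin 4)} (hσ : σ ∈ DD) (φ : Fin 4 → ZMod 2) (j : Fin 4)
    (h : ∀ i, j < i → co φ i = 0) :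
    (∀ i, j < i → co (fun x => φ (σ x)) i = 0) ∧ co (fun x => φ (σ x)) j = co φ j := by
  have hφ : φ = ![φ 0, φ 1, φ 2, φ 3] := by
    funext x; fin_cases x <;> rfl
  have hφσ : (fun x => φ (σ x)) = ![![φ 0, φ 1, φ 2, φ 3] (σ 0), ![φ 0, φ 1, φ 2, φ 3] (σ 1),
      ![φ 0, φ 1, φ 2, φ 3] (σ 2), ![φ 0, φ 1, φ 2, φ 3] (σ 3)] := by
    rw [← hφ]
    funext x; fin_cases x <;> rfl
  have key := co_comp_aux (σ 0) (σ 1) (σ 2) (σ 3) ((hσ 0 1).1 rfl) ((hσ 2 3).1 rfl)
    (fun h => absurd (σ.injective h) (by decide)) (fun h => absurd (σ.injective h) (by decide))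
    (fun h => absurd ((hσ 0 2).2 h) (by decide)) (φ 0) (φ 1) (φ 2) (φ 3) j (by
      rw [← hφ]; exact h)
  rw [hφσ]
  rw [← hφ] at key ⊢
  exact key

theorem UU_lev (b : Portrait (Fin 4)) (n : ℕ) : ∀ (e : ℕ → Fin 4) {f : Wd (Fin 4) n → ZMod 2},
    f ∈ UU e n → (∀ j < n, ∀ w, b.lab j w ∈ DD) → (fun w => f (lev b n w)) ∈ UU e n := by
  induction n with
  | zero => intro e f _ _; exact AddSubgroup.mem_top _
  | succ n ih =>
    intro e f hf hb
    rw [mem_UU_succ] at hf ⊢
    have h1 : ∀ w, (∀ i, e 0 < i → co (fun x => f (lev b (n + 1) (sn w x))) i = 0) ∧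
        co (fun x => f (lev b (n + 1) (sn w x))) (e 0) =
          co (fun x => f (sn (lev b n w) x)) (e 0) := by
      intro w
      exact co_comp (hb n (by omega) w) (fun x => f (sn (lev b n w) x)) (e 0)
        (fun i hi => hf.1 (lev b n w) i hi)
    refine ⟨fun w j hj => (h1 w).1 j hj, ?_⟩
    have h2 := ih _ hf.2 (fun j hj => hb j (by omega))
    have h3 : (fun w => co (fun x => f (lev b (n + 1) (sn w x))) (e 0)) =
        fun w => co (fun x => f (sn (lev b n w) x)) (e 0) := funext fun w => (h1 w).2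
    rw [h3]
    exact h2

/-- parity -/
def rr (σ : Perm (Fin 4)) : ZMod 2 := if Perm.sign σ = 1 then 0 else 1

theorem rr_mul (σ τ : Perm (Fin 4)) : rr (σ * τ) = rr σ + rr τ := by
  unfold rr
  rw [Perm.sign_mul]
  rcases Int.units_eq_one_or (Perm.sign σ) with h1 | h1 <;>
  rcases Int.units_eq_one_or (Perm.sign τ) with h2 | h2 <;> rw [h1, h2] <;> decide

theorem rr_one : rr 1 = 0 := by simp [rr]

theorem rr_inv (σ : Perm (Fin 4)) : rr σ⁻¹ = - rr σ := by
  have h := rr_mul σ⁻¹ σ
  rw [inv_mul_cancel, rr_one] at h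
  exact eq_neg_of_add_eq_zero_left h.symm

/-- the family -/
def famE (e : ℕ → Fin 4) : Fam (Fin 4) where
  L n :=
    { carrier := {k | (∀ w, k w ∈ DD) ∧ (fun w => rr (k w)) ∈ UU e n}
      mul_mem' := by
        rintro k l ⟨hk1, hk2⟩ ⟨hl1, hl2⟩
        refine ⟨fun w => mul_mem (hk1 w) (hl1 w), ?_⟩
        have h := add_mem hk2 hl2
        have h2 : ((fun w => rr (k w)) + fun w => rr (l w)) = fun w => rr ((k * l) w) :=
          funext fun w => (rr_mul (k w) (l w)).symm
        rw [h2] at h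
        exact h
      one_mem' := by
        refine ⟨fun w => one_mem _, ?_⟩
        have h := (UU e n).zero_mem
        have h2 : (0 : Wd (Fin 4) n → ZMod 2) =
            fun w => rr ((1 : Wd (Fin 4) n → Perm (Fin 4)) w) := funext fun w => rr_one.symm
        rw [h2] at h
        exact h
      inv_mem' := by
        rintro k ⟨hk1, hk2⟩
        refine ⟨fun w => inv_mem (hk1 w), ?_⟩
        have h := neg_mem hk2
        have h2 : (-(fun w => rr (k w))) = fun w => rr (k⁻¹ w) :=
          funext fun w => (rr_inv (k w)).symm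
        rw [h2] at h
        exact h }
  hcons n k hk x := ⟨fun w => hk.1 _, UU_cons n e hk.2 x⟩
  hinv n k hk b hb := ⟨fun w => hk.1 _, UU_lev b n e hk.2 (fun j hj w => (hb j hj).1 w)⟩

/-- counting maps with prescribed values of `r` -/
theorem card_fib {W A B : Type} [Fintype W] [Finite A] [Finite B] (P : A → Prop) (r : A → B)
    (S : Set (W → B)) (c : ℕ) (hc : ∀ b, Nat.card {a // P a ∧ r a = b} = c) :
    Nat.card {f : W → A // (∀ w, P (f w)) ∧ (fun w => r (f w)) ∈ S} =
      Nat.card S * c ^ Fintype.card W := by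
  classical
  let F : {f : W → A // (∀ w, P (f w)) ∧ (fun w => r (f w)) ∈ S} → S :=
    fun f => ⟨fun w => r (f.1 w), f.2.2⟩
  have hfin : Finite S := Subtype.finite
  letI : Fintype S := Fintype.ofFinite S
  rw [Nat.card_congr (Equiv.sigmaFiberEquiv F).symm, Nat.card_sigma]
  have hfib : ∀ g : S, Nat.card {f // F f = g} = c ^ Fintype.card W := by
    intro g
    have heq : {f // F f = g} ≃ ((w : W) → {a // P a ∧ r a = g.1 w}) :=
      { toFun := fun f w => ⟨f.1.1 w, f.1.2.1 w, congrFun (congrArg Subtype.val f.2) w⟩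
        invFun := fun h => ⟨⟨fun w => (h w).1, fun w => (h w).2.1, by
          have : (fun w => r (h w).1) = g.1 := funext fun w => (h w).2.2
          rw [this]; exact g.2⟩, Subtype.ext (funext fun w => (h w).2.2)⟩
        left_inv := fun f => rfl
        right_inv := fun h => rfl }
    rw [Nat.card_congr heq, Nat.card_pi]
    simp only [hc]
    rw [Finset.prod_const, Finset.card_univ]
  simp only [hfib]
  rw [Finset.sum_const, Finset.card_univ, smul_eq_mul, Nat.card_eq_fintype_card]

set_option maxRecDepth 100000 in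
theorem card_co : ∀ (e0 : Fin 4) (c : ZMod 2),
    Fintype.card {φ : Fin 4 → ZMod 2 // (∀ j, e0 < j → co φ j = 0) ∧ co φ e0 = c} = 2 ^ (e0 : ℕ) := by
  decide +kernel

instance : DecidablePred (fun σ : Perm (Fin 4) => σ ∈ DD) := fun σ =>
  inferInstanceAs (Decidable (∀ x y, hb x = hb y ↔ hb (σ x) = hb (σ y)))

set_option maxRecDepth 100000 in
theorem card_rr : ∀ (c : ZMod 2),
    Fintype.card {σ : Perm (Fin 4) // σ ∈ DD ∧ rr σ = c} = 4 := by
  decide +kernel

theorem card_UU_succ (e : ℕ → Fin 4) (n : ℕ) : Nat.card (UU e (n + 1)) =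
    Nat.card (UU (fun i => e (i + 1)) n) * (2 ^ (e 0 : ℕ)) ^ (4 ^ n) := by
  have h := card_fib (W := Wd (Fin 4) n) (fun φ : Fin 4 → ZMod 2 => ∀ j, e 0 < j → co φ j = 0)
    (fun φ => co φ (e 0)) (UU (fun i => e (i + 1)) n : Set (Wd (Fin 4) n → ZMod 2)) (2 ^ (e 0 : ℕ))
    (fun c => by rw [Nat.card_eq_fintype_card]; exact card_co (e 0) c)
  rw [card_Wd, Fintype.card_fin] at h
  refine Eq.trans (Nat.card_congr ?_) h
  exact
    { toFun := fun f => ⟨fun w x => f.1 (sn w x), fun w => f.2.1 w, f.2.2⟩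
      invFun := fun F => ⟨fun q => F.1 (ini q) (lst q), fun w => F.2.1 w, F.2.2⟩
      left_inv := fun f => rfl
      right_inv := fun F => rfl }

theorem card_UU_zero (e : ℕ → Fin 4) : Nat.card (UU e 0) = 2 := by
  have h1 : Nat.card (UU e 0) = Nat.card (Wd (Fin 4) 0 → ZMod 2) := by
    show Nat.card ((⊤ : AddSubgroup (Wd (Fin 4) 0 → ZMod 2)) : Type) = _
    exact Nat.card_congr (AddSubgroup.topEquiv.toEquiv)
  rw [h1]
  show Nat.card (Unit → ZMod 2) = 2
  rw [Nat.card_eq_fintype_card]
  decide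

theorem card_L (e : ℕ → Fin 4) (n : ℕ) : Nat.card ((famE e).L n) =
    Nat.card (UU e n) * 4 ^ (4 ^ n) := by
  have h := card_fib (W := Wd (Fin 4) n) (fun σ : Perm (Fin 4) => σ ∈ DD) rr
    (UU e n : Set (Wd (Fin 4) n → ZMod 2)) 4
    (fun c => by rw [Nat.card_eq_fintype_card]; exact card_rr c)
  rw [card_Wd, Fintype.card_fin] at h
  exact h

theorem log_card_UU (n : ℕ) : ∀ e : ℕ → Fin 4, Real.log (Nat.card (UU e n)) =
    Real.log 2 * (1 + 4 ^ n * ∑ i ∈ Finset.range n, Real.ofDigitsTerm e i) := by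
  induction n with
  | zero => intro e; rw [card_UU_zero]; simp
  | succ n ih =>
    intro e
    have hpos : 0 < Nat.card (UU (fun i => e (i + 1)) n) := by
      have : Nonempty (UU (fun i => e (i + 1)) n) := ⟨0⟩
      exact Nat.card_pos
    rw [card_UU_succ]
    push_cast
    rw [Real.log_mul (by exact_mod_cast hpos.ne') (by positivity), Real.log_pow, Real.log_pow,
      ih (fun i => e (i + 1)), Finset.sum_range_succ']
    simp only [Real.ofDigitsTerm]
    rw [mul_add ((4 : ℝ) ^ (n + 1)), Finset.mul_sum, Finset.mul_sum]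
    have h1 : ∀ i ∈ Finset.range n, (4 : ℝ) ^ (n + 1) * (((e (i + 1) : Fin 4) : ℕ) *
        (((4 : ℕ) : ℝ) ^ (i + 1 + 1))⁻¹) = 4 ^ n * (((e (i + 1) : Fin 4) : ℕ) *
        (((4 : ℕ) : ℝ) ^ (i + 1))⁻¹) := by
      intro i _
      push_cast
      field_simp
      ring
    rw [Finset.sum_congr rfl h1]
    push_cast
    field_simp
    ring

end F4

/-- Target: all values between `log 4` and `log 8` are realised for four letters. -/
theorem fam_four (v : ℝ) (h0 : Real.log 4 ≤ v) (h1 : v ≤ Real.log 8) :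
    ∃ F : Fam (Fin 4), Tendsto (fun n : ℕ => Real.log (Nat.card (F.L n)) / (4 : ℝ) ^ n) atTop (𝓝 v) := by
  have hl2 : 0 < Real.log 2 := Real.log_pos (by norm_num)
  have hl8 : Real.log 8 = Real.log 4 + Real.log 2 := by
    rw [← Real.log_mul (by norm_num) (by norm_num)]; norm_num
  have hx : (v - Real.log 4) / Real.log 2 ∈ Set.Icc (0 : ℝ) 1 := by
    constructor
    · exact div_nonneg (by linarith) hl2.le
    · rw [div_le_one hl2]; linarith
  obtain ⟨e, -, he⟩ := Real.ofDigits_SurjOn (b := 4) (by norm_num) hx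
  refine ⟨famE e, ?_⟩
  have hsum : Tendsto (fun n => ∑ i ∈ Finset.range n, Real.ofDigitsTerm e i) atTop
      (𝓝 ((v - Real.log 4) / Real.log 2)) := by
    rw [← he]
    exact Real.summable_ofDigitsTerm.hasSum.tendsto_sum_nat
  have hinv : Tendsto (fun n : ℕ => ((4 : ℝ) ^ n)⁻¹) atTop (𝓝 0) :=
    tendsto_inv_atTop_zero.comp (tendsto_pow_atTop_atTop_of_one_lt (by norm_num))
  have hlim : Tendsto (fun n : ℕ => Real.log 2 * (((4 : ℝ) ^ n)⁻¹ +
      ∑ i ∈ Finset.range n, Real.ofDigitsTerm e i) + Real.log 4) atTop (𝓝 v) := by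
    have := ((hinv.add hsum).const_mul (Real.log 2)).add_const (Real.log 4)
    have e1 : Real.log 2 * (0 + (v - Real.log 4) / Real.log 2) + Real.log 4 = v := by
      rw [zero_add, mul_div_cancel₀ _ hl2.ne']; ring
    rw [e1] at this
    exact this
  refine hlim.congr fun n => ?_
  have hpos : 0 < Nat.card (UU e n) := by
    have : Nonempty (UU e n) := ⟨0⟩
    exact Nat.card_pos
  rw [card_L]
  push_cast
  rw [Real.log_mul (by exact_mod_cast hpos.ne') (by positivity), Real.log_pow, log_card_UU]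
  push_cast
  field_simp

end Pool.Agent.Helper501.Haus.E4


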