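import Pool.Agent.Helper501.Haus.Base

namespace Pool.Agent.Helper501.Haus.E5

open Equiv Filter Topology

section FamAdm

theorem fib_card : ∀ c : ZMod 2 × ZMod 3, Fintype.card {σ : Perm (Fin 4) // (sg σ, th σ) = c} = 4 := by
  decide +kernel

/-- Coordinates on the permutations of four letters. -/
noncomputable def fibE : Perm (Fin 4) ≃ (ZMod 2 × ZMod 3) × Fin 4 :=
  (Equiv.sigmaFiberEquiv (fun σ : Perm (Fin 4) => (sg σ, th σ))).symm.trans
    ((Equiv.sigmaCongrRight fun c => Fintype.equivFinOfCardEq (fib_card c)).trans (Equiv.sigmaEquivProd _ _))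

theorem fibE_fst (σ : Perm (Fin 4)) : (fibE σ).1 = (sg σ, th σ) := rfl

/-- The sign spaces. -/
def UU4 : (ℕ → Fin 4) → (n : ℕ) → Submodule (ZMod 2) (Wd (Fin 4) n → ZMod 2)
  | _, 0 => ⊤
  | a, n + 1 =>
    if (a 0).val ≠ 0 then (UU4 (fun j => a (j + 1)) n).comap (sumLast (Fin 4) 2 n)
    else (UU4 (fun j => a (j + 1)) n).map (pull (Fin 4) 2 n)

/-- The rotation spaces. -/
def TT4 : (ℕ → Fin 4) → (ℕ → Fin 4) → (n : ℕ) → Submodule (ZMod 3) (Wd (Fin 4) n → ZMod 3)
  | _, _, 0 => ⊤
  | a, b, n + 1 =>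
    if (a 0).val ≠ 0 then (if (b 0).val ≠ 0 then ⊤ else ⊥)
    else (if (b 0).val ≠ 0 then (TT4 (fun j => a (j + 1)) (fun j => b (j + 1)) n).comap (sumLast (Fin 4) 3 n)
      else (TT4 (fun j => a (j + 1)) (fun j => b (j + 1)) n).map (pull (Fin 4) 3 n))

theorem sumLast_lev {p : ℕ} [Fact p.Prime] (g : Portrait (Fin 4)) (n : ℕ) (f : Wd (Fin 4) (n + 1) → ZMod p) :
    sumLast (Fin 4) p n (fun w => f (lev g (n + 1) w)) = fun w => sumLast (Fin 4) p n f (lev g n w) := by
  funext w
  rw [sumLast_apply, sumLast_apply]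
  exact Fintype.sum_equiv (g.lab n w) _ _ (fun x => rfl)

theorem sumLast_cons {p : ℕ} [Fact p.Prime] (x : Fin 4) (n : ℕ) (f : Wd (Fin 4) (n + 2) → ZMod p) :
    sumLast (Fin 4) p n (fun w => f (cons x (n + 1) w)) = fun w => sumLast (Fin 4) p (n + 1) f (cons x n w) := by
  funext w
  rw [sumLast_apply, sumLast_apply]
  rfl

theorem UU4_lev (g : Portrait (Fin 4)) (n : ℕ) : ∀ (a : ℕ → Fin 4), ∀ f ∈ UU4 a n,
    (fun w => f (lev g n w)) ∈ UU4 a n := by
  induction n with
  | zero => intro a f _; exact Submodule.mem_top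
  | succ n ih =>
    intro a f hf
    rw [UU4] at hf ⊢
    split_ifs at hf ⊢ with h
    · rw [Submodule.mem_comap] at hf ⊢
      rw [sumLast_lev]
      exact ih _ _ hf
    · obtain ⟨f', hf', rfl⟩ := hf
      exact ⟨_, ih _ _ hf', rfl⟩

theorem UU4_cons (x : Fin 4) (n : ℕ) : ∀ (a : ℕ → Fin 4), ∀ f ∈ UU4 a (n + 1),
    (fun w => f (cons x n w)) ∈ UU4 a n := by
  induction n with
  | zero => intro a f _; exact Submodule.mem_top
  | succ n ih =>
    intro a f hf
    rw [UU4] at hf ⊢
    split_ifs at hf ⊢ with h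
    · rw [Submodule.mem_comap] at hf ⊢
      rw [sumLast_cons]
      exact ih _ _ hf
    · obtain ⟨f', hf', rfl⟩ := hf
      exact ⟨_, ih _ _ hf', rfl⟩

theorem TT4_lev (g : Portrait (Fin 4)) (n : ℕ) : ∀ (a b : ℕ → Fin 4), ∀ f ∈ TT4 a b n,
    (fun w => f (lev g n w)) ∈ TT4 a b n := by
  induction n with
  | zero => intro a b f _; exact Submodule.mem_top
  | succ n ih =>
    intro a b f hf
    rw [TT4] at hf ⊢
    split_ifs at hf ⊢ with h1 h2 h3
    · exact Submodule.mem_top
    · rw [Submodule.mem_bot] at hf ⊢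
      rw [hf]; rfl
    · rw [Submodule.mem_comap] at hf ⊢
      rw [sumLast_lev]
      exact ih _ _ _ hf
    · obtain ⟨f', hf', rfl⟩ := hf
      exact ⟨_, ih _ _ _ hf', rfl⟩

theorem TT4_cons (x : Fin 4) (n : ℕ) : ∀ (a b : ℕ → Fin 4), ∀ f ∈ TT4 a b (n + 1),
    (fun w => f (cons x n w)) ∈ TT4 a b n := by
  induction n with
  | zero => intro a b f _; exact Submodule.mem_top
  | succ n ih =>
    intro a b f hf
    rw [TT4] at hf ⊢
    split_ifs at hf ⊢ with h1 h2 h3
    · exact Submodule.mem_top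
    · rw [Submodule.mem_bot] at hf ⊢
      rw [hf]; rfl
    · rw [Submodule.mem_comap] at hf ⊢
      rw [sumLast_cons]
      exact ih _ _ _ hf
    · obtain ⟨f', hf', rfl⟩ := hf
      exact ⟨_, ih _ _ _ hf', rfl⟩

theorem TT4_sgn (n : ℕ) : ∀ (a b : ℕ → Fin 4), ∀ s ∈ UU4 a n, ∀ t ∈ TT4 a b n,
    (fun w => sgn3 (s w) * t w) ∈ TT4 a b n := by
  induction n with
  | zero => intro a b s _ t _; exact Submodule.mem_top
  | succ n ih =>
    intro a b s hs t ht
    rw [UU4] at hs
    rw [TT4] at ht ⊢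
    split_ifs at hs ht ⊢ with h1 h2 h3
    · exact Submodule.mem_top
    · rw [Submodule.mem_bot] at ht ⊢
      rw [ht]; funext w; exact mul_zero _
    · obtain ⟨s', hs', rfl⟩ := hs
      rw [Submodule.mem_comap] at ht ⊢
      have e : sumLast (Fin 4) 3 n (fun w => sgn3 (pull (Fin 4) 2 n s' w) * t w) =
          fun w => sgn3 (s' w) * sumLast (Fin 4) 3 n t w := by
        funext w
        rw [sumLast_apply, sumLast_apply, Finset.mul_sum]
        rfl
      rw [e]
      exact ih _ _ _ hs' _ ht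
    · obtain ⟨s', hs', rfl⟩ := hs
      obtain ⟨t', ht', rfl⟩ := ht
      exact ⟨_, ih _ _ _ hs' _ ht', rfl⟩

/-- The label group. -/
def LL4 (a b : ℕ → Fin 4) (n : ℕ) : Subgroup (Wd (Fin 4) n → Perm (Fin 4)) where
  carrier := {k | (fun w => sg (k w)) ∈ UU4 a n ∧ (fun w => th (k w)) ∈ TT4 a b n}
  mul_mem' := by
    rintro k l ⟨hk1, hk2⟩ ⟨hl1, hl2⟩
    refine ⟨?_, ?_⟩
    · have := (UU4 a n).add_mem hk1 hl1
      convert this using 1
      funext w; exact sg_mul _ _
    · have := (TT4 a b n).add_mem hk2 (TT4_sgn n a b _ hk1 _ hl2)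
      convert this using 1
      funext w
      rw [Pi.mul_apply, th_mul, Pi.add_apply]
      congr 1
      unfold sgn3
      split_ifs <;> ring
  one_mem' := by
    refine ⟨?_, ?_⟩
    · have := (UU4 a n).zero_mem
      convert this using 1
      funext w; exact sg_one
    · have := (TT4 a b n).zero_mem
      convert this using 1
      funext w; show th 1 = 0; decide
  inv_mem' := by
    rintro k ⟨hk1, hk2⟩
    refine ⟨?_, ?_⟩
    · convert hk1 using 1
      funext w; exact sg_inv _
    · have := (TT4 a b n).neg_mem (TT4_sgn n a b _ hk1 _ hk2)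
      convert this using 1
      funext w
      rw [Pi.inv_apply, th_inv, Pi.neg_apply]
      unfold sgn3
      split_ifs <;> ring

/-- The family of label groups. -/
def FF4 (a b : ℕ → Fin 4) : Fam (Fin 4) where
  L := LL4 a b
  hcons := by
    rintro n k ⟨hk1, hk2⟩ x
    exact ⟨UU4_cons x n a _ hk1, TT4_cons x n a b _ hk2⟩
  hinv := by
    rintro n k ⟨hk1, hk2⟩ g _
    exact ⟨UU4_lev g n a _ hk1, TT4_lev g n a b _ hk2⟩

theorem card_LL4 (a b : ℕ → Fin 4) (n : ℕ) :
    Nat.card (LL4 a b n) = (2 ^ Module.finrank (ZMod 2) (UU4 a n) * 3 ^ Module.finrank (ZMod 3) (TT4 a b n)) *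
      4 ^ 4 ^ n := by
  have hp3 : Fact (Nat.Prime 3) := ⟨Nat.prime_three⟩
  have h1 : Nat.card (UU4 a n) = 2 ^ Module.finrank (ZMod 2) (UU4 a n) := by
    rw [Module.natCard_eq_pow_finrank (K := ZMod 2), Nat.card_zmod]
  have h2 : Nat.card (TT4 a b n) = 3 ^ Module.finrank (ZMod 3) (TT4 a b n) := by
    rw [Module.natCard_eq_pow_finrank (K := ZMod 3), Nat.card_zmod]
  have h3 : Nat.card (Wd (Fin 4) n → Fin 4) = 4 ^ 4 ^ n := by
    rw [Nat.card_fun, Nat.card_eq_fintype_card, Nat.card_eq_fintype_card, card_Wd, Fintype.card_fin]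
  rw [← h1, ← h2, ← h3, ← Nat.card_prod, ← Nat.card_prod]
  refine Nat.card_congr
    { toFun := fun k => ((⟨_, k.2.1⟩, ⟨_, k.2.2⟩), fun w => (fibE (k.1 w)).2)
      invFun := fun p => ⟨fun w => fibE.symm ((p.1.1.1 w, p.1.2.1 w), p.2 w), ?_, ?_⟩
      left_inv := ?_
      right_inv := ?_ }
  · convert p.1.1.2 using 1
    funext w
    have := fibE_fst (fibE.symm ((p.1.1.1 w, p.1.2.1 w), p.2 w))
    rw [Equiv.apply_symm_apply] at this
    exact (congrArg Prod.fst this).symm
  · convert p.1.2.2 using 1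
    funext w
    have := fibE_fst (fibE.symm ((p.1.1.1 w, p.1.2.1 w), p.2 w))
    rw [Equiv.apply_symm_apply] at this
    exact (congrArg Prod.snd this).symm
  · intro k
    apply Subtype.ext
    funext w
    show fibE.symm ((sg (k.1 w), th (k.1 w)), (fibE (k.1 w)).2) = k.1 w
    rw [← fibE_fst, Prod.mk.eta, Equiv.symm_apply_apply]
  · intro p
    obtain ⟨⟨⟨u, hu⟩, ⟨t, ht⟩⟩, v⟩ := p
    have key : ∀ w, sg (fibE.symm ((u w, t w), v w)) = u w ∧ th (fibE.symm ((u w, t w), v w)) = t w := by
      intro w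
      have := fibE_fst (fibE.symm ((u w, t w), v w))
      rw [Equiv.apply_symm_apply] at this
      exact ⟨(congrArg Prod.fst this).symm, (congrArg Prod.snd this).symm⟩
    refine Prod.ext (Prod.ext (Subtype.ext ?_) (Subtype.ext ?_)) ?_
    · funext w; exact (key w).1
    · funext w; exact (key w).2
    · funext w
      show (fibE (fibE.symm ((u w, t w), v w))).2 = v w
      rw [Equiv.apply_symm_apply]

theorem finrank_comap_sumLast {p : ℕ} [Fact p.Prime] (n : ℕ) (M : Submodule (ZMod p) (Wd (Fin 4) n → ZMod p)) :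
    Module.finrank (ZMod p) (M.comap (sumLast (Fin 4) p n)) = 3 * 4 ^ n + Module.finrank (ZMod p) M := by
  have h1 : LinearMap.ker (sumLast (Fin 4) p n) ≤ M.comap (sumLast (Fin 4) p n) := by
    intro f hf
    rw [Submodule.mem_comap, LinearMap.mem_ker.mp hf]
    exact M.zero_mem
  rw [finrank_split (sumLast (Fin 4) p n), inf_eq_right.mpr h1, finrank_ker_sumLast,
    Submodule.map_comap_eq_of_surjective (sumLast_surjective n), Fintype.card_fin, add_comm]

theorem finrank_map_pull {p : ℕ} [Fact p.Prime] (n : ℕ) (M : Submodule (ZMod p) (Wd (Fin 4) n → ZMod p)) :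
    Module.finrank (ZMod p) (M.map (pull (Fin 4) p n)) = Module.finrank (ZMod p) M :=
  (Submodule.equivMapOfInjective _ (pull_injective (p := p) n) M).finrank_eq.symm

theorem UU4_close (n : ℕ) : ∀ a : ℕ → Fin 4, Ext a →
    |(Module.finrank (ZMod 2) (UU4 a n) : ℝ) / 4 ^ n - Real.ofDigits a| ≤ 1 / 4 ^ n := by
  induction n with
  | zero =>
    intro a _
    have h0 : Module.finrank (ZMod 2) (UU4 a 0) = 1 := by
      rw [UU4, finrank_top, finrank_fun, pow_zero]
    have h1 := Real.ofDigits_nonneg a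
    have h2 := Real.ofDigits_le_one a
    rw [h0, abs_le]; simp only [Nat.cast_one, pow_zero, div_one]; constructor <;> linarith
  | succ n ih =>
    intro a ha
    have ih' := ih (fun j => a (j + 1)) (fun j => ha (j + 1))
    have h1 : (Module.finrank (ZMod 2) (UU4 a (n + 1)) : ℝ) =
        (a 0).val * 4 ^ n + Module.finrank (ZMod 2) (UU4 (fun j => a (j + 1)) n) := by
      by_cases h : (a 0).val ≠ 0
      · rw [UU4, if_pos h, finrank_comap_sumLast]
        have : (a 0).val = 3 := by rcases ha 0 with h' | h' <;> omega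
        rw [this]; push_cast; ring
      · rw [UU4, if_neg h, finrank_map_pull]
        have : (a 0).val = 0 := by omega
        rw [this]; push_cast; ring
    have h2 : (Module.finrank (ZMod 2) (UU4 a (n + 1)) : ℝ) / 4 ^ (n + 1) - Real.ofDigits a =
        (1 / 4) * ((Module.finrank (ZMod 2) (UU4 (fun j => a (j + 1)) n) : ℝ) / 4 ^ n -
          Real.ofDigits (fun j => a (j + 1))) := by
      rw [h1, ofDigits_succ, pow_succ]
      push_cast
      field_simp
      ring
    rw [h2, abs_mul, abs_of_pos (by norm_num : (0 : ℝ) < 1 / 4), pow_succ]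
    calc 1 / 4 * |(Module.finrank (ZMod 2) (UU4 (fun j => a (j + 1)) n) : ℝ) / 4 ^ n -
          Real.ofDigits (fun j => a (j + 1))| ≤ 1 / 4 * (1 / 4 ^ n) := by gcongr
      _ = 1 / (4 ^ n * 4) := by field_simp

theorem TT4_close (n : ℕ) : ∀ a b : ℕ → Fin 4, Ext a → Ext b → (∀ i j, i ≤ j → (a i).val ≠ 0 → b j = b i) →
    |(Module.finrank (ZMod 3) (TT4 a b n) : ℝ) / 4 ^ n - Real.ofDigits b| ≤ 1 / 4 ^ n := by
  have hp3 : Fact (Nat.Prime 3) := ⟨Nat.prime_three⟩
  induction n with
  | zero =>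
    intro a b _ _ _
    have h0 : Module.finrank (ZMod 3) (TT4 a b 0) = 1 := by
      rw [TT4, finrank_top, finrank_fun, pow_zero]
    have h1 := Real.ofDigits_nonneg b
    have h2 := Real.ofDigits_le_one b
    rw [h0, abs_le]; simp only [Nat.cast_one, pow_zero, div_one]; constructor <;> linarith
  | succ n ih =>
    intro a b ha hb hab
    by_cases h : (a 0).val ≠ 0
    · have hc : b = fun _ => b 0 := by
        funext j; exact hab 0 j (Nat.zero_le _) h
      rcases hb 0 with h' | h'
      · have hT : TT4 a b (n + 1) = ⊥ := by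
          rw [TT4, if_pos h, if_neg (by omega)]
        have h0 : b = fun _ => 0 := by
          rw [hc]; funext j; exact Fin.ext h'
        have hz : Real.ofDigits b = 0 := by
          rw [h0, Real.ofDigits]
          simp [Real.ofDigitsTerm]
        rw [hT, hz, finrank_bot]
        simp
      · have hT : TT4 a b (n + 1) = ⊤ := by
          rw [TT4, if_pos h, if_pos (by omega)]
        have h0 : b = fun _ => 3 := by
          rw [hc]; funext j; apply Fin.ext; show (b 0).val = 3; omega
        have hz : Real.ofDigits b = 1 := by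
          rw [h0]
          exact Real.ofDigits_const_last_eq_one 3
        rw [hT, hz, finrank_top, finrank_fun, Fintype.card_fin]
        have h4 : (4 : ℝ) ^ (n + 1) ≠ 0 := by positivity
        push_cast
        rw [div_self h4, sub_self, abs_zero]
        positivity
    · have ih' := ih (fun j => a (j + 1)) (fun j => b (j + 1)) (fun j => ha (j + 1)) (fun j => hb (j + 1))
        (fun i j hij hi => hab (i + 1) (j + 1) (by omega) hi)
      have h1 : (Module.finrank (ZMod 3) (TT4 a b (n + 1)) : ℝ) =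
          (b 0).val * 4 ^ n + Module.finrank (ZMod 3) (TT4 (fun j => a (j + 1)) (fun j => b (j + 1)) n) := by
        by_cases h' : (b 0).val ≠ 0
        · rw [TT4, if_neg h, if_pos h', finrank_comap_sumLast]
          have : (b 0).val = 3 := by rcases hb 0 with h' | h' <;> omega
          rw [this]; push_cast; ring
        · rw [TT4, if_neg h, if_neg h', finrank_map_pull]
          have : (b 0).val = 0 := by omega
          rw [this]; push_cast; ring
      have h2 : (Module.finrank (ZMod 3) (TT4 a b (n + 1)) : ℝ) / 4 ^ (n + 1) - Real.ofDigits b =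
          (1 / 4) * ((Module.finrank (ZMod 3) (TT4 (fun j => a (j + 1)) (fun j => b (j + 1)) n) : ℝ) / 4 ^ n -
            Real.ofDigits (fun j => b (j + 1))) := by
        rw [h1, ofDigits_succ, pow_succ]
        push_cast
        field_simp
        ring
      rw [h2, abs_mul, abs_of_pos (by norm_num : (0 : ℝ) < 1 / 4), pow_succ]
      calc 1 / 4 * |(Module.finrank (ZMod 3) (TT4 (fun j => a (j + 1)) (fun j => b (j + 1)) n) : ℝ) / 4 ^ n -
            Real.ofDigits (fun j => b (j + 1))| ≤ 1 / 4 * (1 / 4 ^ n) := by gcongr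
        _ = 1 / (4 ^ n * 4) := by field_simp

end FamAdm

/-- Target. -/
theorem fam_adm {z : ℝ} (hz : z ∈ Adm) :
    ∃ F : Fam (Fin 4), Tendsto (fun n : ℕ => Real.log (Nat.card (F.L n)) / (4 : ℝ) ^ n) atTop
      (𝓝 (Real.log 4 + z)) := by
  obtain ⟨a, b, ha, hb, hab, rfl⟩ := hz
  refine ⟨FF4 a b, ?_⟩
  have h0 : Tendsto (fun n : ℕ => 1 / (4 : ℝ) ^ n) atTop (𝓝 0) := by
    have := tendsto_pow_atTop_nhds_zero_of_lt_one (r := (4 : ℝ)⁻¹) (by positivity) (by norm_num)
    refine this.congr fun n => ?_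
    rw [inv_pow, one_div]
  have h1 : Tendsto (fun n : ℕ => (Module.finrank (ZMod 2) (UU4 a n) : ℝ) / 4 ^ n) atTop (𝓝 (Real.ofDigits a)) := by
    rw [tendsto_iff_norm_sub_tendsto_zero]
    exact squeeze_zero (fun n => norm_nonneg _) (fun n => UU4_close n a ha) h0
  have h2 : Tendsto (fun n : ℕ => (Module.finrank (ZMod 3) (TT4 a b n) : ℝ) / 4 ^ n) atTop
      (𝓝 (Real.ofDigits b)) := by
    rw [tendsto_iff_norm_sub_tendsto_zero]
    exact squeeze_zero (fun n => norm_nonneg _) (fun n => TT4_close n a b ha hb hab) h0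
  have h3 := ((h1.mul_const (Real.log 2)).add (h2.mul_const (Real.log 3))).const_add (Real.log 4)
  refine h3.congr fun n => ?_
  show _ = Real.log (Nat.card (LL4 a b n)) / (4 : ℝ) ^ n
  rw [card_LL4]
  push_cast
  have h4 : (4 : ℝ) ^ n ≠ 0 := by positivity
  rw [Real.log_mul (by positivity) (by positivity), Real.log_mul (by positivity) (by positivity),
    Real.log_pow, Real.log_pow, Real.log_pow]
  push_cast
  field_simp
  ring

end Pool.Agent.Helper501.Haus.E5


namespace Pool.Agent.Helper501.Haus.E6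
open Equiv Filter Topology

section Glue
variable {X : Type}

/-- First letter. -/
def hd : (n : ℕ) → Wd X (n + 1) → X
  | 0, q => lst q
  | n + 1, q => hd n (ini q)

/-- All but the first letter. -/
def tl : (n : ℕ) → Wd X (n + 1) → Wd X n
  | 0, _ => (() : Wd X 0)
  | n + 1, q => sn (tl n (ini q)) (lst q)

theorem hd_cons (x : X) (n : ℕ) (w : Wd X n) : hd n (cons x n w) = x := by
  induction n with
  | zero => rfl
  | succ n ih => exact ih (ini w)

theorem tl_cons (x : X) (n : ℕ) (w : Wd X n) : tl n (cons x n w) = w := by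
  induction n with
  | zero => rfl
  | succ n ih =>
    obtain ⟨w, y, rfl⟩ := exists_sn w
    show sn (tl n (cons x n w)) y = sn w y
    rw [ih]

theorem cons_hd_tl (n : ℕ) (v : Wd X (n + 1)) : cons (hd n v) n (tl n v) = v := by
  obtain ⟨x, w, rfl⟩ := exists_cons n v
  rw [hd_cons, tl_cons]

/-- A portrait from its root label and sections. -/
def glue (σ : Perm X) (f : X → Portrait X) : Portrait X where
  lab
  | 0, _ => σ
  | n + 1, v => (f (hd n v)).lab n (tl n v)

theorem rt_glue (σ : Perm X) (f : X → Portrait X) : rt (glue σ f) = σ := rfl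

theorem sec_glue (σ : Perm X) (f : X → Portrait X) (x : X) : sec (glue σ f) x = f x := by
  apply Portrait.ext
  funext n w
  show (f (hd n (cons x n w))).lab n (tl n (cons x n w)) = _
  rw [hd_cons, tl_cons]

theorem lab_zero_eq_one {a : Portrait X} : a.lab 0 = 1 ↔ rt a = 1 :=
  ⟨fun h => congrFun h (), fun h => by funext w; exact h⟩

theorem lab_succ_eq_one {a : Portrait X} {n : ℕ} :
    a.lab (n + 1) = 1 ↔ ∀ x, (sec a x).lab n = 1 := by
  constructor
  · intro h x
    funext w
    rw [sec_lab, h]; rfl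
  · intro h
    funext v
    obtain ⟨x, w, rfl⟩ := exists_cons n v
    exact congrFun (h x) w

/-- Put portraits at the words of length `n`. -/
def graft : (n : ℕ) → (Wd X n → Portrait X) → Portrait X
  | 0, f => f ()
  | n + 1, f => glue 1 (fun x => graft n (fun w => f (cons x n w)))

theorem sec_graft (n : ℕ) (f : Wd X (n + 1) → Portrait X) (x : X) :
    sec (graft (n + 1) f) x = graft n (fun w => f (cons x n w)) := sec_glue _ _ _

theorem graft_lab_lt (n : ℕ) (f : Wd X n → Portrait X) : ∀ j < n, (graft n f).lab j = 1 := by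
  induction n with
  | zero => intro j hj; omega
  | succ n ih =>
    intro j hj
    cases j with
    | zero => exact lab_zero_eq_one.mpr rfl
    | succ j =>
      rw [lab_succ_eq_one]
      intro x
      rw [sec_graft]
      exact ih _ j (by omega)

theorem graft_lab_self (n : ℕ) (f : Wd X n → Portrait X) (w : Wd X n) :
    (graft n f).lab n w = rt (f w) := by
  induction n with
  | zero => rfl
  | succ n ih =>
    obtain ⟨x, w, rfl⟩ := exists_cons n w
    rw [← sec_lab, sec_graft, ih]

theorem graft_lab_add (m j : ℕ) (f : Wd X m → Portrait X) (hf : ∀ v, (f v).lab j = 1) :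
    ∀ i, i = m + j → (graft m f).lab i = 1 := by
  induction m with
  | zero =>
    intro i hi
    rw [Nat.zero_add] at hi
    subst hi
    exact hf ()
  | succ m ih =>
    intro i hi
    obtain ⟨i, rfl⟩ : ∃ i', i = i' + 1 := ⟨i - 1, by omega⟩
    rw [lab_succ_eq_one]
    intro x
    rw [sec_graft]
    exact ih _ (fun v => hf _) i (by omega)

theorem sec_mul (a b : Portrait X) (x : X) : sec (a * b) x = sec a (rt b x) * sec b x := by
  apply Portrait.ext
  funext n w
  rw [sec_lab, mul_lab, mul_lab, sec_lab, sec_lab, lev_cons]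

theorem sec_one (x : X) : sec (1 : Portrait X) x = 1 := rfl

theorem rt_mul (a b : Portrait X) : rt (a * b) = rt a * rt b := rfl

theorem rt_inv (a : Portrait X) : rt a⁻¹ = (rt a)⁻¹ := rfl

theorem sec_inv (a : Portrait X) (x : X) : sec a⁻¹ x = (sec a ((rt a)⁻¹ x))⁻¹ := by
  have h := sec_mul a⁻¹ a ((rt a)⁻¹ x)
  have h2 : rt a ((rt a)⁻¹ x) = x := (rt a).apply_symm_apply x
  rw [inv_mul_cancel, sec_one, h2] at h
  exact eq_inv_of_mul_eq_one_left h.symm

end Glue

end Pool.Agent.Helper501.Haus.E6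

namespace Pool.Agent.Helper501.Haus.E6
open Equiv Filter Topology

section Values

/-- The value of a function on words of length `q`, as a relation. -/
def DV : (q : ℕ) → (ℕ → Fin 4) → (Wd (Fin 4) q → ZMod 3) → ZMod 3 → Prop
  | 0, _, f, t => f () = t
  | q + 1, b, f, t =>
    ((b 0).val = 0 → (∀ w x y, f (sn w x) = f (sn w y)) ∧
      DV q (fun j => b (j + 1)) (fun w => f (sn w 0)) t) ∧
    ((b 0).val ≠ 0 → DV q (fun j => b (j + 1)) (sumLast (Fin 4) 3 q f) t)

theorem DV_zero (b : ℕ → Fin 4) (f : Wd (Fin 4) 0 → ZMod 3) (t : ZMod 3) : DV 0 b f t ↔ f () = t := Iff.rfl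

theorem DV_succ_of_zero {q : ℕ} {b : ℕ → Fin 4} (hb : (b 0).val = 0) (f : Wd (Fin 4) (q + 1) → ZMod 3) (t : ZMod 3) :
    DV (q + 1) b f t ↔ (∀ w x y, f (sn w x) = f (sn w y)) ∧
      DV q (fun j => b (j + 1)) (fun w => f (sn w 0)) t :=
  ⟨fun h => h.1 hb, fun h => ⟨fun _ => h, fun h2 => absurd hb h2⟩⟩

theorem DV_succ_of_ne {q : ℕ} {b : ℕ → Fin 4} (hb : (b 0).val ≠ 0) (f : Wd (Fin 4) (q + 1) → ZMod 3) (t : ZMod 3) :
    DV (q + 1) b f t ↔ DV q (fun j => b (j + 1)) (sumLast (Fin 4) 3 q f) t :=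
  ⟨fun h => h.2 hb, fun h => ⟨fun h2 => absurd h2 hb, fun _ => h⟩⟩

theorem DV_lin {q : ℕ} (b : ℕ → Fin 4) {f g : Wd (Fin 4) q → ZMod 3} {t u : ZMod 3} (c : ZMod 3)
    (hf : DV q b f t) (hg : DV q b g u) : DV q b (fun w => f w + c * g w) (t + c * u) := by
  induction q generalizing b with
  | zero =>
    rw [DV_zero] at hf hg ⊢
    rw [hf, hg]
  | succ q ih =>
    by_cases hb : (b 0).val = 0
    · rw [DV_succ_of_zero hb] at hf hg ⊢
      refine ⟨fun w x y => ?_, ih _ hf.2 hg.2⟩
      rw [hf.1 w x y, hg.1 w x y]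
    · rw [DV_succ_of_ne hb] at hf hg ⊢
      convert ih _ hf hg using 1
      funext w
      rw [sumLast_apply, sumLast_apply, sumLast_apply, Finset.sum_add_distrib, Finset.mul_sum]

theorem DV_null (q : ℕ) (b : ℕ → Fin 4) : DV q b (fun _ => 0) 0 := by
  induction q generalizing b with
  | zero => rfl
  | succ q ih =>
    by_cases hb : (b 0).val = 0
    · rw [DV_succ_of_zero hb]
      exact ⟨fun _ _ _ => rfl, ih _⟩
    · rw [DV_succ_of_ne hb]
      convert ih _ using 1
      funext w
      rw [sumLast_apply]; simp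

theorem DV_smul {q : ℕ} (b : ℕ → Fin 4) {f : Wd (Fin 4) q → ZMod 3} {t : ZMod 3} (c : ZMod 3)
    (hf : DV q b f t) : DV q b (fun w => c * f w) (c * t) := by
  have := DV_lin b c (DV_null q b) hf
  simpa using this

theorem DV_unique {q : ℕ} (b : ℕ → Fin 4) {f : Wd (Fin 4) q → ZMod 3} {t u : ZMod 3}
    (hf : DV q b f t) (hg : DV q b f u) : t = u := by
  induction q generalizing b with
  | zero => exact hf.symm.trans hg
  | succ q ih =>
    by_cases hb : (b 0).val = 0
    · rw [DV_succ_of_zero hb] at hf hg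
      exact ih _ hf.2 hg.2
    · rw [DV_succ_of_ne hb] at hf hg
      exact ih _ hf hg

theorem DV_lev {q : ℕ} (b : ℕ → Fin 4) {f : Wd (Fin 4) q → ZMod 3} {t : ZMod 3} (a : Portrait (Fin 4))
    (hf : DV q b f t) : DV q b (fun w => f (lev a q w)) t := by
  induction q generalizing b with
  | zero => exact hf
  | succ q ih =>
    by_cases hb : (b 0).val = 0
    · rw [DV_succ_of_zero hb] at hf ⊢
      refine ⟨fun w x y => by rw [lev_succ, lev_succ]; exact hf.1 _ _ _, ?_⟩
      convert ih _ hf.2 using 1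
      funext w
      rw [lev_succ]; exact hf.1 _ _ _
    · rw [DV_succ_of_ne hb] at hf ⊢
      convert ih _ hf using 1
      funext w
      rw [sumLast_apply, sumLast_apply]
      exact Fintype.sum_equiv (a.lab q w) _ _ (fun x => rfl)

/-- The number of functions with a given value. -/
def NV : ℕ → (ℕ → Fin 4) → ℕ
  | 0, _ => 1
  | q + 1, b => NV q (fun j => b (j + 1)) * (if (b 0).val = 0 then 1 else (3 ^ 3) ^ (4 ^ q))

instance (n : ℕ) : Finite (Wd (Fin 4) n) := Finite.of_fintype _

theorem card_DV {q : ℕ} (b : ℕ → Fin 4) (t : ZMod 3) :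
    Nat.card {f : Wd (Fin 4) q → ZMod 3 // DV q b f t} = NV q b := by
  induction q generalizing b with
  | zero =>
    rw [NV, Nat.card_eq_one_iff_unique]
    refine ⟨⟨?_⟩, ⟨⟨fun _ => t, rfl⟩⟩⟩
    rintro ⟨f, hf⟩ ⟨g, hg⟩
    apply Subtype.ext
    funext w
    exact hf.trans hg.symm
  | succ q ih =>
    by_cases hb : (b 0).val = 0
    · rw [NV, if_pos hb, mul_one, ← ih]
      refine Nat.card_congr ⟨fun f => ⟨fun w => f.1 (sn w 0), ((DV_succ_of_zero hb _ _).mp f.2).2⟩,
        fun g => ⟨fun v => g.1 (ini v), (DV_succ_of_zero hb _ _).mpr ⟨fun _ _ _ => rfl, g.2⟩⟩, ?_, ?_⟩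
      · intro f
        apply Subtype.ext
        funext v
        obtain ⟨w, x, rfl⟩ := exists_sn v
        exact ((DV_succ_of_zero hb _ _).mp f.2).1 _ _ _
      · intro g
        rfl
    · rw [NV, if_neg hb]
      have e : {f : Wd (Fin 4) (q + 1) → ZMod 3 // DV (q + 1) b f t} ≃
          {g : Wd (Fin 4) q → ZMod 3 // DV q (fun j => b (j + 1)) g t} × (Wd (Fin 4) q → Fin 3 → ZMod 3) :=
        { toFun := fun f => ⟨⟨sumLast (Fin 4) 3 q f.1, (DV_succ_of_ne hb _ _).mp f.2⟩,
            fun w i => f.1 (sn w i.castSucc)⟩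
          invFun := fun p => ⟨fun v => Fin.snoc (α := fun _ => ZMod 3) (p.2 (ini v))
              (p.1.1 (ini v) - ∑ i, p.2 (ini v) i) (lst v), by
            rw [DV_succ_of_ne hb]
            convert p.1.2 using 1
            funext w
            rw [sumLast_apply, Fin.sum_univ_castSucc]
            simp only [ini_sn, lst_sn, Fin.snoc_castSucc, Fin.snoc_last]
            ring⟩
          left_inv := by
            intro f
            apply Subtype.ext
            funext v
            obtain ⟨w, x, rfl⟩ := exists_sn v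
            simp only [ini_sn, lst_sn]
            refine Fin.lastCases ?_ (fun i => ?_) x
            · rw [Fin.snoc_last, sumLast_apply, Fin.sum_univ_castSucc]
              ring
            · rw [Fin.snoc_castSucc]
          right_inv := by
            intro p
            refine Prod.ext (Subtype.ext ?_) ?_
            · funext w
              show sumLast (Fin 4) 3 q _ w = _
              rw [sumLast_apply, Fin.sum_univ_castSucc]
              simp only [ini_sn, lst_sn, Fin.snoc_castSucc, Fin.snoc_last]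
              ring
            · funext w i
              simp only [ini_sn, lst_sn, Fin.snoc_castSucc] }
      rw [Nat.card_congr e, Nat.card_prod, ih]
      congr 1
      rw [Nat.card_fun, Nat.card_fun]
      simp only [Nat.card_eq_fintype_card, card_Wd, ZMod.card, Fintype.card_fin]

theorem log_NV {b : ℕ → Fin 4} (hb : Ext b) (q : ℕ) :
    Real.log (NV q b) = 4 ^ q * ((∑ j ∈ Finset.range q, Real.ofDigitsTerm b j) * Real.log 3) := by
  induction q generalizing b with
  | zero => simp [NV]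
  | succ q ih =>
    have h1 := ih (b := fun j => b (j + 1)) (fun j => hb (j + 1))
    have h2 : ∑ j ∈ Finset.range (q + 1), Real.ofDigitsTerm b j =
        (b 0).val / 4 + (1 / 4) * ∑ j ∈ Finset.range q, Real.ofDigitsTerm (fun j => b (j + 1)) j := by
      rw [Finset.sum_range_succ', Finset.mul_sum, add_comm]
      congr 1
      · simp [Real.ofDigitsTerm]; ring
      · refine Finset.sum_congr rfl fun j _ => ?_
        simp only [Real.ofDigitsTerm]
        push_cast
        rw [pow_succ]
        ring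
    have h0 : NV q (fun j => b (j + 1)) ≠ 0 := by
      clear h1 h2 ih hb
      induction q generalizing b with
      | zero => simp [NV]
      | succ q ih =>
        rw [NV]
        refine mul_ne_zero (ih (b := fun j => b (j + 1))) ?_
        split_ifs <;> positivity
    rw [NV, h2]
    by_cases hb0 : (b 0).val = 0
    · rw [if_pos hb0, mul_one, h1, hb0, pow_succ]
      push_cast; ring
    · have hb3 : (b 0).val = 3 := by
        have := hb 0; omega
      rw [if_neg hb0, Nat.cast_mul, Real.log_mul (by exact_mod_cast h0) (by positivity), h1, hb3,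
        Nat.cast_pow, Nat.cast_pow, Real.log_pow, Real.log_pow, Nat.cast_pow, pow_succ]
      push_cast
      ring

end Values

end Pool.Agent.Helper501.Haus.E6

namespace Pool.Agent.Helper501.Haus.E6
open Equiv Filter Topology

section Tetra

/-- The tetracode. -/
def CC (y : Fin 4 → ZMod 3) : Prop := y 2 = y 0 + y 1 ∧ y 3 = 2 * y 0 + y 1

instance : DecidablePred CC := fun _ => inferInstanceAs (Decidable (_ ∧ _))

/-- The action of the symmetric group on three letters. -/
def act (r : ZMod 3 × ZMod 2) (y : ZMod 3) : ZMod 3 := r.1 + sgn3 r.2 * y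

/-- Product. -/
def mulr (r r1 : ZMod 3 × ZMod 2) : ZMod 3 × ZMod 2 := (r.1 + sgn3 r.2 * r1.1, r.2 + r1.2)

/-- Inverse. -/
def invr (r : ZMod 3 × ZMod 2) : ZMod 3 × ZMod 2 := (- (sgn3 r.2 * r.1), r.2)

theorem act_mulr (r r1 : ZMod 3 × ZMod 2) (y : ZMod 3) : act (mulr r r1) y = act r (act r1 y) := by
  unfold act mulr
  simp only [sgn3_add]
  ring

theorem act_invr (r : ZMod 3 × ZMod 2) (y : ZMod 3) : act r (act (invr r) y) = y := by
  unfold act invr
  simp only
  have := sgn3_mul_self r.2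
  linear_combination (y - r.1) * this

theorem act_zero (y : ZMod 3) : act (0, 0) y = y := by
  unfold act sgn3
  simp

/-- Automorphisms of the tetracode. -/
def good (r : Fin 4 → ZMod 3 × ZMod 2) (σ : Perm (Fin 4)) : Prop :=
  ∀ y y' : Fin 4 → ZMod 3, (∀ x, y' (σ x) = act (r x) (y x)) → (CC y ↔ CC y')

theorem good_mul {r r1 : Fin 4 → ZMod 3 × ZMod 2} {σ σ1 : Perm (Fin 4)} (h : good r σ) (h1 : good r1 σ1) :
    good (fun x => mulr (r (σ1 x)) (r1 x)) (σ * σ1) := by
  intro y y'' hy
  have a1 := h1 y (fun z => act (r1 (σ1.symm z)) (y (σ1.symm z))) (fun x => by simp only [Equiv.symm_apply_apply])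
  have a2 := h (fun z => act (r1 (σ1.symm z)) (y (σ1.symm z))) y'' (fun z => by
    have := hy (σ1.symm z)
    simp only [Perm.mul_apply, Equiv.apply_symm_apply, act_mulr] at this
    exact this)
  exact a1.trans a2

theorem good_inv {r : Fin 4 → ZMod 3 × ZMod 2} {σ : Perm (Fin 4)} (h : good r σ) :
    good (fun x => invr (r (σ⁻¹ x))) σ⁻¹ := by
  intro y y' hy
  refine (h y' y fun x => ?_).symm
  have h2 : σ⁻¹ (σ x) = x := σ.symm_apply_apply x
  have := hy (σ x)
  simp only [h2] at this
  rw [this, act_invr]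

theorem good_one : good (fun _ => (0, 0)) 1 := by
  intro y y' hy
  have : y' = y := by
    funext x
    exact (hy x).trans (act_zero _)
  rw [this]

/-- The transposition of the letters 2 and 3. -/
def tau : Perm (Fin 4) := swap 2 3

/-- The indicator of the letter 0. -/
def stau (x : Fin 4) : ZMod 2 := if x = 0 then 1 else 0

theorem good_tau : good (fun x => (0, stau x)) tau := by
  intro y y' hy
  have h0 := hy 0
  have h1 := hy 1
  have h2 := hy 2
  have h3 := hy 3
  rw [show tau 0 = 0 by decide, show act (0, stau 0) (y 0) = - y 0 by simp [act, stau, sgn3]] at h0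
  rw [show tau 1 = 1 by decide, show act (0, stau 1) (y 1) = y 1 by simp [act, stau, sgn3]] at h1
  rw [show tau 2 = 3 by decide, show act (0, stau 2) (y 2) = y 2 by simp [act, stau, sgn3]] at h2
  rw [show tau 3 = 2 by decide, show act (0, stau 3) (y 3) = y 3 by simp [act, stau, sgn3]] at h3
  unfold CC
  rw [h0, h1, h2, h3]
  have h3 : (3 : ZMod 3) = 0 := by decide
  constructor
  · rintro ⟨e1, e2⟩
    constructor
    · linear_combination e2 + y 0 * h3
    · linear_combination e1 + y 0 * h3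
  · rintro ⟨e1, e2⟩
    constructor
    · linear_combination e2 - y 0 * h3
    · linear_combination e1 - y 0 * h3

/-- The same predicate in terms of four values. -/
theorem good_of_dec {s : Fin 4 → ZMod 2} {σ : Perm (Fin 4)}
    (h : ∀ a b c d : ZMod 3, CC ![a, b, c, d] ↔
      CC (fun z => sgn3 (s (σ.symm z)) * (![a, b, c, d] : Fin 4 → ZMod 3) (σ.symm z))) :
    good (fun x => (0, s x)) σ := by
  intro y y' hy
  have e : y = ![y 0, y 1, y 2, y 3] := by
    funext x; fin_cases x <;> rfl
  have := h (y 0) (y 1) (y 2) (y 3)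
  rw [← e] at this
  rw [this]
  have e' : y' = fun z => sgn3 (s (σ.symm z)) * y (σ.symm z) := by
    funext z
    have := hy (σ.symm z)
    rw [Equiv.apply_symm_apply] at this
    rw [this, act, zero_add]
  rw [e']

set_option maxRecDepth 10000 in
theorem exists_mono : ∀ σ : Perm (Fin 4), ∃ s0 s1 s2 s3 : ZMod 2, ∀ a b c d : ZMod 3, CC ![a, b, c, d] ↔
      CC (fun z => sgn3 ((![s0, s1, s2, s3] : Fin 4 → ZMod 2) (σ.symm z)) * (![a, b, c, d] : Fin 4 → ZMod 3) (σ.symm z)) := by
  decide +kernel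

theorem exists_good (σ : Perm (Fin 4)) : ∃ s : Fin 4 → ZMod 2, good (fun x => (0, s x)) σ := by
  obtain ⟨s0, s1, s2, s3, h⟩ := exists_mono σ
  exact ⟨_, good_of_dec h⟩

/-- Test for goodness with trivial permutation. -/
def tst (r : Fin 4 → ZMod 3 × ZMod 2) : Prop :=
  CC (fun x => (r x).1) ∧ (r 0).2 = (r 1).2 ∧ (r 0).2 = (r 2).2 ∧ (r 0).2 = (r 3).2

theorem CC_lin {y z : Fin 4 → ZMod 3} (c : ZMod 3) (hy : CC y) (hz : CC z) : CC (fun x => y x + c * z x) := by
  unfold CC at *
  simp only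
  constructor
  · rw [hy.1, hz.1]; ring
  · rw [hy.2, hz.2]; ring

theorem sgn3_rel : ∀ a b c d : ZMod 2, CC ![sgn3 a, 0, sgn3 c, 2 * sgn3 d] → CC ![0, sgn3 b, sgn3 c, sgn3 d] →
    a = b ∧ a = c ∧ a = d := by decide

theorem good_one_iff (r : Fin 4 → ZMod 3 × ZMod 2) : good r 1 ↔ tst r := by
  constructor
  · intro h
    have h0 : CC (fun x => (r x).1) := by
      refine (h (fun _ => 0) _ fun x => ?_).mp (by decide)
      simp [act]
    have key : ∀ y, CC y → CC (fun x => sgn3 (r x).2 * y x) := by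
      intro y hy
      have h1 := (h y (fun x => act (r x) (y x)) fun x => rfl).mp hy
      have h2 := CC_lin (-1) h1 h0
      convert h2 using 1
      funext x
      simp only [act]; ring
    have k1 := key ![1, 0, 1, 2] (by decide)
    have k2 := key ![0, 1, 1, 1] (by decide)
    refine ⟨h0, ?_⟩
    refine sgn3_rel _ _ _ _ ?_ ?_
    · convert k1 using 1
      funext x
      fin_cases x
      · simp
      · simp
      · simp
      · simp [mul_comm]
    · convert k2 using 1
      funext x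
      fin_cases x <;> simp
  · rintro ⟨h0, h1, h2, h3⟩ y y' hy
    have e : ∀ x, (r x).2 = (r 0).2 := by
      intro x
      fin_cases x
      · rfl
      · exact h1.symm
      · exact h2.symm
      · exact h3.symm
    have e' : y' = fun x => (r x).1 + sgn3 (r 0).2 * y x := by
      funext x
      have := hy x
      rw [act, e x] at this
      exact this
    rw [e']
    constructor
    · intro h
      exact CC_lin _ h0 h
    · intro h
      have h4 := CC_lin (-1) h h0
      have h5 := CC_lin (y := fun _ => 0) (sgn3 (r 0).2) (by decide) h4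
      convert h5 using 1
      funext x
      have := sgn3_mul_self (r 0).2
      linear_combination - y x * this

/-- Parametrisation of the good vectors. -/
def goodE : {r : Fin 4 → ZMod 3 × ZMod 2 // good r 1} ≃ (ZMod 3 × ZMod 3) × ZMod 2 where
  toFun r := (((r.1 0).1, (r.1 1).1), (r.1 0).2)
  invFun p := ⟨fun x => ((![p.1.1, p.1.2, p.1.1 + p.1.2, 2 * p.1.1 + p.1.2] : Fin 4 → ZMod 3) x, p.2), by
    rw [good_one_iff]
    exact ⟨⟨rfl, rfl⟩, rfl, rfl, rfl⟩⟩
  left_inv := by
    rintro ⟨r, hr⟩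
    rw [good_one_iff] at hr
    apply Subtype.ext
    funext x
    obtain ⟨⟨h1, h2⟩, h3, h4, h5⟩ := hr
    fin_cases x
    · rfl
    · exact Prod.ext rfl h3
    · exact Prod.ext h1.symm h4
    · exact Prod.ext h2.symm h5
  right_inv := by
    rintro ⟨⟨a, b⟩, c⟩
    rfl

theorem card_good : Nat.card {r : Fin 4 → ZMod 3 × ZMod 2 // good r 1} = 18 := by
  rw [Nat.card_congr goodE, Nat.card_prod, Nat.card_prod, Nat.card_zmod, Nat.card_zmod]

theorem card_fib : ∀ (a : ZMod 2) (b : ZMod 3),
    Fintype.card {σ : Perm (Fin 4) // sg σ = a ∧ th σ = b} = 4 := by decide +kernel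

end Tetra

end Pool.Agent.Helper501.Haus.E6

namespace Pool.Agent.Helper501.Haus.E6
open Equiv Filter Topology

section GroupE

/-- Data of a label vector on level `q`. -/
def RdL (q : ℕ) (b : ℕ → Fin 4) (k : Wd (Fin 4) q → Perm (Fin 4)) (r : ZMod 3 × ZMod 2) : Prop :=
  (∀ w, sg (k w) = r.2) ∧ DV q b (fun w => th (k w)) r.1

/-- Some word. -/
def wd0 : (n : ℕ) → Wd (Fin 4) n
  | 0 => (() : Wd (Fin 4) 0)
  | n + 1 => sn (wd0 n) 0

variable {q : ℕ} {b : ℕ → Fin 4}

theorem RdL_unique {k : Wd (Fin 4) q → Perm (Fin 4)} {r r' : ZMod 3 × ZMod 2} (h : RdL q b k r)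
    (h' : RdL q b k r') : r = r' :=
  Prod.ext (DV_unique b h.2 h'.2) ((h.1 (wd0 q)).symm.trans (h'.1 (wd0 q)))

theorem th_mul' (σ ρ : Perm (Fin 4)) : th (σ * ρ) = th σ + sgn3 (sg σ) * th ρ := by
  rw [th_mul]
  unfold sgn3
  split_ifs <;> ring

theorem th_inv' (σ : Perm (Fin 4)) : th σ⁻¹ = - sgn3 (sg σ) * th σ := by
  rw [th_inv]
  unfold sgn3
  split_ifs <;> ring

theorem RdL_mul {k l : Wd (Fin 4) q → Perm (Fin 4)} {r r1 : ZMod 3 × ZMod 2} (h : RdL q b k r)
    (h1 : RdL q b l r1) (a : Portrait (Fin 4)) : RdL q b (fun w => k (lev a q w) * l w) (mulr r r1) := by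
  refine ⟨fun w => ?_, ?_⟩
  · rw [sg_mul, h.1, h1.1]; rfl
  · have h2 := DV_lin b (sgn3 r.2) (DV_lev b a h.2) h1.2
    have e : (fun w => th (k (lev a q w) * l w)) = fun w => th (k (lev a q w)) + sgn3 r.2 * th (l w) := by
      funext w
      rw [th_mul', h.1]
    show DV q b (fun w => th (k (lev a q w) * l w)) (r.1 + sgn3 r.2 * r1.1)
    rw [e]
    exact h2

theorem RdL_inv {a : Portrait (Fin 4)} {r : ZMod 3 × ZMod 2} (h : RdL q b (a.lab q) r) :
    RdL q b (a⁻¹.lab q) (invr r) := by
  refine ⟨fun w => ?_, ?_⟩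
  · rw [inv_lab, sg_inv, h.1]; rfl
  · have h2 := DV_smul b (- sgn3 r.2) (DV_lev b a⁻¹ h.2)
    convert h2 using 1
    · funext w
      rw [inv_lab, th_inv', h.1, lev_inv]; rfl
    · show - (sgn3 r.2 * r.1) = _
      ring

theorem sg_one' : sg (1 : Perm (Fin 4)) = 0 := sg_one
theorem th_one : th (1 : Perm (Fin 4)) = 0 := by decide

theorem RdL_one : RdL q b 1 (0, 0) := by
  refine ⟨fun w => sg_one, ?_⟩
  have e : (fun w => th ((1 : Wd (Fin 4) q → Perm (Fin 4)) w)) = fun _ => 0 := by
    funext w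
    exact th_one
  rw [e]
  exact DV_null q b

/-- The local condition. -/
def PP (q : ℕ) (b : ℕ → Fin 4) (a : Portrait (Fin 4)) : Prop :=
  (∃ r, RdL q b (a.lab q) r) ∧
    ∃ r : Fin 4 → ZMod 3 × ZMod 2, (∀ x, RdL q b ((sec a x).lab q) (r x)) ∧ good r (rt a)

theorem PP_mul {a a' : Portrait (Fin 4)} (h : PP q b a) (h' : PP q b a') : PP q b (a * a') := by
  obtain ⟨⟨r, hr⟩, s, hs, hg⟩ := h
  obtain ⟨⟨r', hr'⟩, s', hs', hg'⟩ := h'
  refine ⟨⟨_, RdL_mul hr hr' a'⟩, _, fun x => ?_, good_mul hg hg'⟩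
  rw [sec_mul]
  exact RdL_mul (hs _) (hs' _) _

theorem PP_inv {a : Portrait (Fin 4)} (h : PP q b a) : PP q b a⁻¹ := by
  obtain ⟨⟨r, hr⟩, s, hs, hg⟩ := h
  refine ⟨⟨_, RdL_inv hr⟩, _, fun x => ?_, good_inv hg⟩
  rw [sec_inv]
  exact RdL_inv (hs _)

theorem PP_one : PP q b 1 := ⟨⟨_, RdL_one⟩, _, fun _ => RdL_one, good_one⟩

/-- All iterated sections satisfy the local condition. -/
def GG (q : ℕ) (b : ℕ → Fin 4) (a : Portrait (Fin 4)) : Prop := ∀ w : List (Fin 4), PP q b (secL a w)

theorem GG_iff {a : Portrait (Fin 4)} : GG q b a ↔ PP q b a ∧ ∀ x, GG q b (sec a x) :=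
  ⟨fun h => ⟨h [], fun x w => h (x :: w)⟩, fun h w => by
    cases w with
    | nil => exact h.1
    | cons x w => exact h.2 x w⟩

theorem GG_mul {a a' : Portrait (Fin 4)} (h : GG q b a) (h' : GG q b a') : GG q b (a * a') := by
  intro w
  induction w generalizing a a' with
  | nil => exact PP_mul (h []) (h' [])
  | cons x w ih =>
    show PP q b (secL (sec (a * a') x) w)
    rw [sec_mul]
    exact ih ((GG_iff.mp h).2 _) ((GG_iff.mp h').2 _)

theorem GG_inv {a : Portrait (Fin 4)} (h : GG q b a) : GG q b a⁻¹ := by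
  intro w
  induction w generalizing a with
  | nil => exact PP_inv (h [])
  | cons x w ih =>
    show PP q b (secL (sec a⁻¹ x) w)
    rw [sec_inv]
    exact ih ((GG_iff.mp h).2 _)

theorem GG_one : GG q b 1 := by
  intro w
  induction w with
  | nil => exact PP_one
  | cons x w ih => exact ih

/-! ### The automaton -/

/-- Powers of the transposition. -/
def pw (c : ZMod 2) : Perm (Fin 4) := if c = 0 then 1 else tau

theorem pw_mul : ∀ c d : ZMod 2, pw c * pw d = pw (c + d) := by decide
theorem sg_pw : ∀ c : ZMod 2, sg (pw c) = c := by decide +kernel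
theorem th_pw : ∀ c : ZMod 2, th (pw c) = 0 := by decide +kernel
theorem stau_pw : ∀ (c : ZMod 2) (x : Fin 4), stau (pw c x) = stau x := by decide

/-- Transition. -/
def nx (c : Fin (q + 1) → ZMod 2) (x : Fin 4) : Fin (q + 1) → ZMod 2 :=
  fun i => if h : i.val + 1 < q + 1 then c ⟨i.val + 1, h⟩ else c 0 * stau x

/-- State reached after reading a word. -/
def st (c : Fin (q + 1) → ZMod 2) : (n : ℕ) → Wd (Fin 4) n → (Fin (q + 1) → ZMod 2)
  | 0, _ => c
  | n + 1, w => nx (st c n (ini w)) (lst w)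

/-- The automorphism defined by a state. -/
def ee (c : Fin (q + 1) → ZMod 2) : Portrait (Fin 4) := ⟨fun n w => pw (st c n w 0)⟩

theorem st_cons (c : Fin (q + 1) → ZMod 2) (x : Fin 4) (n : ℕ) (w : Wd (Fin 4) n) :
    st c (n + 1) (cons x n w) = st (nx c x) n w := by
  induction n with
  | zero => rfl
  | succ n ih =>
    obtain ⟨w, y, rfl⟩ := exists_sn w
    show nx (st c (n + 1) (cons x n w)) y = nx (st (nx c x) n w) y
    rw [ih]

theorem sec_ee (c : Fin (q + 1) → ZMod 2) (x : Fin 4) : sec (ee c) x = ee (nx c x) := by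
  apply Portrait.ext
  funext n w
  show pw (st c (n + 1) (cons x n w) 0) = _
  rw [st_cons]; rfl

theorem rt_ee (c : Fin (q + 1) → ZMod 2) : rt (ee c) = pw (c 0) := rfl

theorem nx_add (c d : Fin (q + 1) → ZMod 2) (x : Fin 4) : nx (c + d) x = nx c x + nx d x := by
  funext i
  rw [Pi.add_apply]
  unfold nx
  split_ifs
  · rfl
  · rw [Pi.add_apply, add_mul]

theorem nx_pw (c : Fin (q + 1) → ZMod 2) (d : ZMod 2) (x : Fin 4) : nx c (pw d x) = nx c x := by
  unfold nx
  rw [stau_pw]

theorem st_lev (c d : Fin (q + 1) → ZMod 2) (n : ℕ) (w : Wd (Fin 4) n) :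
    st c n (lev (ee d) n w) = st c n w := by
  induction n with
  | zero => rfl
  | succ n ih =>
    obtain ⟨w, y, rfl⟩ := exists_sn w
    rw [lev_succ]
    show nx (st c n (lev (ee d) n w)) (pw _ y) = nx (st c n w) y
    rw [ih, nx_pw]

theorem st_add (c d : Fin (q + 1) → ZMod 2) (n : ℕ) (w : Wd (Fin 4) n) :
    st (c + d) n w = st c n w + st d n w := by
  induction n with
  | zero => rfl
  | succ n ih =>
    obtain ⟨w, y, rfl⟩ := exists_sn w
    show nx (st (c + d) n w) y = nx (st c n w) y + nx (st d n w) y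
    rw [ih, nx_add]

theorem ee_mul (c d : Fin (q + 1) → ZMod 2) : ee c * ee d = ee (c + d) := by
  apply Portrait.ext
  funext n w
  rw [mul_lab]
  show pw (st c n (lev (ee d) n w) 0) * pw (st d n w 0) = pw (st (c + d) n w 0)
  rw [st_lev, pw_mul, st_add]; rfl

theorem st_zero (n : ℕ) (w : Wd (Fin 4) n) : st (0 : Fin (q + 1) → ZMod 2) n w = 0 := by
  have := st_add (0 : Fin (q + 1) → ZMod 2) 0 n w
  rw [add_zero] at this
  exact left_eq_add.mp this

theorem ee_zero : ee (0 : Fin (q + 1) → ZMod 2) = 1 := by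
  apply Portrait.ext
  funext n w
  show pw (st 0 n w 0) = 1
  rw [st_zero]; rfl

theorem ee_inv (c : Fin (q + 1) → ZMod 2) : (ee c)⁻¹ = ee c := by
  rw [inv_eq_iff_mul_eq_one, ee_mul]
  have : c + c = 0 := by funext i; exact CharTwo.add_self_eq_zero _
  rw [this, ee_zero]

theorem st_val (c : Fin (q + 1) → ZMod 2) (n : ℕ) (w : Wd (Fin 4) n) (i : ℕ) (hi : i + n < q + 1) :
    st c n w ⟨i, by omega⟩ = c ⟨i + n, hi⟩ := by
  induction n generalizing i with
  | zero => rfl
  | succ n ih =>
    obtain ⟨w, y, rfl⟩ := exists_sn w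
    show nx (st c n w) y ⟨i, by omega⟩ = _
    unfold nx
    rw [dif_pos (show i + 1 < q + 1 by omega), ih w (i + 1) (by omega)]
    congr 2
    omega

theorem ee_lab (c : Fin (q + 1) → ZMod 2) (n : ℕ) (w : Wd (Fin 4) n) (hn : n < q + 1) :
    (ee c).lab n w = pw (c ⟨n, hn⟩) := by
  show pw (st c n w 0) = _
  have := st_val c n w 0 (by omega)
  rw [show (0 : Fin (q + 1)) = ⟨0, by omega⟩ from rfl, this]
  congr 3
  omega

theorem RdL_ee (c : Fin (q + 1) → ZMod 2) : RdL q b ((ee c).lab q) (0, c (Fin.last q)) := by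
  refine ⟨fun w => ?_, ?_⟩
  · rw [ee_lab c q w (Nat.lt_succ_self q), sg_pw]; rfl
  · convert DV_null q b using 1
    funext w
    rw [ee_lab c q w (Nat.lt_succ_self q), th_pw]

theorem PP_ee (c : Fin (q + 1) → ZMod 2) : PP q b (ee c) := by
  refine ⟨⟨_, RdL_ee c⟩, _, fun x => by rw [sec_ee]; exact RdL_ee _, ?_⟩
  have e : ∀ x, nx c x (Fin.last q) = c 0 * stau x := by
    intro x
    unfold nx
    rw [dif_neg (by simp [Fin.last])]
  simp only [e]
  rw [rt_ee]
  rcases zmod2_cases (c 0) with h | h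
  · rw [h]
    simp only [zero_mul]
    exact good_one
  · rw [h]
    simp only [one_mul]
    exact good_tau

theorem GG_ee (c : Fin (q + 1) → ZMod 2) : GG q b (ee c) := by
  intro w
  induction w generalizing c with
  | nil => exact PP_ee c
  | cons x w ih =>
    show PP q b (secL (sec (ee c) x) w)
    rw [sec_ee]
    exact ih _

/-- Eventually in the automaton group. -/
def EV (q : ℕ) (a : Portrait (Fin 4)) (n : ℕ) : Prop :=
  ∀ w : List (Fin 4), n ≤ w.length → secL a w ∈ Set.range (ee (q := q))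

theorem EV_ee (c : Fin (q + 1) → ZMod 2) : EV q (ee c) 0 := by
  intro w _
  induction w generalizing c with
  | nil => exact ⟨c, rfl⟩
  | cons x w ih =>
    show secL (sec (ee c) x) w ∈ _
    rw [sec_ee]
    exact ih _ (Nat.zero_le _)

theorem EV_mono {a : Portrait (Fin 4)} {n m : ℕ} (h : EV q a n) (hm : n ≤ m) : EV q a m :=
  fun w hw => h w (hm.trans hw)

theorem EV_succ {a : Portrait (Fin 4)} {n : ℕ} : EV q a (n + 1) ↔ ∀ x, EV q (sec a x) n := by
  constructor
  · intro h x w hw
    exact h (x :: w) (by simpa using hw)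
  · intro h w hw
    cases w with
    | nil => simp at hw
    | cons x w => exact h x w (by simpa using hw)

theorem EV_zero {a : Portrait (Fin 4)} : EV q a 0 ↔ ∃ c, ee (q := q) c = a := by
  constructor
  · intro h
    exact h [] (Nat.zero_le _)
  · rintro ⟨c, rfl⟩
    exact EV_ee c

theorem EV_mul {a a' : Portrait (Fin 4)} {n : ℕ} (h : EV q a n) (h' : EV q a' n) : EV q (a * a') n := by
  induction n generalizing a a' with
  | zero =>
    obtain ⟨c, rfl⟩ := EV_zero.mp h
    obtain ⟨d, rfl⟩ := EV_zero.mp h'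
    rw [ee_mul]
    exact EV_ee _
  | succ n ih =>
    rw [EV_succ] at h h' ⊢
    intro x
    rw [sec_mul]
    exact ih (h _) (h' _)

theorem EV_inv {a : Portrait (Fin 4)} {n : ℕ} (h : EV q a n) : EV q a⁻¹ n := by
  induction n generalizing a with
  | zero =>
    obtain ⟨c, rfl⟩ := EV_zero.mp h
    rw [ee_inv]
    exact EV_ee _
  | succ n ih =>
    rw [EV_succ] at h ⊢
    intro x
    rw [sec_inv]
    exact ih (h _)

/-- The group. -/
def GC (q : ℕ) (b : ℕ → Fin 4) : Subgroup (Portrait (Fin 4)) where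
  carrier := {a | GG q b a ∧ ∃ n, EV q a n}
  mul_mem' := by
    rintro a a' ⟨h, n, hn⟩ ⟨h', n', hn'⟩
    exact ⟨GG_mul h h', max n n', EV_mul (EV_mono hn (le_max_left _ _)) (EV_mono hn' (le_max_right _ _))⟩
  one_mem' := ⟨GG_one, 0, by rw [← ee_zero (q := q)]; exact EV_ee _⟩
  inv_mem' := by
    rintro a ⟨h, n, hn⟩
    exact ⟨GG_inv h, n, EV_inv hn⟩

theorem mem_GC {a : Portrait (Fin 4)} : a ∈ GC q b ↔ GG q b a ∧ ∃ n, EV q a n := Iff.rfl

theorem ss_GC : SS (GC q b) := by
  rintro a ⟨h, n, hn⟩ x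
  exact ⟨(GG_iff.mp h).2 x, n, EV_succ.mp (EV_mono hn (Nat.le_succ n)) x⟩

theorem ee_mem (c : Fin (q + 1) → ZMod 2) : ee c ∈ GC q b := ⟨GG_ee c, 0, EV_ee c⟩

theorem contr_GC : Contr (GC q b) := by
  refine ⟨Set.range (ee (q := q)), Set.finite_range _, ?_, ?_⟩
  · rintro _ ⟨c, rfl⟩
    exact ee_mem c
  · rintro a ⟨_, n, hn⟩
    exact ⟨n, hn⟩

/-- An element of a group from its sections. -/
theorem mem_GC_of_sec {a : Portrait (Fin 4)} (h : PP q b a) (hs : ∀ x, sec a x ∈ GC q b) : a ∈ GC q b := by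
  refine ⟨GG_iff.mpr ⟨h, fun x => (hs x).1⟩, ?_⟩
  choose n hn using fun x => (hs x).2
  refine ⟨(∑ x, n x) + 1, EV_succ.mpr fun x => EV_mono (hn x) ?_⟩
  exact Finset.single_le_sum (fun _ _ => Nat.zero_le _) (Finset.mem_univ x)

end GroupE

end Pool.Agent.Helper501.Haus.E6

namespace Pool.Agent.Helper501.Haus.E6
open Equiv Filter Topology

section Final

variable {q : ℕ} {b : ℕ → Fin 4}

/-- Chosen signs. -/
noncomputable def sE (σ : Perm (Fin 4)) : Fin 4 → ZMod 2 := (exists_good σ).choose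
theorem good_sE (σ : Perm (Fin 4)) : good (fun x => (0, sE σ x)) σ := (exists_good σ).choose_spec

/-- State with only the last entry possibly nonzero. -/
def lastS (q : ℕ) (s : ZMod 2) : Fin (q + 1) → ZMod 2 := fun i => if i = Fin.last q then s else 0

/-- Element with given root label and trivial labels on levels `1, …, q`. -/
noncomputable def alpha (q : ℕ) (σ : Perm (Fin 4)) : Portrait (Fin 4) :=
  glue σ (fun x => ee (lastS q (sE σ x)))

theorem alpha_lab (σ : Perm (Fin 4)) (j : ℕ) (h1 : 1 ≤ j) (h2 : j ≤ q) : (alpha q σ).lab j = 1 := by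
  obtain ⟨j, rfl⟩ : ∃ i, j = i + 1 := ⟨j - 1, by omega⟩
  rw [lab_succ_eq_one]
  intro x
  rw [alpha, sec_glue]
  funext w
  rw [ee_lab _ j w (by omega), lastS, if_neg]
  · rfl
  · intro h
    have := congrArg Fin.val h
    simp only [Fin.val_last] at this
    omega

theorem alpha_mem (σ : Perm (Fin 4)) : alpha q σ ∈ GC q b := by
  refine mem_GC_of_sec ⟨?_, fun x => (0, sE σ x), fun x => ?_, good_sE σ⟩ fun x => ?_
  · cases q with
    | zero => exact ⟨(th σ, sg σ), fun w => rfl, rfl⟩
    | succ q =>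
      rw [alpha_lab σ (q + 1) (by omega) le_rfl]
      exact ⟨_, RdL_one⟩
  · rw [alpha, sec_glue]
    have := RdL_ee (b := b) (lastS q (sE σ x))
    rwa [lastS, if_pos rfl] at this
  · rw [alpha, sec_glue]
    exact ee_mem _

theorem graft_mem_lt (m : ℕ) (hm : m < q) (f : Wd (Fin 4) m → Perm (Fin 4)) :
    graft m (fun v => alpha q (f v)) ∈ GC q b := by
  induction m with
  | zero => exact alpha_mem _
  | succ m ih =>
    refine mem_GC_of_sec ⟨⟨(0, 0), ?_⟩, fun _ => (0, 0), fun x => ?_, good_one⟩ fun x => ?_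
    · rw [graft_lab_add (m + 1) (q - (m + 1)) _ (fun v => alpha_lab _ _ (by omega) (by omega)) q (by omega)]
      exact RdL_one
    · rw [sec_graft, graft_lab_add m (q - m) _ (fun v => alpha_lab _ _ (by omega) (by omega)) q (by omega)]
      exact RdL_one
    · rw [sec_graft]
      exact ih (by omega) _

theorem graft_mem_eq (f : Wd (Fin 4) q → Perm (Fin 4)) (hf : ∃ r, RdL q b f r) :
    graft q (fun v => alpha q (f v)) ∈ GC q b := by
  cases q with
  | zero => exact alpha_mem _
  | succ m =>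
    refine mem_GC_of_sec ⟨?_, fun _ => (0, 0), fun x => ?_, good_one⟩ fun x => ?_
    · have : (graft (m + 1) (fun v => alpha (m + 1) (f v))).lab (m + 1) = f := by
        funext w
        rw [graft_lab_self]; rfl
      rw [this]
      exact hf
    · rw [sec_graft, graft_lab_add m 1 _ (fun v => alpha_lab _ _ (by omega) (by omega)) (m + 1) (by omega)]
      exact RdL_one
    · rw [sec_graft]
      exact graft_mem_lt m (by omega) _

theorem graft_mem_succ (f : Wd (Fin 4) (q + 1) → Perm (Fin 4)) (r : Fin 4 → ZMod 3 × ZMod 2)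
    (hf : ∀ x, RdL q b (fun w => f (cons x q w)) (r x)) (hr : good r 1) :
    graft (q + 1) (fun v => alpha q (f v)) ∈ GC q b := by
  refine mem_GC_of_sec ⟨⟨(0, 0), ?_⟩, r, fun x => ?_, hr⟩ fun x => ?_
  · rw [graft_lab_lt _ _ q (by omega)]
    exact RdL_one
  · have : (sec (graft (q + 1) (fun v => alpha q (f v))) x).lab q = fun w => f (cons x q w) := by
      rw [sec_graft]
      funext w
      rw [graft_lab_self]; rfl
    rw [this]
    exact hf x
  · rw [sec_graft]
    exact graft_mem_eq _ ⟨_, hf x⟩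

theorem KK_first (k : Wd (Fin 4) (q + 1) → Perm (Fin 4)) : k ∈ KK (GC q b) (q + 1) ↔
    ∃ r : Fin 4 → ZMod 3 × ZMod 2, good r 1 ∧ ∀ x, RdL q b (fun w => k (cons x q w)) (r x) := by
  constructor
  · rintro ⟨a, ⟨ha, _⟩, h1, rfl⟩
    obtain ⟨_, r, hr, hg⟩ := (GG_iff.mp ha).1
    rw [lab_zero_eq_one.mp (h1 0 (by omega))] at hg
    exact ⟨r, hg, hr⟩
  · rintro ⟨r, hr, hk⟩
    refine ⟨_, graft_mem_succ k r hk hr, graft_lab_lt _ _, ?_⟩
    funext w
    rw [graft_lab_self]; rfl

theorem KK_next (n : ℕ) (hn : q + 1 ≤ n) (k : Wd (Fin 4) (n + 1) → Perm (Fin 4)) :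
    k ∈ KK (GC q b) (n + 1) ↔ ∀ x, (fun w => k (cons x n w)) ∈ KK (GC q b) n := by
  constructor
  · intro hk x
    exact KK_cons ss_GC hk x
  · intro h
    choose a ha h1 h2 using h
    refine ⟨glue 1 a, ?_, ?_, ?_⟩
    · refine mem_GC_of_sec ⟨⟨(0, 0), ?_⟩, fun _ => (0, 0), fun x => ?_, good_one⟩ fun x => ?_
      · have : (glue 1 a).lab q = 1 := by
          cases q with
          | zero => exact lab_zero_eq_one.mpr rfl
          | succ q =>
            rw [lab_succ_eq_one]
            intro x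
            rw [sec_glue]
            exact h1 x q (by omega)
        rw [this]
        exact RdL_one
      · rw [sec_glue, h1 x q (by omega)]
        exact RdL_one
      · rw [sec_glue]
        exact ha x
    · intro j hj
      cases j with
      | zero => exact lab_zero_eq_one.mpr rfl
      | succ j =>
        rw [lab_succ_eq_one]
        intro x
        rw [sec_glue]
        exact h1 x j (by omega)
    · funext v
      obtain ⟨x, w, rfl⟩ := exists_cons n v
      rw [← sec_lab, sec_glue, h2 x]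

/-- Words are a letter followed by a word. -/
def consE (n : ℕ) (A : Type) : (Wd (Fin 4) (n + 1) → A) ≃ (Fin 4 → Wd (Fin 4) n → A) where
  toFun k x w := k (cons x n w)
  invFun l v := l (hd n v) (tl n v)
  left_inv k := by
    funext v
    simp only [cons_hd_tl]
  right_inv l := by
    funext x w
    simp only [hd_cons, tl_cons]

theorem card_KK_next (n : ℕ) (hn : q + 1 ≤ n) :
    Nat.card (KK (GC q b) (n + 1)) = Nat.card (KK (GC q b) n) ^ 4 := by
  have e : KK (GC q b) (n + 1) ≃ (Fin 4 → KK (GC q b) n) :=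
    { toFun := fun k x => ⟨fun w => k.1 (cons x n w), (KK_next n hn k.1).mp k.2 x⟩
      invFun := fun l => ⟨(consE n _).symm fun x => (l x).1, (KK_next n hn _).mpr fun x => by
        have : (fun w => (consE n _).symm (fun x => (l x).1) (cons x n w)) = (l x).1 :=
          congrFun ((consE n _).apply_symm_apply fun x => (l x).1) x
        rw [this]
        exact (l x).2⟩
      left_inv := fun k => Subtype.ext ((consE n _).symm_apply_apply k.1)
      right_inv := fun l => by
        funext x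
        apply Subtype.ext
        exact congrFun ((consE n _).apply_symm_apply fun x => (l x).1) x }
  rw [Nat.card_congr e, Nat.card_fun, Nat.card_eq_fintype_card (α := Fin 4), Fintype.card_fin]

theorem card_RdL (r : ZMod 3 × ZMod 2) :
    Nat.card {l : Wd (Fin 4) q → Perm (Fin 4) // RdL q b l r} = NV q b * 4 ^ (4 ^ q) := by
  have e : {l : Wd (Fin 4) q → Perm (Fin 4) // RdL q b l r} ≃
      Σ f : {f : Wd (Fin 4) q → ZMod 3 // DV q b f r.1},
        {l : Wd (Fin 4) q → Perm (Fin 4) // ∀ w, sg (l w) = r.2 ∧ th (l w) = f.1 w} :=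
    { toFun := fun l => ⟨⟨fun w => th (l.1 w), l.2.2⟩, ⟨l.1, fun w => ⟨l.2.1 w, rfl⟩⟩⟩
      invFun := fun p => ⟨p.2.1, fun w => (p.2.2 w).1, by
        have : (fun w => th (p.2.1 w)) = p.1.1 := by funext w; exact (p.2.2 w).2
        rw [this]
        exact p.1.2⟩
      left_inv := fun l => rfl
      right_inv := by
        rintro ⟨⟨f, hf⟩, ⟨g, hg⟩⟩
        have : f = (fun w => th (g w)) := by funext w; exact (hg w).2.symm
        subst this
        rfl }
  have h1 : ∀ f : {f : Wd (Fin 4) q → ZMod 3 // DV q b f r.1},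
      Nat.card {l : Wd (Fin 4) q → Perm (Fin 4) // ∀ w, sg (l w) = r.2 ∧ th (l w) = f.1 w} = 4 ^ (4 ^ q) := by
    intro f
    rw [Nat.card_congr (Equiv.subtypePiEquivPi (p := fun (w : Wd (Fin 4) q) (σ : Perm (Fin 4)) =>
      sg σ = r.2 ∧ th σ = f.1 w)), Nat.card_pi]
    have : ∀ w : Wd (Fin 4) q, Nat.card {σ : Perm (Fin 4) // sg σ = r.2 ∧ th σ = f.1 w} = 4 := by
      intro w
      rw [Nat.card_eq_fintype_card, card_fib]
    simp only [this, Finset.prod_const, Finset.card_univ, card_Wd, Fintype.card_fin]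
  let _ : Fintype {f : Wd (Fin 4) q → ZMod 3 // DV q b f r.1} := Fintype.ofFinite _
  rw [Nat.card_congr e, Nat.card_sigma]
  simp only [h1, Finset.sum_const, Finset.card_univ, smul_eq_mul]
  rw [← Nat.card_eq_fintype_card, card_DV]

theorem card_KK_first : Nat.card (KK (GC q b) (q + 1)) = 18 * (NV q b * 4 ^ (4 ^ q)) ^ 4 := by
  have e : (Σ r : {r : Fin 4 → ZMod 3 × ZMod 2 // good r 1},
      {l : Fin 4 → Wd (Fin 4) q → Perm (Fin 4) // ∀ x, RdL q b (l x) (r.1 x)}) ≃ KK (GC q b) (q + 1) := by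
    refine Equiv.ofBijective (fun p => ⟨(consE q _).symm p.2.1, (KK_first _).mpr ⟨p.1.1, p.1.2, fun x => by
        have : (fun w => (consE q _).symm p.2.1 (cons x q w)) = p.2.1 x :=
          congrFun ((consE q _).apply_symm_apply p.2.1) x
        rw [this]
        exact p.2.2 x⟩⟩) ⟨?_, ?_⟩
    · rintro ⟨⟨r, hr⟩, ⟨l, hl⟩⟩ ⟨⟨r', hr'⟩, ⟨l', hl'⟩⟩ h
      have h1 : l = l' := (consE q _).symm.injective (congrArg Subtype.val h)
      subst h1
      have h2 : r = r' := by
        funext x
        exact RdL_unique (hl x) (hl' x)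
      subst h2
      rfl
    · rintro ⟨k, hk⟩
      obtain ⟨r, hr, h⟩ := (KK_first k).mp hk
      exact ⟨⟨⟨r, hr⟩, ⟨fun x w => k (cons x q w), h⟩⟩, Subtype.ext ((consE q _).symm_apply_apply k)⟩
  let _ : Fintype {r : Fin 4 → ZMod 3 × ZMod 2 // good r 1} := Fintype.ofFinite _
  rw [← Nat.card_congr e, Nat.card_sigma]
  have h1 : ∀ r : {r : Fin 4 → ZMod 3 × ZMod 2 // good r 1},
      Nat.card {l : Fin 4 → Wd (Fin 4) q → Perm (Fin 4) // ∀ x, RdL q b (l x) (r.1 x)} =
        (NV q b * 4 ^ (4 ^ q)) ^ 4 := by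
    intro r
    rw [Nat.card_congr (Equiv.subtypePiEquivPi (p := fun (x : Fin 4) (l : Wd (Fin 4) q → Perm (Fin 4)) =>
      RdL q b l (r.1 x))), Nat.card_pi]
    simp only [card_RdL, Finset.prod_const, Finset.card_univ, Fintype.card_fin]
  simp only [h1, Finset.sum_const, Finset.card_univ, smul_eq_mul]
  rw [← Nat.card_eq_fintype_card, card_good]

theorem aa_first (hb : Ext b) : aa (GC q b) (q + 1) = Real.log 4 +
    ((∑ j ∈ Finset.range q, Real.ofDigitsTerm b j) * Real.log 3 +
    (1 / 4) ^ q * (Real.log 3 / 2 + Real.log 2 / 4)) := by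
  have hN : (NV q b : ℝ) ≠ 0 := by
    intro h
    have h2 := card_DV (q := q) b 0
    have h3 : NV q b = 0 := by exact_mod_cast h
    rw [h3] at h2
    have : Nonempty {f : Wd (Fin 4) q → ZMod 3 // DV q b f 0} := ⟨⟨_, DV_null q b⟩⟩
    exact Nat.card_pos.ne' h2
  unfold aa
  rw [card_KK_first]
  push_cast
  rw [Real.log_mul (by norm_num) (by positivity), Real.log_pow, Real.log_mul hN (by positivity), Real.log_pow,
    log_NV hb]
  have h18 : Real.log 18 = Real.log 2 + 2 * Real.log 3 := by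
    rw [show (18 : ℝ) = 2 * 3 ^ 2 by norm_num, Real.log_mul (by norm_num) (by norm_num), Real.log_pow]
    push_cast; ring
  rw [h18, Fintype.card_fin]
  push_cast
  rw [one_div, inv_pow]
  field_simp
  ring

theorem aa_next (n : ℕ) : aa (GC q b) (q + 1 + n) = aa (GC q b) (q + 1) := by
  induction n with
  | zero => rfl
  | succ n ih =>
    rw [← ih]
    unfold aa
    rw [← add_assoc, card_KK_next (q + 1 + n) (by omega), Nat.cast_pow, Real.log_pow, Fintype.card_fin, pow_succ]
    push_cast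
    field_simp

end Final

/-- Target. -/
theorem exo_exists {q : ℕ} {z : ℝ} (hz : z ∈ Exo q) :
    ∃ G : Subgroup (Portrait (Fin 4)), SS G ∧ Contr G ∧ Tendsto (aa G) atTop (𝓝 (Real.log 4 + z)) := by
  obtain ⟨b, hb, rfl⟩ := hz
  refine ⟨GC q b, ss_GC, contr_GC, ?_⟩
  rw [← aa_first hb]
  refine tendsto_const_nhds.congr' ?_
  filter_upwards [eventually_ge_atTop (q + 1)] with n hn
  obtain ⟨m, rfl⟩ := Nat.exists_eq_add_of_le hn
  exact (aa_next m).symm

end Pool.Agent.Helper501.Haus.E6

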