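import Mathlib

/-!
Groups acting on the rooted tree of words over d letters: self-similar groups, contracting groups,
closures, Hausdorff dimension, and the set of values of the dimension.
-/

namespace Pool.Agent.Helper501.Haus

open Equiv Filter Topology

/-- The automorphism group of the rooted tree of words over `Fin d`: the bijections of the set of
words which preserve the length and the relation of being an initial part. -/
def treeAut (d : ℕ) : Set (Perm (List (Fin d))) :=
  {g | (∀ w, (g w).length = w.length) ∧ ∀ u v, u <+: v → g u <+: g v}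

/-- A group of bijections of the set of words is self-similar: for every `g` in the group and every
letter `x` there are a letter `y` and `h` in the group with `g (x w) = y h(w)` for all words `w`. -/
def SelfSimilar {d : ℕ} (G : Subgroup (Perm (List (Fin d)))) : Prop :=
  ∀ g ∈ G, ∀ x : Fin d, ∃ y : Fin d, ∃ h ∈ G, ∀ w, g (x :: w) = y :: h w

/-- Contracting: the sections at all long words lie in one finite subset of the group. -/
def Contracting {d : ℕ} (G : Subgroup (Perm (List (Fin d)))) : Prop :=
  ∃ N : Set (Perm (List (Fin d))), N.Finite ∧ N ⊆ (G : Set (Perm (List (Fin d)))) ∧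
    ∀ g ∈ G, ∃ k : ℕ, ∀ v : List (Fin d), k ≤ v.length → ∃ h ∈ N, ∀ w, g (v ++ w) = g v ++ h w

/-- The closure of `G` in the automorphism group of the tree. -/
def treeClosure {d : ℕ} (G : Subgroup (Perm (List (Fin d)))) : Set (Perm (List (Fin d))) :=
  {g | g ∈ treeAut d ∧ ∀ n : ℕ, ∃ h ∈ G, ∀ w : List (Fin d), w.length ≤ n → g w = h w}

/-- The number of restrictions of elements of `S` to the words of length at most `n`. -/
noncomputable def levelCard {d : ℕ} (n : ℕ) (S : Set (Perm (List (Fin d)))) : ℕ :=
  Set.ncard ((fun (g : Perm (List (Fin d))) (w : {w : List (Fin d) // w.length ≤ n}) => g w.1) '' S)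

/-- Hausdorff dimension of a closed subset of the automorphism group of the tree. -/
noncomputable def hdim {d : ℕ} (S : Set (Perm (List (Fin d)))) : ℝ :=
  liminf (fun n : ℕ => Real.log (levelCard n S) / Real.log (levelCard n (treeAut d))) atTop

/-- Cantor set: the numbers of the unit interval with a base `d` expansion with all digits `0` or
`d - 1`. -/
def CD (d : ℕ) : Set ℝ := {c | ∃ a : ℕ → Fin d, (∀ j, (a j).val = 0 ∨ (a j).val + 1 = d) ∧ c = Real.ofDigits a}

/-- A digit sequence with all digits `0` or `d - 1`. -/
def Ext {d : ℕ} (a : ℕ → Fin d) : Prop := ∀ j, (a j).val = 0 ∨ (a j).val + 1 = d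

/-- Extra values for four letters, regular part: `A log 2 + B log 3`, where `A`, `B` are numbers with
base `4` digits `0` or `3`, and the digits of `B` are constant from the first nonzero digit of `A` on. -/
def Adm : Set ℝ := {z | ∃ a b : ℕ → Fin 4, Ext a ∧ Ext b ∧ (∀ i j, i ≤ j → (a i).val ≠ 0 → b j = b i) ∧
  z = Real.ofDigits a * Real.log 2 + Real.ofDigits b * Real.log 3}

/-- Extra values for four letters, exceptional part. -/
def Exo (q : ℕ) : Set ℝ := {z | ∃ b : ℕ → Fin 4, Ext b ∧
  z = (∑ j ∈ Finset.range q, Real.ofDigitsTerm b j) * Real.log 3 +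
    (1 / 4) ^ q * (Real.log 3 / 2 + Real.log 2 / 4)}

/-- The set of Hausdorff dimensions for `d` letters. -/
noncomputable def Spectrum (d : ℕ) : Set ℝ :=
  if d = 2 then Set.Icc 0 1
  else if d = 3 then
    Set.Icc 0 (Real.log 3 / Real.log 6) ∪ (fun c => (Real.log 3 + c * Real.log 2) / Real.log 6) '' CD 3
  else if d = 4 then
    Set.Icc 0 (Real.log 8 / Real.log 24) ∪
      (fun z => (Real.log 4 + z) / Real.log 24) '' (Adm ∪ ⋃ q : ℕ, Exo q)
  else
    Set.Icc 0 (Real.log (d - 1).factorial / Real.log d.factorial) ∪
      (fun c => (Real.log (d.factorial / 2) + c * Real.log 2) / Real.log d.factorial) '' CD d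

end Pool.Agent.Helper501.Haus
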