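import Pool.Agent.Helper501.Haus.UpperA

namespace Pool.Agent.Helper501.Haus.P2

open Equiv

section TermA

theorem z2_self : ∀ a : ZMod 2, a + a = 0 := by decide
theorem z2_eq : ∀ a b : ZMod 2, a + b = 0 → a = b := by decide
theorem z2_cancel : ∀ a b : ZMod 2, a + b + b = a := by decide

variable {G : Subgroup (Portrait (Fin 4))}

theorem coc_one {m : ℕ} {c : Portrait (Fin 4) → Wd (Fin 4) m → ZMod 2} (hc : Coc G c)
    (w : Wd (Fin 4) m) : c 1 w = 0 := by
  have h := hc 1 (one_mem _) 1 (one_mem _) w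
  rw [one_mul, lev_one, Perm.one_apply, z2_self] at h
  exact h

theorem coc_inv {m : ℕ} {c : Portrait (Fin 4) → Wd (Fin 4) m → ZMod 2} (hc : Coc G c)
    {g : Portrait (Fin 4)} (hg : g ∈ G) (w : Wd (Fin 4) m) : c g⁻¹ (lev g m w) = c g w := by
  have h := hc g⁻¹ (inv_mem hg) g hg w
  rw [inv_mul_cancel, coc_one hc] at h
  exact z2_eq _ _ h.symm

/-- value of the cocycle at a conjugate -/
theorem coc_conj {m : ℕ} {c : Portrait (Fin 4) → Wd (Fin 4) m → ZMod 2} (hc : Coc G c)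
    {g e : Portrait (Fin 4)} (hg : g ∈ G) (he : e ∈ G) (w : Wd (Fin 4) m) :
    c (g * e * g⁻¹) (lev g m w) = c g (lev e m w) + c e w + c g w := by
  have h1 : lev g⁻¹ m (lev g m w) = w := by
    rw [← Perm.mul_apply, ← lev_mul, inv_mul_cancel, lev_one, Perm.one_apply]
  rw [hc _ (mul_mem hg he) _ (inv_mem hg), hc _ hg _ he, coc_inv hc hg, h1]

/-- The values of the cocycle on the elements trivial on words of length `m`. -/
def Sg (G : Subgroup (Portrait (Fin 4))) {m : ℕ} (c : Portrait (Fin 4) → Wd (Fin 4) m → ZMod 2)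
    (hc : Coc G c) : Submodule (ZMod 2) (Wd (Fin 4) m → ZMod 2) :=
  AddSubgroup.toZModSubmodule 2
    { carrier := {f | ∃ g ∈ G, lev g m = 1 ∧ f = c g}
      add_mem' := by
        rintro _ _ ⟨g, hg, hg1, rfl⟩ ⟨h, hh, hh1, rfl⟩
        refine ⟨g * h, mul_mem hg hh, by rw [lev_mul, hg1, hh1, one_mul], ?_⟩
        funext w
        rw [hc g hg h hh, hh1]; rfl
      zero_mem' := ⟨1, one_mem _, lev_one m, by funext w; exact (coc_one hc w).symm⟩
      neg_mem' := by
        rintro _ ⟨g, hg, hg1, rfl⟩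
        refine ⟨g, hg, hg1, ?_⟩
        funext w
        exact ZMod.neg_eq_self_mod_two _ }

theorem mem_Sg {m : ℕ} {c : Portrait (Fin 4) → Wd (Fin 4) m → ZMod 2} {hc : Coc G c}
    {f : Wd (Fin 4) m → ZMod 2} : f ∈ Sg G c hc ↔ ∃ g ∈ G, lev g m = 1 ∧ f = c g := Iff.rfl

theorem inv_Sg {m : ℕ} {c : Portrait (Fin 4) → Wd (Fin 4) m → ZMod 2} (hc : Coc G c) :
    Inv G (Sg G c hc) := by
  rintro g hg _ ⟨e, he, he1, rfl⟩
  refine ⟨g⁻¹ * e * g, mul_mem (mul_mem (inv_mem hg) he) hg, ?_, ?_⟩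
  · rw [lev_mul, lev_mul, he1, lev_inv, mul_one, inv_mul_cancel]
  · funext w
    have h1 := coc_conj hc (inv_mem hg) he (lev g m w)
    have h2 : lev g⁻¹ m (lev g m w) = w := by
      rw [← Perm.mul_apply, ← lev_mul, inv_mul_cancel, lev_one, Perm.one_apply]
    rw [inv_inv, h2, he1, Perm.one_apply, add_assoc, add_comm (c e _), ← add_assoc, z2_self,
      zero_add] at h1
    exact h1.symm

/-- `0` or `1` in `ZMod 3`. -/
def e3 (a : ZMod 2) : ZMod 3 := if a = 0 then 0 else 1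

theorem e3_zero : e3 0 = 0 := rfl
theorem e3_one : e3 1 = 1 := rfl
theorem e3_sgn : ∀ (a : ZMod 2) (x : ZMod 3), e3 a * x = 2 * (x - sgn3 a * x) := by decide

/-- sign changes from the stabiliser -/
theorem tinv_sgn {m : ℕ} {c : Portrait (Fin 4) → Wd (Fin 4) m → ZMod 2} (hc : Coc G c)
    {T : Submodule (ZMod 3) (Wd (Fin 4) m → ZMod 3)} (hT : TInv G c T)
    {s : Wd (Fin 4) m → ZMod 2} (hs : s ∈ Sg G c hc) {f : Wd (Fin 4) m → ZMod 3} (hf : f ∈ T) :
    (fun q => e3 (s q) * f q) ∈ T := by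
  obtain ⟨g, hg, hg1, rfl⟩ := hs
  have h1 := T.smul_mem (2 : ZMod 3) (T.sub_mem hf (hT g hg f hf))
  convert h1 using 1
  funext q
  simp only [Pi.smul_apply, Pi.sub_apply, smul_eq_mul, hg1, Perm.one_apply]
  exact e3_sgn _ _

theorem trans_of {m : ℕ} (hT : Trans G m) (hV : V4full G m) : Trans G (m + 1) := by
  apply trans_succ hT
  intro w x y
  obtain ⟨σ, h1, h2, h3, -⟩ := klein_trans x y
  exact ⟨fun _ => σ, hV _ (fun _ => ⟨h1, h2⟩), h3⟩

/-- Case A. -/
theorem caseA {m : ℕ} (hT : Trans G m) (hV : V4full G m)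
    (c : Portrait (Fin 4) → Wd (Fin 4) (m + 1) → ZMod 2) (hc : Coc G c)
    (T : Submodule (ZMod 3) (Wd (Fin 4) (m + 1) → ZMod 3)) (hTi : TInv G c T)
    (hA : LinearMap.ker (sumLast (Fin 4) 2 m) ≤ Sg G c hc) : T = ⊥ ∨ T = ⊤ := by
  by_cases hb : T = ⊥
  · exact Or.inl hb
  right
  obtain ⟨f, hf, hf0⟩ := T.exists_mem_ne_zero_of_ne_bot hb
  obtain ⟨q, hq⟩ := Function.ne_iff.mp hf0
  rw [Pi.zero_apply] at hq
  obtain ⟨w, x, rfl⟩ := exists_sn q
  -- two other letters
  obtain ⟨y, z, hxy, hxz, hyz⟩ : ∃ y z : Fin 4, x ≠ y ∧ x ≠ z ∧ y ≠ z := by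
    clear hq
    revert x; decide
  have hdd : ∀ s t : Fin 4, dd 2 w s t ∈ Sg G c hc := by
    intro s t
    apply hA
    rw [LinearMap.mem_ker]
    funext v
    rw [sumLast_apply]
    simp only [dd_sn]
    by_cases hv : v = w
    · simp [hv]
    · simp [hv]
  have h1 := tinv_sgn hc hTi (hdd x z) (tinv_sgn hc hTi (hdd x y) hf)
  have h2 : Pi.single (sn w x) (1 : ZMod 3) ∈ T := by
    have h3 := T.smul_mem (f (sn w x)) h1
    have h4 : ∀ a : ZMod 3, a ≠ 0 → a * a = 1 := by decide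
    convert h3 using 1
    funext r
    obtain ⟨v, u, rfl⟩ := exists_sn r
    simp only [Pi.smul_apply, smul_eq_mul, dd_sn]
    by_cases hv : v = w
    · subst hv
      rw [if_pos rfl, if_pos rfl]
      by_cases hu : u = x
      · subst hu
        rw [Pi.single_eq_same, if_pos rfl, if_neg hxy, if_neg hxz, sub_zero, e3_one, one_mul,
          one_mul, h4 _ hq]
      · rw [Pi.single_eq_of_ne (by rw [Ne, sn_inj]; tauto), if_neg hu]
        by_cases hu2 : u = y
        · subst hu2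
          rw [if_neg hyz, sub_zero, e3_zero, zero_mul, mul_zero]
        · rw [if_neg hu2, sub_zero, e3_zero, zero_mul, mul_zero, mul_zero]
    · rw [Pi.single_eq_of_ne (by rw [Ne, sn_inj]; tauto), if_neg hv, e3_zero, zero_mul, mul_zero]
  have h3 : ∀ r : Wd (Fin 4) (m + 1), Pi.single r (1 : ZMod 3) ∈ T := by
    intro r
    obtain ⟨g, hg, hgr⟩ := trans_of hT hV r (sn w x)
    have h4 := T.smul_mem (sgn3 (c g r)) (hTi g hg _ h2)
    convert h4 using 1
    funext s
    simp only [Pi.smul_apply, smul_eq_mul]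
    by_cases hs : s = r
    · subst hs
      rw [Pi.single_eq_same, hgr, Pi.single_eq_same, mul_one, sgn3_mul_self]
    · rw [Pi.single_eq_of_ne hs, Pi.single_eq_of_ne, mul_zero, mul_zero]
      intro h
      rw [← hgr] at h
      exact hs ((lev g (m + 1)).injective h)
  rw [eq_top_iff]
  intro k _
  have h5 : k = ∑ r, k r • (Pi.single r (1 : ZMod 3) : Wd (Fin 4) (m + 1) → ZMod 3) := by
    funext s
    rw [Finset.sum_apply, Finset.sum_eq_single s]
    · simp
    · intro b _ hb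
      rw [Pi.smul_apply, Pi.single_eq_of_ne hb.symm, smul_zero]
    · simp
  rw [h5]
  exact Submodule.sum_mem _ fun r _ => T.smul_mem _ (h3 r)

end TermA

end Pool.Agent.Helper501.Haus.P2
namespace Pool.Agent.Helper501.Haus.P2

open Equiv

section TermB

/-- Klein four group inside `Perm (Fin 4)`. -/
def Kl (a : Perm (Fin 4)) : Prop := sg a = 0 ∧ th a = 0

instance : DecidablePred Kl := fun a => inferInstanceAs (Decidable (_ ∧ _))

theorem Kl_one : Kl 1 := by decide +kernel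
theorem Kl_sq : ∀ a, Kl a → a * a = 1 := by decide +kernel
theorem Kl_mul : ∀ a b, Kl a → Kl b → Kl (a * b) := by decide +kernel
theorem Kl_conj (s a : Perm (Fin 4)) (h : Kl a) : Kl (s * a * s⁻¹) := by
  refine ⟨by rw [sg_conj]; exact h.1, ?_⟩
  rw [th_conj _ _ h.1, h.2, mul_zero]
theorem Kl_inv : ∀ a, Kl a → Kl a⁻¹ := by decide +kernel
theorem Kl_three : ∀ s, sg s = 0 → th s ≠ 0 → ∀ a, Kl a →
    a * (s * a * s⁻¹) * (s * (s * a * s⁻¹) * s⁻¹) = 1 := by decide +kernel
theorem Kl_div : ∀ s, sg s = 0 → th s ≠ 0 → ∀ a, Kl a →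
    ∃ b, Kl b ∧ b * (s * b * s⁻¹) = a := by decide +kernel
theorem Kl_unique : ∀ a, Kl a → ∀ b, Kl b → ∀ x, a x = b x → a = b := by decide +kernel
theorem Kl_exists : ∀ x y : Fin 4, ∃ a, Kl a ∧ a x = y := by decide +kernel

variable {G : Subgroup (Portrait (Fin 4))} {m : ℕ}

/-- `g` acts trivially except that it moves the letters after `w` by `a`. -/
structure Lift (G : Subgroup (Portrait (Fin 4))) {m : ℕ} (w : Wd (Fin 4) m) (a : Perm (Fin 4))
    (g : Portrait (Fin 4)) : Prop where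
  mem : g ∈ G
  one : lev g m = 1
  lab : g.lab m = Pi.mulSingle w a

theorem Lift.same {w : Wd (Fin 4) m} {a : Perm (Fin 4)} {g : Portrait (Fin 4)} (h : Lift G w a g)
    (x : Fin 4) : lev g (m + 1) (sn w x) = sn w (a x) := by
  rw [lev_succ, h.one, h.lab, Pi.mulSingle_eq_same]; rfl

theorem Lift.other {w v : Wd (Fin 4) m} {a : Perm (Fin 4)} {g : Portrait (Fin 4)}
    (h : Lift G w a g) (hv : v ≠ w) (x : Fin 4) : lev g (m + 1) (sn v x) = sn v x := by
  rw [lev_succ, h.one, h.lab, Pi.mulSingle_eq_of_ne hv]; rfl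

theorem Lift.mul {w : Wd (Fin 4) m} {a b : Perm (Fin 4)} {g e : Portrait (Fin 4)}
    (h : Lift G w a g) (h' : Lift G w b e) : Lift G w (a * b) (g * e) := by
  refine ⟨mul_mem h.mem h'.mem, by rw [lev_mul, h.one, h'.one, one_mul], ?_⟩
  funext v
  rw [mul_lab, h'.one, Perm.one_apply, h.lab, h'.lab]
  by_cases hv : v = w
  · subst hv; rw [Pi.mulSingle_eq_same, Pi.mulSingle_eq_same, Pi.mulSingle_eq_same]
  · rw [Pi.mulSingle_eq_of_ne hv, Pi.mulSingle_eq_of_ne hv, Pi.mulSingle_eq_of_ne hv, one_mul]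

theorem Lift.conj {w : Wd (Fin 4) m} {a : Perm (Fin 4)} {g e : Portrait (Fin 4)}
    (he : Lift G w a e) (hg : g ∈ G) :
    Lift G (lev g m w) (g.lab m w * a * (g.lab m w)⁻¹) (g * e * g⁻¹) := by
  refine ⟨mul_mem (mul_mem hg he.mem) (inv_mem hg), ?_, ?_⟩
  · rw [lev_mul, lev_mul, he.one, lev_inv, mul_one, mul_inv_cancel]
  · funext v
    obtain ⟨u, rfl⟩ := (lev g m).surjective v
    have h1 : lev g⁻¹ m (lev g m u) = u := by
      rw [← Perm.mul_apply, ← lev_mul, inv_mul_cancel, lev_one, Perm.one_apply]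
    rw [mul_lab, mul_lab, h1, inv_lab, Equiv.symm_apply_apply, he.one, Perm.one_apply, he.lab]
    by_cases hv : u = w
    · subst hv; rw [Pi.mulSingle_eq_same, Pi.mulSingle_eq_same]
    · rw [Pi.mulSingle_eq_of_ne hv, Pi.mulSingle_eq_of_ne (fun h => hv ((lev g m).injective h)),
        mul_one, mul_inv_cancel]

theorem Lift.triv {w : Wd (Fin 4) m} {g : Portrait (Fin 4)} (h : Lift G w 1 g) :
    lev g (m + 1) = 1 := by
  ext1 q
  obtain ⟨v, x, rfl⟩ := exists_sn q
  rw [lev_succ, h.one, h.lab, Pi.mulSingle_one]; rfl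

theorem exists_lift (hV : V4full G m) (w : Wd (Fin 4) m) {a : Perm (Fin 4)} (ha : Kl a) :
    ∃ g, Lift G w a g := by
  obtain ⟨g, hg, h1, h2⟩ := hV (Pi.mulSingle w a) (by
    intro v
    by_cases hv : v = w
    · subst hv; rw [Pi.mulSingle_eq_same]; exact ha
    · rw [Pi.mulSingle_eq_of_ne hv]; exact Kl_one)
  exact ⟨g, hg, lev_eq_one_of g m h1, h2⟩

theorem exists_rot (hS : Sep G m) (w : Wd (Fin 4) m) :
    ∃ h ∈ G, lev h m = 1 ∧ sg (h.lab m w) = 0 ∧ th (h.lab m w) ≠ 0 := by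
  obtain ⟨k, ⟨h, hh, h1, rfl⟩, h2, h3⟩ := hS.1 w
  exact ⟨h, hh, lev_eq_one_of h m h1, h2 w, h3⟩

theorem exists_rot2 (hS : Sep G m) (hV : V4full G m) {w v : Wd (Fin 4) m} (hvw : v ≠ w) :
    ∃ h ∈ G, lev h m = 1 ∧ h.lab m v = 1 ∧ sg (h.lab m w) = 0 ∧ th (h.lab m w) ≠ 0 := by
  obtain ⟨k, hk, h2, h3, h4⟩ := hS.2 w v hvw.symm
  have hk2 : k * Pi.mulSingle v (k v)⁻¹ ∈ KK G m := by
    apply mul_mem hk
    apply hV
    intro u
    by_cases hu : u = v
    · subst hu; rw [Pi.mulSingle_eq_same]; exact Kl_inv _ ⟨h2 u, h4⟩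
    · rw [Pi.mulSingle_eq_of_ne hu]; exact Kl_one
  obtain ⟨h, hh, h1, h5⟩ := hk2
  refine ⟨h, hh, lev_eq_one_of h m h1, ?_, ?_, ?_⟩
  · rw [h5, Pi.mul_apply, Pi.mulSingle_eq_same, mul_inv_cancel]
  · rw [h5, Pi.mul_apply, Pi.mulSingle_eq_of_ne hvw.symm, mul_one]; exact h2 w
  · rw [h5, Pi.mul_apply, Pi.mulSingle_eq_of_ne hvw.symm, mul_one]; exact h3

variable {c : Portrait (Fin 4) → Wd (Fin 4) (m + 1) → ZMod 2}

/-- (i): away from `w` the values at a lift are constant in the last letter -/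
theorem lift_const (hS : Sep G m) (hV : V4full G m) (hc : Coc G c)
    (hB : ∀ g ∈ G, lev g (m + 1) = 1 → ∀ w x y, c g (sn w x) = c g (sn w y))
    {w v : Wd (Fin 4) m} (hvw : v ≠ w) {a : Perm (Fin 4)} (ha : Kl a) {g : Portrait (Fin 4)}
    (hg : Lift G w a g) (x y : Fin 4) : c g (sn v x) = c g (sn v y) := by
  obtain ⟨h, hh, h1, h2, h3, h4⟩ := exists_rot2 hS hV hvw
  have hw : lev h m w = w := by rw [h1]; rfl
  have g1 := hg.conj hh
  rw [hw] at g1
  have g2 := g1.conj hh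
  rw [hw] at g2
  have g3 := (hg.mul g1).mul g2
  rw [Kl_three _ h3 h4 a ha] at g3
  have hfix : ∀ x, lev h (m + 1) (sn v x) = sn v x := by
    intro x; rw [lev_succ, h1, h2]; rfl
  have e1 : ∀ x, c (h * g * h⁻¹) (sn v x) = c g (sn v x) := by
    intro x
    have := coc_conj hc hh hg.mem (sn v x)
    rw [hfix, hg.other hvw, add_comm (c h _), add_assoc, z2_self, add_zero] at this
    exact this
  have e2 : ∀ x, c (h * (h * g * h⁻¹) * h⁻¹) (sn v x) = c g (sn v x) := by
    intro x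
    have := coc_conj hc hh g1.mem (sn v x)
    rw [hfix, g1.other hvw, add_comm (c h _), add_assoc, z2_self, add_zero, e1] at this
    exact this
  have e3 : ∀ x, c (g * (h * g * h⁻¹) * (h * (h * g * h⁻¹) * h⁻¹)) (sn v x) = c g (sn v x) := by
    intro x
    rw [hc _ (mul_mem hg.mem g1.mem) _ g2.mem, g2.other hvw, hc _ hg.mem _ g1.mem, g1.other hvw,
      e1, e2, z2_self, zero_add]
  rw [← e3 x, ← e3 y]
  exact hB _ g3.mem g3.triv v x y

/-- lifts with trivial values away from `w` -/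
structure Lift0 (G : Subgroup (Portrait (Fin 4))) {m : ℕ}
    (c : Portrait (Fin 4) → Wd (Fin 4) (m + 1) → ZMod 2) (w : Wd (Fin 4) m) (a : Perm (Fin 4))
    (g : Portrait (Fin 4)) : Prop where
  lift : Lift G w a g
  zero : ∀ v, v ≠ w → ∀ x, c g (sn v x) = 0

theorem Lift0.mul (hc : Coc G c) {w : Wd (Fin 4) m} {a b : Perm (Fin 4)} {g e : Portrait (Fin 4)}
    (h : Lift0 G c w a g) (h' : Lift0 G c w b e) : Lift0 G c w (a * b) (g * e) := by
  refine ⟨h.lift.mul h'.lift, fun v hv x => ?_⟩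
  rw [hc _ h.lift.mem _ h'.lift.mem, h'.lift.other hv, h.zero v hv, h'.zero v hv, add_zero]

theorem Lift0.conj (hc : Coc G c) {w : Wd (Fin 4) m} {a : Perm (Fin 4)} {g e : Portrait (Fin 4)}
    (he : Lift0 G c w a e) (hg : g ∈ G) :
    Lift0 G c (lev g m w) (g.lab m w * a * (g.lab m w)⁻¹) (g * e * g⁻¹) := by
  refine ⟨he.lift.conj hg, fun v hv x => ?_⟩
  obtain ⟨q, hq⟩ := (lev g (m + 1)).surjective (sn v x)
  obtain ⟨u, y, rfl⟩ := exists_sn q
  have hu : u ≠ w := by
    rintro rfl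
    rw [lev_succ, sn_inj] at hq
    exact hv hq.1.symm
  rw [← hq, coc_conj hc hg he.lift.mem, he.lift.other hu, he.zero u hu, add_zero, z2_self]

theorem exists_lift0 (hS : Sep G m) (hV : V4full G m) (hc : Coc G c)
    (hB : ∀ g ∈ G, lev g (m + 1) = 1 → ∀ w x y, c g (sn w x) = c g (sn w y))
    (w : Wd (Fin 4) m) {a : Perm (Fin 4)} (ha : Kl a) : ∃ g, Lift0 G c w a g := by
  obtain ⟨h, hh, h1, h2, h3⟩ := exists_rot hS w
  obtain ⟨b, hb, hba⟩ := Kl_div _ h2 h3 a ha
  obtain ⟨g, hg⟩ := exists_lift hV w hb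
  have hw : lev h m w = w := by rw [h1]; rfl
  have g1 := hg.conj hh
  rw [hw] at g1
  have g2 := hg.mul g1
  rw [hba] at g2
  refine ⟨_, g2, fun v hv x => ?_⟩
  rw [hc _ hg.mem _ g1.mem, g1.other hv]
  obtain ⟨q, hq⟩ := (lev h (m + 1)).surjective (sn v x)
  obtain ⟨u, y, rfl⟩ := exists_sn q
  have hu : u = v := by
    rw [lev_succ, sn_inj, h1] at hq
    exact hq.1
  subst hu
  have e1 : c (h * g * h⁻¹) (sn u x) = c g (sn u y) := by
    rw [← hq, coc_conj hc hh hg.mem, hg.other hv, add_comm (c h _), add_assoc, z2_self, add_zero]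
  rw [e1, lift_const hS hV hc hB hv hb hg x y, z2_self]

/-- indicator of the words with initial part `w` -/
def ind {m : ℕ} (w : Wd (Fin 4) m) : Wd (Fin 4) (m + 1) → ZMod 2 :=
  fun q => if ini q = w then 1 else 0

theorem ind_sn (w v : Wd (Fin 4) m) (x : Fin 4) : ind w (sn v x) = if v = w then 1 else 0 := rfl

theorem ind_transport (hT : Trans G m) (hc : Coc G c) {w : Wd (Fin 4) m}
    (h : ind w ∈ Sg G c hc) (v : Wd (Fin 4) m) : ind v ∈ Sg G c hc := by
  obtain ⟨g, hg, hgv⟩ := hT v w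
  have h1 := inv_Sg hc g hg _ h
  convert h1 using 1
  funext q
  obtain ⟨u, x, rfl⟩ := exists_sn q
  rw [lev_succ, ind_sn, ind_sn]
  by_cases hu : u = v
  · subst hu; rw [if_pos rfl, if_pos hgv]
  · rw [if_neg hu, if_neg]
    intro h2
    rw [← hgv] at h2
    exact hu ((lev g m).injective h2)

theorem Lift0.zero_of_one (hc : Coc G c)
    (hB : ∀ g ∈ G, lev g (m + 1) = 1 → ∀ w x y, c g (sn w x) = c g (sn w y))
    {w : Wd (Fin 4) m} (hw : ind w ∉ Sg G c hc) {g : Portrait (Fin 4)} (hg : Lift0 G c w 1 g)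
    (q : Wd (Fin 4) (m + 1)) : c g q = 0 := by
  by_contra hne
  apply hw
  refine ⟨g, hg.lift.mem, hg.lift.triv, ?_⟩
  obtain ⟨v, x, rfl⟩ := exists_sn q
  have hv : v = w := by
    by_contra hv
    exact hne (hg.zero v hv x)
  subst hv
  have h1 : ∀ a : ZMod 2, a ≠ 0 → a = 1 := by decide
  funext r
  obtain ⟨u, y, rfl⟩ := exists_sn r
  rw [ind_sn]
  by_cases hu : u = v
  · subst hu
    rw [if_pos rfl, hB g hg.lift.mem hg.lift.triv u y x, h1 _ hne]
  · rw [if_neg hu, hg.zero u hu]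

theorem Lift0.unique (hc : Coc G c)
    (hB : ∀ g ∈ G, lev g (m + 1) = 1 → ∀ w x y, c g (sn w x) = c g (sn w y))
    {w : Wd (Fin 4) m} (hw : ind w ∉ Sg G c hc) {a : Perm (Fin 4)} (ha : Kl a)
    {g g' : Portrait (Fin 4)} (hg : Lift0 G c w a g) (hg' : Lift0 G c w a g')
    (q : Wd (Fin 4) (m + 1)) : c g q = c g' q := by
  have h1 := hg.mul hc hg
  have h2 := hg.mul hc hg'
  rw [Kl_sq a ha] at h1 h2
  have h3 := h1.zero_of_one hc hB hw q
  have h4 := h2.zero_of_one hc hB hw q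
  rw [hc _ hg.lift.mem _ hg.lift.mem] at h3
  rw [hc _ hg.lift.mem _ hg'.lift.mem] at h4
  have h5 : lev g (m + 1) q = lev g' (m + 1) q := by
    obtain ⟨v, x, rfl⟩ := exists_sn q
    rw [lev_succ, lev_succ, hg.lift.one, hg'.lift.one, hg.lift.lab, hg'.lift.lab]
  rw [h5] at h3
  rw [← z2_eq _ _ h3, ← z2_eq _ _ h4]

/-- the gauge function -/
theorem caseB1 (_hT : Trans G m) (hS : Sep G m) (hV : V4full G m) (hc : Coc G c)
    (hB : ∀ g ∈ G, lev g (m + 1) = 1 → ∀ w x y, c g (sn w x) = c g (sn w y))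
    (hno : ∀ w, ind w ∉ Sg G c hc) :
    ∃ φ : Wd (Fin 4) (m + 1) → ZMod 2, ∀ g ∈ G, ∀ w x y,
      c g (sn w x) + φ (sn w x) + φ (lev g (m + 1) (sn w x)) =
      c g (sn w y) + φ (sn w y) + φ (lev g (m + 1) (sn w y)) := by
  choose a ha hax using fun x : Fin 4 => Kl_exists 0 x
  choose gg hgg using fun (w : Wd (Fin 4) m) (x : Fin 4) => exists_lift0 hS hV hc hB w (ha x)
  set φ : Wd (Fin 4) (m + 1) → ZMod 2 := fun q => c (gg (ini q) (lst q)) (sn (ini q) 0) with hφ
  have hφ' : ∀ w x, φ (sn w x) = c (gg w x) (sn w 0) := fun w x => rfl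
  have key : ∀ w b, Kl b → ∀ e, Lift0 G c w b e → ∀ q,
      c e q + φ q + φ (lev e (m + 1) q) = 0 := by
    intro w b hb e he q
    obtain ⟨v, x, rfl⟩ := exists_sn q
    by_cases hv : v = w
    · subst hv
      rw [he.lift.same, hφ', hφ']
      have h1 := he.mul hc (hgg v x)
      have h2 : b * a x = a (b x) := by
        apply Kl_unique _ (Kl_mul _ _ hb (ha x)) _ (ha _) 0
        rw [Perm.mul_apply, hax, hax]
      rw [h2] at h1
      have h3 := h1.unique hc hB (hno v) (ha _) (hgg v (b x)) (sn v 0)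
      rw [hc _ he.lift.mem _ (hgg v x).lift.mem, (hgg v x).lift.same, hax] at h3
      rw [← h3, z2_self]
    · rw [he.lift.other hv, he.zero v hv, zero_add, z2_self]
  refine ⟨φ, ?_⟩
  intro g hg w x y
  obtain ⟨b, hb, hbx⟩ := Kl_exists x y
  obtain ⟨e, he⟩ := exists_lift0 hS hV hc hB w hb
  have h1 := key _ _ (Kl_conj _ _ hb) _ (he.conj hc hg) (lev g (m + 1) (sn w x))
  have h2 := key _ _ hb _ he (sn w x)
  have h3 : lev (g * e * g⁻¹) (m + 1) (lev g (m + 1) (sn w x)) = lev g (m + 1) (sn w y) := by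
    rw [← Perm.mul_apply, ← lev_mul, inv_mul_cancel_right, lev_mul, Perm.mul_apply, he.lift.same,
      hbx]
  rw [h3, coc_conj hc hg he.lift.mem, he.lift.same, hbx] at h1
  rw [he.lift.same, hbx] at h2
  revert h1 h2
  generalize c g (sn w y) = A
  generalize c e (sn w x) = B
  generalize c g (sn w x) = C'
  generalize φ (lev g (m + 1) (sn w x)) = D
  generalize φ (lev g (m + 1) (sn w y)) = E
  generalize φ (sn w x) = F
  generalize φ (sn w y) = H
  revert A B C' D E F H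
  decide

end TermB

end Pool.Agent.Helper501.Haus.P2
namespace Pool.Agent.Helper501.Haus.P2

open Equiv

section TermC

variable {G : Subgroup (Portrait (Fin 4))} {m : ℕ}
  {c : Portrait (Fin 4) → Wd (Fin 4) (m + 1) → ZMod 2}
  {T : Submodule (ZMod 3) (Wd (Fin 4) (m + 1) → ZMod 3)}

/-- extension by zero of functions of the last letter -/
def extw (w : Wd (Fin 4) m) : (Fin 4 → ZMod 3) →ₗ[ZMod 3] (Wd (Fin 4) (m + 1) → ZMod 3) where
  toFun u q := if ini q = w then u (lst q) else 0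
  map_add' u v := by
    funext q; simp only [Pi.add_apply]; split_ifs
    · rfl
    · rw [add_zero]
  map_smul' s u := by
    funext q; simp only [Pi.smul_apply, smul_eq_mul, RingHom.id_apply]; split_ifs
    · rfl
    · rw [mul_zero]

theorem extw_sn (w : Wd (Fin 4) m) (u : Fin 4 → ZMod 3) (v : Wd (Fin 4) m) (x : Fin 4) :
    extw w u (sn v x) = if v = w then u x else 0 := rfl

/-- the functions of the last letter supported on `w` -/
def UU (T : Submodule (ZMod 3) (Wd (Fin 4) (m + 1) → ZMod 3)) (w : Wd (Fin 4) m) :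
    Submodule (ZMod 3) (Fin 4 → ZMod 3) := T.comap (extw w)

theorem mem_UU {w : Wd (Fin 4) m} {u : Fin 4 → ZMod 3} : u ∈ UU T w ↔ extw w u ∈ T := Iff.rfl

theorem restr_mem (hc : Coc G c) (hTi : TInv G c T) {w : Wd (Fin 4) m}
    (hw : ind w ∈ Sg G c hc) {f : Wd (Fin 4) (m + 1) → ZMod 3} (hf : f ∈ T) :
    (fun x => f (sn w x)) ∈ UU T w := by
  rw [mem_UU]
  have h1 := tinv_sgn hc hTi hw hf
  convert h1 using 1
  funext q
  obtain ⟨v, x, rfl⟩ := exists_sn q
  rw [extw_sn, ind_sn]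
  by_cases hv : v = w
  · subst hv; rw [if_pos rfl, if_pos rfl, e3_one, one_mul]
  · rw [if_neg hv, if_neg hv, e3_zero, zero_mul]

/-- splitting into the pieces -/
def splitT (hc : Coc G c) (hTi : TInv G c T) (hw : ∀ w, ind w ∈ Sg G c hc) :
    T ≃ₗ[ZMod 3] (∀ w : Wd (Fin 4) m, UU T w) where
  toFun f w := ⟨fun x => f.1 (sn w x), restr_mem hc hTi (hw w) f.2⟩
  map_add' _ _ := rfl
  map_smul' _ _ := rfl
  invFun u := ⟨∑ w, extw w (u w).1, Submodule.sum_mem _ fun w _ => (u w).2⟩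
  left_inv f := by
    apply Subtype.ext
    funext q
    obtain ⟨v, x, rfl⟩ := exists_sn q
    simp only [Finset.sum_apply, extw_sn]
    rw [Finset.sum_eq_single v]
    · rw [if_pos rfl]
    · intro b _ hb; rw [if_neg hb.symm]
    · simp
  right_inv u := by
    funext v
    apply Subtype.ext
    funext x
    simp only [Finset.sum_apply, extw_sn]
    rw [Finset.sum_eq_single v]
    · rw [if_pos rfl]
    · intro b _ hb; rw [if_neg hb.symm]
    · simp

/-- signed transport -/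
def trL (c : Portrait (Fin 4) → Wd (Fin 4) (m + 1) → ZMod 2) (g : Portrait (Fin 4))
    (v : Wd (Fin 4) m) : (Fin 4 → ZMod 3) →ₗ[ZMod 3] (Fin 4 → ZMod 3) where
  toFun u x := sgn3 (c g (sn v x)) * u (g.lab m v x)
  map_add' u v := by funext x; simp only [Pi.add_apply]; ring
  map_smul' s u := by
    funext x; simp only [Pi.smul_apply, smul_eq_mul, RingHom.id_apply]; ring

theorem trL_apply (g : Portrait (Fin 4)) (v : Wd (Fin 4) m) (u : Fin 4 → ZMod 3) (x : Fin 4) :
    trL c g v u x = sgn3 (c g (sn v x)) * u (g.lab m v x) := rfl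

theorem trL_mem (hTi : TInv G c T) {g : Portrait (Fin 4)} (hg : g ∈ G) (v : Wd (Fin 4) m)
    {u : Fin 4 → ZMod 3} (hu : u ∈ UU T (lev g m v)) : trL c g v u ∈ UU T v := by
  rw [mem_UU] at hu ⊢
  have h1 := hTi g hg _ hu
  convert h1 using 1
  funext q
  obtain ⟨w, x, rfl⟩ := exists_sn q
  rw [lev_succ, extw_sn, extw_sn]
  by_cases hw : w = v
  · subst hw; rw [if_pos rfl, if_pos rfl]; rfl
  · rw [if_neg hw, if_neg (fun h => hw ((lev g m).injective h)), mul_zero]

theorem trL_injective (g : Portrait (Fin 4)) (v : Wd (Fin 4) m) :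
    Function.Injective (trL c g v) := by
  intro u u' h
  funext x
  have h1 := congrFun h ((g.lab m v).symm x)
  rw [trL_apply, trL_apply, Equiv.apply_symm_apply] at h1
  exact mul_left_cancel₀ (sgn3_ne_zero _) h1

theorem finrank_UU_le (hTi : TInv G c T) (hT : Trans G m) (v w : Wd (Fin 4) m) :
    Module.finrank (ZMod 3) (UU T w) ≤ Module.finrank (ZMod 3) (UU T v) := by
  obtain ⟨g, hg, rfl⟩ := hT v w
  have h1 : (UU T (lev g m v)).map (trL c g v) ≤ UU T v := by
    rintro _ ⟨u, hu, rfl⟩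
    exact trL_mem hTi hg v hu
  rw [(Submodule.equivMapOfInjective _ (trL_injective (c := c) g v) (UU T (lev g m v))).finrank_eq]
  exact Submodule.finrank_mono h1

theorem finrank_T (hc : Coc G c) (hTi : TInv G c T) (hT : Trans G m)
    (hw : ∀ w, ind w ∈ Sg G c hc) (v : Wd (Fin 4) m) :
    Module.finrank (ZMod 3) T = Module.finrank (ZMod 3) (UU T v) * 4 ^ m := by
  rw [(splitT hc hTi hw).finrank_eq, Module.finrank_pi_fintype]
  rw [Finset.sum_congr rfl fun w _ => le_antisymm (finrank_UU_le hTi hT v w)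
    (finrank_UU_le hTi hT w v)]
  rw [Finset.sum_const, Finset.card_univ, card_Wd, Fintype.card_fin, smul_eq_mul, mul_comm]

theorem trL_mul (hc : Coc G c) {g h : Portrait (Fin 4)} (hg : g ∈ G) (hh : h ∈ G)
    (v : Wd (Fin 4) m) (u : Fin 4 → ZMod 3) :
    trL c (g * h) v u = trL c h v (trL c g (lev h m v) u) := by
  funext x
  rw [trL_apply, trL_apply, trL_apply, hc g hg h hh, lev_succ, sgn3_add, mul_lab,
    Perm.mul_apply]
  ring

/-- stabiliser of `w` in `G` -/
def St (G : Subgroup (Portrait (Fin 4))) (w : Wd (Fin 4) m) : Subgroup (Portrait (Fin 4)) where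
  carrier := {g | g ∈ G ∧ lev g m w = w}
  mul_mem' := by
    rintro g h ⟨hg, hg1⟩ ⟨hh, hh1⟩
    exact ⟨mul_mem hg hh, by rw [lev_mul, Perm.mul_apply, hh1, hg1]⟩
  one_mem' := ⟨one_mem _, by rw [lev_one]; rfl⟩
  inv_mem' := by
    rintro g ⟨hg, hg1⟩
    refine ⟨inv_mem hg, ?_⟩
    have h1 : lev g⁻¹ m (lev g m w) = w := by
      rw [← Perm.mul_apply, ← lev_mul, inv_mul_cancel, lev_one, Perm.one_apply]
    rwa [hg1] at h1

/-- signed action on the piece at `w` -/
def AU (hTi : TInv G c T) (w : Wd (Fin 4) m) (g : St G w) :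
    UU T w →ₗ[ZMod 3] UU T w :=
  (trL c g.1 w).restrict (p := UU T w) (q := UU T w) (fun u hu => by
    apply trL_mem hTi g.2.1 w
    rw [g.2.2]; exact hu)

theorem AU_coe (hTi : TInv G c T) (w : Wd (Fin 4) m) (g : St G w) (u : UU T w) :
    ((AU hTi w g u : UU T w) : Fin 4 → ZMod 3) = trL c g.1 w u.1 := rfl

theorem AU_mul (hc : Coc G c) (hTi : TInv G c T) (w : Wd (Fin 4) m) (g h : St G w) :
    AU hTi w (g * h) = AU hTi w h * AU hTi w g := by
  apply LinearMap.ext
  intro u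
  apply Subtype.ext
  rw [AU_coe, Module.End.mul_apply, AU_coe, AU_coe]
  show trL c (g.1 * h.1) w u.1 = _
  rw [trL_mul hc g.2.1 h.2.1, h.2.2]

theorem AU_one (hc : Coc G c) (hTi : TInv G c T) (w : Wd (Fin 4) m) :
    AU hTi w 1 = 1 := by
  apply LinearMap.ext
  intro u
  apply Subtype.ext
  funext x
  rw [AU_coe, trL_apply]
  show sgn3 (c 1 (sn w x)) * u.1 ((1 : Portrait (Fin 4)).lab m w x) = u.1 x
  rw [coc_one hc, one_lab]
  show 1 * u.1 x = u.1 x
  rw [one_mul]

/-- the determinant as a homomorphism -/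
noncomputable def dtU (hc : Coc G c) (hTi : TInv G c T) (w : Wd (Fin 4) m) :
    St G w →* ZMod 3 where
  toFun g := LinearMap.det (AU hTi w g)
  map_one' := by rw [AU_one hc, map_one]
  map_mul' g h := by rw [AU_mul hc, map_mul, mul_comm]

theorem dtU_conj (hc : Coc G c) (hTi : TInv G c T) (w : Wd (Fin 4) m) (h g : St G w) :
    dtU hc hTi w (h * g * h⁻¹) = dtU hc hTi w g := by
  rw [map_mul, map_mul, mul_comm (dtU hc hTi w h), mul_assoc, ← map_mul, mul_inv_cancel, map_one,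
    mul_one]

theorem two_dim_aux : ∀ p q r s : ZMod 3, (p * p + q * r = 1 ∧ p * q + q * s = 0 ∧
    r * p + s * r = 0 ∧ r * q + s * s = 1 ∧ p * s - q * r = 1) → (q = 0 ∧ r = 0) ∧
      ((p = 1 ∧ s = 1) ∨ (p = -1 ∧ s = -1)) := by decide +kernel

theorem two_dim {V : Type} [AddCommGroup V] [Module (ZMod 3) V]
    (h2 : Module.finrank (ZMod 3) V = 2) (A : V →ₗ[ZMod 3] V) (hA : A * A = 1)
    (hd : LinearMap.det A = 1) : A = 1 ∨ A = -1 := by
  haveI : Module.Finite (ZMod 3) V := Module.finite_of_finrank_pos (by rw [h2]; norm_num)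
  let b := Module.finBasisOfFinrankEq (ZMod 3) V h2
  set M := LinearMap.toMatrix b b A with hM
  have h1 : M * M = 1 := by
    rw [hM, ← LinearMap.toMatrix_mul, hA, LinearMap.toMatrix_one]
  have h3 : M.det = 1 := by
    rw [hM, LinearMap.det_toMatrix, hd]
  rw [Matrix.det_fin_two] at h3
  have e00 := congrFun (congrFun h1 0) 0
  have e01 := congrFun (congrFun h1 0) 1
  have e10 := congrFun (congrFun h1 1) 0
  have e11 := congrFun (congrFun h1 1) 1
  rw [Matrix.mul_apply, Fin.sum_univ_two] at e00 e01 e10 e11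
  rw [Matrix.one_apply_eq] at e00 e11
  rw [Matrix.one_apply_ne (by decide)] at e01 e10
  obtain ⟨⟨hq, hr⟩, h5⟩ := two_dim_aux _ _ _ _ ⟨e00, e01, e10, e11, h3⟩
  rcases h5 with ⟨hp, hs⟩ | ⟨hp, hs⟩
  · left
    apply (LinearMap.toMatrix b b).injective
    rw [← hM, LinearMap.toMatrix_one]
    ext i j
    fin_cases i <;> fin_cases j <;> simp [hp, hq, hr, hs]
  · right
    apply (LinearMap.toMatrix b b).injective
    rw [← hM, map_neg, LinearMap.toMatrix_one]
    ext i j
    fin_cases i <;> fin_cases j <;> simp [hp, hq, hr, hs]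

theorem Lift.mem_St {w : Wd (Fin 4) m} {a : Perm (Fin 4)} {g : Portrait (Fin 4)}
    (h : Lift G w a g) : g ∈ St G w := ⟨h.mem, by rw [h.one]; rfl⟩

theorem sq_zero (hc : Coc G c)
    (hB : ∀ g ∈ G, lev g (m + 1) = 1 → ∀ w x y, c g (sn w x) = c g (sn w y))
    {w : Wd (Fin 4) m} (hno : ∀ g ∈ G, lev g m = 1 → lev (g * g) (m + 1) = 1 →
      ¬ ∀ v x, c (g * g) (sn v x) = if v = w then 1 else 0)
    {a : Perm (Fin 4)} (ha : Kl a) {g : Portrait (Fin 4)} (hg : Lift G w a g)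
    (q : Wd (Fin 4) (m + 1)) : c (g * g) q = 0 := by
  have h1 := hg.mul hg
  rw [Kl_sq a ha] at h1
  have h2 : ∀ v, v ≠ w → ∀ x, c (g * g) (sn v x) = 0 := by
    intro v hv x
    rw [hc _ hg.mem _ hg.mem, hg.other hv, z2_self]
  by_contra hne
  apply hno g hg.mem hg.one h1.triv
  obtain ⟨v, x, rfl⟩ := exists_sn q
  have hv : v = w := by
    by_contra hv
    exact hne (h2 v hv x)
  subst hv
  have h3 : ∀ a : ZMod 2, a ≠ 0 → a = 1 := by decide
  intro u y
  by_cases hu : u = v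
  · subst hu
    rw [if_pos rfl, hB _ h1.mem h1.triv u y x, h3 _ hne]
  · rw [if_neg hu, h2 u hu]

theorem AU_triv (hTi : TInv G c T)
    (hB : ∀ g ∈ G, lev g (m + 1) = 1 → ∀ w x y, c g (sn w x) = c g (sn w y))
    {w : Wd (Fin 4) m} {g : Portrait (Fin 4)} (hg : Lift G w 1 g) :
    AU hTi w ⟨g, hg.mem_St⟩ = sgn3 (c g (sn w 0)) • (1 : UU T w →ₗ[ZMod 3] UU T w) := by
  apply LinearMap.ext
  intro u
  apply Subtype.ext
  funext x
  rw [AU_coe, trL_apply]
  show sgn3 (c g (sn w x)) * u.1 (g.lab m w x) = sgn3 (c g (sn w 0)) * u.1 x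
  rw [hg.lab, Pi.mulSingle_eq_same, hB g hg.mem hg.triv w x 0]; rfl

theorem sgn3_sq (a : ZMod 2) : sgn3 a ^ 2 = 1 := by rw [pow_two, sgn3_mul_self]

/-- (B2), the two-dimensional case. -/
theorem caseB2 (hS : Sep G m) (hV : V4full G m) (hc : Coc G c) (hTi : TInv G c T)
    (hB : ∀ g ∈ G, lev g (m + 1) = 1 → ∀ w x y, c g (sn w x) = c g (sn w y))
    (w : Wd (Fin 4) m) (h2 : Module.finrank (ZMod 3) (UU T w) = 2) :
    ∃ g ∈ G, lev g m = 1 ∧ lev (g * g) (m + 1) = 1 ∧
        ∀ v x, c (g * g) (sn v x) = if v = w then 1 else 0 := by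
  by_contra hcon
  have hno : ∀ g ∈ G, lev g m = 1 → lev (g * g) (m + 1) = 1 →
      ¬ ∀ v x, c (g * g) (sn v x) = if v = w then 1 else 0 :=
    fun g hg h1 h3 h4 => hcon ⟨g, hg, h1, h3, h4⟩
  obtain ⟨h, hh, h1, h3, h4⟩ := exists_rot hS w
  have hw : lev h m w = w := by rw [h1]; rfl
  have hSt : h ∈ St G w := ⟨hh, hw⟩
  -- the operators are plus or minus one
  have key : ∀ a, Kl a → ∀ g (hg : Lift G w a g),
      AU hTi w ⟨g, hg.mem_St⟩ = 1 ∨ AU hTi w ⟨g, hg.mem_St⟩ = -1 := by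
    intro a ha g hg
    have g1 := hg.conj hh
    rw [hw] at g1
    have g2 := g1.conj hh
    rw [hw] at g2
    have g3 := (hg.mul g1).mul g2
    rw [Kl_three _ h3 h4 a ha] at g3
    apply two_dim h2
    · rw [← AU_mul hc]
      apply LinearMap.ext
      intro u
      apply Subtype.ext
      funext x
      rw [AU_coe, trL_apply]
      show sgn3 (c (g * g) (sn w x)) * u.1 ((g * g).lab m w x) = u.1 x
      have h5 := hg.mul hg
      rw [Kl_sq a ha] at h5
      rw [sq_zero hc hB hno ha hg, h5.lab, Pi.mulSingle_eq_same]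
      show 1 * u.1 x = u.1 x
      rw [one_mul]
    · set gS : St G w := ⟨g, hg.mem_St⟩ with hgS
      set hS' : St G w := ⟨h, hSt⟩ with hhS
      show dtU hc hTi w gS = 1
      have h5 : dtU hc hTi w (gS * (hS' * gS * hS'⁻¹) * (hS' * (hS' * gS * hS'⁻¹) * hS'⁻¹)) = 1 := by
        have h6 : gS * (hS' * gS * hS'⁻¹) * (hS' * (hS' * gS * hS'⁻¹) * hS'⁻¹) =
          ⟨_, g3.mem_St⟩ := rfl
        rw [h6]
        show LinearMap.det (AU hTi w ⟨_, g3.mem_St⟩) = 1
        rw [AU_triv hTi hB g3, LinearMap.det_smul, h2, sgn3_sq, one_mul, map_one]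
      rw [map_mul, map_mul, dtU_conj, dtU_conj, dtU_conj] at h5
      have h6 : ∀ d : ZMod 3, d * d * d = 1 → d = 1 := by decide
      exact h6 _ h5
  -- evaluation at 0 is injective
  have hinj : Function.Injective ((LinearMap.proj (R := ZMod 3) (φ := fun _ : Fin 4 => ZMod 3) 0 ∘ₗ
      (UU T w).subtype)) := by
    rw [← LinearMap.ker_eq_bot, LinearMap.ker_eq_bot']
    intro u hu
    have hu0 : u.1 0 = 0 := hu
    apply Subtype.ext
    funext y
    obtain ⟨a, ha, hay⟩ := Kl_exists 0 y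
    obtain ⟨g, hg⟩ := exists_lift hV w ha
    have h5 : trL c g w u.1 0 = 0 := by
      rcases key a ha g hg with h6 | h6
      · have h7 := congrArg (fun A : UU T w →ₗ[ZMod 3] UU T w => (A u).1 0) h6
        exact h7.trans hu0
      · have h7 := congrArg (fun A : UU T w →ₗ[ZMod 3] UU T w => (A u).1 0) h6
        refine h7.trans ?_
        show -(u.1 0) = 0
        rw [hu0, neg_zero]
    rw [trL_apply, hg.lab, Pi.mulSingle_eq_same, hay] at h5
    exact (mul_eq_zero.mp h5).resolve_left (sgn3_ne_zero _)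
  have h5 := LinearMap.finrank_le_finrank_of_injective hinj
  rw [h2, Module.finrank_self] at h5
  omega

end TermC

/-- Target. -/
theorem terminal {G : Subgroup (Portrait (Fin 4))} {m : ℕ} (hT : Trans G m) (hV : V4full G m)
    (hS : Sep G m) (hD : Dich 2 G m) (c : Portrait (Fin 4) → Wd (Fin 4) (m + 1) → ZMod 2) (hc : Coc G c)
    (T : Submodule (ZMod 3) (Wd (Fin 4) (m + 1) → ZMod 3)) (hTi : TInv G c T) :
    (T = ⊥ ∨ T = ⊤) ∨
    (∃ φ : Wd (Fin 4) (m + 1) → ZMod 2, ∀ g ∈ G, ∀ w x y,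
      c g (sn w x) + φ (sn w x) + φ (lev g (m + 1) (sn w x)) =
      c g (sn w y) + φ (sn w y) + φ (lev g (m + 1) (sn w y))) ∨
    ((∀ g ∈ G, lev g (m + 1) = 1 → ∀ w x y, c g (sn w x) = c g (sn w y)) ∧
      ∃ D : ℕ, (D = 0 ∨ D = 1 ∨ D = 3 ∨ D = 4) ∧ Module.finrank (ZMod 3) T = D * 4 ^ m) ∨
    ((∀ g ∈ G, lev g (m + 1) = 1 → ∀ w x y, c g (sn w x) = c g (sn w y)) ∧
      Module.finrank (ZMod 3) T = 2 * 4 ^ m ∧
      ∀ w : Wd (Fin 4) m, ∃ g ∈ G, lev g m = 1 ∧ lev (g * g) (m + 1) = 1 ∧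
        ∀ v x, c (g * g) (sn v x) = if v = w then 1 else 0) := by
  rcases hD (Sg G c hc) (inv_Sg hc) with hB0 | hA
  · have hB : ∀ g ∈ G, lev g (m + 1) = 1 → ∀ w x y, c g (sn w x) = c g (sn w y) :=
      fun g hg h1 => hB0 _ ⟨g, hg, h1, rfl⟩
    right
    by_cases hw : ∃ w, ind w ∈ Sg G c hc
    · right
      obtain ⟨w0, hw0⟩ := hw
      have hw : ∀ w, ind w ∈ Sg G c hc := fun w => ind_transport hT hc hw0 w
      have h4 : Module.finrank (ZMod 3) (UU T w0) ≤ 4 := by
        have := Submodule.finrank_le (UU T w0)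
        rwa [Module.finrank_fintype_fun_eq_card, Fintype.card_fin] at this
      have hfin := finrank_T hc hTi hT hw w0
      by_cases h2 : Module.finrank (ZMod 3) (UU T w0) = 2
      · right
        refine ⟨hB, by rw [hfin, h2], ?_⟩
        intro w
        apply caseB2 hS hV hc hTi hB w
        exact (le_antisymm (finrank_UU_le hTi hT w0 w) (finrank_UU_le hTi hT w w0)).trans h2
      · left
        exact ⟨hB, _, by omega, hfin⟩
    · left
      push Not at hw
      exact caseB1 hT hS hV hc hB hw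
  · left
    exact caseA hT hV c hc T hTi hA

end Pool.Agent.Helper501.Haus.P2


namespace Pool.Agent.Helper501.Haus.P3

open Equiv Filter Topology

theorem cube_klein : ∀ s : Perm (Fin 4), sg s = 0 → sg ((s ^ 3)⁻¹) = 0 ∧ th ((s ^ 3)⁻¹) = 0 := by
  decide +kernel

theorem four_eq : ∀ s : Perm (Fin 4), sg s = 0 → th s ≠ 0 → s ^ 4 = s := by
  decide +kernel

theorem zmod2_self (a : ZMod 2) : a + a = 0 := by
  revert a; decide

theorem exists_pre {X : Type} [Nonempty X] {m : ℕ} (i : ℕ) (w : Wd X m) :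
    ∃ v : Wd X (m + i), pre i v = w := by
  induction i with
  | zero => exact ⟨w, rfl⟩
  | succ i ih =>
    obtain ⟨v, hv⟩ := ih
    obtain ⟨x⟩ := (inferInstance : Nonempty X)
    exact ⟨sn v x, hv⟩

/-- Elements of `G` trivial on words of length `m`. -/
def StJ (G : Subgroup (Portrait (Fin 4))) (m : ℕ) : Subgroup (Portrait (Fin 4)) where
  carrier := {x | x ∈ G ∧ lev x m = 1}
  mul_mem' := by
    rintro a b ⟨ha, ha1⟩ ⟨hb, hb1⟩
    exact ⟨mul_mem ha hb, by rw [lev_mul, ha1, hb1, one_mul]⟩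
  one_mem' := ⟨one_mem _, lev_one m⟩
  inv_mem' := by
    rintro a ⟨ha, ha1⟩
    exact ⟨inv_mem ha, by rw [lev_inv, ha1, inv_one]⟩

theorem mem_StJ {G : Subgroup (Portrait (Fin 4))} {m : ℕ} {x : Portrait (Fin 4)} :
    x ∈ StJ G m ↔ x ∈ G ∧ lev x m = 1 := Iff.rfl

/-- Subgroup generated by the squares. -/
def DJ (G : Subgroup (Portrait (Fin 4))) (m : ℕ) : Subgroup (Portrait (Fin 4)) :=
  Subgroup.closure {z | ∃ y ∈ StJ G m, z = y * y}

/-- Subgroup generated by the fourth powers. -/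
def FJ (G : Subgroup (Portrait (Fin 4))) (m : ℕ) : Subgroup (Portrait (Fin 4)) :=
  Subgroup.closure {z | ∃ y ∈ StJ G m, z = y ^ 4}

theorem lev_mono {a : Portrait (Fin 4)} {n k : ℕ} (h : n ≤ k) (ha : lev a k = 1) : lev a n = 1 :=
  lev_eq_one_of a n fun j hj => lab_eq_one_of_lev a k ha j (by omega)

theorem StJ_mono {G : Subgroup (Portrait (Fin 4))} {n k : ℕ} (h : n ≤ k) : StJ G k ≤ StJ G n :=
  fun _ hx => ⟨hx.1, lev_mono h hx.2⟩

theorem FJ_le_StJ (G : Subgroup (Portrait (Fin 4))) (m : ℕ) : FJ G m ≤ StJ G m := by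
  unfold FJ
  rw [Subgroup.closure_le]
  rintro _ ⟨y, hy, rfl⟩
  exact pow_mem hy 4

theorem DJ_le_StJ (G : Subgroup (Portrait (Fin 4))) (m : ℕ) : DJ G m ≤ StJ G m := by
  unfold DJ
  rw [Subgroup.closure_le]
  rintro _ ⟨y, hy, rfl⟩
  exact mul_mem hy hy

theorem FJ_le_DJ {G : Subgroup (Portrait (Fin 4))} {m j : ℕ} (h : m ≤ j) : FJ G j ≤ DJ G m := by
  unfold FJ
  rw [Subgroup.closure_le]
  rintro _ ⟨y, hy, rfl⟩
  have h1 : y * y ∈ DJ G m := Subgroup.subset_closure ⟨y, StJ_mono h hy, rfl⟩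
  have h2 : y ^ 4 = (y * y) * (y * y) := by
    simp only [pow_succ, pow_zero, one_mul, mul_assoc]
  rw [h2]
  exact mul_mem h1 h1

/-- Cocycle identity. -/
theorem coc_of {G : Subgroup (Portrait (Fin 4))} {m i : ℕ} {φ : Wd (Fin 4) (m + i) → ZMod 2}
    {c : Portrait (Fin 4) → Wd (Fin 4) m → ZMod 2}
    (hc : ∀ g ∈ G, ∀ v, scoc (m + i) g v + φ v + φ (lev g (m + i) v) = c g (pre i v))
    {x y : Portrait (Fin 4)} (hx : x ∈ G) (hy : y ∈ StJ G m) (w : Wd (Fin 4) m) :
    c (x * y) w = c x w + c y w := by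
  obtain ⟨v, rfl⟩ := exists_pre i w
  have h1 := hc (x * y) (mul_mem hx hy.1) v
  have h2 := hc x hx (lev y (m + i) v)
  have h3 := hc y hy.1 v
  rw [pre_lev, hy.2, Perm.one_apply] at h2
  rw [← h1, ← h2, ← h3, coc_scoc G (m + i) x hx y hy.1 v, lev_mul, Perm.mul_apply]
  have h4 := zmod2_self (φ (lev y (m + i) v))
  linear_combination -h4

theorem c_one {G : Subgroup (Portrait (Fin 4))} {m i : ℕ} {φ : Wd (Fin 4) (m + i) → ZMod 2}
    {c : Portrait (Fin 4) → Wd (Fin 4) m → ZMod 2}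
    (hc : ∀ g ∈ G, ∀ v, scoc (m + i) g v + φ v + φ (lev g (m + i) v) = c g (pre i v))
    (w : Wd (Fin 4) m) : c 1 w = 0 := by
  have h := coc_of hc (one_mem G) (one_mem (StJ G m)) w
  rw [one_mul] at h
  exact left_eq_add.mp h

theorem c_inv {G : Subgroup (Portrait (Fin 4))} {m i : ℕ} {φ : Wd (Fin 4) (m + i) → ZMod 2}
    {c : Portrait (Fin 4) → Wd (Fin 4) m → ZMod 2}
    (hc : ∀ g ∈ G, ∀ v, scoc (m + i) g v + φ v + φ (lev g (m + i) v) = c g (pre i v))
    {x : Portrait (Fin 4)} (hx : x ∈ StJ G m) (w : Wd (Fin 4) m) : c x⁻¹ w = c x w := by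
  have h := coc_of hc (inv_mem hx.1) hx w
  rw [inv_mul_cancel, c_one hc] at h
  have h4 := zmod2_self (c x w)
  linear_combination -h4 - h

/-- `c` vanishes on products of squares. -/
theorem c_DJ {G : Subgroup (Portrait (Fin 4))} {m i : ℕ} {φ : Wd (Fin 4) (m + i) → ZMod 2}
    {c : Portrait (Fin 4) → Wd (Fin 4) m → ZMod 2}
    (hc : ∀ g ∈ G, ∀ v, scoc (m + i) g v + φ v + φ (lev g (m + i) v) = c g (pre i v))
    {x : Portrait (Fin 4)} (hx : x ∈ DJ G m) (w : Wd (Fin 4) m) : c x w = 0 := by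
  let H : Subgroup (Portrait (Fin 4)) :=
    { carrier := {x | x ∈ StJ G m ∧ ∀ w, c x w = 0}
      mul_mem' := by
        rintro a b ⟨ha, ha1⟩ ⟨hb, hb1⟩
        exact ⟨mul_mem ha hb, fun w => by rw [coc_of hc ha.1 hb, ha1, hb1, add_zero]⟩
      one_mem' := ⟨one_mem _, c_one hc⟩
      inv_mem' := by
        rintro a ⟨ha, ha1⟩
        exact ⟨inv_mem ha, fun w => by rw [c_inv hc ha, ha1]⟩ }
  have h1 : DJ G m ≤ H := by
    unfold DJ
    rw [Subgroup.closure_le]
    rintro _ ⟨y, hy, rfl⟩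
    exact ⟨mul_mem hy hy, fun w => by rw [coc_of hc hy.1 hy, zmod2_self]⟩
  exact (h1 hx).2 w

theorem even_DJ {G : Subgroup (Portrait (Fin 4))} {m i : ℕ} (hred : Red G m i)
    {x : Portrait (Fin 4)} (hx : x ∈ DJ G m) (hx1 : lev x (m + i) = 1) (v : Wd (Fin 4) (m + i)) :
    sg (x.lab (m + i) v) = 0 := by
  obtain ⟨φ, c, hc⟩ := hred
  have h1 := hc x (DJ_le_StJ G m hx).1 v
  rw [c_DJ hc hx, hx1, Perm.one_apply, add_assoc, zmod2_self, add_zero] at h1
  exact h1

/-- Labels on level `j` as a homomorphism on the stabiliser. -/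
def labHom (G : Subgroup (Portrait (Fin 4))) (j : ℕ) : StJ G j →* (Wd (Fin 4) j → Perm (Fin 4)) where
  toFun x := x.1.lab j
  map_one' := rfl
  map_mul' a b := by
    funext w
    show (a.1 * b.1).lab j w = _
    rw [mul_lab, b.2.2]; rfl

/-- Label vectors of products of fourth powers. -/
def LJ (G : Subgroup (Portrait (Fin 4))) (j : ℕ) : Subgroup (Wd (Fin 4) j → Perm (Fin 4)) :=
  ((FJ G j).subgroupOf (StJ G j)).map (labHom G j)

theorem mem_LJ {G : Subgroup (Portrait (Fin 4))} {j : ℕ} {k : Wd (Fin 4) j → Perm (Fin 4)}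
    (hk : k ∈ LJ G j) : ∃ e ∈ FJ G j, e.lab j = k := by
  obtain ⟨e, he, rfl⟩ := hk
  exact ⟨e.1, he, rfl⟩

theorem pow_mem_LJ {G : Subgroup (Portrait (Fin 4))} {j : ℕ} {k : Wd (Fin 4) j → Perm (Fin 4)}
    (hk : k ∈ KK G j) : k ^ 4 ∈ LJ G j := by
  obtain ⟨a, ha, ha1, rfl⟩ := hk
  have h1 : a ∈ StJ G j := ⟨ha, lev_eq_one_of a j ha1⟩
  refine ⟨(⟨a, h1⟩ : StJ G j) ^ 4, ?_, ?_⟩
  · show ((⟨a, h1⟩ : StJ G j) ^ 4 : StJ G j).1 ∈ FJ G j
    exact Subgroup.subset_closure ⟨a, h1, rfl⟩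
  · rw [map_pow]; rfl

theorem klein_mem_LJ {G : Subgroup (Portrait (Fin 4))} {j : ℕ} (hV : V4full G j) (hS : Sep G j)
    {k : Wd (Fin 4) j → Perm (Fin 4)} (hk : ∀ w, sg (k w) = 0 ∧ th (k w) = 0) : k ∈ LJ G j := by
  apply Subgroup.pi_mem_of_mulSingle_mem
  intro w
  obtain ⟨k0, hk0, hk1, hk2⟩ := hS.1 w
  have h1 : Pi.mulSingle w (k w) ∈ KK G j := by
    apply hV
    intro u
    by_cases hu : u = w
    · subst hu; rw [Pi.mulSingle_eq_same]; exact hk u
    · rw [Pi.mulSingle_eq_of_ne hu]; exact ⟨sg_one, by decide⟩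
  have h2 : Pi.mulSingle w (k w) = (k0 ^ 4)⁻¹ * (k0 * Pi.mulSingle w (k w)) ^ 4 := by
    funext u
    rw [Pi.mul_apply, Pi.inv_apply, Pi.pow_apply, Pi.pow_apply, Pi.mul_apply]
    by_cases hu : u = w
    · subst hu
      rw [Pi.mulSingle_eq_same, four_eq _ (hk1 u) hk2, four_eq, inv_mul_cancel_left]
      · rw [sg_mul, hk1, (hk u).1, add_zero]
      · rw [th_mul, if_pos (hk1 u), (hk u).2, add_zero]; exact hk2
    · rw [Pi.mulSingle_eq_of_ne hu, mul_one, inv_mul_cancel]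
  rw [h2]
  exact mul_mem (inv_mem (pow_mem_LJ hk0)) (pow_mem_LJ (mul_mem hk0 h1))

theorem even_mem_LJ {G : Subgroup (Portrait (Fin 4))} {j : ℕ} (hV : V4full G j) (hS : Sep G j)
    {k : Wd (Fin 4) j → Perm (Fin 4)} (hk : k ∈ KK G j) (hk0 : ∀ w, sg (k w) = 0) : k ∈ LJ G j := by
  have h1 : k = (k ^ 3)⁻¹ * k ^ 4 := by group
  rw [h1]
  refine mul_mem (klein_mem_LJ hV hS ?_) (pow_mem_LJ hk)
  intro w
  exact cube_klein _ (hk0 w)

/-- Target. -/
theorem climb {G : Subgroup (Portrait (Fin 4))} (hV : ∀ j, V4full G j) (hS : ∀ j, Sep G j) {m i : ℕ}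
    (hred : ∀ i', 1 ≤ i' → i' ≤ i → Red G m i')
    (φ : Wd (Fin 4) (m + 1 + i) → ZMod 2) (c : Portrait (Fin 4) → Wd (Fin 4) (m + 1) → ZMod 2)
    (hc : ∀ g ∈ G, ∀ v, scoc (m + 1 + i) g v + φ v + φ (lev g (m + 1 + i) v) = c g (pre i v))
    {g : Portrait (Fin 4)} (hg : g ∈ G) (hg1 : lev g m = 1) (hg2 : lev (g * g) (m + 1) = 1) :
    ∃ g' ∈ G, lev g' (m + 1 + i) = 1 ∧ ∀ w, c g' w = c (g * g) w := by
  have key : ∀ t, t ≤ i → ∃ x ∈ DJ G m, lev x (m + 1 + t) = 1 ∧ ∀ w, c x w = c (g * g) w := by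
    intro t
    induction t with
    | zero =>
      intro _
      exact ⟨g * g, Subgroup.subset_closure ⟨g, ⟨hg, hg1⟩, rfl⟩, hg2, fun _ => rfl⟩
    | succ t ih =>
      intro ht
      obtain ⟨x, hx, hx1, hx2⟩ := ih (by omega)
      have hev : ∀ v : Wd (Fin 4) (m + 1 + t), sg (x.lab (m + 1 + t) v) = 0 := by
        have H : ∀ j, j = m + (t + 1) → lev x j = 1 → ∀ v : Wd (Fin 4) j, sg (x.lab j v) = 0 := by
          rintro _ rfl hx3 v
          exact even_DJ (hred (t + 1) (by omega) ht) hx hx3 v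
        exact H _ (by omega) hx1
      have hxG : x ∈ G := (DJ_le_StJ G m hx).1
      have hk : x.lab (m + 1 + t) ∈ KK G (m + 1 + t) := ⟨x, hxG, lab_eq_one_of_lev x _ hx1, rfl⟩
      obtain ⟨e, he, he1⟩ := mem_LJ (even_mem_LJ (hV _) (hS _) hk hev)
      have heS := FJ_le_StJ G _ he
      have heS1 : e ∈ StJ G (m + 1) := StJ_mono (by omega) heS
      refine ⟨x * e⁻¹, mul_mem hx (inv_mem (FJ_le_DJ (by omega) he)), ?_, ?_⟩
      · apply lev_eq_one_of
        intro j hj
        funext w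
        rcases Nat.lt_succ_iff_lt_or_eq.mp (show j < (m + 1 + t) + 1 by omega) with h | h
        · rw [mul_lab, inv_lab, lab_eq_one_of_lev x _ hx1 j h, lab_eq_one_of_lev e _ heS.2 j h]
          rfl
        · subst h
          rw [mul_lab, inv_lab, lev_inv, heS.2, he1]
          show x.lab _ w * (x.lab _ w)⁻¹ = 1
          rw [mul_inv_cancel]
      · intro w
        rw [coc_of hc hxG (inv_mem heS1), c_inv hc heS1, hx2]
        have h5 : c e w = 0 := by
          have h6 : e ∈ DJ G (m + 1) := FJ_le_DJ (by omega) he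
          exact c_DJ hc h6 w
        rw [h5, add_zero]
  obtain ⟨x, hx, hx1, hx2⟩ := key i le_rfl
  exact ⟨x, (DJ_le_StJ G m hx).1, hx1, hx2⟩

end Pool.Agent.Helper501.Haus.P3


namespace Pool.Agent.Helper501.Haus.P4

open Equiv Filter Topology

section InitPart

variable {X : Type}

/-- The letters of a word as a list. -/
def toL : {n : ℕ} → Wd X n → List X
  | 0, _ => []
  | _ + 1, q => toL (ini q) ++ [lst q]

theorem toL_sn {n : ℕ} (w : Wd X n) (x : X) : toL (sn w x) = toL w ++ [x] := rfl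

theorem toL_length {n : ℕ} (w : Wd X n) : (toL w).length = n := by
  induction n with
  | zero => rfl
  | succ n ih =>
    obtain ⟨w, x, rfl⟩ := exists_sn w
    rw [toL_sn, List.length_append, ih]; rfl

theorem toL_injective {n : ℕ} : Function.Injective (toL : Wd X n → List X) := by
  induction n with
  | zero => intro a b _; rfl
  | succ n ih =>
    intro a b h
    obtain ⟨a, x, rfl⟩ := exists_sn a
    obtain ⟨b, y, rfl⟩ := exists_sn b
    rw [toL_sn, toL_sn] at h
    have h1 := List.append_inj' h rfl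
    rw [ih h1.1, List.singleton_injective h1.2]

theorem toL_cons {n : ℕ} (x : X) (w : Wd X n) : toL (cons x n w) = x :: toL w := by
  induction n with
  | zero => rfl
  | succ n ih =>
    obtain ⟨w, y, rfl⟩ := exists_sn w
    rw [cons_sn, toL_sn, ih, toL_sn]; rfl

theorem toL_pre {m : ℕ} (i : ℕ) (v : Wd X (m + i)) : toL (pre i v) = (toL v).take m := by
  induction i with
  | zero =>
    show toL v = _
    rw [List.take_of_length_le (by rw [toL_length]; exact le_rfl)]
  | succ i ih =>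
    have h : toL (X := X) (n := m + (i + 1)) v = toL (ini (n := m + i) v) ++ [lst (n := m + i) v] := rfl
    rw [h, List.take_append_of_le_length (by rw [toL_length]; omega)]
    exact ih (ini v)

theorem pre_eq_iff {m : ℕ} (i : ℕ) (v v' : Wd X (m + i)) :
    pre i v = pre i v' ↔ (toL v).take m = (toL v').take m := by
  rw [← toL_pre, ← toL_pre]
  exact toL_injective.eq_iff.symm

theorem exists_pre' [Nonempty X] {m : ℕ} (i : ℕ) (w : Wd X m) : ∃ v : Wd X (m + i), pre i v = w := by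
  induction i with
  | zero => exact ⟨w, rfl⟩
  | succ i ih =>
    obtain ⟨v, hv⟩ := ih
    obtain ⟨x⟩ := (inferInstance : Nonempty X)
    exact ⟨sn v x, hv⟩

/-- Drop the first letter. -/
def tl : (n : ℕ) → Wd X (n + 1) → Wd X n
  | 0, _ => ()
  | n + 1, q => sn (tl n (ini q)) (lst q)

theorem tl_cons {n : ℕ} (x : X) (w : Wd X n) : tl n (cons x n w) = w := by
  induction n with
  | zero => rfl
  | succ n ih =>
    obtain ⟨w, y, rfl⟩ := exists_sn w
    rw [cons_sn]
    show sn (tl n (cons x n w)) y = _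
    rw [ih]

end InitPart

section RedPart

/-- List form of the reduction property. -/
def RedL (G : Subgroup (Portrait (Fin 4))) (n m : ℕ) : Prop :=
  ∃ φ : Wd (Fin 4) n → ZMod 2, ∀ g ∈ G, ∀ v v' : Wd (Fin 4) n, (toL v).take m = (toL v').take m →
    scoc n g v + φ v + φ (lev g n v) = scoc n g v' + φ v' + φ (lev g n v')

theorem redL_mono {G : Subgroup (Portrait (Fin 4))} {n m m' : ℕ} (h : RedL G n m) (hm : m ≤ m') :
    RedL G n m' := by
  obtain ⟨φ, hφ⟩ := h
  refine ⟨φ, fun g hg v v' hv => hφ g hg v v' ?_⟩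
  have := congrArg (List.take m) hv
  rwa [List.take_take, List.take_take, min_eq_left hm] at this

theorem redL_succ {G : Subgroup (Portrait (Fin 4))} (hG : SS G) {n m : ℕ} (h : RedL G n m) :
    RedL G (n + 1) (m + 1) := by
  obtain ⟨φ, hφ⟩ := h
  refine ⟨fun q => φ (tl n q), fun g hg v v' hv => ?_⟩
  obtain ⟨x, w, rfl⟩ := exists_cons n v
  obtain ⟨x', w', rfl⟩ := exists_cons n v'
  rw [toL_cons, toL_cons, List.take_succ_cons, List.take_succ_cons] at hv
  obtain ⟨h1, h2⟩ := List.cons_eq_cons.mp hv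
  subst h1
  have := hφ (sec g x) (hG g hg x) w w' h2
  simp only [lev_cons, tl_cons]
  exact this

theorem red_of_redL {G : Subgroup (Portrait (Fin 4))} {m i : ℕ} (h : RedL G (m + i) m) : Red G m i := by
  obtain ⟨φ, hφ⟩ := h
  choose e he using fun w : Wd (Fin 4) m => exists_pre' i w
  refine ⟨φ, fun g w => scoc (m + i) g (e w) + φ (e w) + φ (lev g (m + i) (e w)), fun g hg v => ?_⟩
  apply hφ g hg
  rw [← pre_eq_iff, he]

theorem redL_of_red {G : Subgroup (Portrait (Fin 4))} {m i : ℕ} (h : Red G m i) : RedL G (m + i) m := by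
  obtain ⟨φ, c, hc⟩ := h
  refine ⟨φ, fun g hg v v' hv => ?_⟩
  rw [hc g hg, hc g hg, (pre_eq_iff i v v').mpr hv]

end RedPart

end Pool.Agent.Helper501.Haus.P4

namespace Pool.Agent.Helper501.Haus.P4

open Equiv Filter Topology

section TRed

/-- Iterated dimension pattern. -/
inductive Up (d m e' : ℕ) : ℕ → ℕ → Prop
  | z : Up d m e' 0 e'
  | c {i e} : Up d m e' i e → Up d m e' (i + 1) e
  | s {i e} : Up d m e' i e → Up d m e' (i + 1) ((d - 1) * d ^ (m + i) + e)

/-- Descending through a pulled back cocycle. -/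
theorem descend {G : Subgroup (Portrait (Fin 4))} {m : ℕ} (hT : ∀ j, Trans G j) (hV : ∀ j, V4full G j)
    (hS : ∀ j, Sep G j) (c : Portrait (Fin 4) → Wd (Fin 4) m → ZMod 2) (hc : Coc G c) (i : ℕ)
    (T : Submodule (ZMod 3) (Wd (Fin 4) (m + i) → ZMod 3))
    (hTi : ∀ g ∈ G, ∀ f ∈ T, (fun v => sgn3 (c g (pre i v)) * f (lev g (m + i) v)) ∈ T) :
    ∃ T' : Submodule (ZMod 3) (Wd (Fin 4) m → ZMod 3), TInv G c T' ∧
      Up 4 m (Module.finrank (ZMod 3) T') i (Module.finrank (ZMod 3) T) := by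
  induction i with
  | zero => exact ⟨T, hTi, Up.z⟩
  | succ i ih =>
    rcases P1.tdich (hT (m + i)) (hV (m + i)) (hS (m + i)) c hc T hTi with h | h
    · have h1 : ∀ g ∈ G, ∀ f ∈ T.comap (pull (Fin 4) 3 (m + i)),
          (fun v => sgn3 (c g (pre i v)) * f (lev g (m + i) v)) ∈ T.comap (pull (Fin 4) 3 (m + i)) := by
        intro g hg f hf
        exact hTi g hg _ hf
      obtain ⟨T', hT', hU⟩ := ih _ h1
      refine ⟨T', hT', ?_⟩
      have e : Module.finrank (ZMod 3) (T.comap (pull (Fin 4) 3 (m + i))) = Module.finrank (ZMod 3) T := by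
        have h3 : (T.comap (pull (Fin 4) 3 (m + i))).map (pull (Fin 4) 3 (m + i)) = T := by
          rw [Submodule.map_comap_eq, inf_eq_right]
          intro f hf
          refine ⟨fun w => f (sn w 0), ?_⟩
          funext q
          obtain ⟨w, y, rfl⟩ := exists_sn q
          exact h f hf w 0 y
        have h4 := (Submodule.equivMapOfInjective _ (pull_injective (X := Fin 4) (p := 3) (m + i))
          (T.comap (pull (Fin 4) 3 (m + i)))).finrank_eq
        rw [h4, h3]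
        rfl
      rw [← e]
      exact Up.c hU
    · have h1 : ∀ g ∈ G, ∀ f ∈ T.map (sumLast (Fin 4) 3 (m + i)),
          (fun v => sgn3 (c g (pre i v)) * f (lev g (m + i) v)) ∈ T.map (sumLast (Fin 4) 3 (m + i)) := by
        rintro g hg _ ⟨f, hf, rfl⟩
        refine ⟨_, hTi g hg f hf, ?_⟩
        funext w
        rw [sumLast_apply, sumLast_apply, Finset.mul_sum]
        exact Fintype.sum_equiv (g.lab (m + i) w) _ _ (fun x => rfl)
      obtain ⟨T', hT', hU⟩ := ih _ h1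
      refine ⟨T', hT', ?_⟩
      have h3 := finrank_split (sumLast (Fin 4) 3 (m + i)) T
      rw [inf_eq_right.mpr h, finrank_ker_sumLast, Fintype.card_fin] at h3
      have h4 : Module.finrank (ZMod 3) T = (4 - 1) * 4 ^ (m + i) +
          Module.finrank (ZMod 3) (T.map (sumLast (Fin 4) 3 (m + i))) := h3.trans (Nat.add_comm _ _)
      rw [h4]
      exact Up.s hU

theorem coc_of_gauge {G : Subgroup (Portrait (Fin 4))} {m i : ℕ} {φ : Wd (Fin 4) (m + i) → ZMod 2}
    {c : Portrait (Fin 4) → Wd (Fin 4) m → ZMod 2}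
    (hc : ∀ g ∈ G, ∀ v, scoc (m + i) g v + φ v + φ (lev g (m + i) v) = c g (pre i v)) : Coc G c := by
  intro g hg h hh w
  obtain ⟨v, rfl⟩ := exists_pre' i w
  rw [← pre_lev, ← hc g hg, ← hc h hh, ← hc (g * h) (mul_mem hg hh), coc_scoc G (m + i) g hg h hh v,
    lev_mul, Perm.mul_apply]
  have h2 : ∀ a : ZMod 2, a + a = 0 := by decide
  have := h2 (φ (lev h (m + i) v))
  linear_combination (-1 : ZMod 2) * this

/-- Multiplication by a sign function. -/
def sgnMul {n : ℕ} (φ : Wd (Fin 4) n → ZMod 2) : (Wd (Fin 4) n → ZMod 3) ≃ₗ[ZMod 3] (Wd (Fin 4) n → ZMod 3) where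
  toFun f v := sgn3 (φ v) * f v
  invFun f v := sgn3 (φ v) * f v
  left_inv f := by funext v; show sgn3 (φ v) * (sgn3 (φ v) * f v) = f v; rw [← mul_assoc, sgn3_mul_self, one_mul]
  right_inv f := by funext v; show sgn3 (φ v) * (sgn3 (φ v) * f v) = f v; rw [← mul_assoc, sgn3_mul_self, one_mul]
  map_add' f g := by funext v; exact mul_add _ _ _
  map_smul' a f := by
    funext v
    show sgn3 (φ v) * (a * f v) = a * (sgn3 (φ v) * f v)
    ring

/-- Structure of the rotation vectors under a gauge. -/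
theorem TT_descend {G : Subgroup (Portrait (Fin 4))} {m i : ℕ} (hT : ∀ j, Trans G j) (hV : ∀ j, V4full G j)
    (hS : ∀ j, Sep G j) {φ : Wd (Fin 4) (m + i) → ZMod 2} {c : Portrait (Fin 4) → Wd (Fin 4) m → ZMod 2}
    (hc : ∀ g ∈ G, ∀ v, scoc (m + i) g v + φ v + φ (lev g (m + i) v) = c g (pre i v)) :
    ∃ T' : Submodule (ZMod 3) (Wd (Fin 4) m → ZMod 3), TInv G c T' ∧
      Up 4 m (Module.finrank (ZMod 3) T') i (Module.finrank (ZMod 3) (TT G (m + i))) := by
  have h1 : ∀ g ∈ G, ∀ f ∈ (TT G (m + i)).comap (sgnMul φ).toLinearMap,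
      (fun v => sgn3 (c g (pre i v)) * f (lev g (m + i) v)) ∈ (TT G (m + i)).comap (sgnMul φ).toLinearMap := by
    intro g hg f hf
    have := tinv_TT G (m + i) g hg _ hf
    show (fun v => sgn3 (φ v) * (sgn3 (c g (pre i v)) * f (lev g (m + i) v))) ∈ TT G (m + i)
    convert this using 1
    funext v
    show _ = sgn3 (scoc (m + i) g v) * (sgn3 (φ (lev g (m + i) v)) * f (lev g (m + i) v))
    rw [← mul_assoc, ← mul_assoc, ← sgn3_add, ← sgn3_add, ← hc g hg v]
    congr 2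
    have h2 : ∀ a : ZMod 2, a + a = 0 := by decide
    have := h2 (φ v)
    linear_combination this
  obtain ⟨T', hT', hU⟩ := descend hT hV hS c (coc_of_gauge hc) i _ h1
  refine ⟨T', hT', ?_⟩
  have h3 : Module.finrank (ZMod 3) ((TT G (m + i)).comap (sgnMul φ).toLinearMap) =
      Module.finrank (ZMod 3) (TT G (m + i)) := by
    rw [Submodule.comap_equiv_eq_map_symm]
    exact LinearEquiv.finrank_map_eq _ _
  rw [h3] at hU
  exact hU

/-- Iterated pull back. -/
def preL (m i : ℕ) : (Wd (Fin 4) m → ZMod 2) →ₗ[ZMod 2] (Wd (Fin 4) (m + i) → ZMod 2) where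
  toFun f v := f (pre i v)
  map_add' _ _ := rfl
  map_smul' _ _ := rfl

theorem preL_injective (m i : ℕ) : Function.Injective (preL m i) := by
  intro f g h
  funext w
  obtain ⟨v, rfl⟩ := exists_pre' i w
  exact congrFun h v

/-- Structure of the sign vectors under a gauge. -/
theorem MM_descend {G : Subgroup (Portrait (Fin 4))} {m i : ℕ} {φ : Wd (Fin 4) (m + i) → ZMod 2}
    {c : Portrait (Fin 4) → Wd (Fin 4) m → ZMod 2}
    (hc : ∀ g ∈ G, ∀ v, scoc (m + i) g v + φ v + φ (lev g (m + i) v) = c g (pre i v)) :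
    ∃ M' : Submodule (ZMod 2) (Wd (Fin 4) m → ZMod 2), Inv G M' ∧
      Module.finrank (ZMod 2) (MM G (m + i)) = Module.finrank (ZMod 2) M' ∧
      ∀ f, f ∈ M' ↔ ∃ g ∈ G, lev g (m + i) = 1 ∧ f = c g := by
  have key : ∀ g ∈ G, lev g (m + i) = 1 → ∀ v, sg (g.lab (m + i) v) = c g (pre i v) := by
    intro g hg h1 v
    rw [← hc g hg v, h1]
    have h2 : ∀ a : ZMod 2, a + a = 0 := by decide
    show sg (g.lab (m + i) v) = sg (g.lab (m + i) v) + φ v + φ v
    rw [add_assoc, h2, add_zero]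
  have hmem : ∀ f, f ∈ (MM G (m + i)).comap (preL m i) ↔ ∃ g ∈ G, lev g (m + i) = 1 ∧ f = c g := by
    intro f
    constructor
    · rintro ⟨k, ⟨g, hg, h1, rfl⟩, hf⟩
      have h2 := lev_eq_one_of g _ h1
      refine ⟨g, hg, h2, ?_⟩
      funext w
      obtain ⟨v, rfl⟩ := exists_pre' i w
      rw [← key g hg h2 v]
      exact congrFun hf v
    · rintro ⟨g, hg, h1, rfl⟩
      refine ⟨g.lab (m + i), ⟨g, hg, lab_eq_one_of_lev g _ h1, rfl⟩, ?_⟩
      funext v
      exact (key g hg h1 v).symm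
  refine ⟨(MM G (m + i)).comap (preL m i), ?_, ?_, hmem⟩
  · intro g hg f hf
    have := inv_MM G (m + i) g hg _ hf
    show (fun v => f (lev g m (pre i v))) ∈ MM G (m + i)
    simp only [← pre_lev]
    exact this
  · have h3 : ((MM G (m + i)).comap (preL m i)).map (preL m i) = MM G (m + i) := by
      rw [Submodule.map_comap_eq, inf_eq_right]
      rintro f ⟨k, ⟨g, hg, h1, rfl⟩, rfl⟩
      have h2 := lev_eq_one_of g _ h1
      exact ⟨c g, by funext v; exact (key g hg h2 v).symm⟩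
    have h4 := (Submodule.equivMapOfInjective _ (preL_injective m i)
      ((MM G (m + i)).comap (preL m i))).finrank_eq
    rw [h4, h3]

end TRed

end Pool.Agent.Helper501.Haus.P4

namespace Pool.Agent.Helper501.Haus.P4

open Equiv Filter Topology

section CardFour

theorem card_KK_four {G : Subgroup (Portrait (Fin 4))} {n : ℕ} (hV : V4full G n) :
    Nat.card (KK G n) = 2 ^ Module.finrank (ZMod 2) (MM G n) * (3 ^ Module.finrank (ZMod 3) (TT G n) * 4 ^ 4 ^ n) := by
  have hcM : Nat.card (MM G n) = 2 ^ Module.finrank (ZMod 2) (MM G n) := by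
    rw [Module.natCard_eq_pow_finrank (K := ZMod 2), Nat.card_zmod]
  have hcT : Nat.card (TT G n) = 3 ^ Module.finrank (ZMod 3) (TT G n) := by
    rw [Module.natCard_eq_pow_finrank (K := ZMod 3), Nat.card_zmod]
  have hcU : Nat.card (Wd (Fin 4) n → {σ : Perm (Fin 4) // sg σ = 0 ∧ th σ = 0}) = 4 ^ 4 ^ n := by
    rw [Nat.card_fun, Nat.card_eq_fintype_card, klein_card, Nat.card_eq_fintype_card, card_Wd,
      Fintype.card_fin]
  apply le_antisymm
  · refine (C1.card_KK_le G n).trans ?_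
    rw [hcM, hcT]
    gcongr
    exact C1.card_U_le G n
  · rw [← hcM, ← hcT, ← hcU, ← Nat.card_prod, ← Nat.card_prod]
    have hM : ∀ m : MM G n, ∃ k, k ∈ KK G n ∧ m.1 = fun w => sg (k w) := fun m => m.2
    have hT : ∀ t : TT G n, ∃ k, k ∈ KK G n ∧ (∀ w, sg (k w) = 0) ∧ t.1 = fun w => th (k w) :=
      fun t => t.2
    choose km hkm1 hkm2 using hM
    choose kt hkt1 hkt2 hkt3 using hT
    apply Nat.card_le_card_of_injective
      (fun p : MM G n × TT G n × (Wd (Fin 4) n → {σ : Perm (Fin 4) // sg σ = 0 ∧ th σ = 0}) =>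
        (⟨km p.1 * (kt p.2.1 * fun w => (p.2.2 w).1), mul_mem (hkm1 _) (mul_mem (hkt1 _)
          (hV _ fun w => (p.2.2 w).2))⟩ : KK G n))
    rintro ⟨m, t, u⟩ ⟨m', t', u'⟩ h
    have h0 : ∀ w, km m w * (kt t w * (u w).1) = km m' w * (kt t' w * (u' w).1) :=
      fun w => congrFun (congrArg Subtype.val h) w
    have h1 : m = m' := by
      apply Subtype.ext
      rw [hkm2 m, hkm2 m']
      funext w
      have h2 := congrArg sg (h0 w)
      rw [sg_mul, sg_mul, hkt2, (u w).2.1, sg_mul, sg_mul, hkt2, (u' w).2.1] at h2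
      simpa using h2
    subst h1
    have h3 : ∀ w, kt t w * (u w).1 = kt t' w * (u' w).1 := fun w => mul_left_cancel (h0 w)
    have h4 : t = t' := by
      apply Subtype.ext
      rw [hkt3 t, hkt3 t']
      funext w
      have h2 := congrArg th (h3 w)
      rw [th_mul, th_mul, if_pos (hkt2 _ _), if_pos (hkt2 _ _), (u w).2.2, (u' w).2.2, add_zero, add_zero] at h2
      exact h2
    subst h4
    have h5 : u = u' := by
      funext w
      exact Subtype.ext (mul_left_cancel (h3 w))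
    rw [h5]

/-- Deviation from `log 4`. -/
theorem aa_four {G : Subgroup (Portrait (Fin 4))} {n : ℕ} (hV : V4full G n) :
    aa G n - Real.log 4 = ((Module.finrank (ZMod 2) (MM G n) : ℝ) / 4 ^ n) * Real.log 2 +
      ((Module.finrank (ZMod 3) (TT G n) : ℝ) / 4 ^ n) * Real.log 3 := by
  unfold aa
  rw [card_KK_four hV]
  push_cast
  rw [Real.log_mul (by positivity) (by positivity), Real.log_mul (by positivity) (by positivity),
    Real.log_pow, Real.log_pow, Real.log_pow, Fintype.card_fin]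
  push_cast
  have : (4 : ℝ) ^ n ≠ 0 := by positivity
  field_simp
  ring

end CardFour

section Close

theorem ext_cons {a : ℕ → Fin 4} (ha : Ext a) {x : Fin 4} (hx : x.val = 0 ∨ x.val + 1 = 4) :
    Ext (fun j => if j = 0 then x else a (j - 1)) := by
  intro j
  by_cases hj : j = 0
  · simp only [hj, if_true]; exact hx
  · simp only [hj, if_false]; exact ha _

/-- The digits of an iterated dimension pattern. -/
theorem up_digits {m e' i e : ℕ} (h : Up 4 m e' i e) : ∃ b : ℕ → Fin 4, Ext b ∧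
    (e : ℝ) / 4 ^ (m + i) = ∑ j ∈ Finset.range i, Real.ofDigitsTerm b j + (1 / 4) ^ i * ((e' : ℝ) / 4 ^ m) := by
  induction h with
  | z => exact ⟨fun _ => 0, fun _ => Or.inl rfl, by simp⟩
  | @c i e _ ih =>
    obtain ⟨b, hb, h⟩ := ih
    refine ⟨_, ext_cons hb (x := 0) (Or.inl rfl), ?_⟩
    rw [Finset.sum_range_succ']
    simp only [Real.ofDigitsTerm, if_true, Nat.add_eq_zero_iff, one_ne_zero, and_false, if_false,
      Nat.add_sub_cancel] at h ⊢
    have h2 : (e : ℝ) / 4 ^ (m + (i + 1)) = (1 / 4) * ((e : ℝ) / 4 ^ (m + i)) := by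
      rw [← add_assoc, pow_succ]; field_simp
    rw [h2, h, mul_add, Finset.mul_sum]
    have h3 : ∀ j ∈ Finset.range i, (1 / 4 : ℝ) * ((b j).val * ((4 : ℕ) : ℝ)⁻¹ ^ (j + 1)) =
        (b j).val * ((4 : ℕ) : ℝ)⁻¹ ^ (j + 1 + 1) := by
      intro j _
      push_cast
      ring
    have h4 : ∀ (y : ℝ) (k : ℕ), (y ^ k)⁻¹ = y⁻¹ ^ k := fun y k => (inv_pow y k).symm
    simp only [h4]
    rw [Finset.sum_congr rfl h3]
    simp
    ring
  | @s i e _ ih =>
    obtain ⟨b, hb, h⟩ := ih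
    refine ⟨_, ext_cons hb (x := 3) (Or.inr rfl), ?_⟩
    rw [Finset.sum_range_succ']
    simp only [Real.ofDigitsTerm, if_true, Nat.add_eq_zero_iff, one_ne_zero, and_false, if_false,
      Nat.add_sub_cancel] at h ⊢
    have h2 : (((4 - 1) * 4 ^ (m + i) + e : ℕ) : ℝ) / 4 ^ (m + (i + 1)) =
        3 / 4 + (1 / 4) * ((e : ℝ) / 4 ^ (m + i)) := by
      rw [← add_assoc, pow_succ]; push_cast; field_simp
    rw [h2, h, mul_add, Finset.mul_sum]
    have h3 : ∀ j ∈ Finset.range i, (1 / 4 : ℝ) * ((b j).val * ((4 : ℕ) : ℝ)⁻¹ ^ (j + 1)) =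
        (b j).val * ((4 : ℕ) : ℝ)⁻¹ ^ (j + 1 + 1) := by
      intro j _
      push_cast
      ring
    have h4 : ∀ (y : ℝ) (k : ℕ), (y ^ k)⁻¹ = y⁻¹ ^ k := fun y k => (inv_pow y k).symm
    simp only [h4]
    rw [Finset.sum_congr rfl h3]
    have h5 : (((3 : Fin 4).val : ℕ) : ℝ) = 3 := by norm_num
    rw [h5]
    push_cast
    ring

/-- Gluing digit sequences. -/
def glue (i : ℕ) (b b' : ℕ → Fin 4) : ℕ → Fin 4 := fun j => if j < i then b j else b' (j - i)

theorem ext_glue {i : ℕ} {b b' : ℕ → Fin 4} (hb : Ext b) (hb' : Ext b') : Ext (glue i b b') := by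
  intro j
  unfold glue
  split_ifs
  · exact hb _
  · exact hb' _

theorem ofDigits_glue (i : ℕ) (b b' : ℕ → Fin 4) :
    Real.ofDigits (glue i b b') = ∑ j ∈ Finset.range i, Real.ofDigitsTerm b j + (1 / 4) ^ i * Real.ofDigits b' := by
  rw [Real.ofDigits_eq_sum_add_ofDigits _ i]
  congr 1
  · apply Finset.sum_congr rfl
    intro j hj
    rw [Finset.mem_range] at hj
    simp [Real.ofDigitsTerm, glue, hj]
  · have : (fun k => glue i b b' (k + i)) = b' := by
      funext k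
      simp [glue]
    rw [this]
    push_cast
    rw [one_div, inv_pow]

theorem ofDigits_zero : Real.ofDigits (fun _ : ℕ => (0 : Fin 4)) = 0 := by
  simp [Real.ofDigits, Real.ofDigitsTerm]

theorem ofDigits_three : Real.ofDigits (fun _ : ℕ => (3 : Fin 4)) = 1 :=
  Real.ofDigits_const_last_eq_one 3

theorem isClosed_Adm : IsClosed Adm := by
  have h1 : IsClosed {p : (ℕ → Fin 4) × (ℕ → Fin 4) | Ext p.1 ∧ Ext p.2 ∧
      ∀ i j, i ≤ j → (p.1 i).val ≠ 0 → p.2 j = p.2 i} := by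
    have h0 : {p : (ℕ → Fin 4) × (ℕ → Fin 4) | Ext p.1 ∧ Ext p.2 ∧
      ∀ i j, i ≤ j → (p.1 i).val ≠ 0 → p.2 j = p.2 i} =
      (⋂ j, (fun p : (ℕ → Fin 4) × (ℕ → Fin 4) => p.1 j) ⁻¹' {x | x.val = 0 ∨ x.val + 1 = 4}) ∩
      ((⋂ j, (fun p : (ℕ → Fin 4) × (ℕ → Fin 4) => p.2 j) ⁻¹' {x | x.val = 0 ∨ x.val + 1 = 4}) ∩
      (⋂ i, ⋂ j, (fun p : (ℕ → Fin 4) × (ℕ → Fin 4) => (p.1 i, p.2 j, p.2 i)) ⁻¹'
        {x | i ≤ j → x.1.val ≠ 0 → x.2.1 = x.2.2})) := by
      ext p
      simp [Ext]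
    rw [h0]
    refine IsClosed.inter ?_ (IsClosed.inter ?_ ?_)
    · exact isClosed_iInter fun j => IsClosed.preimage (by fun_prop) (isClosed_discrete _)
    · exact isClosed_iInter fun j => IsClosed.preimage (by fun_prop) (isClosed_discrete _)
    · exact isClosed_iInter fun i => isClosed_iInter fun j =>
        IsClosed.preimage (by fun_prop) (isClosed_discrete _)
  have h2 : Adm = (fun p : (ℕ → Fin 4) × (ℕ → Fin 4) =>
      Real.ofDigits p.1 * Real.log 2 + Real.ofDigits p.2 * Real.log 3) ''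
      {p : (ℕ → Fin 4) × (ℕ → Fin 4) | Ext p.1 ∧ Ext p.2 ∧
      ∀ i j, i ≤ j → (p.1 i).val ≠ 0 → p.2 j = p.2 i} := by
    ext z
    constructor
    · rintro ⟨a, b, ha, hb, hab, rfl⟩
      exact ⟨(a, b), ⟨ha, hb, hab⟩, rfl⟩
    · rintro ⟨⟨a, b⟩, ⟨ha, hb, hab⟩, rfl⟩
      exact ⟨a, b, ha, hb, hab, rfl⟩
  rw [h2]
  refine (h1.isCompact.image ?_).isClosed
  exact ((Real.continuous_ofDigits.comp continuous_fst).mul_const _).add
    ((Real.continuous_ofDigits.comp continuous_snd).mul_const _)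

theorem isClosed_Exo (q : ℕ) : IsClosed (Exo q) := by
  have h1 : IsClosed {b : ℕ → Fin 4 | Ext b} := by
    have h0 : {b : ℕ → Fin 4 | Ext b} =
        ⋂ j, (fun b : ℕ → Fin 4 => b j) ⁻¹' {x : Fin 4 | x.val = 0 ∨ x.val + 1 = 4} := by
      ext a; simp [Ext]
    rw [h0]
    exact isClosed_iInter fun j => IsClosed.preimage (continuous_apply j) (isClosed_discrete _)
  have h2 : Exo q = (fun b : ℕ → Fin 4 => (∑ j ∈ Finset.range q, Real.ofDigitsTerm b j) * Real.log 3 +
      (1 / 4) ^ q * (Real.log 3 / 2 + Real.log 2 / 4)) '' {b : ℕ → Fin 4 | Ext b} := by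
    ext z
    constructor
    · rintro ⟨b, hb, rfl⟩; exact ⟨b, hb, rfl⟩
    · rintro ⟨b, hb, rfl⟩; exact ⟨b, hb, rfl⟩
  rw [h2]
  refine (h1.isCompact.image ?_).isClosed
  simp only [Real.ofDigitsTerm]
  fun_prop

end Close

end Pool.Agent.Helper501.Haus.P4

namespace Pool.Agent.Helper501.Haus.P4

open Equiv Filter Topology

section Final4

variable {G : Subgroup (Portrait (Fin 4))}

theorem finrank_le_four {p m : ℕ} [Fact p.Prime] (M : Submodule (ZMod p) (Wd (Fin 4) m → ZMod p)) :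
    (Module.finrank (ZMod p) M : ℝ) / 4 ^ m ≤ 1 := by
  have h := Submodule.finrank_le M
  rw [finrank_fun, Fintype.card_fin] at h
  rw [div_le_one (by positivity)]
  exact_mod_cast h

theorem closeI (hT : ∀ j, Trans G j) (hV : ∀ j, V4full G j) (hS : ∀ j, Sep G j) {m i : ℕ}
    (h : Red G m i) : ∃ z ∈ Adm, |aa G (m + i) - Real.log 4 - z| ≤ (1 / 4) ^ i * (Real.log 2 + Real.log 3) := by
  obtain ⟨φ, c, hc⟩ := h
  obtain ⟨T', _, hU⟩ := TT_descend hT hV hS hc
  obtain ⟨M', _, hM, _⟩ := MM_descend hc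
  obtain ⟨b, hb, hbe⟩ := up_digits hU
  have hl2 : 0 ≤ Real.log 2 := Real.log_nonneg (by norm_num)
  have hl3 : 0 ≤ Real.log 3 := Real.log_nonneg (by norm_num)
  refine ⟨Real.ofDigits (fun _ => (0 : Fin 4)) * Real.log 2 +
    Real.ofDigits (glue i b fun _ => 0) * Real.log 3, ⟨_, _, fun _ => Or.inl rfl,
      ext_glue hb fun _ => Or.inl rfl, fun _ _ _ h => absurd rfl h, rfl⟩, ?_⟩
  rw [aa_four (hV (m + i)), ofDigits_glue, ofDigits_zero, hM, hbe]
  have h1 : (Module.finrank (ZMod 2) M' : ℝ) / 4 ^ (m + i) = (1 / 4) ^ i * ((Module.finrank (ZMod 2) M' : ℝ) / 4 ^ m) := by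
    rw [pow_add, one_div_pow]; field_simp
  rw [h1]
  have h2 := finrank_le_four M'
  have h3 := finrank_le_four T'
  have h4 : 0 ≤ (Module.finrank (ZMod 2) M' : ℝ) / 4 ^ m := by positivity
  have h5 : 0 ≤ (Module.finrank (ZMod 3) T' : ℝ) / 4 ^ m := by positivity
  have h6 : (0 : ℝ) ≤ (1 / 4) ^ i := by positivity
  have e : (1 / 4 : ℝ) ^ i * ((Module.finrank (ZMod 2) M' : ℝ) / 4 ^ m) * Real.log 2 +
      (∑ j ∈ Finset.range i, Real.ofDigitsTerm b j + (1 / 4) ^ i * ((Module.finrank (ZMod 3) T' : ℝ) / 4 ^ m)) *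
        Real.log 3 - (0 * Real.log 2 + (∑ j ∈ Finset.range i, Real.ofDigitsTerm b j + (1 / 4) ^ i * 0) * Real.log 3) =
      (1 / 4 : ℝ) ^ i * (((Module.finrank (ZMod 2) M' : ℝ) / 4 ^ m) * Real.log 2 +
        ((Module.finrank (ZMod 3) T' : ℝ) / 4 ^ m) * Real.log 3) := by ring
  rw [e, abs_of_nonneg (by positivity)]
  apply mul_le_mul_of_nonneg_left _ h6
  nlinarith

/-- A value which is close to `Adm` because of digits. -/
theorem adm_close {n i k : ℕ} {a' b b' : ℕ → Fin 4} (ha' : Ext a') (hb : Ext b) (hb' : Ext b')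
    (hik : i ≤ k) (hconst : ∀ j j', k ≤ i + j → k ≤ i + j' → b' j = b' j') {eM eT : ℝ} {δ : ℝ}
    (hM : |eM - (1 / 4) ^ k * Real.ofDigits a'| ≤ δ)
    (hT : eT = ∑ j ∈ Finset.range i, Real.ofDigitsTerm b j + (1 / 4) ^ i * Real.ofDigits b') :
    ∃ z ∈ Adm, |eM * Real.log 2 + eT * Real.log 3 - z| ≤ δ * Real.log 2 := by
  have hl2 : 0 ≤ Real.log 2 := Real.log_nonneg (by norm_num)
  refine ⟨Real.ofDigits (glue k (fun _ => 0) a') * Real.log 2 + Real.ofDigits (glue i b b') * Real.log 3,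
    ⟨_, _, ext_glue (fun _ => Or.inl rfl) ha', ext_glue hb hb', ?_, rfl⟩, ?_⟩
  · intro s t hst hs
    have hks : k ≤ s := by
      by_contra hlt
      apply hs
      unfold glue
      rw [if_pos (by omega)]; rfl
    unfold glue
    rw [if_neg (by omega), if_neg (by omega)]
    exact hconst _ _ (by omega) (by omega)
  · rw [ofDigits_glue, ofDigits_glue, hT]
    have h0 : ∑ j ∈ Finset.range k, Real.ofDigitsTerm (fun _ => (0 : Fin 4)) j = 0 := by
      apply Finset.sum_eq_zero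
      intro j _
      simp [Real.ofDigitsTerm]
    rw [h0]
    have e : eM * Real.log 2 + (∑ j ∈ Finset.range i, Real.ofDigitsTerm b j + (1 / 4) ^ i * Real.ofDigits b') *
        Real.log 3 - ((0 + (1 / 4) ^ k * Real.ofDigits a') * Real.log 2 +
        (∑ j ∈ Finset.range i, Real.ofDigitsTerm b j + (1 / 4) ^ i * Real.ofDigits b') * Real.log 3) =
        (eM - (1 / 4) ^ k * Real.ofDigits a') * Real.log 2 := by ring
    rw [e, abs_mul, abs_of_nonneg hl2]
    exact mul_le_mul_of_nonneg_right hM hl2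

theorem closeII (hT : ∀ j, Trans G j) (hV : ∀ j, V4full G j) (hS : ∀ j, Sep G j) {m i : ℕ}
    (h : Red G (m + 1) i) (hlow : ∀ i', 1 ≤ i' → i' ≤ i → Red G m i') (hno : ¬ RedL G (m + 1 + i) m) :
    ∃ z ∈ Adm ∪ Exo i, |aa G (m + 1 + i) - Real.log 4 - z| ≤ (1 / 4) ^ m * Real.log 2 := by
  obtain ⟨φ, c, hc⟩ := h
  have hcoc := coc_of_gauge hc
  obtain ⟨T', hTi, hU⟩ := TT_descend hT hV hS hc
  obtain ⟨M', hMi, hM, hMmem⟩ := MM_descend hc
  obtain ⟨b, hb, hbe⟩ := up_digits hU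
  have hD : ∀ j, Dich 2 G j := fun j => C2.dich_four (hT j) (hV j) (hS j)
  have hl2 : 0 ≤ Real.log 2 := Real.log_nonneg (by norm_num)
  have h4 : (0 : ℝ) < (1 / 4) ^ m := by positivity
  rw [aa_four (hV (m + 1 + i)), hM]
  have hMd : (Module.finrank (ZMod 2) M' : ℝ) / 4 ^ (m + 1 + i) =
      (1 / 4) ^ i * ((Module.finrank (ZMod 2) M' : ℝ) / 4 ^ (m + 1)) := by
    rw [pow_add _ (m + 1) i, one_div_pow]; field_simp
  -- the sign space when it is constant in the last letter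
  have hlast : (∀ g ∈ G, lev g (m + 1) = 1 → ∀ w x y, c g (sn w x) = c g (sn w y)) →
      ∃ M'' : Submodule (ZMod 2) (Wd (Fin 4) m → ZMod 2), Inv G M'' ∧ M''.map (pull (Fin 4) 2 m) = M' ∧
        Module.finrank (ZMod 2) M' = Module.finrank (ZMod 2) M'' ∧
        M'' = M'.comap (pull (Fin 4) 2 m) := by
    intro hc1
    have h3 : (M'.comap (pull (Fin 4) 2 m)).map (pull (Fin 4) 2 m) = M' := by
      rw [Submodule.map_comap_eq, inf_eq_right]
      intro f hf
      obtain ⟨g, hg, hg1, rfl⟩ := (hMmem f).mp hf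
      have hg2 : lev g (m + 1) = 1 :=
        lev_eq_one_of g _ fun j hj => lab_eq_one_of_lev g _ hg1 j (by omega)
      refine ⟨fun w => c g (sn w 0), ?_⟩
      funext q
      obtain ⟨w, y, rfl⟩ := exists_sn q
      exact hc1 g hg hg2 w 0 y
    refine ⟨M'.comap (pull (Fin 4) 2 m), inv_comap_pull hMi, h3, ?_, rfl⟩
    have h5 := (Submodule.equivMapOfInjective _ (pull_injective (X := Fin 4) (p := 2) m)
      (M'.comap (pull (Fin 4) 2 m))).finrank_eq
    rw [h5, h3]
  rcases P2.terminal (hT m) (hV m) (hS m) (hD m) c hcoc T' hTi with hA | hB | hC | hE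
  · -- all or nothing
    have hdg := dg_finrank (m + 1) (fun j _ => hD j) M' hMi
    rw [Fintype.card_fin] at hdg
    obtain ⟨_, ⟨a', ha', rfl⟩, hca⟩ := dg_close (by norm_num) hdg
    have h1 : |(Module.finrank (ZMod 2) M' : ℝ) / 4 ^ (m + 1 + i) - (1 / 4) ^ i * Real.ofDigits a'| ≤ (1 / 4) ^ m := by
      rw [hMd, ← mul_sub, abs_mul, abs_of_pos (by positivity : (0 : ℝ) < (1 / 4) ^ i)]
      have h2 : (1 / 4 : ℝ) ^ i ≤ 1 := pow_le_one₀ (by norm_num) (by norm_num)
      push_cast at hca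
      have h3 : (1 : ℝ) / 4 ^ (m + 1) ≤ (1 / 4) ^ m := by
        rw [one_div_pow, pow_succ]
        apply one_div_le_one_div_of_le (by positivity)
        nlinarith [pow_pos (show (0 : ℝ) < 4 by norm_num) m]
      refine le_trans (mul_le_mul h2 hca (abs_nonneg _) (by norm_num)) ?_
      rw [one_mul]; exact h3
    rcases hA with hA | hA
    · obtain ⟨z, hz, hz2⟩ := adm_close (n := 0) ha' hb (b' := fun _ => 0) (fun _ => Or.inl rfl) le_rfl
        (fun _ _ _ _ => rfl) h1 (eT := (Module.finrank (ZMod 3) (TT G (m + 1 + i)) : ℝ) / 4 ^ (m + 1 + i)) (by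
          rw [hbe, hA, finrank_bot, ofDigits_zero]; simp)
      exact ⟨z, Or.inl hz, hz2⟩
    · obtain ⟨z, hz, hz2⟩ := adm_close (n := 0) ha' hb (b' := fun _ => 3) (fun _ => Or.inr rfl) le_rfl
        (fun _ _ _ _ => rfl) h1 (eT := (Module.finrank (ZMod 3) (TT G (m + 1 + i)) : ℝ) / 4 ^ (m + 1 + i)) (by
          rw [hbe, hA, finrank_top, ofDigits_three, finrank_fun, Fintype.card_fin]
          push_cast
          rw [div_self (by positivity)])
      exact ⟨z, Or.inl hz, hz2⟩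
  · -- gauge: contradiction
    exfalso
    apply hno
    obtain ⟨ψ, hψ⟩ := hB
    refine ⟨fun v => φ v + ψ (pre i v), fun g hg v v' hv => ?_⟩
    have key : ∀ v : Wd (Fin 4) (m + 1 + i), scoc (m + 1 + i) g v + (φ v + ψ (pre i v)) +
        (φ (lev g (m + 1 + i) v) + ψ (pre i (lev g (m + 1 + i) v))) =
        c g (pre i v) + ψ (pre i v) + ψ (lev g (m + 1) (pre i v)) := by
      intro v
      rw [pre_lev, ← hc g hg v]; ring
    have h1 : ini (pre i v) = ini (pre i v') := by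
      have e1 := (pre_eq_iff (m := m) 1 (pre i v) (pre i v')).mpr (by
        have e2 := toL_pre i v
        have e3 := toL_pre i v'
        show List.take m (toL (pre i v)) = List.take m (toL (pre i v'))
        rw [e2, e3, List.take_take, List.take_take, min_eq_left (by omega)]
        exact hv)
      exact e1
    show scoc (m + 1 + i) g v + (φ v + ψ (pre i v)) +
        (φ (lev g (m + 1 + i) v) + ψ (pre i (lev g (m + 1 + i) v))) =
      scoc (m + 1 + i) g v' + (φ v' + ψ (pre i v')) +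
        (φ (lev g (m + 1 + i) v') + ψ (pre i (lev g (m + 1 + i) v')))
    rw [key, key]
    have h2 := hψ g hg (ini (pre i v)) (lst (pre i v)) (lst (pre i v'))
    have h3 : pre i v = sn (ini (pre i v)) (lst (pre i v)) := rfl
    have h4 : pre i v' = sn (ini (pre i v)) (lst (pre i v')) := by rw [h1]; rfl
    rw [h4, h3]
    exact h2
  · -- split case
    obtain ⟨hc1, D, hD4, hTD⟩ := hC
    obtain ⟨M'', hM''i, _, hM''r, _⟩ := hlast hc1
    have hdg := dg_finrank m (fun j _ => hD j) M'' hM''i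
    rw [Fintype.card_fin] at hdg
    obtain ⟨_, ⟨a', ha', rfl⟩, hca⟩ := dg_close (by norm_num) hdg
    push_cast at hca
    have h1 : |(Module.finrank (ZMod 2) M' : ℝ) / 4 ^ (m + 1 + i) - (1 / 4) ^ (i + 1) * Real.ofDigits a'| ≤
        (1 / 4) ^ m := by
      have e : (Module.finrank (ZMod 2) M' : ℝ) / 4 ^ (m + 1 + i) =
          (1 / 4) ^ (i + 1) * ((Module.finrank (ZMod 2) M'' : ℝ) / 4 ^ m) := by
        rw [hM''r, pow_add, pow_succ, one_div_pow, pow_succ]; field_simp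
      rw [e, ← mul_sub, abs_mul, abs_of_pos (by positivity : (0 : ℝ) < (1 / 4) ^ (i + 1))]
      have h2 : (1 / 4 : ℝ) ^ (i + 1) ≤ 1 := pow_le_one₀ (by norm_num) (by norm_num)
      refine le_trans (mul_le_mul h2 hca (abs_nonneg _) (by norm_num)) ?_
      rw [one_mul, one_div_pow]
    have main : ∀ x y : Fin 4, (x.val = 0 ∨ x.val + 1 = 4) → (y.val = 0 ∨ y.val + 1 = 4) →
        (D : ℝ) = x.val + Real.ofDigits (fun _ => y) →
        ∃ z ∈ Adm ∪ Exo i, |(Module.finrank (ZMod 2) M' : ℝ) / 4 ^ (m + 1 + i) * Real.log 2 +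
          (Module.finrank (ZMod 3) (TT G (m + 1 + i)) : ℝ) / 4 ^ (m + 1 + i) * Real.log 3 - z| ≤
          (1 / 4) ^ m * Real.log 2 := by
      intro x y hx hy hxy
      obtain ⟨z, hz, hz2⟩ := adm_close (n := 0) (i := i) (k := i + 1) ha' hb
        (b' := glue 1 (fun _ => x) (fun _ => y))
        (ext_glue (fun _ => hx) (fun _ => hy)) (by omega)
        (fun j j' hj hj' => by
          unfold glue
          rw [if_neg (by omega), if_neg (by omega)]) h1
        (eT := (Module.finrank (ZMod 3) (TT G (m + 1 + i)) : ℝ) / 4 ^ (m + 1 + i)) (by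
          rw [hbe, ofDigits_glue, hTD, Finset.sum_range_one]
          simp only [Real.ofDigitsTerm]
          push_cast
          rw [hxy]
          have : (4 : ℝ) ^ m ≠ 0 := by positivity
          rw [pow_succ]
          field_simp)
      exact ⟨z, Or.inl hz, hz2⟩
    rcases hD4 with h | h | h | h
    · exact main 0 0 (Or.inl rfl) (Or.inl rfl) (by rw [h, ofDigits_zero]; simp)
    · exact main 0 3 (Or.inl rfl) (Or.inr rfl) (by rw [h, ofDigits_three]; simp)
    · exact main 3 0 (Or.inr rfl) (Or.inl rfl) (by rw [h, ofDigits_zero]; norm_num)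
    · exact main 3 3 (Or.inr rfl) (Or.inr rfl) (by rw [h, ofDigits_three]; norm_num)
  · -- exceptional case
    obtain ⟨hc1, hTD, hex⟩ := hE
    obtain ⟨M'', hM''i, hM''m, hM''r, hM''d⟩ := hlast hc1
    have htop : M'' = ⊤ := by
      rw [eq_top_iff]
      intro f _
      have hsingle : ∀ w : Wd (Fin 4) m, (Pi.single w 1 : Wd (Fin 4) m → ZMod 2) ∈ M'' := by
        intro w
        obtain ⟨g, hg, hg1, hg2, hg3⟩ := hex w
        obtain ⟨g', hg', hg'1, hg'2⟩ := P3.climb hV hS hlow φ c hc hg hg1 hg2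
        rw [hM''d]
        show pull (Fin 4) 2 m (Pi.single w 1) ∈ M'
        rw [hMmem]
        refine ⟨g', hg', hg'1, ?_⟩
        funext q
        obtain ⟨v, x, rfl⟩ := exists_sn q
        rw [hg'2, hg3]
        show (Pi.single w 1 : Wd (Fin 4) m → ZMod 2) v = _
        rw [Pi.single_apply]
      have : f = ∑ w, f w • (Pi.single w 1 : Wd (Fin 4) m → ZMod 2) := by
        funext v
        rw [Finset.sum_apply, Finset.sum_eq_single v]
        · simp
        · intro b _ hb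
          rw [Pi.smul_apply, Pi.single_apply, if_neg hb.symm, smul_zero]
        · simp
      rw [this]
      exact Submodule.sum_mem _ fun w _ => Submodule.smul_mem _ _ (hsingle w)
    have hMr : Module.finrank (ZMod 2) M' = 4 ^ m := by
      rw [hM''r, htop, finrank_top, finrank_fun, Fintype.card_fin]
    refine ⟨_, Or.inr ⟨b, hb, rfl⟩, ?_⟩
    rw [hbe, hTD, hMr]
    have h0 : (4 : ℝ) ^ m ≠ 0 := by positivity
    have e : ((4 ^ m : ℕ) : ℝ) / 4 ^ (m + 1 + i) * Real.log 2 +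
        (∑ j ∈ Finset.range i, Real.ofDigitsTerm b j + (1 / 4) ^ i * (((2 * 4 ^ m : ℕ) : ℝ) / 4 ^ (m + 1))) *
          Real.log 3 - ((∑ j ∈ Finset.range i, Real.ofDigitsTerm b j) * Real.log 3 +
          (1 / 4) ^ i * (Real.log 3 / 2 + Real.log 2 / 4)) = 0 := by
      push_cast
      rw [pow_add _ (m + 1) i, pow_succ, one_div_pow]
      field_simp
      ring
    rw [e, abs_zero]
    positivity

theorem mem_of_close {S : Set ℝ} (hS : IsClosed S) {v : ℝ} (h : ∀ ε > 0, ∃ z ∈ S, |v - z| < ε) : v ∈ S := by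
  rw [← hS.closure_eq, Metric.mem_closure_iff]
  intro ε hε
  obtain ⟨z, hz, hz2⟩ := h ε hε
  exact ⟨z, hz, by rw [Real.dist_eq]; exact hz2⟩

theorem redL_up (hG : SS G) {n m : ℕ} (h : RedL G n m) (k : ℕ) : RedL G (n + k) (m + k) := by
  induction k with
  | zero => exact h
  | succ k ih => exact redL_succ hG ih

theorem upper_four (hG : SS G) {v : ℝ} (hv : Tendsto (aa G) atTop (𝓝 v)) (hv' : ∀ n, v ≤ aa G n)
    (hlow : Real.log 8 < v) : v - Real.log 4 ∈ Adm ∨ ∃ q, v - Real.log 4 ∈ Exo q := by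
  have hbig : ∀ n, 8 ^ 4 ^ n < Nat.card (KK G n) := by
    intro n
    have := card_big_of_lim hv' (b := 8) (by norm_num) (by exact_mod_cast hlow) n
    rwa [Fintype.card_fin] at this
  have hT : ∀ j, Trans G j := fun j => (C1.four_base hbig j).1
  have hV : ∀ j, V4full G j := fun j => (C1.four_base hbig j).2.1
  have hS : ∀ j, Sep G j := fun j => (C1.four_base hbig j).2.2
  have hl2 : 0 < Real.log 2 := Real.log_pos (by norm_num)
  have hl3 : 0 < Real.log 3 := Real.log_pos (by norm_num)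
  have hlim : Tendsto (fun n => aa G n - Real.log 4) atTop (𝓝 (v - Real.log 4)) := hv.sub_const _
  have hp : Tendsto (fun n : ℕ => (1 / 4 : ℝ) ^ n) atTop (𝓝 0) :=
    tendsto_pow_atTop_nhds_zero_of_lt_one (by norm_num) (by norm_num)
  by_cases hI : ∀ i, ∃ m, RedL G (m + i) m
  · left
    apply mem_of_close isClosed_Adm
    intro ε hε
    have h1 : Tendsto (fun i : ℕ => (1 / 4 : ℝ) ^ i * (Real.log 2 + Real.log 3)) atTop (𝓝 0) := by
      have := hp.mul_const (Real.log 2 + Real.log 3)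
      rwa [zero_mul] at this
    obtain ⟨i, hi⟩ := ((tendsto_order.mp h1).2 (ε / 2) (by linarith)).exists
    obtain ⟨m0, hm0⟩ := hI i
    obtain ⟨N, hN⟩ := Metric.tendsto_atTop.mp hlim (ε / 2) (by linarith)
    have h2 : RedL G (m0 + N + i) (m0 + N) := by
      have := redL_up hG hm0 N
      rwa [show m0 + i + N = m0 + N + i by ring] at this
    obtain ⟨z, hz, hz2⟩ := closeI hT hV hS (red_of_redL h2)
    refine ⟨z, hz, ?_⟩
    have h3 := hN (m0 + N + i) (by omega)
    rw [Real.dist_eq, abs_sub_comm] at h3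
    calc |v - Real.log 4 - z| ≤ |v - Real.log 4 - (aa G (m0 + N + i) - Real.log 4)| +
          |aa G (m0 + N + i) - Real.log 4 - z| := abs_sub_le _ _ _
      _ < ε / 2 + ε / 2 := by
          have := lt_of_le_of_lt hz2 hi
          linarith
      _ = ε := by ring
  · have hex : ∃ i, ¬ ∃ m, RedL G (m + i) m := by
      by_contra hcon
      push Not at hcon
      exact hI hcon
    classical
    obtain ⟨hq1, hq2⟩ := (⟨Nat.find_spec hex, fun i hi => not_not.mp (Nat.find_min hex hi)⟩ :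
      (¬ ∃ m, RedL G (m + Nat.find hex) m) ∧ ∀ i < Nat.find hex, ∃ m, RedL G (m + i) m)
    have hpos : Nat.find hex ≠ 0 := by
      intro h0
      apply hq1
      rw [h0]
      refine ⟨0, fun _ => 0, fun g hg v v' _ => ?_⟩
      rfl
    obtain ⟨q, hq⟩ := Nat.exists_eq_succ_of_ne_zero hpos
    rw [hq] at hq1 hq2
    obtain ⟨m0, hm0⟩ := hq2 q (Nat.lt_succ_self q)
    have hS' : IsClosed (Adm ∪ Exo q) := isClosed_Adm.union (isClosed_Exo q)
    have : v - Real.log 4 ∈ Adm ∪ Exo q := by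
      apply mem_of_close hS'
      intro ε hε
      have h1 : Tendsto (fun i : ℕ => (1 / 4 : ℝ) ^ i * Real.log 2) atTop (𝓝 0) := by
        have := hp.mul_const (Real.log 2)
        rwa [zero_mul] at this
      obtain ⟨N1, hN1⟩ := eventually_atTop.mp ((tendsto_order.mp h1).2 (ε / 2) (by linarith))
      obtain ⟨N, hN⟩ := Metric.tendsto_atTop.mp hlim (ε / 2) (by linarith)
      -- choose the level
      set m := m0 + q + N + N1 with hm
      have hred : ∀ k, RedL G (m0 + q + k) (m0 + k) := by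
        intro k
        exact redL_up hG hm0 k
      have hR : Red G (m + 1) q := by
        apply red_of_redL
        have h5 := hred (m + 1 - m0)
        rwa [show m0 + q + (m + 1 - m0) = m + 1 + q by omega, show m0 + (m + 1 - m0) = m + 1 by omega] at h5
      have hR' : ∀ i', 1 ≤ i' → i' ≤ q → Red G m i' := by
        intro i' h1' h2'
        apply red_of_redL
        have h5 := hred (m + i' - (m0 + q))
        rw [show m0 + q + (m + i' - (m0 + q)) = m + i' by omega] at h5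
        exact redL_mono h5 (by omega)
      have hno : ¬ RedL G (m + 1 + q) m := by
        intro h6
        exact hq1 ⟨m, by rwa [show m + 1 + q = m + q.succ by omega] at h6⟩
      obtain ⟨z, hz, hz2⟩ := closeII hT hV hS hR hR' hno
      refine ⟨z, hz, ?_⟩
      have h3 := hN (m + 1 + q) (by omega)
      rw [Real.dist_eq, abs_sub_comm] at h3
      have h4 := hN1 m (by omega)
      calc |v - Real.log 4 - z| ≤ |v - Real.log 4 - (aa G (m + 1 + q) - Real.log 4)| +
            |aa G (m + 1 + q) - Real.log 4 - z| := abs_sub_le _ _ _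
        _ < ε / 2 + ε / 2 := by
            have := lt_of_le_of_lt hz2 h4
            linarith
        _ = ε := by ring
    rcases this with h | h
    · exact Or.inl h
    · exact Or.inr ⟨q, h⟩

end Final4

end Pool.Agent.Helper501.Haus.P4

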