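import Pool.Agent.Helper501.Haus.Bridge
import Pool.Agent.Helper501.Haus.Constr
import Pool.Agent.Helper501.Haus.ConstrFour
import Pool.Agent.Helper501.Haus.UpperB

namespace Pool.Agent.Helper501.Haus

open Equiv Filter Topology

section Assemble

theorem real_of_aa {d : ℕ} (hd : 2 ≤ d) {G' : Subgroup (Portrait (Fin d))} (h1 : SS G') (h2 : Contr G')
    {v : ℝ} (h : Tendsto (aa G') atTop (𝓝 v)) :
    ∃ G : Subgroup (Perm (List (Fin d))), SelfSimilar G ∧ Contracting G ∧
      v / Real.log d.factorial = hdim (treeClosure G) := by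
  obtain ⟨G, hG, hc, hv⟩ := bridge_from hd G' h1
  exact ⟨G, hG, hc h2, (hv v h).symm⟩

theorem real_of_fam {d : ℕ} (hd : 2 ≤ d) (F : Fam (Fin d)) {v : ℝ}
    (h : Tendsto (fun n : ℕ => Real.log (Nat.card (F.L n)) / (d : ℝ) ^ n) atTop (𝓝 v)) :
    ∃ G : Subgroup (Perm (List (Fin d))), SelfSimilar G ∧ Contracting G ∧
      v / Real.log d.factorial = hdim (treeClosure G) := by
  refine real_of_aa hd (ss_GF F) (contr_GF F) ?_
  refine h.congr fun n => ?_
  unfold aa
  rw [KK_GF, Fintype.card_fin]

theorem log_fact_pos {d : ℕ} (hd : 2 ≤ d) : 0 < Real.log d.factorial := by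
  apply Real.log_pos
  have : 2 ≤ d.factorial := le_trans hd (Nat.self_le_factorial d)
  exact_mod_cast (by omega : 1 < d.factorial)

/-- Every value of the interval is attained. -/
theorem lower_interval {d : ℕ} (hd : 2 ≤ d) {b : ℕ} (hb : 0 < b)
    (h : ∀ v : ℝ, 0 ≤ v → v ≤ Real.log b → ∃ F : Fam (Fin d),
      Tendsto (fun n : ℕ => Real.log (Nat.card (F.L n)) / (d : ℝ) ^ n) atTop (𝓝 v)) {x : ℝ}
    (hx : x ∈ Set.Icc 0 (Real.log b / Real.log d.factorial)) :
    ∃ G : Subgroup (Perm (List (Fin d))), SelfSimilar G ∧ Contracting G ∧ x = hdim (treeClosure G) := by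
  have hl := log_fact_pos hd
  obtain ⟨F, hF⟩ := h (x * Real.log d.factorial) (mul_nonneg hx.1 hl.le) (by
    have := hx.2
    rwa [le_div_iff₀ hl] at this)
  obtain ⟨G, h1, h2, h3⟩ := real_of_fam hd F hF
  refine ⟨G, h1, h2, ?_⟩
  rw [← h3]
  field_simp

theorem lower_cantor {d : ℕ} (hd : 2 ≤ d) {c : ℝ} (hc : c ∈ CD d) :
    ∃ G : Subgroup (Perm (List (Fin d))), SelfSimilar G ∧ Contracting G ∧
      (Real.log d.factorial - Real.log 2 + c * Real.log 2) / Real.log d.factorial = hdim (treeClosure G) := by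
  obtain ⟨F, hF⟩ := fam_sign (X := Fin d) (by rwa [Fintype.card_fin]) (c := c) (by rwa [Fintype.card_fin])
  rw [Fintype.card_fin] at hF
  exact real_of_fam hd F hF

theorem lower_all {d : ℕ} (hd : 2 ≤ d) {x : ℝ} (hx : x ∈ Spectrum d) :
    ∃ G : Subgroup (Perm (List (Fin d))), SelfSimilar G ∧ Contracting G ∧ x = hdim (treeClosure G) := by
  unfold Spectrum at hx
  have hE1 : ∀ v : ℝ, 0 ≤ v → v ≤ Real.log (d - 1).factorial → ∃ F : Fam (Fin d),
      Tendsto (fun n : ℕ => Real.log (Nat.card (F.L n)) / (d : ℝ) ^ n) atTop (𝓝 v) := by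
    intro v h0 h1
    obtain ⟨F, hF⟩ := E1.fam_pattern (X := Fin d) (by rwa [Fintype.card_fin]) v h0 (by rwa [Fintype.card_fin])
    rw [Fintype.card_fin] at hF
    exact ⟨F, hF⟩
  split_ifs at hx with h2 h3 h4
  · subst h2
    obtain ⟨a, _, ha⟩ := Real.ofDigits_SurjOn (b := 2) (by norm_num) hx
    have hc : x ∈ CD 2 := ⟨a, fun j => by have := (a j).isLt; omega, ha.symm⟩
    obtain ⟨G, h1, h2, h3⟩ := lower_cantor (d := 2) le_rfl hc
    refine ⟨G, h1, h2, ?_⟩
    rw [← h3]
    have h5 : Real.log 2 ≠ 0 := (Real.log_pos (by norm_num)).ne'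
    simp only [Nat.factorial_two, Nat.cast_ofNat, sub_self, zero_add]
    field_simp
  · subst h3
    rcases hx with hx | ⟨c, hc, rfl⟩
    · refine lower_interval (d := 3) (by norm_num) (b := 3) (by norm_num) ?_ ?_
      · intro v h0 h1
        obtain ⟨F, hF⟩ := E3.fam_three v h0 (by exact_mod_cast h1)
        exact ⟨F, by exact_mod_cast hF⟩
      · have : Nat.factorial 3 = 6 := rfl
        rw [this]; exact_mod_cast hx
    · obtain ⟨G, h1, h2, h3⟩ := lower_cantor (d := 3) (by norm_num) hc
      refine ⟨G, h1, h2, ?_⟩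
      rw [← h3]
      have : Nat.factorial 3 = 6 := rfl
      rw [this]
      have h6 : Real.log ((6 : ℕ) : ℝ) = Real.log 2 + Real.log 3 := by
        rw [← Real.log_mul (by norm_num) (by norm_num)]; norm_num
      have h6' : Real.log (6 : ℝ) = Real.log 2 + Real.log 3 := by
        rw [← Real.log_mul (by norm_num) (by norm_num)]; norm_num
      show (Real.log 3 + c * Real.log 2) / Real.log 6 = _
      rw [h6, h6']
      ring
  · subst h4
    have hf : Nat.factorial 4 = 24 := rfl
    rcases hx with hx | ⟨z, hz, rfl⟩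
    · refine lower_interval (d := 4) (by norm_num) (b := 8) (by norm_num) ?_ ?_
      · intro v h0 h1
        rcases le_total v (Real.log 4) with h | h
        · refine hE1 v h0 (h.trans (Real.log_le_log (by norm_num) ?_))
          have : (4 - 1).factorial = 6 := rfl
          rw [this]; norm_num
        · obtain ⟨F, hF⟩ := E4.fam_four v h (by exact_mod_cast h1)
          exact ⟨F, by exact_mod_cast hF⟩
      · rw [hf]; exact_mod_cast hx
    · rcases hz with hz | hz
      · obtain ⟨F, hF⟩ := E5.fam_adm hz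
        obtain ⟨G, h1, h2, h3⟩ := real_of_fam (d := 4) (by norm_num) F (v := Real.log 4 + z) (by exact_mod_cast hF)
        refine ⟨G, h1, h2, ?_⟩
        rw [← h3, hf]; push_cast; rfl
      · obtain ⟨q, hq⟩ := Set.mem_iUnion.mp hz
        obtain ⟨G', h1', h2', h3'⟩ := E6.exo_exists hq
        obtain ⟨G, h1, h2, h3⟩ := real_of_aa (d := 4) (by norm_num) h1' h2' h3'
        refine ⟨G, h1, h2, ?_⟩
        rw [← h3, hf]; push_cast; rfl
  · rcases hx with hx | ⟨c, hc, rfl⟩
    · exact lower_interval hd (Nat.factorial_pos _) hE1 hx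
    · obtain ⟨G, h1, h2, h3⟩ := lower_cantor hd hc
      refine ⟨G, h1, h2, ?_⟩
      rw [← h3]
      show (Real.log (d.factorial / 2) + c * Real.log 2) / Real.log d.factorial = _
      rw [Real.log_div (by positivity) (by norm_num)]

theorem card_KK_le_fact {X : Type} [Fintype X] [DecidableEq X] (G : Subgroup (Portrait X)) (n : ℕ) :
    Nat.card (KK G n) ≤ (Fintype.card X).factorial ^ Fintype.card X ^ n := by
  have h1 : Nat.card (Wd X n → Perm X) = (Fintype.card X).factorial ^ Fintype.card X ^ n := by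
    rw [Nat.card_fun, Nat.card_eq_fintype_card, Nat.card_eq_fintype_card, card_Wd, Fintype.card_perm]
  rw [← h1]
  exact Nat.card_le_card_of_injective (fun k => k.1) Subtype.val_injective

theorem upper_all {d : ℕ} (hd : 2 ≤ d) (G : Subgroup (Perm (List (Fin d)))) (hG : SelfSimilar G) :
    hdim (treeClosure G) ∈ Spectrum d := by
  haveI : Nonempty (Fin d) := ⟨⟨0, by omega⟩⟩
  obtain ⟨G', hG', hv⟩ := bridge_to hd G hG
  obtain ⟨v, hv1, hv0, hvle⟩ := aa_tendsto hG'
  rw [hv v hv1]
  have hl := log_fact_pos hd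
  unfold Spectrum
  split_ifs with h2 h3 h4
  · subst h2
    refine ⟨div_nonneg hv0 hl.le, ?_⟩
    rw [div_le_one hl]
    refine (hvle 0).trans ?_
    unfold aa
    rw [pow_zero, div_one]
    apply Real.log_le_log (by exact_mod_cast Nat.card_pos)
    have := card_KK_le_fact G' 0
    rw [pow_zero, pow_one, Fintype.card_fin] at this
    exact_mod_cast this
  · subst h3
    have hf : Nat.factorial 3 = 6 := rfl
    rw [hf] at hl ⊢
    rcases le_or_gt v (Real.log 3) with h | h
    · left
      refine ⟨div_nonneg hv0 hl.le, ?_⟩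
      push_cast at hl ⊢
      exact div_le_div_of_nonneg_right h hl.le
    · right
      have hbig : ∀ n, 3 ^ 3 ^ n < Nat.card (KK G' n) := by
        intro n
        have := card_big_of_lim hvle (b := 3) (by norm_num) (by exact_mod_cast h) n
        rwa [Fintype.card_fin] at this
      obtain ⟨c, hc, hvc⟩ := lim_of_alt (X := Fin 3) (by simp) hv1 (J3.three_full hbig)
      rw [Fintype.card_fin] at hc hvc
      refine ⟨c, hc, ?_⟩
      have h6 : Real.log ((6 : ℕ) : ℝ) = Real.log 2 + Real.log 3 := by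
        rw [← Real.log_mul (by norm_num) (by norm_num)]; norm_num
      have h6' : Real.log (6 : ℝ) = Real.log 2 + Real.log 3 := by
        rw [← Real.log_mul (by norm_num) (by norm_num)]; norm_num
      show (Real.log 3 + c * Real.log 2) / Real.log 6 = _
      rw [hvc, hf, h6, h6']
      ring
  · subst h4
    have hf : Nat.factorial 4 = 24 := rfl
    rw [hf] at hl ⊢
    rcases le_or_gt v (Real.log 8) with h | h
    · left
      refine ⟨div_nonneg hv0 hl.le, ?_⟩
      push_cast at hl ⊢
      exact div_le_div_of_nonneg_right h hl.le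
    · right
      refine ⟨v - Real.log 4, ?_, ?_⟩
      · rcases P4.upper_four hG' hv1 hvle h with h5 | ⟨q, h5⟩
        · exact Or.inl h5
        · exact Or.inr (Set.mem_iUnion.mpr ⟨q, h5⟩)
      · show (Real.log 4 + (v - Real.log 4)) / Real.log 24 = _
        push_cast
        rw [add_sub_cancel]
  · rcases le_or_gt v (Real.log (d - 1).factorial) with h | h
    · left
      exact ⟨div_nonneg hv0 hl.le, div_le_div_of_nonneg_right h hl.le⟩
    · right
      obtain ⟨c, hc, hvc⟩ := upper_five (X := Fin d) (by rw [Fintype.card_fin]; omega) hv1 hvle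
        (by rwa [Fintype.card_fin])
      rw [Fintype.card_fin] at hc hvc
      refine ⟨c, hc, ?_⟩
      show (Real.log (d.factorial / 2) + c * Real.log 2) / Real.log d.factorial = _
      rw [Real.log_div (by positivity) (by norm_num), hvc]

/-- The answer for every number of letters, for both classes of groups. -/
theorem spectrum_main (d : ℕ) (hd : 2 ≤ d) :
    {x : ℝ | ∃ G : Subgroup (Perm (List (Fin d))), SelfSimilar G ∧ x = hdim (treeClosure G)} = Spectrum d ∧
    {x : ℝ | ∃ G : Subgroup (Perm (List (Fin d))), SelfSimilar G ∧ Contracting G ∧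
      x = hdim (treeClosure G)} = Spectrum d := by
  constructor
  · ext x
    constructor
    · rintro ⟨G, hG, rfl⟩
      exact upper_all hd G hG
    · intro hx
      obtain ⟨G, h1, _, h3⟩ := lower_all hd hx
      exact ⟨G, h1, h3⟩
  · ext x
    constructor
    · rintro ⟨G, hG, _, rfl⟩
      exact upper_all hd G hG
    · intro hx
      obtain ⟨G, h1, h2, h3⟩ := lower_all hd hx
      exact ⟨G, h1, h2, h3⟩

end Assemble

end Pool.Agent.Helper501.Haus

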