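import Pool.Agent.Helper501.Haus.Base

namespace Pool.Agent.Helper501.Haus.J3

open Equiv

section ThreeRot

/-- Rotations of three letters. -/
def rot3 (c : ZMod 3) : Perm (Fin 3) := Equiv.addLeft (show Fin 3 from c)

theorem rot3_zero : rot3 0 = 1 := by decide
theorem rot3_add : ∀ a b : ZMod 3, rot3 (a + b) = rot3 a * rot3 b := by decide
theorem rot3_neg : ∀ a : ZMod 3, rot3 (-a) = (rot3 a)⁻¹ := by decide
theorem rot3_inj : ∀ a b : ZMod 3, rot3 a = rot3 b → a = b := by decide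
theorem sign_rot3 : ∀ a : ZMod 3, Perm.sign (rot3 a) = 1 := by decide
theorem exists_rot3 : ∀ σ : Perm (Fin 3), Perm.sign σ = 1 → ∃ c : ZMod 3, rot3 c = σ := by decide

/-- The sign in `ZMod 3`. -/
def chi3 (a : ZMod 2) : ZMod 3 := if a = 0 then 1 else -1

theorem rot3_conj : ∀ (σ : Perm (Fin 3)) (c : ZMod 3), σ * rot3 c * σ⁻¹ = rot3 (chi3 (sg σ) * c) := by decide

theorem chi3_sq : ∀ a : ZMod 2, chi3 a * chi3 a = 1 := by decide

theorem chi3_block : ∀ (a b : ZMod 2) (c : ZMod 3),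
    (chi3 b * (chi3 a * c - c) - (chi3 a * c - c)) = if a = 1 ∧ b = 1 then c else 0 := by decide

/-- The rotation vectors in the label group. -/
def NN3 (G : Subgroup (Portrait (Fin 3))) (n : ℕ) : Submodule (ZMod 3) (Wd (Fin 3) n → ZMod 3) :=
  AddSubgroup.toZModSubmodule 3
    { carrier := {f | (fun w => rot3 (f w)) ∈ KK G n}
      add_mem' := by
        intro f g hf hg
        have hf' : (fun w => rot3 (f w)) ∈ KK G n := hf
        have hg' : (fun w => rot3 (g w)) ∈ KK G n := hg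
        have h := mul_mem hf' hg'
        have e : (fun w => rot3 ((f + g) w)) = (fun w => rot3 (f w)) * (fun w => rot3 (g w)) := by
          funext w; exact rot3_add _ _
        show (fun w => rot3 ((f + g) w)) ∈ KK G n
        rw [e]; exact h
      zero_mem' := by
        have e : (fun w => rot3 ((0 : Wd (Fin 3) n → ZMod 3) w)) = 1 := by
          funext w; exact rot3_zero
        show (fun w => rot3 ((0 : Wd (Fin 3) n → ZMod 3) w)) ∈ KK G n
        rw [e]; exact one_mem _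
      neg_mem' := by
        intro f hf
        have hf' : (fun w => rot3 (f w)) ∈ KK G n := hf
        have h := inv_mem hf'
        have e : (fun w => rot3 ((-f) w)) = (fun w => rot3 (f w))⁻¹ := by
          funext w; exact rot3_neg _
        show (fun w => rot3 ((-f) w)) ∈ KK G n
        rw [e]; exact h }

theorem mem_NN3 {G : Subgroup (Portrait (Fin 3))} {n : ℕ} {f : Wd (Fin 3) n → ZMod 3} :
    f ∈ NN3 G n ↔ (fun w => rot3 (f w)) ∈ KK G n := Iff.rfl

theorem card_KK3 (G : Subgroup (Portrait (Fin 3))) (n : ℕ) :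
    Nat.card (KK G n) = Nat.card (NN3 G n) * 2 ^ Module.finrank (ZMod 2) (MM G n) := by
  rw [card_split (sgHom (Fin 3) (Wd (Fin 3) n)) (KK G n), card_map_sgHom]
  congr 1
  symm
  refine Nat.card_congr (Equiv.ofBijective
    (fun f : NN3 G n => (⟨fun w => rot3 (f.1 w), mem_ker_sgHom.mpr fun w => sign_rot3 _, f.2⟩ :
      ((sgHom (Fin 3) (Wd (Fin 3) n)).ker ⊓ KK G n : Subgroup (Wd (Fin 3) n → Perm (Fin 3))))) ⟨?_, ?_⟩)
  · intro f g h
    apply Subtype.ext
    funext w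
    exact rot3_inj _ _ (congrFun (congrArg Subtype.val h) w)
  · rintro ⟨k, hk1, hk2⟩
    choose f hf using fun w => exists_rot3 (k w) (mem_ker_sgHom.mp hk1 w)
    have e : (fun w => rot3 (f w)) = k := funext hf
    exact ⟨⟨f, by rw [mem_NN3, e]; exact hk2⟩, Subtype.ext e⟩

theorem NN3_conj {G : Subgroup (Portrait (Fin 3))} {n : ℕ} {f : Wd (Fin 3) n → ZMod 3} (hf : f ∈ NN3 G n)
    {g : Portrait (Fin 3)} (hg : g ∈ G) :
    (fun w => chi3 (sg (g.lab n ((lev g n).symm w))) * f ((lev g n).symm w)) ∈ NN3 G n := by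
  have h := KK_conj hf hg
  rw [mem_NN3]
  have e : (fun w => rot3 (chi3 (sg (g.lab n ((lev g n).symm w))) * f ((lev g n).symm w))) =
      (fun w => g.lab n ((lev g n).symm w) * rot3 (f ((lev g n).symm w)) * (g.lab n ((lev g n).symm w))⁻¹) := by
    funext w; exact (rot3_conj _ _).symm
  rw [e]; exact h

theorem NN3_sign {G : Subgroup (Portrait (Fin 3))} {n : ℕ} {f : Wd (Fin 3) n → ZMod 3} (hf : f ∈ NN3 G n)
    {m : Wd (Fin 3) n → ZMod 2} (hm : m ∈ MM G n) :
    (fun w => chi3 (m w) * f w) ∈ NN3 G n := by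
  obtain ⟨k, hk, rfl⟩ := hm
  obtain ⟨g, hg, _, h2, h3, _⟩ := lev_of_KK hk
  have h := NN3_conj hf hg
  rw [h2, h3] at h
  exact h

/-- The blocks. -/
theorem exists_blocks {G : Subgroup (Portrait (Fin 3))} (n : ℕ) (hD : ∀ j < n, Dich 2 G j)
    (M : Submodule (ZMod 2) (Wd (Fin 3) n → ZMod 2)) (hM : Inv G M) :
    ∃ (r : ℕ) (π : Wd (Fin 3) n → Wd (Fin 3) r), Function.Surjective π ∧
      (∀ m ∈ M, ∃ m' : Wd (Fin 3) r → ZMod 2, m = fun v => m' (π v)) ∧
      ∀ z, (∀ v, π v = z) ∨ ∃ m1 ∈ M, ∃ m2 ∈ M, ∀ v, (m1 v = 1 ∧ m2 v = 1) ↔ π v = z := by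
  induction n with
  | zero =>
    exact ⟨0, fun v => v, fun v => ⟨v, rfl⟩, fun m _ => ⟨m, rfl⟩, fun z => Or.inl fun v => wd_zero_eq _ _⟩
  | succ n ih =>
    rcases hD n (by omega) M hM with h | h
    · obtain ⟨r, π, hπ, h1, h2⟩ := ih (fun j hj => hD j (by omega)) _ (inv_comap_pull hM)
      refine ⟨r, fun v => π (ini v), ?_, ?_, ?_⟩
      · intro z
        obtain ⟨v, hv⟩ := hπ z
        exact ⟨sn v 0, hv⟩
      · intro m hm
        have e : m = pull (Fin 3) 2 n (fun w => m (sn w 0)) := by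
          funext q
          obtain ⟨w, y, rfl⟩ := exists_sn q
          exact h m hm w y 0
        obtain ⟨m', hm'⟩ := h1 (fun w => m (sn w 0)) (by
          rw [Submodule.mem_comap, ← e]; exact hm)
        refine ⟨m', ?_⟩
        rw [e, hm']
        rfl
      · intro z
        rcases h2 z with h3 | ⟨m1, hm1, m2, hm2, h3⟩
        · exact Or.inl fun v => h3 _
        · exact Or.inr ⟨_, hm1, _, hm2, fun v => h3 (ini v)⟩
    · refine ⟨n + 1, fun v => v, fun v => ⟨v, rfl⟩, fun m _ => ⟨m, rfl⟩, fun z => Or.inr ?_⟩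
      obtain ⟨w, x, rfl⟩ := exists_sn z
      have hker : ∀ s t, dd 2 w s t ∈ M := by
        intro s t
        apply h
        rw [LinearMap.mem_ker]
        funext v
        rw [sumLast_apply]
        simp only [dd_sn]
        by_cases hv : v = w
        · simp [hv, Finset.sum_sub_distrib]
        · simp [hv]
      have key : ∀ x : Fin 3, ∃ y z : Fin 3, ∀ t : Fin 3,
          ((((if t = x then 1 else 0) - (if t = y then 1 else 0) : ZMod 2) = 1) ∧
          (((if t = x then 1 else 0) - (if t = z then 1 else 0) : ZMod 2) = 1)) ↔ t = x := by decide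
      obtain ⟨y, z, hyz⟩ := key x
      refine ⟨_, hker x y, _, hker x z, ?_⟩
      intro v
      obtain ⟨v, t, rfl⟩ := exists_sn v
      rw [dd_sn, dd_sn, sn_inj]
      by_cases hv : v = w
      · simp only [hv, if_true, true_and]
        exact hyz t
      · simp [hv]

/-- Basis vectors. -/
def ev3 {n : ℕ} (v : Wd (Fin 3) n) : Wd (Fin 3) n → ZMod 3 := fun w => if w = v then 1 else 0

theorem NN3_top_of_ev {G : Subgroup (Portrait (Fin 3))} {n : ℕ} (hT : Trans G n) {v : Wd (Fin 3) n}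
    (hv : ev3 v ∈ NN3 G n) : NN3 G n = ⊤ := by
  have h1 : ∀ w, ev3 w ∈ NN3 G n := by
    intro w
    obtain ⟨g, hg, hgv⟩ := hT v w
    have h := (NN3 G n).smul_mem (chi3 (sg (g.lab n v))) (NN3_conj hv hg)
    convert h using 1
    funext u
    rw [Pi.smul_apply, smul_eq_mul, ev3]
    by_cases hu : u = w
    · subst hu
      have : (lev g n).symm u = v := by rw [← hgv, Equiv.symm_apply_apply]
      rw [this, if_pos rfl, ← mul_assoc, chi3_sq]
      simp [ev3]
    · have : (lev g n).symm u ≠ v := by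
        intro h; apply hu; rw [← hgv, ← h, Equiv.apply_symm_apply]
      rw [if_neg hu]
      simp [ev3, this]
  rw [eq_top_iff]
  intro f _
  have e : f = ∑ w, f w • ev3 w := by
    funext u
    rw [Finset.sum_apply]
    simp [ev3]
  rw [e]
  exact Submodule.sum_mem _ fun w _ => Submodule.smul_mem _ _ (h1 w)

theorem card_MM_le {n r : ℕ} {M : Submodule (ZMod 2) (Wd (Fin 3) n → ZMod 2)} {π : Wd (Fin 3) n → Wd (Fin 3) r}
    (h1 : ∀ m ∈ M, ∃ m' : Wd (Fin 3) r → ZMod 2, m = fun v => m' (π v)) :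
    2 ^ Module.finrank (ZMod 2) M ≤ 2 ^ 3 ^ r := by
  have h : Nat.card M = 2 ^ Module.finrank (ZMod 2) M := by
    rw [Module.natCard_eq_pow_finrank (K := ZMod 2), Nat.card_zmod]
  rw [← h]
  choose φ hφ using h1
  have h2 : Nat.card M ≤ Nat.card (Wd (Fin 3) r → ZMod 2) := by
    apply Nat.card_le_card_of_injective (fun m : M => φ m.1 m.2)
    intro a b hab
    apply Subtype.ext
    rw [hφ a.1 a.2, hφ b.1 b.2]
    simp only at hab
    rw [hab]
  refine h2.trans ?_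
  rw [Nat.card_fun, Nat.card_zmod, Nat.card_eq_fintype_card, card_Wd, Fintype.card_fin]

theorem card_N_le {n r : ℕ} {N : Submodule (ZMod 3) (Wd (Fin 3) n → ZMod 3)} {π : Wd (Fin 3) n → Wd (Fin 3) r}
    (hπ : Function.Surjective π) (hN : ∀ f ∈ N, ∀ z, (fun v => if π v = z then f v else 0) ∈ N)
    (hev : ∀ v, ev3 v ∉ N) : Nat.card N * 3 ^ 3 ^ r ≤ 3 ^ 3 ^ n := by
  choose s hs using hπ
  let L : (Wd (Fin 3) r → ZMod 3) →ₗ[ZMod 3] (Wd (Fin 3) n → ZMod 3) :=
    { toFun := fun c v => if s (π v) = v then c (π v) else 0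
      map_add' := by intro a b; funext v; simp only [Pi.add_apply]; split_ifs <;> simp
      map_smul' := by intro a b; funext v; simp only [Pi.smul_apply, smul_eq_mul, RingHom.id_apply]; split_ifs <;> simp }
  have hL : ∀ c v, L c v = if s (π v) = v then c (π v) else 0 := fun c v => rfl
  have hLN : ∀ c, L c ∈ N → c = 0 := by
    intro c hc
    funext z
    by_contra hcz
    apply hev (s z)
    have h1 := N.smul_mem (c z)⁻¹ (hN _ hc z)
    convert h1 using 1
    funext v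
    rw [Pi.smul_apply, hL, ev3, smul_eq_mul]
    by_cases hv : v = s z
    · subst hv
      rw [if_pos rfl, hs, if_pos rfl, if_pos rfl]
      have : Fact (Nat.Prime 3) := ⟨Nat.prime_three⟩
      exact (inv_mul_cancel₀ hcz).symm
    · rw [if_neg hv]
      by_cases hz : π v = z
      · rw [if_pos hz, hz, if_neg (fun h => hv h.symm), mul_zero]
      · rw [if_neg hz, mul_zero]
  have h2 : Nat.card (N × (Wd (Fin 3) r → ZMod 3)) ≤ Nat.card (Wd (Fin 3) n → ZMod 3) := by
    apply Nat.card_le_card_of_injective (fun p : N × (Wd (Fin 3) r → ZMod 3) => p.1.1 + L p.2)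
    rintro ⟨⟨f, hf⟩, c⟩ ⟨⟨g, hg⟩, d⟩ h
    simp only at h
    have h3 : L (c - d) ∈ N := by
      have : L (c - d) = g - f := by
        rw [map_sub]
        rw [sub_eq_sub_iff_add_eq_add, add_comm (L c), add_comm g] at *
        first | exact h | (rw [add_comm (L d)]; exact h)
      rw [this]; exact N.sub_mem hg hf
    have h4 := sub_eq_zero.mp (hLN _ h3)
    subst h4
    have h5 := add_right_cancel h
    subst h5
    rfl
  rw [Nat.card_prod, Nat.card_fun, Nat.card_fun, Nat.card_zmod, Nat.card_eq_fintype_card (α := Wd (Fin 3) r),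
    Nat.card_eq_fintype_card (α := Wd (Fin 3) n), card_Wd, card_Wd, Fintype.card_fin] at h2
  exact h2

end ThreeRot

/-- Target. -/
theorem three_full {G : Subgroup (Portrait (Fin 3))} (hbig : ∀ n, 3 ^ 3 ^ n < Nat.card (KK G n)) (n : ℕ) :
    Trans G n ∧ ∀ k : Wd (Fin 3) n → Perm (Fin 3), (∀ w, Perm.sign (k w) = 1) → k ∈ KK G n := by
  induction n using Nat.strong_induction_on with
  | _ n ih =>
  have hX : 3 ≤ Fintype.card (Fin 3) := by simp
  have hD : ∀ j < n, Dich 2 G j := fun j hj => dich_alt hX (ih j hj).1 (ih j hj).2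
  have hT : Trans G n := by
    cases n with
    | zero => exact trans_zero G
    | succ j => exact trans_succ_of_alt hX (ih j (by omega)).1 (ih j (by omega)).2
  refine ⟨hT, ?_⟩
  have hN : NN3 G n = ⊤ := by
    by_contra hne
    obtain ⟨r, π, hπ, h1, h2⟩ := exists_blocks n hD (MM G n) (inv_MM G n)
    have hev : ∀ v, ev3 v ∉ NN3 G n := fun v hv => hne (NN3_top_of_ev hT hv)
    have hblock : ∀ f ∈ NN3 G n, ∀ z, (fun v => if π v = z then f v else 0) ∈ NN3 G n := by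
      intro f hf z
      rcases h2 z with h3 | ⟨m1, hm1, m2, hm2, h3⟩
      · have : (fun v => if π v = z then f v else 0) = f := by
          funext v; rw [if_pos (h3 v)]
        rw [this]; exact hf
      · have h4 := (NN3 G n).sub_mem (NN3_sign hf hm1) hf
        have h5 := (NN3 G n).sub_mem (NN3_sign h4 hm2) h4
        convert h5 using 1
        funext v
        simp only [Pi.sub_apply]
        rw [chi3_block]
        by_cases hv : π v = z
        · rw [if_pos hv, if_pos ((h3 v).mpr hv)]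
        · rw [if_neg hv, if_neg (fun h => hv ((h3 v).mp h))]
    have h6 := card_N_le hπ hblock hev
    have h7 := card_MM_le h1
    have h8 : (2 : ℕ) ^ 3 ^ r ≤ 3 ^ 3 ^ r := Nat.pow_le_pow_left (by norm_num) _
    have h9 := hbig n
    rw [card_KK3] at h9
    have := Nat.mul_le_mul_left (Nat.card (NN3 G n)) (h7.trans h8)
    omega
  intro k hk
  choose f hf using fun w => exists_rot3 (k w) (hk w)
  have e : (fun w => rot3 (f w)) = k := funext hf
  have : f ∈ NN3 G n := by rw [hN]; trivial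
  rw [mem_NN3, e] at this
  exact this

end Pool.Agent.Helper501.Haus.J3


namespace Pool.Agent.Helper501.Haus.C1

open Equiv Filter Topology

section FourBase

/-- Size bound by signs, rotations and Klein labels. -/
theorem card_KK_le (G : Subgroup (Portrait (Fin 4))) (n : ℕ) :
    Nat.card (KK G n) ≤ Nat.card (MM G n) * (Nat.card (TT G n) *
      Nat.card {k : Wd (Fin 4) n → Perm (Fin 4) // k ∈ KK G n ∧ ∀ w, sg (k w) = 0 ∧ th (k w) = 0}) := by
  have hM : ∀ m : MM G n, ∃ k, k ∈ KK G n ∧ m.1 = fun w => sg (k w) := fun m => m.2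
  have hT : ∀ t : TT G n, ∃ k, k ∈ KK G n ∧ (∀ w, sg (k w) = 0) ∧ t.1 = fun w => th (k w) :=
    fun t => t.2
  choose km hkm1 hkm2 using hM
  choose kt hkt1 hkt2 hkt3 using hT
  let m : KK G n → MM G n := fun k => ⟨fun w => sg (k.1 w), k.1, k.2, rfl⟩
  let k' : KK G n → (Wd (Fin 4) n → Perm (Fin 4)) := fun k => (km (m k))⁻¹ * k.1
  have hk'1 : ∀ k, k' k ∈ KK G n := fun k => mul_mem (inv_mem (hkm1 _)) k.2
  have hk'2 : ∀ k w, sg (k' k w) = 0 := by
    intro k w
    show sg ((km (m k) w)⁻¹ * k.1 w) = 0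
    rw [sg_mul, sg_inv]
    have h1 : sg (k.1 w) = sg (km (m k) w) := congrFun (hkm2 (m k)) w
    rw [h1]
    exact CharTwo.add_self_eq_zero _
  let t : KK G n → TT G n := fun k => ⟨fun w => th (k' k w), k' k, hk'1 k, hk'2 k, rfl⟩
  have hu : ∀ k, (kt (t k))⁻¹ * k' k ∈ KK G n ∧
      ∀ w, sg (((kt (t k))⁻¹ * k' k) w) = 0 ∧ th (((kt (t k))⁻¹ * k' k) w) = 0 := by
    intro k
    refine ⟨mul_mem (inv_mem (hkt1 _)) (hk'1 k), ?_⟩
    intro w
    show sg ((kt (t k) w)⁻¹ * k' k w) = 0 ∧ th ((kt (t k) w)⁻¹ * k' k w) = 0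
    have h1 : sg ((kt (t k) w)⁻¹) = 0 := by rw [sg_inv, hkt2]
    have h2 : th (k' k w) = th (kt (t k) w) := congrFun (hkt3 (t k)) w
    constructor
    · rw [sg_mul, h1, hk'2, add_zero]
    · rw [th_mul, if_pos h1, th_inv, if_pos (hkt2 _ _), h2, neg_add_cancel]
  rw [← Nat.card_prod, ← Nat.card_prod]
  apply Nat.card_le_card_of_injective
    (fun k : KK G n => ((m k, t k, (⟨(kt (t k))⁻¹ * k' k, hu k⟩ :
      {k : Wd (Fin 4) n → Perm (Fin 4) // k ∈ KK G n ∧ ∀ w, sg (k w) = 0 ∧ th (k w) = 0})) :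
        _ × _ × _))
  intro k l h
  simp only [Prod.mk.injEq, Subtype.mk.injEq] at h
  obtain ⟨h1, h2, h3⟩ := h
  rw [h2] at h3
  have h4 : k' k = k' l := mul_left_cancel h3
  have h5 : (km (m k))⁻¹ * k.1 = (km (m l))⁻¹ * l.1 := h4
  rw [h1] at h5
  exact Subtype.ext (mul_left_cancel h5)

theorem card_U_le (G : Subgroup (Portrait (Fin 4))) (n : ℕ) :
    Nat.card {k : Wd (Fin 4) n → Perm (Fin 4) // k ∈ KK G n ∧ ∀ w, sg (k w) = 0 ∧ th (k w) = 0} ≤
      4 ^ 4 ^ n := by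
  have h1 : Nat.card (Wd (Fin 4) n → {σ : Perm (Fin 4) // sg σ = 0 ∧ th σ = 0}) = 4 ^ 4 ^ n := by
    rw [Nat.card_fun, Nat.card_eq_fintype_card, klein_card, Nat.card_eq_fintype_card, card_Wd,
      Fintype.card_fin]
  rw [← h1]
  apply Nat.card_le_card_of_injective (fun k w => ⟨k.1 w, k.2.2 w⟩)
  intro k l h
  apply Subtype.ext
  funext w
  exact congrArg Subtype.val (congrFun h w)

theorem card_MM_le (G : Subgroup (Portrait (Fin 4))) (n : ℕ) :
    Nat.card (MM G n) ≤ 2 ^ 4 ^ n := by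
  have h1 : Nat.card (Wd (Fin 4) n → ZMod 2) = 2 ^ 4 ^ n := by
    rw [Nat.card_fun, Nat.card_zmod, Nat.card_eq_fintype_card, card_Wd, Fintype.card_fin]
  rw [← h1]
  exact Nat.card_le_card_of_injective (fun k => k.1) Subtype.val_injective

theorem card_TT_le (G : Subgroup (Portrait (Fin 4))) (n : ℕ) :
    Nat.card (TT G n) ≤ 3 ^ 4 ^ n := by
  have h1 : Nat.card (Wd (Fin 4) n → ZMod 3) = 3 ^ 4 ^ n := by
    rw [Nat.card_fun, Nat.card_zmod, Nat.card_eq_fintype_card, card_Wd, Fintype.card_fin]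
  rw [← h1]
  exact Nat.card_le_card_of_injective (fun k => k.1) Subtype.val_injective

/-- Every coordinate of the rotation space is nonzero. -/
theorem exists_TT_ne {G : Subgroup (Portrait (Fin 4))} {n : ℕ} (hbig : 8 ^ 4 ^ n < Nat.card (KK G n))
    (hT : Trans G n) (v : Wd (Fin 4) n) : ∃ f ∈ TT G n, f v ≠ 0 := by
  by_contra hcon
  push Not at hcon
  have h0 : ∀ f ∈ TT G n, f = 0 := by
    intro f hf
    funext w
    obtain ⟨g, hg, hgw⟩ := hT v w
    have h1 := hcon _ (tinv_TT G n g hg f hf)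
    simp only [hgw] at h1
    rcases mul_eq_zero.mp h1 with h2 | h2
    · exact absurd h2 (sgn3_ne_zero _)
    · exact h2
  have h1 : Nat.card (TT G n) ≤ 1 := by
    haveI : Subsingleton (TT G n) :=
      ⟨fun a b => Subtype.ext ((h0 a.1 a.2).trans (h0 b.1 b.2).symm)⟩
    exact Finite.card_le_one_iff_subsingleton.mpr this
  have h2 := card_KK_le G n
  have h3 := card_U_le G n
  have h4 := card_MM_le G n
  have h5 : Nat.card (KK G n) ≤ 2 ^ 4 ^ n * (1 * 4 ^ 4 ^ n) :=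
    h2.trans (Nat.mul_le_mul h4 (Nat.mul_le_mul h1 h3))
  rw [one_mul, ← mul_pow] at h5
  norm_num at h5
  omega

/-- Conjugation keeps the Klein labels. -/
theorem klein_conj (σ τ : Perm (Fin 4)) (h : sg τ = 0 ∧ th τ = 0) :
    sg (σ * τ * σ⁻¹) = 0 ∧ th (σ * τ * σ⁻¹) = 0 := by
  refine ⟨by rw [sg_conj, h.1], ?_⟩
  rw [th_conj _ _ h.1, h.2, mul_zero]

/-- Every coordinate of the group of Klein vectors is nontrivial. -/
theorem exists_U_ne {G : Subgroup (Portrait (Fin 4))} {n : ℕ} (hbig : 8 ^ 4 ^ n < Nat.card (KK G n))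
    (hT : Trans G n) (v : Wd (Fin 4) n) :
    ∃ u ∈ KK G n, (∀ w, sg (u w) = 0 ∧ th (u w) = 0) ∧ u v ≠ 1 := by
  by_contra hcon
  push Not at hcon
  have h0 : ∀ u ∈ KK G n, (∀ w, sg (u w) = 0 ∧ th (u w) = 0) → u = 1 := by
    intro u hu hu0
    funext w
    obtain ⟨g, hg, hgw⟩ := hT w v
    have h1 := hcon _ (KK_conj hu hg) (fun w => klein_conj _ _ (hu0 _))
    have h2 : (lev g n).symm v = w := by rw [← hgw, Equiv.symm_apply_apply]
    rw [h2] at h1
    have h3 : u w = (g.lab n w)⁻¹ * 1 * g.lab n w := by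
      rw [← h1]; group
    rw [h3]
    simp
  have h1 : Nat.card {k : Wd (Fin 4) n → Perm (Fin 4) // k ∈ KK G n ∧
      ∀ w, sg (k w) = 0 ∧ th (k w) = 0} ≤ 1 := by
    haveI : Subsingleton {k : Wd (Fin 4) n → Perm (Fin 4) // k ∈ KK G n ∧
      ∀ w, sg (k w) = 0 ∧ th (k w) = 0} :=
      ⟨fun a b => Subtype.ext ((h0 a.1 a.2.1 a.2.2).trans (h0 b.1 b.2.1 b.2.2).symm)⟩
    exact Finite.card_le_one_iff_subsingleton.mpr this
  have h2 := card_KK_le G n
  have h3 := card_TT_le G n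
  have h4 := card_MM_le G n
  have h5 : Nat.card (KK G n) ≤ 2 ^ 4 ^ n * (3 ^ 4 ^ n * 1) :=
    h2.trans (Nat.mul_le_mul h4 (Nat.mul_le_mul h3 h1))
  rw [mul_one, ← mul_pow] at h5
  norm_num at h5
  have h6 : 6 ^ 4 ^ n ≤ 8 ^ 4 ^ n := Nat.pow_le_pow_left (by norm_num) _
  omega

theorem fin_comm1 : ∀ σ ρ : Perm (Fin 4), sg ρ = 0 → th ρ = 0 →
    sg (σ * ρ * σ⁻¹ * ρ⁻¹) = 0 ∧ th (σ * ρ * σ⁻¹ * ρ⁻¹) = 0 := by decide +kernel

theorem fin_comm2' : ∀ σ ρ : Perm (Fin 4), (sg ρ = 0 ∧ th ρ = 0 ∧ sg σ = 0 ∧ th σ = 0) →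
    σ * ρ = ρ * σ := by decide +kernel

theorem fin_comm2 (σ ρ : Perm (Fin 4)) (h1 : sg ρ = 0) (h2 : th ρ = 0)
    (h3 : sg σ = 0) (h4 : th σ = 0) : σ * ρ * σ⁻¹ * ρ⁻¹ = 1 := by
  rw [fin_comm2' σ ρ ⟨h1, h2, h3, h4⟩]; group

theorem fin_comm3 : ∀ σ ρ : Perm (Fin 4), sg ρ = 0 → th ρ = 0 →
    sg σ = 0 → th σ ≠ 0 → ρ ≠ 1 → σ * ρ * σ⁻¹ * ρ⁻¹ ≠ 1 := by decide +kernel

theorem fin_comm (σ ρ : Perm (Fin 4)) (h1 : sg ρ = 0) (h2 : th ρ = 0) :
    sg (σ * ρ * σ⁻¹ * ρ⁻¹) = 0 ∧ th (σ * ρ * σ⁻¹ * ρ⁻¹) = 0 ∧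
    (sg σ = 0 → th σ = 0 → σ * ρ * σ⁻¹ * ρ⁻¹ = 1) ∧
    (sg σ = 0 → th σ ≠ 0 → ρ ≠ 1 → σ * ρ * σ⁻¹ * ρ⁻¹ ≠ 1) :=
  ⟨(fin_comm1 σ ρ h1 h2).1, (fin_comm1 σ ρ h1 h2).2, fin_comm2 σ ρ h1 h2, fin_comm3 σ ρ h1 h2⟩

theorem fin_gen : ∀ σ a b : Perm (Fin 4), sg σ = 0 → th σ ≠ 0 → sg a = 0 → th a = 0 → a ≠ 1 →
    sg b = 0 → th b = 0 → b = 1 ∨ b = a ∨ b = σ * a * σ⁻¹ ∨ b = σ * (σ * a * σ⁻¹) * σ⁻¹ := by
  decide +kernel

/-- Separation gives all Klein vectors. -/
theorem v4full_of_sep {G : Subgroup (Portrait (Fin 4))} {n : ℕ}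
    (hbig : 8 ^ 4 ^ n < Nat.card (KK G n)) (hT : Trans G n) (hS : Sep G n) : V4full G n := by
  intro k hk
  refine Subgroup.pi_mem_of_mulSingle_mem k ?_
  intro v
  have hind : ∀ S : Finset (Wd (Fin 4) n), v ∉ S → ∃ u ∈ KK G n,
      (∀ w, sg (u w) = 0 ∧ th (u w) = 0) ∧ u v ≠ 1 ∧ ∀ w ∈ S, u w = 1 := by
    intro S
    induction S using Finset.induction_on with
    | empty =>
      intro _
      obtain ⟨u, hu, hu0, huv⟩ := exists_U_ne hbig hT v
      exact ⟨u, hu, hu0, huv, fun w hw => absurd hw (Finset.notMem_empty w)⟩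
    | insert v2 S _ ih =>
      intro hv
      rw [Finset.mem_insert, not_or] at hv
      obtain ⟨u, hu, hu0, huv, huS⟩ := ih hv.2
      obtain ⟨l, hl, hl0, hlv, hlv2⟩ := hS.2 v v2 hv.1
      refine ⟨l * u * l⁻¹ * u⁻¹, mul_mem (mul_mem (mul_mem hl hu) (inv_mem hl)) (inv_mem hu),
        ?_, ?_, ?_⟩
      · intro w
        have := fin_comm (l w) (u w) (hu0 w).1 (hu0 w).2
        exact ⟨this.1, this.2.1⟩
      · exact (fin_comm (l v) (u v) (hu0 v).1 (hu0 v).2).2.2.2 (hl0 v) hlv huv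
      · intro w hw
        rcases Finset.mem_insert.mp hw with rfl | hw
        · exact (fin_comm (l w) (u w) (hu0 w).1 (hu0 w).2).2.2.1 (hl0 w) hlv2
        · show l w * u w * (l w)⁻¹ * (u w)⁻¹ = 1
          rw [huS w hw]; simp
  obtain ⟨u, hu, hu0, huv, huS⟩ := hind (Finset.univ.erase v) (Finset.notMem_erase v _)
  have hu1 : Pi.mulSingle v (u v) = u := by
    funext w
    by_cases hw : w = v
    · subst hw; rw [Pi.mulSingle_eq_same]
    · rw [Pi.mulSingle_eq_of_ne hw, huS w (Finset.mem_erase.mpr ⟨hw, Finset.mem_univ w⟩)]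
  obtain ⟨l, hl, hl0, hlv⟩ := hS.1 v
  have hconj : ∀ a : Perm (Fin 4), Pi.mulSingle v a ∈ KK G n →
      Pi.mulSingle v (l v * a * (l v)⁻¹) ∈ KK G n := by
    intro a ha
    have h1 := mul_mem (mul_mem hl ha) (inv_mem hl)
    have h2 : l * Pi.mulSingle v a * l⁻¹ = Pi.mulSingle v (l v * a * (l v)⁻¹) := by
      funext w
      by_cases hw : w = v
      · subst hw
        rw [Pi.mul_apply, Pi.mul_apply, Pi.mulSingle_eq_same, Pi.mulSingle_eq_same, Pi.inv_apply]
      · rw [Pi.mul_apply, Pi.mul_apply, Pi.mulSingle_eq_of_ne hw, Pi.mulSingle_eq_of_ne hw,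
          Pi.inv_apply, mul_one, mul_inv_cancel]
    rwa [h2] at h1
  have hua : Pi.mulSingle v (u v) ∈ KK G n := by rw [hu1]; exact hu
  rcases fin_gen (l v) (u v) (k v) (hl0 v) hlv (hu0 v).1 (hu0 v).2 huv (hk v).1 (hk v).2 with
    h | h | h | h
  · rw [h, Pi.mulSingle_one]; exact one_mem _
  · rw [h]; exact hua
  · rw [h]; exact hconj _ hua
  · rw [h]; exact hconj _ (hconj _ hua)

/-- Two coordinates are proportional on a space. -/
def Rl4 {Y : Type} (T : Submodule (ZMod 3) (Y → ZMod 3)) (v w : Y) : Prop :=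
  ∃ e : ZMod 3, e * e = 1 ∧ ∀ f ∈ T, f v = e * f w

theorem rl4_refl {Y : Type} (T : Submodule (ZMod 3) (Y → ZMod 3)) (v : Y) : Rl4 T v v :=
  ⟨1, one_mul 1, fun f _ => (one_mul _).symm⟩

theorem rl4_symm {Y : Type} {T : Submodule (ZMod 3) (Y → ZMod 3)} {v w : Y} (h : Rl4 T v w) :
    Rl4 T w v := by
  obtain ⟨e, he, h⟩ := h
  refine ⟨e, he, fun f hf => ?_⟩
  rw [h f hf, ← mul_assoc, he, one_mul]

theorem rl4_trans {Y : Type} {T : Submodule (ZMod 3) (Y → ZMod 3)} {u v w : Y} (h : Rl4 T u v)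
    (h' : Rl4 T v w) : Rl4 T u w := by
  obtain ⟨e, he, h⟩ := h
  obtain ⟨e', he', h'⟩ := h'
  refine ⟨e * e', ?_, fun f hf => ?_⟩
  · calc e * e' * (e * e') = (e * e) * (e' * e') := by ring
      _ = 1 := by rw [he, he', one_mul]
  · rw [h f hf, h' f hf, mul_assoc]

theorem rl4_lev {G : Subgroup (Portrait (Fin 4))} {n : ℕ} {v w : Wd (Fin 4) n}
    (h : Rl4 (TT G n) v w) {g : Portrait (Fin 4)} (hg : g ∈ G) :
    Rl4 (TT G n) (lev g n v) (lev g n w) := by
  obtain ⟨e, he, h⟩ := h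
  refine ⟨sgn3 (scoc n g v) * e * sgn3 (scoc n g w), ?_, fun f hf => ?_⟩
  · have h1 := sgn3_mul_self (scoc n g v)
    have h2 := sgn3_mul_self (scoc n g w)
    calc sgn3 (scoc n g v) * e * sgn3 (scoc n g w) * (sgn3 (scoc n g v) * e * sgn3 (scoc n g w)) =
        (sgn3 (scoc n g v) * sgn3 (scoc n g v)) * (e * e) *
          (sgn3 (scoc n g w) * sgn3 (scoc n g w)) := by ring
      _ = 1 := by rw [h1, h2, he]; ring
  · have h1 := h _ (tinv_TT G n g hg f hf)
    have h2 := sgn3_mul_self (scoc n g v)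
    calc f (lev g n v) = sgn3 (scoc n g v) * sgn3 (scoc n g v) * f (lev g n v) := by
          rw [h2, one_mul]
      _ = sgn3 (scoc n g v) * (sgn3 (scoc n g v) * f (lev g n v)) := by ring
      _ = sgn3 (scoc n g v) * (e * (sgn3 (scoc n g w) * f (lev g n w))) := by rw [h1]
      _ = _ := by ring

theorem sgn3_inj : ∀ a b : ZMod 2, sgn3 a = sgn3 b → a = b := by decide

/-- Sign vectors are constant on classes. -/
theorem rl4_MM {G : Subgroup (Portrait (Fin 4))} {n : ℕ} {v w : Wd (Fin 4) n}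
    (hne : ∃ f ∈ TT G n, f v ≠ 0) (h : Rl4 (TT G n) v w) {m : Wd (Fin 4) n → ZMod 2}
    (hm : m ∈ MM G n) : m v = m w := by
  obtain ⟨k, hk, rfl⟩ := hm
  obtain ⟨g, hg, _, hgk, hg1, _⟩ := lev_of_KK hk
  obtain ⟨e, he, h⟩ := h
  obtain ⟨f, hf, hfv⟩ := hne
  have h1 := h _ (tinv_TT G n g hg f hf)
  have h2 := h f hf
  have h3 : ∀ w, sgn3 (scoc n g w) * f (lev g n w) = sgn3 (sg (k w)) * f w := by
    intro w
    rw [hg1]
    show sgn3 (sg (g.lab n w)) * f w = _
    rw [hgk]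
  simp only [h3] at h1
  apply sgn3_inj
  have h4 : (sgn3 (sg (k v)) - sgn3 (sg (k w))) * f v = 0 := by
    rw [sub_mul, h1, h2]
    ring
  rcases mul_eq_zero.mp h4 with h5 | h5
  · exact sub_eq_zero.mp h5
  · exact absurd h5 hfv

theorem fin_move : ∀ σ : Perm (Fin 4), sg σ = 0 → th σ ≠ 0 → ∀ x : Fin 4, ∃ a : Perm (Fin 4),
    sg a = 0 ∧ th a = 0 ∧ a (σ x) = x ∧ ∀ y z : Fin 4, y ≠ x → z ≠ x →
      z = y ∨ z = a (σ y) ∨ z = a (σ (a (σ y))) := by
  decide +kernel

/-- One class with two elements gives a class containing a full block. -/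
theorem rl4_block {G : Subgroup (Portrait (Fin 4))} {n : ℕ} (hV : V4full G n) (hS : Sep G n)
    {v v2 : Wd (Fin 4) (n + 1)} (hne : v ≠ v2) (h : Rl4 (TT G (n + 1)) v v2) :
    ∃ w, ∀ z, Rl4 (TT G (n + 1)) v (sn w z) := by
  obtain ⟨w, x, rfl⟩ := exists_sn v
  obtain ⟨w2, y, rfl⟩ := exists_sn v2
  have hsing : ∀ (w : Wd (Fin 4) n) (a : Perm (Fin 4)), sg a = 0 → th a = 0 →
      Pi.mulSingle w a ∈ KK G n := by
    intro w a ha1 ha2
    apply hV
    intro u
    by_cases hu : u = w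
    · subst hu; rw [Pi.mulSingle_eq_same]; exact ⟨ha1, ha2⟩
    · rw [Pi.mulSingle_eq_of_ne hu]; decide
  by_cases hw : w = w2
  · subst hw
    have hxy : y ≠ x := by
      rintro rfl; exact hne rfl
    refine ⟨w, ?_⟩
    obtain ⟨k, hk, hk0, hkw⟩ := hS.1 w
    obtain ⟨a, ha1, ha2, hax, hayz⟩ := fin_move (k w) (hk0 w) hkw x
    obtain ⟨g, hg, _, _, _, hg2⟩ := lev_of_KK (mul_mem (hsing w a ha1 ha2) hk)
    have hgz : ∀ z, lev g (n + 1) (sn w z) = sn w (a (k w z)) := by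
      intro z
      rw [hg2, Pi.mul_apply, Pi.mulSingle_eq_same, Perm.mul_apply]
    have h1 := rl4_lev h hg
    rw [hgz, hgz, hax] at h1
    have h2 := rl4_lev h1 hg
    rw [hgz, hgz, hax] at h2
    intro z
    by_cases hz : z = x
    · subst hz; exact rl4_refl _ _
    · rcases hayz y z hxy hz with h3 | h3 | h3
      · rw [h3]; exact h
      · rw [h3]; exact h1
      · rw [h3]; exact h2
  · refine ⟨w2, ?_⟩
    intro z
    obtain ⟨a, ha1, ha2, hayz, _⟩ := klein_trans y z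
    obtain ⟨g, hg, _, _, _, hg2⟩ := lev_of_KK (hsing w2 a ha1 ha2)
    have h1 := rl4_lev h hg
    rw [hg2, hg2, Pi.mulSingle_eq_same, Pi.mulSingle_eq_of_ne hw, hayz] at h1
    exact h1

/-- No two coordinates are proportional. -/
theorem not_rl4 {G : Subgroup (Portrait (Fin 4))} {n : ℕ}
    (hbig : 8 ^ 4 ^ (n + 1) < Nat.card (KK G (n + 1))) (hT : Trans G (n + 1))
    (hV : V4full G n) (hS : Sep G n)
    {v v2 : Wd (Fin 4) (n + 1)} (hne : v ≠ v2) : ¬ Rl4 (TT G (n + 1)) v v2 := by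
  intro h
  classical
  obtain ⟨w, hw⟩ := rl4_block hV hS hne h
  let s : Setoid (Wd (Fin 4) (n + 1)) :=
    { r := Rl4 (TT G (n + 1))
      iseqv := ⟨rl4_refl _, rl4_symm, rl4_trans⟩ }
  have hcls : ∀ u : Wd (Fin 4) (n + 1), 4 ≤ (Finset.univ.filter (fun q =>
      (Quotient.mk s q) = Quotient.mk s u)).card := by
    intro u
    obtain ⟨g, hg, hgu⟩ := hT v u
    have h1 : (Finset.univ.image (fun z : Fin 4 => lev g (n + 1) (sn w z))).card = 4 := by
      rw [Finset.card_image_of_injective, Finset.card_univ, Fintype.card_fin]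
      intro z z' hz
      exact (sn_inj.mp ((lev g (n + 1)).injective hz)).2
    refine le_trans h1.ge (Finset.card_le_card ?_)
    intro q hq
    obtain ⟨z, _, rfl⟩ := Finset.mem_image.mp hq
    rw [Finset.mem_filter]
    refine ⟨Finset.mem_univ _, ?_⟩
    apply Quotient.sound
    show Rl4 (TT G (n + 1)) _ _
    have h2 := rl4_lev (hw z) hg
    rw [hgu] at h2
    exact rl4_symm h2
  have hcard : 4 * Fintype.card (Quotient s) ≤ 4 ^ (n + 1) := by
    have h1 : Fintype.card (Wd (Fin 4) (n + 1)) = 4 ^ (n + 1) := by rw [card_Wd, Fintype.card_fin]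
    rw [← h1]
    simp only [← Finset.card_univ]
    have h2 := Finset.card_eq_sum_card_fiberwise (f := fun q => Quotient.mk s q)
      (s := (Finset.univ : Finset (Wd (Fin 4) (n + 1)))) (t := Finset.univ)
      (fun _ _ => Finset.mem_coe.mpr (Finset.mem_univ _))
    rw [h2, mul_comm, ← smul_eq_mul]
    apply Finset.card_nsmul_le_sum
    intro c _
    obtain ⟨u, rfl⟩ := Quotient.exists_rep c
    exact hcls u
  have hne0 : ∀ u, ∃ f ∈ TT G (n + 1), f u ≠ 0 := exists_TT_ne hbig hT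
  have hM : Nat.card (MM G (n + 1)) ≤ 2 ^ Fintype.card (Quotient s) := by
    have h1 : Nat.card (Quotient s → ZMod 2) = 2 ^ Fintype.card (Quotient s) := by
      rw [Nat.card_fun, Nat.card_zmod, Nat.card_eq_fintype_card]
    rw [← h1]
    apply Nat.card_le_card_of_injective (fun (m : MM G (n + 1)) (c : Quotient s) => m.1 c.out)
    intro m m' hmm
    apply Subtype.ext
    funext u
    have h2 : Rl4 (TT G (n + 1)) (Quotient.mk s u).out u := Quotient.mk_out (s := s) u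
    rw [← rl4_MM (hne0 _) h2 m.2, ← rl4_MM (hne0 _) h2 m'.2]
    exact congrFun hmm (Quotient.mk s u)
  have hTc : Nat.card (TT G (n + 1)) ≤ 3 ^ Fintype.card (Quotient s) := by
    have h1 : Nat.card (Quotient s → ZMod 3) = 3 ^ Fintype.card (Quotient s) := by
      rw [Nat.card_fun, Nat.card_zmod, Nat.card_eq_fintype_card]
    rw [← h1]
    apply Nat.card_le_card_of_injective (fun (m : TT G (n + 1)) (c : Quotient s) => m.1 c.out)
    intro m m' hmm
    apply Subtype.ext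
    funext u
    have h2 : Rl4 (TT G (n + 1)) (Quotient.mk s u).out u := Quotient.mk_out (s := s) u
    obtain ⟨e, he, h2⟩ := rl4_symm h2
    rw [h2 m.1 m.2, h2 m'.1 m'.2]
    exact congrArg (fun t => e * t) (congrFun hmm (Quotient.mk s u))
  have hU := card_U_le G (n + 1)
  have h1 := (card_KK_le G (n + 1)).trans (Nat.mul_le_mul hM (Nat.mul_le_mul hTc hU))
  have h2 : 8 ^ 4 ^ (n + 1) < 6 ^ Fintype.card (Quotient s) * 4 ^ 4 ^ (n + 1) := by
    refine lt_of_lt_of_le hbig (h1.trans (le_of_eq ?_))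
    rw [← mul_assoc, ← mul_pow]; norm_num
  have h3 : (8 ^ 4 ^ (n + 1)) ^ 4 < (6 ^ Fintype.card (Quotient s) * 4 ^ 4 ^ (n + 1)) ^ 4 :=
    Nat.pow_lt_pow_left h2 (by norm_num)
  have h4 : (6 ^ Fintype.card (Quotient s) * 4 ^ 4 ^ (n + 1)) ^ 4 ≤ 1536 ^ 4 ^ (n + 1) := by
    rw [mul_pow, ← pow_mul, ← pow_mul, mul_comm _ 4]
    calc 6 ^ (4 * Fintype.card (Quotient s)) * 4 ^ (4 ^ (n + 1) * 4) ≤
        6 ^ (4 ^ (n + 1)) * 4 ^ (4 ^ (n + 1) * 4) :=
          Nat.mul_le_mul_right _ (Nat.pow_le_pow_right (by norm_num) hcard)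
      _ = 1536 ^ 4 ^ (n + 1) := by
        rw [mul_comm (4 ^ (n + 1)) 4, pow_mul, ← mul_pow]; norm_num
  have h5 : (8 ^ 4 ^ (n + 1)) ^ 4 = 4096 ^ 4 ^ (n + 1) := by
    rw [← pow_mul, mul_comm, pow_mul]; norm_num
  rw [h5] at h3
  have h6 : 1536 ^ 4 ^ (n + 1) ≤ 4096 ^ 4 ^ (n + 1) := Nat.pow_le_pow_left (by norm_num) _
  omega

theorem fin_inv : ∀ e : ZMod 3, e ≠ 0 → e * e = 1 := by decide

/-- Separation from non proportionality. -/
theorem sep_of_not_rl4 {G : Subgroup (Portrait (Fin 4))} {n : ℕ}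
    (hne : ∀ v, ∃ f ∈ TT G n, f v ≠ 0) (h : ∀ v w, v ≠ w → ¬ Rl4 (TT G n) v w) : Sep G n := by
  constructor
  · intro w
    obtain ⟨f, ⟨k, hk, hk0, rfl⟩, hf⟩ := hne w
    exact ⟨k, hk, hk0, hf⟩
  · intro w w' hww
    have h1 : ∃ f ∈ TT G n, f w ≠ 0 ∧ f w' = 0 := by
      by_contra hcon
      push Not at hcon
      apply h w w' hww
      obtain ⟨f0, hf0, hf0w⟩ := hne w'
      have h3 : ∀ f ∈ TT G n, f w = (f0 w * f0 w') * f w' := by
        intro f hf
        have h4 : f - (f w' * f0 w') • f0 ∈ TT G n :=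
          Submodule.sub_mem _ hf (Submodule.smul_mem _ _ hf0)
        have h5 := hcon _ h4
        by_contra h6
        apply h5
        · rw [Pi.sub_apply, Pi.smul_apply, smul_eq_mul]
          intro h7
          apply h6
          rw [sub_eq_zero.mp h7]; ring
        · rw [Pi.sub_apply, Pi.smul_apply, smul_eq_mul, mul_assoc, fin_inv _ hf0w, mul_one, sub_self]
      refine ⟨f0 w * f0 w', ?_, h3⟩
      apply fin_inv
      intro h7
      obtain ⟨f, hf, hfw⟩ := hne w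
      apply hfw
      rw [h3 f hf, h7, zero_mul]
    obtain ⟨f, ⟨k, hk, hk0, rfl⟩, hf, hf'⟩ := h1
    exact ⟨k, hk, hk0, hf, hf'⟩

end FourBase

/-- Target. -/
theorem four_base {G : Subgroup (Portrait (Fin 4))} (hbig : ∀ n, 8 ^ 4 ^ n < Nat.card (KK G n)) (n : ℕ) :
    Trans G n ∧ V4full G n ∧ Sep G n := by
  induction n with
  | zero =>
    have hT := trans_zero G
    have hS : Sep G 0 := sep_of_not_rl4 (exists_TT_ne (hbig 0) hT)
      (fun v w h => absurd (wd_zero_eq v w) h)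
    exact ⟨hT, v4full_of_sep (hbig 0) hT hS, hS⟩
  | succ n ih =>
    obtain ⟨hT, hV, hS⟩ := ih
    have hT' : Trans G (n + 1) := by
      apply trans_succ hT
      intro w x y
      obtain ⟨a, ha1, ha2, hay, _⟩ := klein_trans x y
      refine ⟨Pi.mulSingle w a, ?_, ?_⟩
      · apply hV
        intro u
        by_cases hu : u = w
        · subst hu; rw [Pi.mulSingle_eq_same]; exact ⟨ha1, ha2⟩
        · rw [Pi.mulSingle_eq_of_ne hu]; decide
      · rw [Pi.mulSingle_eq_same, hay]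
    have hS' : Sep G (n + 1) := sep_of_not_rl4 (exists_TT_ne (hbig (n + 1)) hT')
      (fun v w h => not_rl4 (hbig (n + 1)) hT' hV hS h)
    exact ⟨hT', v4full_of_sep (hbig (n + 1)) hT' hS', hS'⟩

end Pool.Agent.Helper501.Haus.C1


namespace Pool.Agent.Helper501.Haus.C2

open Equiv Filter Topology


theorem four_klein : ∀ F : Fin 4 → ZMod 2, ∑ t, F t ≠ 0 → ∃ a : Perm (Fin 4), sg a = 0 ∧ th a = 0 ∧
    (∃ x y, F (a x) + F x ≠ F (a y) + F y) ∧ ∑ t, (F (a t) + F t) = 0 := by decide +kernel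

theorem four_cyc : ∀ F : Fin 4 → ZMod 2, ∑ t, F t = 0 → (∃ x y, F x ≠ F y) →
    ∀ c : Perm (Fin 4), sg c = 0 → th c ≠ 0 →
    (∃ x y, F (c x) + F x ≠ F (c y) + F y) ∧ ∑ t, (F (c t) + F t) = 0 := by decide +kernel

theorem four_pair : ∀ F : Fin 4 → ZMod 2, ∑ t, F t = 0 → (∃ x y, F x ≠ F y) →
    ∀ s t : Fin 4, s ≠ t → ∃ c : Perm (Fin 4), sg c = 0 ∧
      ∀ u, F (c u) = (if u = s then 1 else 0) - (if u = t then 1 else 0) := by decide +kernel

theorem zmod3_cases : ∀ a b : ZMod 3, a ≠ 0 → b ≠ 0 → a = b ∨ a = -b := by decide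

theorem single_klein {G : Subgroup (Portrait (Fin 4))} {n : ℕ} (hV : V4full G n) (w : Wd (Fin 4) n)
    {a : Perm (Fin 4)} (h0 : sg a = 0) (h1 : th a = 0) : Pi.mulSingle w a ∈ KK G n := by
  apply hV
  intro v
  by_cases hv : v = w
  · subst hv; rw [Pi.mulSingle_eq_same]; exact ⟨h0, h1⟩
  · rw [Pi.mulSingle_eq_of_ne hv]; exact ⟨sg_one, by decide⟩

/-- Every even permutation occurs as a label at a given word. -/
theorem even_at {G : Subgroup (Portrait (Fin 4))} {n : ℕ} (hV : V4full G n) (hS : Sep G n)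
    (w : Wd (Fin 4) n) {c : Perm (Fin 4)} (hc : sg c = 0) : ∃ k ∈ KK G n, k w = c := by
  by_cases h : th c = 0
  · exact ⟨_, single_klein hV w hc h, Pi.mulSingle_eq_same _ _⟩
  · obtain ⟨k, hk, hk0, hk1⟩ := hS.1 w
    obtain ⟨l, hl, hl0, hl1⟩ : ∃ l ∈ KK G n, sg (l w) = 0 ∧ th (l w) = th c := by
      rcases zmod3_cases (th c) (th (k w)) h hk1 with e | e
      · exact ⟨k, hk, hk0 w, e.symm⟩
      · refine ⟨k⁻¹, inv_mem hk, ?_, ?_⟩
        · rw [Pi.inv_apply, sg_inv, hk0]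
        · rw [Pi.inv_apply, th_inv, if_pos (hk0 w), e]
    have h1 : sg (c * (l w)⁻¹) = 0 := by rw [sg_mul, sg_inv, hc, hl0, add_zero]
    have h2 : th (c * (l w)⁻¹) = 0 := by
      rw [th_mul, if_pos hc, th_inv, if_pos hl0, hl1, add_neg_cancel]
    refine ⟨_, mul_mem (single_klein hV w h1 h2) hl, ?_⟩
    rw [Pi.mul_apply, Pi.mulSingle_eq_same, inv_mul_cancel_right]

/-- A label vector trivial at `v` and a rotation at `w`. -/
theorem sep_at {G : Subgroup (Portrait (Fin 4))} {n : ℕ} (hV : V4full G n) (hS : Sep G n)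
    {w v : Wd (Fin 4) n} (hwv : v ≠ w) :
    ∃ k ∈ KK G n, sg (k w) = 0 ∧ th (k w) ≠ 0 ∧ k v = 1 := by
  obtain ⟨k, hk, hk0, hk1, hk2⟩ := hS.2 w v hwv.symm
  have h1 : sg (k v)⁻¹ = 0 := by rw [sg_inv, hk0]
  have h2 : th (k v)⁻¹ = 0 := by rw [th_inv, if_pos (hk0 v), hk2, neg_zero]
  refine ⟨_, mul_mem (single_klein hV v h1 h2) hk, ?_, ?_, ?_⟩
  · rw [Pi.mul_apply, Pi.mulSingle_eq_of_ne hwv.symm, one_mul, hk0]
  · rw [Pi.mul_apply, Pi.mulSingle_eq_of_ne hwv.symm, one_mul]; exact hk1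
  · rw [Pi.mul_apply, Pi.mulSingle_eq_same, inv_mul_cancel]

/-- Target. -/
theorem dich_four {G : Subgroup (Portrait (Fin 4))} {n : ℕ} (hT : Trans G n) (hV : V4full G n)
    (hS : Sep G n) : Dich 2 G n := by
  intro M hM
  by_contra hcon
  push Not at hcon
  obtain ⟨⟨f, hf, w, x, y, hxy⟩, hcon⟩ := hcon
  apply hcon
  have act : ∀ k ∈ KK G n, ∀ f ∈ M, ∃ f' ∈ M, ∀ v t, f' (sn v t) = f (sn v (k v t)) := by
    intro k hk f hf
    obtain ⟨g, hg, _, _, _, hg2⟩ := lev_of_KK hk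
    exact ⟨_, hM g hg f hf, fun v t => by rw [hg2]⟩
  have step0 : ∃ f ∈ M, ∑ t, f (sn w t) = 0 ∧ ∃ x y, f (sn w x) ≠ f (sn w y) := by
    by_cases h : ∑ t, f (sn w t) = 0
    · exact ⟨f, hf, h, x, y, hxy⟩
    · obtain ⟨a, ha0, ha1, ⟨x', y', hx'⟩, hsum⟩ := four_klein (fun t => f (sn w t)) h
      obtain ⟨f', hf', he⟩ := act _ (single_klein hV w ha0 ha1) f hf
      have hw : ∀ t, (f' + f) (sn w t) = f (sn w (a t)) + f (sn w t) := by
        intro t
        rw [Pi.add_apply, he, Pi.mulSingle_eq_same]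
      refine ⟨f' + f, M.add_mem hf' hf, ?_, x', y', ?_⟩
      · simp only [hw]; exact hsum
      · rw [hw, hw]; exact hx'
  have step1 : ∀ A : Finset (Wd (Fin 4) n), w ∉ A → ∃ f ∈ M, (∑ t, f (sn w t) = 0 ∧
      ∃ x y, f (sn w x) ≠ f (sn w y)) ∧ ∀ v ∈ A, ∀ t, f (sn v t) = 0 := by
    intro A
    induction A using Finset.induction_on with
    | empty =>
      intro _
      obtain ⟨f, hf, h⟩ := step0
      exact ⟨f, hf, h, fun v hv => absurd hv (Finset.notMem_empty v)⟩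
    | insert v A hv ih =>
      intro hw
      rw [Finset.mem_insert, not_or] at hw
      obtain ⟨f, hf, ⟨hf0, hf1⟩, hf2⟩ := ih hw.2
      obtain ⟨k, hk, hk0, hk1, hk2⟩ := sep_at hV hS (Ne.symm hw.1)
      obtain ⟨f', hf', he⟩ := act k hk f hf
      obtain ⟨⟨x', y', hx'⟩, hsum⟩ := four_cyc (fun t => f (sn w t)) hf0 hf1 (k w) hk0 hk1
      have hw' : ∀ t, (f' + f) (sn w t) = f (sn w (k w t)) + f (sn w t) := by
        intro t
        rw [Pi.add_apply, he]
      refine ⟨f' + f, M.add_mem hf' hf, ⟨?_, x', y', ?_⟩, ?_⟩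
      · simp only [hw']; exact hsum
      · rw [hw', hw']; exact hx'
      · intro u hu t
        rw [Pi.add_apply, he]
        rcases Finset.mem_insert.mp hu with h | h
        · subst h
          rw [hk2, Perm.one_apply]
          exact CharTwo.add_self_eq_zero _
        · rw [hf2 u h, hf2 u h, add_zero]
  obtain ⟨f0, hf0, ⟨hs, hne⟩, hsupp⟩ := step1 (Finset.univ.erase w) (Finset.notMem_erase w _)
  have step2 : ∀ s t, dd 2 w s t ∈ M := by
    intro s t
    by_cases hst : s = t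
    · subst hst
      have : dd 2 w s s = 0 := by
        funext q; obtain ⟨v, u, rfl⟩ := exists_sn q; rw [dd_sn, sub_self, ite_self]; rfl
      rw [this]; exact M.zero_mem
    · obtain ⟨c, hc, hc1⟩ := four_pair (fun t => f0 (sn w t)) hs hne s t hst
      obtain ⟨k, hk, hk1⟩ := even_at hV hS w hc
      obtain ⟨f', hf', he⟩ := act k hk f0 hf0
      have : dd 2 w s t = f' := by
        funext q
        obtain ⟨v, u, rfl⟩ := exists_sn q
        rw [dd_sn, he]
        by_cases hv : v = w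
        · subst hv
          rw [if_pos rfl, hk1]; exact (hc1 u).symm
        · rw [if_neg hv, hsupp v (Finset.mem_erase.mpr ⟨hv, Finset.mem_univ v⟩)]
      rw [this]; exact hf'
  exact span_dd M fun w' s t => dd_transport hM hT step2 w' s t

end Pool.Agent.Helper501.Haus.C2


namespace Pool.Agent.Helper501.Haus.P1

open Equiv Filter Topology

section TwDich

/-- A function supported at the initial part `w`. -/
def at3 {n : ℕ} (w : Wd (Fin 4) n) (u : Fin 4 → ZMod 3) : Wd (Fin 4) (n + 1) → ZMod 3 :=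
  fun q => if ini q = w then u (lst q) else 0

theorem at3_sn {n : ℕ} (w : Wd (Fin 4) n) (u : Fin 4 → ZMod 3) (v : Wd (Fin 4) n) (t : Fin 4) :
    at3 w u (sn v t) = if v = w then u t else 0 := rfl

theorem dd_eq_at3 {n : ℕ} (w : Wd (Fin 4) n) (s t : Fin 4) :
    dd 3 w s t = at3 w (fun r => (if r = s then 1 else 0) - (if r = t then 1 else 0)) := rfl

theorem pow4_of_even : ∀ s : Perm (Fin 4), sg s = 0 → th s ≠ 0 → s ^ 4 = s := by decide +kernel

theorem pow4_of_even' : ∀ s : Perm (Fin 4), sg s = 0 → th s = 0 → s ^ 4 = 1 := by decide +kernel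

/-- The three nontrivial characters of the Klein group, as vectors. -/
def chv : Fin 3 → Fin 4 → ZMod 3 := ![![1, 1, -1, -1], ![1, -1, 1, -1], ![1, -1, -1, 1]]

/-- The four Klein permutations. -/
def kl : Fin 4 → Perm (Fin 4) := ![1, swap 0 1 * swap 2 3, swap 0 2 * swap 1 3, swap 0 3 * swap 1 2]

theorem kl_spec : ∀ a : Fin 4, sg (kl a) = 0 ∧ th (kl a) = 0 := by decide +kernel

theorem chv_sum : ∀ j : Fin 3, ∑ a : Fin 4, chv j a = 0 := by decide +kernel

theorem chv_conv : ∀ (j : Fin 3) (F : Fin 4 → ZMod 3) (t : Fin 4),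
    ∑ a : Fin 4, chv j a * F (kl a t) = (∑ a : Fin 4, chv j a * F a) * chv j t := by
  decide +kernel

theorem chv_detect : ∀ (F : Fin 4 → ZMod 3) (x y : Fin 4), F x ≠ F y →
    ∃ j : Fin 3, ∑ a : Fin 4, chv j a * F a ≠ 0 := by
  decide +kernel

theorem chv_span : ∀ (σ : Perm (Fin 4)), sg σ = 0 → th σ ≠ 0 → ∀ (j : Fin 3) (s t : Fin 4),
    ∃ a b c : ZMod 3, ∀ r : Fin 4, ((if r = s then 1 else 0) - (if r = t then 1 else 0) : ZMod 3) =
      a * chv j r + b * chv j (σ r) + c * chv j (σ (σ r)) := by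
  decide +kernel

theorem lev_one_of_lev_add {X : Type} [Nonempty X] {m i : ℕ} {g : Portrait X} (h : lev g (m + i) = 1) :
    lev g m = 1 :=
  lev_eq_one_of g m (fun j hj => lab_eq_one_of_lev g (m + i) h j (by omega))

theorem lev_pow {X : Type} (g : Portrait X) (n k : ℕ) : lev (g ^ k) n = lev g n ^ k := by
  induction k with
  | zero => rw [pow_zero, pow_zero, lev_one]
  | succ k ih => rw [pow_succ, pow_succ, lev_mul, ih]

theorem lab_pow_of_lev {X : Type} {g : Portrait X} {n : ℕ} (h : lev g n = 1) (k : ℕ) (w : Wd X n) :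
    (g ^ k).lab n w = (g.lab n w) ^ k := by
  induction k with
  | zero => rw [pow_zero, pow_zero, one_lab]
  | succ k ih => rw [pow_succ, pow_succ, mul_lab, h, Perm.one_apply, ih]

theorem coc_one {X : Type} {G : Subgroup (Portrait X)} {m : ℕ} {c : Portrait X → Wd X m → ZMod 2}
    (hc : Coc G c) (u : Wd X m) : c 1 u = 0 := by
  have := hc 1 (one_mem _) 1 (one_mem _) u
  rw [one_mul, lev_one, Perm.one_apply] at this
  exact left_eq_add.mp this

theorem coc_pow4 {X : Type} {G : Subgroup (Portrait X)} {m : ℕ} {c : Portrait X → Wd X m → ZMod 2}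
    (hc : Coc G c) {x : Portrait X} (hx : x ∈ G) (h : lev x m = 1) (u : Wd X m) : c (x ^ 4) u = 0 := by
  have h2 : c (x ^ 2) u = 0 := by
    rw [pow_two, hc x hx x hx, h, Perm.one_apply]
    exact CharTwo.add_self_eq_zero _
  have e : x ^ 4 = x ^ 2 * x ^ 2 := by rw [← pow_add]
  rw [e, hc _ (pow_mem hx 2) _ (pow_mem hx 2), lev_pow, h, one_pow, Perm.one_apply, h2, add_zero]

theorem coc_inv_of {X : Type} {G : Subgroup (Portrait X)} {m : ℕ} {c : Portrait X → Wd X m → ZMod 2}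
    (hc : Coc G c) {x : Portrait X} (hx : x ∈ G) (h : lev x m = 1) (h0 : ∀ u, c x u = 0)
    (u : Wd X m) : c x⁻¹ u = 0 := by
  have := hc x⁻¹ (inv_mem hx) x hx u
  rw [inv_mul_cancel, coc_one hc, h, Perm.one_apply, h0, add_zero] at this
  exact this.symm

/-- Elements with a single Klein label on level `n` and vanishing cocycle. -/
theorem tw_key {G : Subgroup (Portrait (Fin 4))} {m i : ℕ} (hV : V4full G (m + i))
    (hS : Sep G (m + i)) (c : Portrait (Fin 4) → Wd (Fin 4) m → ZMod 2) (hc : Coc G c)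
    (w : Wd (Fin 4) (m + i)) (a : Perm (Fin 4)) (ha0 : sg a = 0) (ha1 : th a = 0) :
    ∃ g ∈ G, lev g (m + i) = 1 ∧ g.lab (m + i) w = a ∧ (∀ v, v ≠ w → g.lab (m + i) v = 1) ∧
      ∀ u, c g u = 0 := by
  obtain ⟨k, hk, hk0, hk1⟩ := hS.1 w
  have hk2 : k * Pi.mulSingle w a ∈ KK G (m + i) := by
    refine mul_mem hk (hV _ ?_)
    intro v
    by_cases hv : v = w
    · subst hv; rw [Pi.mulSingle_eq_same]; exact ⟨ha0, ha1⟩
    · rw [Pi.mulSingle_eq_of_ne hv]; exact ⟨sg_one, by decide⟩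
  obtain ⟨x1, hx1, _, hl1, hv1, _⟩ := lev_of_KK hk
  obtain ⟨x2, hx2, _, hl2, hv2, _⟩ := lev_of_KK hk2
  have hlev1 : lev (x1 ^ 4) (m + i) = 1 := by rw [lev_pow, hv1, one_pow]
  have hlev2 : lev (x2 ^ 4) (m + i) = 1 := by rw [lev_pow, hv2, one_pow]
  have hlab : ∀ v, ((x1 ^ 4)⁻¹ * x2 ^ 4).lab (m + i) v =
      ((k v) ^ 4)⁻¹ * (k v * (Pi.mulSingle w a : Wd (Fin 4) (m + i) → Perm (Fin 4)) v) ^ 4 := by
    intro v
    rw [mul_lab, inv_lab, hlev1, hlev2, lab_pow_of_lev hv2, hl2]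
    show ((x1 ^ 4).lab (m + i) v)⁻¹ * _ = _
    rw [lab_pow_of_lev hv1, hl1]; rfl
  refine ⟨(x1 ^ 4)⁻¹ * x2 ^ 4, mul_mem (inv_mem (pow_mem hx1 4)) (pow_mem hx2 4), ?_, ?_, ?_, ?_⟩
  · rw [lev_mul, lev_inv, hlev1, hlev2]; simp
  · rw [hlab, Pi.mulSingle_eq_same, pow4_of_even _ (hk0 w) hk1, pow4_of_even]
    · group
    · rw [sg_mul, hk0, ha0, add_zero]
    · rw [th_mul, if_pos (hk0 w), ha1, add_zero]; exact hk1
  · intro v hv
    rw [hlab, Pi.mulSingle_eq_of_ne hv, mul_one, inv_mul_cancel]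
  · intro u
    have hm1 := lev_one_of_lev_add hv1
    have hm2 := lev_one_of_lev_add hv2
    have hm1' : lev (x1 ^ 4) m = 1 := by rw [lev_pow, hm1, one_pow]
    rw [hc _ (inv_mem (pow_mem hx1 4)) _ (pow_mem hx2 4), coc_pow4 hc hx2 hm2, add_zero]
    exact coc_inv_of hc (pow_mem hx1 4) hm1' (fun u => coc_pow4 hc hx1 hm1 u) _

end TwDich

/-- Target. -/
theorem tdich {G : Subgroup (Portrait (Fin 4))} {m i : ℕ} (hT : Trans G (m + i)) (hV : V4full G (m + i))
    (hS : Sep G (m + i)) (c : Portrait (Fin 4) → Wd (Fin 4) m → ZMod 2) (hc : Coc G c)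
    (T : Submodule (ZMod 3) (Wd (Fin 4) (m + i + 1) → ZMod 3))
    (hTi : ∀ g ∈ G, ∀ f ∈ T, (fun v => sgn3 (c g (pre (i + 1) v)) * f (lev g (m + i + 1) v)) ∈ T) :
    (∀ f ∈ T, ∀ w x y, f (sn w x) = f (sn w y)) ∨ LinearMap.ker (sumLast (Fin 4) 3 (m + i)) ≤ T := by
  by_contra hcon
  push Not at hcon
  obtain ⟨⟨f, hf, w, x, y, hxy⟩, hcon⟩ := hcon
  apply hcon
  -- the action on functions supported at one initial part
  have act : ∀ g ∈ G, ∀ (w1 w2 : Wd (Fin 4) (m + i)) (u : Fin 4 → ZMod 3), lev g (m + i) w2 = w1 →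
      at3 w1 u ∈ T → at3 w2 (fun t => u (g.lab (m + i) w2 t)) ∈ T := by
    intro g hg w1 w2 u hgw hu
    have h1 := T.smul_mem (sgn3 (c g (pre i w2))) (hTi g hg _ hu)
    convert h1 using 1
    funext q
    obtain ⟨v, t, rfl⟩ := exists_sn q
    rw [Pi.smul_apply, smul_eq_mul, lev_succ, at3_sn, at3_sn]
    have hp : pre (i + 1) (sn v t) = pre i v := rfl
    rw [hp]
    by_cases hv : v = w2
    · subst hv
      rw [if_pos rfl, if_pos hgw, ← mul_assoc, sgn3_mul_self, one_mul]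
    · rw [if_neg hv, if_neg, mul_zero, mul_zero]
      intro h
      apply hv
      rw [← hgw] at h
      exact (lev g (m + i)).injective h
  -- a character at w
  obtain ⟨j, hj⟩ := chv_detect (fun t => f (sn w t)) x y hxy
  have step1 : at3 w (chv j) ∈ T := by
    choose g hg hg1 hg2 hg3 hg4 using fun a : Fin 4 => tw_key hV hS c hc w (kl a) (kl_spec a).1 (kl_spec a).2
    have h1 : (∑ a : Fin 4, chv j a • (fun v => sgn3 (c (g a) (pre (i + 1) v)) *
        f (lev (g a) (m + i + 1) v))) ∈ T :=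
      T.sum_mem fun a _ => T.smul_mem _ (hTi (g a) (hg a) f hf)
    have h2 : (∑ a : Fin 4, chv j a • (fun v => sgn3 (c (g a) (pre (i + 1) v)) *
        f (lev (g a) (m + i + 1) v))) = (∑ a : Fin 4, chv j a * f (sn w a)) • at3 w (chv j) := by
      funext q
      obtain ⟨v, t, rfl⟩ := exists_sn q
      rw [Finset.sum_apply, Pi.smul_apply, smul_eq_mul, at3_sn]
      have h3 : ∀ a : Fin 4, (chv j a • (fun v => sgn3 (c (g a) (pre (i + 1) v)) *
          f (lev (g a) (m + i + 1) v))) (sn v t) = chv j a * f (sn v ((g a).lab (m + i) v t)) := by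
        intro a
        rw [Pi.smul_apply, smul_eq_mul]
        show chv j a * (sgn3 (c (g a) (pre (i + 1) (sn v t))) * f (lev (g a) (m + i + 1) (sn v t))) = _
        rw [hg4 a, lev_succ, hg1 a, Perm.one_apply]
        show chv j a * (1 * _) = _
        rw [one_mul]
      simp only [h3]
      by_cases hv : v = w
      · subst hv
        rw [if_pos rfl]
        simp only [hg2]
        exact chv_conv j (fun t => f (sn v t)) t
      · rw [if_neg hv, mul_zero]
        have h4 : ∀ a : Fin 4, (g a).lab (m + i) v t = t := fun a => by rw [hg3 a v hv]; rfl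
        simp only [h4]
        rw [← Finset.sum_mul, chv_sum, zero_mul]
    rw [h2] at h1
    have h5 := T.smul_mem (∑ a : Fin 4, chv j a * f (sn w a))⁻¹ h1
    rwa [smul_smul, inv_mul_cancel₀ hj, one_smul] at h5
  obtain ⟨h, hh, hh0, hh1⟩ := hS.1 w
  obtain ⟨z, hz, _, hz2, hz1, _⟩ := lev_of_KK hh
  have hzw : lev z (m + i) w = w := by rw [hz1]; rfl
  have step2 : at3 w (fun t => chv j (h w t)) ∈ T := by
    have := act z hz w w _ hzw step1
    rwa [hz2] at this
  have step3 : at3 w (fun t => chv j (h w (h w t))) ∈ T := by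
    have := act z hz w w _ hzw step2
    rwa [hz2] at this
  have step4 : ∀ s t, dd 3 w s t ∈ T := by
    intro s t
    obtain ⟨a, b, c', habc⟩ := chv_span (h w) (hh0 w) hh1 j s t
    have h6 := T.add_mem (T.add_mem (T.smul_mem a step1) (T.smul_mem b step2)) (T.smul_mem c' step3)
    convert h6 using 1
    funext q
    obtain ⟨v, r, rfl⟩ := exists_sn q
    rw [dd_eq_at3]
    simp only [Pi.add_apply, Pi.smul_apply, smul_eq_mul, at3_sn]
    by_cases hv : v = w
    · subst hv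
      simp only [if_true]
      exact habc r
    · simp only [if_neg hv, mul_zero, add_zero]
  refine span_dd T fun w2 s t => ?_
  obtain ⟨g, hg, hgw⟩ := hT w2 w
  have h7 := act g hg w w2 _ hgw (by
    have := step4 (g.lab (m + i) w2 s) (g.lab (m + i) w2 t)
    rwa [dd_eq_at3] at this)
  rw [dd_eq_at3]
  convert h7 using 1
  congr 1
  funext r
  simp only [(g.lab (m + i) w2).injective.eq_iff]

end Pool.Agent.Helper501.Haus.P1


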